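import Pool.Agent.P.MP_08fd93_co.StA

/-! Package AsmS for MP_08fd93_co: assembly of the decomposition for a short rung. -/

set_option autoImplicit false

namespace Pool.Agent.P.MP_08fd93_co

namespace PkAsmS

section general

variable {W : Type} {H : SimpleGraph W}

theorem conn_symm {A : Set W} {a b : W} (h : Conn H A a b) : Conn H A b a := by
  induction h with
  | refl => exact Relation.ReflTransGen.refl
  | tail _ h2 ih => exact Relation.ReflTransGen.head ⟨h2.2.1, h2.1, h2.2.2.symm⟩ ih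

theorem conn_mono {A B : Set W} (hAB : A ⊆ B) {a b : W} (h : Conn H A a b) : Conn H B a b := by
  induction h with
  | refl => exact Relation.ReflTransGen.refl
  | tail _ h2 ih => exact Relation.ReflTransGen.tail ih ⟨hAB h2.1, hAB h2.2.1, h2.2.2⟩

theorem conn_mem {A : Set W} {a b : W} (ha : a ∈ A) (h : Conn H A a b) : b ∈ A := by
  induction h with
  | refl => exact ha
  | tail _ h2 _ => exact h2.2.1

theorem isConn_union {A B : Set W} (hA : IsConn H A) (hB : IsConn H B) (ht : Touch H A B) :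
    IsConn H (A ∪ B) := by
  obtain ⟨x, hx, y, hy, hxy⟩ := ht
  have key : ∀ a ∈ A ∪ B, Conn H (A ∪ B) a x := by
    intro a ha
    rcases ha with ha | ha
    · exact conn_mono Set.subset_union_left (hA a ha x hx)
    · exact Relation.ReflTransGen.tail (conn_mono Set.subset_union_right (hB a ha y hy))
        ⟨Or.inr hy, Or.inl hx, hxy.symm⟩
  intro a ha b hb
  exact Relation.ReflTransGen.trans (key a ha) (conn_symm (key b hb))

/-- The component of `x` inside `A` is connected. -/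
theorem isConn_comp (A : Set W) (x : W) (hx : x ∈ A) : IsConn H {y | Conn H A x y} := by
  have key : ∀ y, Conn H A x y → Conn H {y | Conn H A x y} x y := by
    intro y hy
    induction hy with
    | refl => exact Relation.ReflTransGen.refl
    | tail h1 h2 ih =>
      exact Relation.ReflTransGen.tail ih ⟨h1, Relation.ReflTransGen.tail h1 h2, h2.2.2⟩
  have _ := hx
  intro a ha b hb
  exact Relation.ReflTransGen.trans (conn_symm (key a ha)) (key b hb)

theorem le2_one {v a : W} {B : Set W} (h : Le2 H v B) (ha : a ∈ B) (hva : H.Adj v a) :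
    ∃ b, ∀ u ∈ B, H.Adj v u → u = a ∨ u = b := by
  by_cases hb : ∃ b ∈ B, H.Adj v b ∧ b ≠ a
  · obtain ⟨b, hbB, hvb, hba⟩ := hb
    refine ⟨b, fun u hu hvu => ?_⟩
    rcases h a ha b hbB u hu hva hvb hvu with h1 | h1 | h1
    · exact absurd h1.symm hba
    · exact Or.inl h1.symm
    · exact Or.inr h1.symm
  · refine ⟨a, fun u hu hvu => Or.inl ?_⟩
    by_contra hne
    exact hb ⟨u, hu, hvu, hne⟩

theorem le2_two {v : W} {B : Set W} (h : Le2 H v B) :
    ∃ a b, ∀ u ∈ B, H.Adj v u → u = a ∨ u = b := by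
  by_cases ha : ∃ a ∈ B, H.Adj v a
  · obtain ⟨a, haB, hva⟩ := ha
    obtain ⟨b, hb⟩ := le2_one h haB hva
    exact ⟨a, b, hb⟩
  · exact ⟨v, v, fun u hu hvu => absurd ⟨u, hu, hvu⟩ ha⟩

end general

section periodic

variable {J : Type} {Γ : SimpleGraph (J × (ℤ × ℤ))}

theorem tr_tr (a b : ℤ × ℤ) (w : J × (ℤ × ℤ)) : tr a (tr b w) = tr (b + a) w := by
  simp [tr, add_assoc]

theorem tr_zero (w : J × (ℤ × ℤ)) : tr 0 w = w := by simp [tr]

theorem tr_fst (a : ℤ × ℤ) (w : J × (ℤ × ℤ)) : (tr a w).1 = w.1 := rfl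

theorem tr_eq_self {a : ℤ × ℤ} {w : J × (ℤ × ℤ)} (h : tr a w = w) : a = 0 := by
  have := congrArg Prod.snd h
  simpa [tr] using this

theorem eq_tr_of_fst {w x : J × (ℤ × ℤ)} (h : w.1 = x.1) : w = tr (w.2 - x.2) x := by
  ext <;> simp [tr, h]

theorem lift_adj (hG : Good Γ) {u v : J} (h : (Quo Γ).Adj u v) (w : J × (ℤ × ℤ))
    (hw : w.1 = u) : ∃ w', w'.1 = v ∧ Γ.Adj w w' := by
  have key : ∃ a b, Γ.Adj (u, a) (v, b) := by
    rw [Quo, SimpleGraph.fromRel_adj] at h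
    rcases h.2 with ⟨a, b, hab⟩ | ⟨a, b, hab⟩
    · exact ⟨a, b, hab⟩
    · exact ⟨b, a, hab.symm⟩
  obtain ⟨a, b, hab⟩ := key
  refine ⟨tr (w.2 - a) (v, b), rfl, ?_⟩
  have h1 := hG.inv (w.2 - a) _ _ hab
  have h2 : tr (w.2 - a) (u, a) = w := by
    ext <;> simp [tr, hw]
  rwa [h2] at h1

theorem conn_tr (hG : Good Γ) (K : Set J) (a : ℤ × ℤ) {x y : J × (ℤ × ℤ)}
    (h : Conn Γ {w | w.1 ∉ K} x y) : Conn Γ {w | w.1 ∉ K} (tr a x) (tr a y) := by
  induction h with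
  | refl => exact Relation.ReflTransGen.refl
  | tail _ h2 ih => exact Relation.ReflTransGen.tail ih ⟨h2.1, h2.2.1, hG.inv a _ _ h2.2.2⟩

theorem isConn_tr (hG : Good Γ) (a : ℤ × ℤ) {A : Set (J × (ℤ × ℤ))} (hA : IsConn Γ A) :
    IsConn Γ (tr a '' A) := by
  rintro _ ⟨x, hx, rfl⟩ _ ⟨y, hy, rfl⟩
  have h := hA x hx y hy
  clear hy
  induction h with
  | refl => exact Relation.ReflTransGen.refl
  | tail _ h2 ih =>
    exact Relation.ReflTransGen.tail ih
      ⟨⟨_, h2.1, rfl⟩, ⟨_, h2.2.1, rfl⟩, hG.inv a _ _ h2.2.2⟩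

variable {l : ℤ → J × (ℤ × ℤ)} {N : ℕ} {g : ℤ × ℤ}

theorem isConn_Ln (hG : Good Γ) (hL : Line Γ l N g) (t : ℤ × ℤ) : IsConn Γ (Ln l t) := by
  have key : ∀ i : ℤ, Conn Γ (Ln l t) (tr t (l 0)) (tr t (l i)) := by
    intro i
    induction i using Int.induction_on with
    | zero => exact Relation.ReflTransGen.refl
    | succ i ih =>
      exact Relation.ReflTransGen.tail ih ⟨⟨_, rfl⟩, ⟨_, rfl⟩, hG.inv t _ _ (hL.adj i)⟩
    | pred i ih =>
      refine Relation.ReflTransGen.tail ih ⟨⟨_, rfl⟩, ⟨_, rfl⟩, hG.inv t _ _ ?_⟩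
      have := hL.adj (-(i : ℤ) - 1)
      rw [sub_add_cancel] at this
      exact this.symm
  rintro _ ⟨i, rfl⟩ _ ⟨j, rfl⟩
  exact Relation.ReflTransGen.trans (conn_symm (key i)) (key j)

theorem Ln_add (hL : Line Γ l N g) (t : ℤ × ℤ) {w : J × (ℤ × ℤ)} (hw : w ∈ Ln l t) :
    tr g w ∈ Ln l t := by
  obtain ⟨i, rfl⟩ := hw
  refine ⟨i + N, ?_⟩
  rw [hL.per, tr_tr, tr_tr, add_comm]

theorem Ln_sub (hL : Line Γ l N g) (t : ℤ × ℤ) {w : J × (ℤ × ℤ)} (hw : w ∈ Ln l t) :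
    tr (-g) w ∈ Ln l t := by
  obtain ⟨i, rfl⟩ := hw
  refine ⟨i - N, ?_⟩
  have := hL.per (i - N)
  rw [sub_add_cancel] at this
  rw [this, tr_tr, tr_tr]
  congr 1
  abel

theorem Ln_infinite (hL : Line Γ l N g) : (Ln l 0).Infinite := by
  have key : ∀ k : ℕ, l (k * N) = tr ((k : ℤ) • g) (l 0) := by
    intro k
    induction k with
    | zero => simp [tr_zero]
    | succ k ih =>
      have : ((k + 1 : ℕ) : ℤ) * N = (k : ℤ) * N + N := by push_cast; ring
      rw [this, hL.per, ih, tr_tr]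
      congr 1
      push_cast
      rw [add_smul, one_smul]
  refine Set.infinite_of_injective_forall_mem (f := fun k : ℕ => l (k * N)) ?_ ?_
  · intro a b hab
    simp only [key] at hab
    have h2 := congrArg Prod.snd hab
    simp only [tr, add_right_inj] at h2
    have h3 : ((a : ℤ) - b) • g = 0 := by rw [sub_smul, h2, sub_self]
    rcases smul_eq_zero.mp h3 with h4 | h4
    · omega
    · exact absurd h4 hL.ne
  · intro k
    exact ⟨k * N, (tr_zero _).symm⟩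

theorem Ln_sat (t : ℤ × ℤ) {w : J × (ℤ × ℤ)} (hw : w ∈ Ln l t) : w ∈ Sat (Ln l 0) := by
  obtain ⟨i, rfl⟩ := hw
  exact ⟨tr 0 (l i), ⟨i, rfl⟩, rfl⟩

end periodic

end PkAsmS

open PkAsmS in
theorem pkg_AsmS : S_AsmS := by
  classical
  intro hLad hRep hDLC J _ Γ l N g s q q' hG hL hS hR hq hq' hqq
  set R : Set (J × (ℤ × ℤ)) := {q, q'} with hRdef
  set K : Set J := {u | ∃ x ∈ Ln l 0 ∪ R, u = x.1} with hK
  have hsat : ∀ w : J × (ℤ × ℤ), w ∈ Sat (Ln l 0 ∪ R) ↔ w.1 ∈ K := fun w => Iff.rfl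
  set Fr : Set (J × (ℤ × ℤ)) := Ln l 0 ∪ Ln l s ∪ R ∪ tr g '' R with hFr
  let Φ : J × (ℤ × ℤ) → Prop := fun w =>
    ∀ y, Conn Γ {w | w.1 ∉ K} w y → ∀ z, z.1 ∈ K → Γ.Adj z y → z ∈ Fr
  have hlad := hLad J Γ l N g s R hG hL hS hR
  have hdisj : ∀ E : Set (J × (ℤ × ℤ)), (∀ w ∈ E, w.1 ∉ K) → Disjoint E (Sat (Ln l 0 ∪ R)) :=
    fun E hE => Set.disjoint_left.mpr fun w hw hw' => hE w hw ((hsat w).mp hw')
  obtain ⟨σ, hσΦ, hσ⟩ := hRep J Γ K Φ hG
    (fun E hE hEK => (hlad E hE (hdisj E hEK)).1)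
    (fun x y hx hy hxy hΦ y' hy' z hz hzy =>
      hΦ y' (Relation.ReflTransGen.head ⟨hx, hy, hxy⟩ hy') z hz hzy)
    (by
      intro x hx
      obtain ⟨-, t, ht⟩ := hlad {y | Conn Γ {w | w.1 ∉ K} x y}
        (isConn_comp (H := Γ) {w | w.1 ∉ K} x hx)
        (hdisj _ fun w hw => conn_mem (A := {w : J × (ℤ × ℤ) | w.1 ∉ K}) hx hw)
      refine ⟨-t, fun y hy z hz hzy => ?_⟩
      have h1 := conn_tr hG K t hy
      rw [tr_tr, neg_add_cancel, tr_zero] at h1
      have h2 : tr t z ∈ Nb Γ {y | Conn Γ {w | w.1 ∉ K} x y} ∩ Sat (Ln l 0 ∪ R) :=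
        ⟨⟨tr t y, h1, hG.inv t _ _ hzy⟩, (hsat _).mpr hz⟩
      have hz' : z = tr (-t) (tr t z) := by rw [tr_tr, add_neg_cancel, tr_zero]
      rcases ht h2 with ((⟨i, hi⟩ | ⟨i, hi⟩) | ⟨w, hw, hi⟩) | ⟨w, hw, hi⟩
      · refine Or.inl (Or.inl (Or.inl ⟨i, ?_⟩))
        rw [hz', hi, tr_tr, add_neg_cancel]
      · refine Or.inl (Or.inl (Or.inr ⟨i, ?_⟩))
        rw [hz', hi, tr_tr, add_neg_cancel_right]
      · refine Or.inl (Or.inr ?_)
        rw [hz', ← hi, tr_tr, add_neg_cancel, tr_zero]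
        exact hw
      · refine Or.inr ⟨w, hw, ?_⟩
        rw [hz', ← hi, tr_tr, add_neg_cancel_right])
  set RR : Set (J × (ℤ × ℤ)) := {w | w.1 ∉ K ∧ w.2 = σ w.1} with hRR
  have hRRfin : RR.Finite := by
    refine (Set.finite_range fun u : J => (u, σ u)).subset ?_
    rintro ⟨u, a⟩ ⟨-, h⟩
    exact ⟨u, Prod.ext rfl h.symm⟩
  have hRfin : R.Finite := by simp [hRdef]
  have hRK : ∀ a, ∀ x ∈ R, (tr a x).1 ∈ K := fun a x hx => ⟨x, Or.inr hx, rfl⟩
  have hRK0 : ∀ x ∈ R, x.1 ∈ K := fun x hx => ⟨x, Or.inr hx, rfl⟩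
  have hLK : ∀ t, ∀ w ∈ Ln l t, w.1 ∈ K := by
    intro t w hw
    obtain ⟨x, hx, hwx⟩ := Ln_sat t hw
    exact ⟨x, Or.inl hx, hwx⟩
  have hRL : ∀ a t, ∀ x ∈ R, tr a x ∉ Ln l t := by
    intro a t x hx hw
    obtain ⟨y, hy, hxy⟩ := Ln_sat t hw
    exact Set.disjoint_left.mp hR.disj hx ⟨y, hy, hxy⟩
  have hRL0 : ∀ t, ∀ x ∈ R, x ∉ Ln l t := by
    intro t x hx
    have := hRL 0 t x hx
    rwa [tr_zero] at this
  have hRinj : ∀ a b, ∀ x ∈ R, ∀ y ∈ R, tr a x = tr b y → a = b := by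
    intro a b x hx y hy h
    have h0 := congrArg Prod.fst h
    have h1 : x = y := hR.inj x hx y hy h0
    subst h1
    have h2 := congrArg Prod.snd h
    simpa [tr] using h2
  -- neighbours of the fundamental domain
  have hnb : ∀ v ∈ RR, ∀ w, Γ.Adj v w → w ∈ RR ∨ w ∈ Fr := by
    rintro ⟨u, a⟩ ⟨hu, ha⟩ w hvw
    simp only at hu ha
    subst ha
    by_cases hw : w.1 ∈ K
    · exact Or.inr (hσΦ u hu _ Relation.ReflTransGen.refl w hw hvw.symm)
    · exact Or.inl ⟨hw, hσ u w hu hw hvw⟩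
  set Z : Set (J × (ℤ × ℤ)) := Ln l 0 ∪ tr (-g) '' R ∪ Ln l s with hZ
  have hZconn : IsConn Γ Z := by
    obtain ⟨x, hx, y, hy, hxy⟩ := hR.t0
    obtain ⟨x', hx', y', hy', hxy'⟩ := hR.t1
    refine isConn_union (isConn_union (isConn_Ln hG hL 0) (isConn_tr hG _ hR.conn) ?_)
      (isConn_Ln hG hL s) ?_
    · exact ⟨tr (-g) y, Ln_sub hL 0 hy, tr (-g) x, ⟨x, hx, rfl⟩, (hG.inv _ _ _ hxy).symm⟩
    · exact ⟨tr (-g) x', Or.inr ⟨x', hx', rfl⟩, tr (-g) y', Ln_sub hL s hy', hG.inv _ _ _ hxy'⟩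
  have hRZ : R ⊆ Nb Γ Z := by
    intro x hx
    rcases hx with rfl | rfl
    · obtain ⟨y, hy, hxy⟩ := hq
      exact ⟨y, Or.inl (Or.inl hy), hxy⟩
    · obtain ⟨y, hy, hxy⟩ := hq'
      exact ⟨y, Or.inr hy, hxy⟩
  have hgRZ : tr g '' R ⊆ Nb Γ Z := by
    rintro _ ⟨x, hx, rfl⟩
    rcases hx with rfl | rfl
    · obtain ⟨y, hy, hxy⟩ := hq
      exact ⟨tr g y, Or.inl (Or.inl (Ln_add hL 0 hy)), hG.inv _ _ _ hxy⟩
    · obtain ⟨y, hy, hxy⟩ := hq'
      exact ⟨tr g y, Or.inr (Ln_add hL s hy), hG.inv _ _ _ hxy⟩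
  set A : Set (J × (ℤ × ℤ)) := RR ∪ R ∪ tr g '' R with hA
  obtain ⟨X, r, hX, hX2, hr⟩ := hDLC _ Γ A R Z hG.pl hG.oe
    ((hRRfin.union hRfin).union (hRfin.image _))
    (fun x hx => Or.inl (Or.inr hx))
    (by
      rw [hRdef]
      exact (Set.ncard_insert_le _ _).trans (by simp))
    (by
      intro x hx y hy hxy
      rcases hqq with h | h
      · exfalso
        rcases hx with rfl | rfl <;> rcases hy with rfl | rfl <;> simp_all
      · rcases hx with rfl | rfl <;> rcases hy with rfl | rfl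
        · exact absurd rfl hxy
        · exact h
        · exact h.symm
        · exact absurd rfl hxy)
    hZconn
    ((Ln_infinite hL).mono fun x hx => Or.inl (Or.inl hx))
    (by
      refine Set.disjoint_left.mpr ?_
      rintro w ((hw | ⟨x, hx, rfl⟩) | hw) ((hw' | hw') | ⟨y, hy, hw'⟩)
      · exact hw'.1 (hLK _ _ hw)
      · exact hRL0 _ _ hw' hw
      · exact hRL g 0 y hy (hw' ▸ hw)
      · exact hw'.1 (hRK _ x hx)
      · have := hRinj (-g) 0 x hx _ hw' (tr_zero _).symm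
        exact hL.ne (neg_eq_zero.mp this)
      · have h1 := hRinj g (-g) y hy x hx hw'
        have h2 : (2 : ℤ) • g = 0 := by
          rw [two_smul]
          nth_rewrite 2 [h1]
          exact add_neg_cancel g
        rcases smul_eq_zero.mp h2 with h3 | h3
        · omega
        · exact hL.ne h3
      · exact hw'.1 (hLK _ _ hw)
      · exact hRL0 _ _ hw' hw
      · exact hRL g s y hy (hw' ▸ hw))
    hRZ
  have hXRR : X ⊆ RR := by
    intro x hx
    obtain ⟨(h | h) | h, h'⟩ := hX hx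
    · exact h
    · exact absurd (hRZ h) h'
    · exact absurd (hgRZ h) h'
  have hgA : ∀ w ∈ tr g '' R, w ∈ A \ (R ∪ X) := by
    intro w hw
    refine ⟨Or.inr hw, ?_⟩
    rintro (h | h)
    · obtain ⟨x, hx, rfl⟩ := hw
      exact hL.ne (hRinj g 0 x hx _ h (tr_zero _).symm)
    · exact (hX h).2 (hgRZ hw)
  -- the removed edges
  have hF : ∃ F : Finset (Sym2 J), F.card ≤ 3 ∧
      ∀ w ∈ tr g '' R, ∀ u ∈ RR, u ∉ X → Γ.Adj w u → r u ≤ r w → s(w.1, u.1) ∈ F := by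
    have aux : ∀ x y, R = {x, y} → (x = y ∨ Γ.Adj x y) → r (tr g x) ≤ r (tr g y) →
        ∃ F : Finset (Sym2 J), F.card ≤ 3 ∧
          ∀ w ∈ tr g '' R, ∀ u ∈ RR, u ∉ X → Γ.Adj w u → r u ≤ r w → s(w.1, u.1) ∈ F := by
      intro x y hxy hadj hle
      have hxR : x ∈ R := by rw [hxy]; simp
      have hyR : y ∈ R := by rw [hxy]; simp
      obtain ⟨a, b, hab⟩ := le2_two (hr _ (hgA _ ⟨x, hxR, rfl⟩))
      have hy : ∃ c, x = y ∨ ∀ u ∈ RR, u ∉ X → Γ.Adj (tr g y) u → r u ≤ r (tr g y) → u = c := by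
        rcases hadj with h | h
        · exact ⟨x, Or.inl h⟩
        · have hx' := hgA _ ⟨x, hxR, rfl⟩
          obtain ⟨c, hc⟩ := le2_one (hr _ (hgA _ ⟨y, hyR, rfl⟩)) (a := tr g x)
            (Or.inr ⟨⟨hx'.1, fun h => hx'.2 (Or.inr h)⟩, hle⟩) (hG.inv g _ _ h.symm)
          refine ⟨c, Or.inr fun u hu huX hadj hru => ?_⟩
          rcases hc u (Or.inr ⟨⟨Or.inl (Or.inl hu), huX⟩, hru⟩) hadj with h1 | h1
          · exact absurd (hRK g x hxR) (h1 ▸ hu.1)
          · exact h1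
      obtain ⟨c, hc⟩ := hy
      refine ⟨{s(x.1, a.1), s(x.1, b.1), s(y.1, c.1)}, Finset.card_le_three, ?_⟩
      have hxcase : ∀ u ∈ RR, u ∉ X → Γ.Adj (tr g x) u → r u ≤ r (tr g x) →
          s((tr g x).1, u.1) ∈ ({s(x.1, a.1), s(x.1, b.1), s(y.1, c.1)} : Finset (Sym2 J)) := by
        intro u hu huX hadj hru
        rcases hab u (Or.inr ⟨⟨Or.inl (Or.inl hu), huX⟩, hru⟩) hadj with h1 | h1 <;>
          simp [h1, tr_fst]
      rintro _ ⟨w, hw, rfl⟩ u hu huX hadj2 hru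
      rw [hxy] at hw
      rcases hw with rfl | rfl
      · exact hxcase u hu huX hadj2 hru
      · rcases hc with h | h
        · subst h
          exact hxcase u hu huX hadj2 hru
        · simp [h u hu huX hadj2 hru, tr_fst]
    rcases le_total (r (tr g q)) (r (tr g q')) with h | h
    · exact aux q q' rfl hqq h
    · exact aux q' q (Set.pair_comm _ _) (hqq.imp Eq.symm SimpleGraph.Adj.symm) h
  obtain ⟨F, hF3, hF⟩ := hF
  have hRRext : ∀ v ∈ RR, ∀ w ∈ RR, v.1 = w.1 → v = w := by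
    intro v hv w hw h
    exact Prod.ext h (by rw [hv.2, hw.2, h])
  -- no edge between the line and `X` downstairs
  have hLX : ∀ x ∈ X, ∀ w, Γ.Adj x w → w ∉ Sat (Ln l 0) := by
    intro x hx w hxw hw
    have hwK : w.1 ∈ K := by
      obtain ⟨y, hy, hwy⟩ := hw
      exact ⟨y, Or.inl hy, hwy⟩
    rcases hnb x (hXRR hx) w hxw with h | ((h | h) | h) | ⟨y, hy, h⟩
    · exact h.1 hwK
    · exact (hX hx).2 ⟨w, Or.inl (Or.inl h), hxw⟩
    · exact (hX hx).2 ⟨w, Or.inr h, hxw⟩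
    · exact Set.disjoint_left.mp hR.disj h hw
    · subst h
      obtain ⟨z, hz, hyz⟩ := hw
      exact Set.disjoint_left.mp hR.disj hy ⟨z, hz, hyz⟩
  refine ⟨{u | ∃ x ∈ Ln l 0 ∪ X, u = x.1}, F, hF3, ?_, ?_⟩
  · rintro _ ⟨x, hx | hx, rfl⟩
    · obtain ⟨i, rfl⟩ := hx
      have key : ∀ a ∈ {u | ∃ x ∈ Ln l 0 ∪ X, u = x.1}, (Quo Γ).Adj (tr 0 (l i)).1 a →
          a = (l (i + 1)).1 ∨ a = (l (i - 1)).1 := by
        rintro _ ⟨y, hy | hy, rfl⟩ hadj
        · obtain ⟨j, rfl⟩ := hy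
          obtain ⟨w, hw, hadj'⟩ := lift_adj hG hadj (l i) rfl
          have hw' : w = tr (w.2 - (l j).2) (l j) := eq_tr_of_fst hw
          rw [hw'] at hadj'
          rcases hL.ind i j _ hadj' with h | h
          · have h0 := congrArg Prod.fst h
            exact Or.inl h0
          · have h0 := congrArg Prod.fst h
            exact Or.inr h0
        · obtain ⟨w, hw, hadj'⟩ := lift_adj hG hadj.symm y rfl
          exact absurd ⟨_, ⟨i, rfl⟩, hw⟩ (hLX y hy w hadj')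
      intro a ha b hb c hc h1 h2 h3
      rcases key a ha h1 with e1 | e1 <;> rcases key b hb h2 with e2 | e2 <;>
        rcases key c hc h3 with e3 | e3 <;> simp [e1, e2, e3]
    · have key : ∀ a ∈ {u | ∃ x ∈ Ln l 0 ∪ X, u = x.1}, (Quo Γ).Adj x.1 a →
          ∃ w ∈ X, w.1 = a ∧ Γ.Adj x w := by
        rintro _ ⟨y, hy | hy, rfl⟩ hadj
        · obtain ⟨w, hw, hadj'⟩ := lift_adj hG hadj x rfl
          exact absurd ⟨y, hy, hw⟩ (hLX x hx w hadj')
        · obtain ⟨w, hw, hadj'⟩ := lift_adj hG hadj x rfl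
          have hwK : w.1 ∉ K := hw ▸ (hXRR hy).1
          have hwRR : w ∈ RR := by
            have hx' := hXRR hx
            refine ⟨hwK, hσ x.1 w hx'.1 hwK ?_⟩
            rw [← hx'.2]
            exact hadj'
          have := hRRext w hwRR y (hXRR hy) hw
          subst this
          exact ⟨w, hy, rfl, hadj'⟩
      intro a ha b hb c hc h1 h2 h3
      obtain ⟨a', ha', rfl, h1'⟩ := key a ha h1
      obtain ⟨b', hb', rfl, h2'⟩ := key b hb h2
      obtain ⟨c', hc', rfl, h3'⟩ := key c hc h3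
      rcases hX2 x hx a' ha' b' hb' c' hc' h1' h2' h3' with h | h | h <;> simp [h]
  · intro T hT hTne
    rw [Set.union_empty]
    by_cases hTK : ∃ v ∈ T, v ∉ K
    · obtain ⟨v, ⟨hvT, hvK⟩, hmax⟩ := Set.exists_max_image {v | v ∈ T ∧ v ∉ K}
        (fun v => r (v, σ v)) (Set.toFinite _) hTK
      have hvRR : ((v, σ v) : J × (ℤ × ℤ)) ∈ RR := ⟨hvK, rfl⟩
      have hvX : ((v, σ v) : J × (ℤ × ℤ)) ∉ X := fun h => hT hvT ⟨_, Or.inr h, rfl⟩
      have hle := hr (v, σ v) ⟨Or.inl (Or.inl hvRR), by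
        rintro (h | h)
        · exact hvK (hRK0 _ h)
        · exact hvX h⟩
      have key : ∀ a ∈ T, ((Quo Γ).deleteEdges (F : Set (Sym2 J))).Adj v a →
          ∃ w ∈ R ∪ {u | u ∈ A \ X ∧ r u ≤ r (v, σ v)}, w.1 = a ∧ Γ.Adj (v, σ v) w := by
        intro a ha hadj
        rw [SimpleGraph.deleteEdges_adj] at hadj
        obtain ⟨w, hw, hadj'⟩ := lift_adj hG hadj.1 (v, σ v) rfl
        have hwX : w ∉ X := fun h => hT ha ⟨w, Or.inr h, hw.symm⟩
        refine ⟨w, ?_, hw, hadj'⟩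
        rcases hnb _ hvRR w hadj' with h | ((h | h) | h) | h
        · refine Or.inr ⟨⟨Or.inl (Or.inl h), hwX⟩, ?_⟩
          have h1 := hmax a ⟨ha, hw ▸ h.1⟩
          have h2 : w = (a, σ a) := Prod.ext hw (by rw [h.2, hw])
          rw [h2]
          exact h1
        · exact absurd ⟨w, Or.inl h, hw.symm⟩ (hT ha)
        · obtain ⟨y, hy, hwy⟩ := Ln_sat s h
          exact absurd ⟨y, Or.inl hy, hw.symm.trans hwy⟩ (hT ha)
        · exact Or.inl h
        · refine Or.inr ⟨⟨Or.inr h, hwX⟩, ?_⟩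
          by_contra hlt
          have h1 := hF w h _ hvRR hvX hadj'.symm (le_of_lt (not_le.mp hlt))
          apply hadj.2
          rw [Sym2.eq_swap, ← hw]
          exact h1
      refine ⟨v, hvT, ?_⟩
      intro a ha b hb c hc h1 h2 h3
      obtain ⟨a', ha', rfl, h1'⟩ := key a ha h1
      obtain ⟨b', hb', rfl, h2'⟩ := key b hb h2
      obtain ⟨c', hc', rfl, h3'⟩ := key c hc h3
      rcases hle a' ha' b' hb' c' hc' h1' h2' h3' with h | h | h <;> simp [h]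
    · obtain ⟨v, hv⟩ := hTne
      have key : ∀ a ∈ T, a = q.1 ∨ a = q'.1 := by
        intro a ha
        have haK : a ∈ K := by
          by_contra h
          exact hTK ⟨a, ha, h⟩
        obtain ⟨x, hx | hx, rfl⟩ := haK
        · exact absurd ⟨x, Or.inl hx, rfl⟩ (hT ha)
        · rcases hx with rfl | rfl
          · exact Or.inl rfl
          · exact Or.inr rfl
      refine ⟨v, hv, ?_⟩
      intro a ha b hb c hc _ _ _
      rcases key a ha with e1 | e1 <;> rcases key b hb with e2 | e2 <;>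
        rcases key c hc with e3 | e3 <;> simp [e1, e2, e3]

end Pool.Agent.P.MP_08fd93_co
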