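import Pool.Agent.P.MP_08fd93_co.StB
import Pool.Agent.P.MP_8972a1_co.KFive

/-! Package Br: periodic branch sets in the grid, with a margin. -/

set_option autoImplicit false

namespace Pool.Agent.P.MP_08fd93_co

open Pool.Agent.P.MP_8972a1_co

namespace Br

section Generic

variable {V E : Type} (s t : E → V) (c : E → C(unitInterval, ℝ × ℝ)) (δ : ℝ)

/-- The end thirds of the arcs at a vertex. -/
def KA (w : V) : Set (ℝ × ℝ) := {x | ∃ e τ, AtC s t e τ w ∧ x = c e τ}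

/-- The middle third of an arc. -/
def KM (e : E) : Set (ℝ × ℝ) :=
  {x | ∃ τ : unitInterval, 1 / 3 ≤ (τ : ℝ) ∧ (τ : ℝ) ≤ 2 / 3 ∧ x = c e τ}

/-- The cells given to a vertex. -/
def SS (u : V) : Set (ℤ × ℤ) :=
  {q | q ∈ near δ (KA s t c u) ∨
    ((∀ w, q ∉ near δ (KA s t c w)) ∧ ∃ e, s e = u ∧ q ∈ near δ (KM c e))}

/-- The branch set of a vertex. -/
def BB (p : V → ℤ × ℤ) (v : V) : Set (ℤ × ℤ) :=
  {q | q ∈ SS s t c δ v ∧
    Relation.ReflTransGen (fun a b => a ∈ SS s t c δ v ∧ b ∈ SS s t c δ v ∧ gadj a b) (p v) q}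

/-- Separation of the arcs at scale four times the mesh. -/
def Sep : Prop := ∀ e e' τ τ', dist (c e τ) (c e' τ') < 4 * δ →
  (e = e' ∧ |(τ : ℝ) - τ'| < 1 / 3) ∨ ∃ w, AtO s t e τ w ∧ AtO s t e' τ' w

variable {s t c δ}

lemma hOC {e : E} {τ : unitInterval} {z u : V} (h : AtO s t e τ z) (h' : AtC s t e τ u) :
    z = u := by
  rcases h with ⟨a, rfl⟩ | ⟨a, rfl⟩ <;> rcases h' with ⟨b, rfl⟩ | ⟨b, rfl⟩
  · rfl
  · linarith
  · linarith
  · rfl

lemma hOM {e : E} {τ : unitInterval} {z : V} (h : AtO s t e τ z) (b : 1 / 3 ≤ (τ : ℝ))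
    (b' : (τ : ℝ) ≤ 2 / 3) : False := by
  rcases h with ⟨a, -⟩ | ⟨a, -⟩ <;> linarith

lemma sep' (hδ : 0 < δ) (hsep : Sep s t c δ) (q : ℤ × ℤ) (e e' : E) (τ τ' : unitInterval)
    (d1 : dist (emb δ q) (c e τ) < δ) (d2 : dist (emb δ q) (c e' τ') < δ) :
    (e = e' ∧ |(τ : ℝ) - τ'| < 1 / 3) ∨ ∃ w, AtO s t e τ w ∧ AtO s t e' τ' w := by
  apply hsep
  have := dist_triangle_left (c e τ) (c e' τ') (emb δ q)
  linarith

lemma F1 (hδ : 0 < δ) (hsep : Sep s t c δ) {q : ℤ × ℤ} {u w : V}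
    (hu : q ∈ near δ (KA s t c u)) (hw : q ∈ near δ (KA s t c w)) : u = w := by
  obtain ⟨_, ⟨e, τ, a, rfl⟩, d1⟩ := hu
  obtain ⟨_, ⟨e', τ', a', rfl⟩, d2⟩ := hw
  rcases sep' hδ hsep q e e' τ τ' d1 d2 with ⟨rfl, h⟩ | ⟨z, z1, z2⟩
  · rw [abs_lt] at h
    rcases a with ⟨b, rfl⟩ | ⟨b, rfl⟩ <;> rcases a' with ⟨b', rfl⟩ | ⟨b', rfl⟩
    · rfl
    · linarith [h.1]
    · linarith [h.2]
    · rfl
  · rw [← hOC z1 a, ← hOC z2 a']

lemma F2 (hδ : 0 < δ) (hsep : Sep s t c δ) {q : ℤ × ℤ} {e e' : E}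
    (h : q ∈ near δ (KM c e)) (h' : q ∈ near δ (KM c e')) : e = e' := by
  obtain ⟨_, ⟨τ, a, b, rfl⟩, d1⟩ := h
  obtain ⟨_, ⟨τ', _, _, rfl⟩, d2⟩ := h'
  rcases sep' hδ hsep q e e' τ τ' d1 d2 with ⟨h, -⟩ | ⟨z, z1, -⟩
  · exact h
  · exact (hOM z1 a b).elim

lemma F3 (hδ : 0 < δ) (hsep : Sep s t c δ) {q : ℤ × ℤ} {e : E} {w : V}
    (h : q ∈ near δ (KM c e)) (h' : q ∈ near δ (KA s t c w)) : w = s e ∨ w = t e := by
  obtain ⟨_, ⟨τ, a, b, rfl⟩, d1⟩ := h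
  obtain ⟨_, ⟨e', τ', a', rfl⟩, d2⟩ := h'
  rcases sep' hδ hsep q e e' τ τ' d1 d2 with ⟨rfl, -⟩ | ⟨z, z1, -⟩
  · rcases a' with ⟨-, rfl⟩ | ⟨-, rfl⟩
    · exact Or.inl rfl
    · exact Or.inr rfl
  · exact (hOM z1 a b).elim

lemma F4 {q : ℤ × ℤ} {e : E} (h : q ∈ near δ (Set.range (c e))) :
    q ∈ near δ (KA s t c (s e)) ∨ q ∈ near δ (KM c e) ∨ q ∈ near δ (KA s t c (t e)) := by
  obtain ⟨_, ⟨τ, rfl⟩, d⟩ := h
  by_cases a : (τ : ℝ) ≤ 1 / 3
  · exact Or.inl ⟨_, ⟨e, τ, Or.inl ⟨a, rfl⟩, rfl⟩, d⟩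
  · by_cases b : 2 / 3 ≤ (τ : ℝ)
    · exact Or.inr (Or.inr ⟨_, ⟨e, τ, Or.inr ⟨b, rfl⟩, rfl⟩, d⟩)
    · exact Or.inr (Or.inl ⟨_, ⟨τ, by linarith, by linarith, rfl⟩, d⟩)

lemma SS_disj (hδ : 0 < δ) (hsep : Sep s t c δ) {u v : V} {q : ℤ × ℤ}
    (hu : q ∈ SS s t c δ u) (hv : q ∈ SS s t c δ v) : u = v := by
  rcases hu with a | ⟨a, e, rfl, a'⟩ <;> rcases hv with b | ⟨b, e', rfl, b'⟩
  · exact F1 hδ hsep a b
  · exact (b _ a).elim
  · exact (a _ b).elim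
  · rw [F2 hδ hsep a' b']

lemma A_sub_B (hδ : 0 < δ) {f : V → ℝ × ℝ} (h0 : ∀ e, c e 0 = f (s e))
    (h1 : ∀ e, c e 1 = f (t e)) {p : V → ℤ × ℤ} (hp : ∀ v, dist (emb δ (p v)) (f v) < δ)
    {v : V} {q : ℤ × ℤ} (hq : q ∈ near δ (KA s t c v)) : q ∈ BB s t c δ p v := by
  refine ⟨Or.inl hq, ?_⟩
  obtain ⟨_, ⟨e, τ, a, rfl⟩, d⟩ := hq
  have main : ∀ K : Set (ℝ × ℝ), IsPreconnected K → K ⊆ KA s t c v → f v ∈ K → c e τ ∈ K →
      Relation.ReflTransGen (fun a b => a ∈ SS s t c δ v ∧ b ∈ SS s t c δ v ∧ gadj a b)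
        (p v) q := by
    intro K hK hsub m1 m2
    have hr := near_conn hδ hK (a := p v) (b := q) ⟨_, m1, hp v⟩ ⟨_, m2, d⟩
    clear d
    induction hr with
    | refl => exact Relation.ReflTransGen.refl
    | tail _ hab ih =>
      obtain ⟨ha, hb, hab⟩ := hab
      exact ih.tail ⟨Or.inl (near_mono δ hsub ha), Or.inl (near_mono δ hsub hb), hab⟩
  rcases a with ⟨b, rfl⟩ | ⟨b, rfl⟩
  · refine main (c e '' {τ : unitInterval | (τ : ℝ) ≤ 1 / 3})
      ((pre_le _).image _ (c e).continuous.continuousOn) ?_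
      ⟨0, by simp, h0 e⟩ ⟨τ, b, rfl⟩
    rintro _ ⟨τ', b', rfl⟩
    exact ⟨e, τ', Or.inl ⟨b', rfl⟩, rfl⟩
  · refine main (c e '' {τ : unitInterval | 2 / 3 ≤ (τ : ℝ)})
      ((pre_ge _).image _ (c e).continuous.continuousOn) ?_
      ⟨1, by simp only [Set.mem_ofPred_eq, Set.Icc.coe_one]; norm_num, h1 e⟩ ⟨τ, b, rfl⟩
    rintro _ ⟨τ', b', rfl⟩
    exact ⟨e, τ', Or.inr ⟨b', rfl⟩, rfl⟩

lemma edge_ex (hδ : 0 < δ) (hsep : Sep s t c δ) (hloop : ∀ e, s e ≠ t e) {f : V → ℝ × ℝ}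
    (h0 : ∀ e, c e 0 = f (s e)) (h1 : ∀ e, c e 1 = f (t e)) {p : V → ℤ × ℤ}
    (hp : ∀ v, dist (emb δ (p v)) (f v) < δ) (e : E) :
    ∃ x ∈ BB s t c δ p (s e), ∃ y ∈ BB s t c δ p (t e), gadj x y := by
  by_contra hno
  have ps : p (s e) ∈ near δ (KA s t c (s e)) :=
    ⟨_, ⟨e, 0, Or.inl ⟨by simp, rfl⟩, (h0 e).symm⟩, hp _⟩
  have pt : p (t e) ∈ near δ (KA s t c (t e)) :=
    ⟨_, ⟨e, 1, Or.inr ⟨by simp only [Set.Icc.coe_one]; norm_num, rfl⟩, (h1 e).symm⟩, hp _⟩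
  have hreach := near_conn hδ (isPreconnected_range (c e).continuous)
    (a := p (s e)) (b := p (t e)) ⟨_, ⟨0, h0 e⟩, hp _⟩ ⟨_, ⟨1, h1 e⟩, hp _⟩
  have all : ∀ q, Relation.ReflTransGen (fun a b => a ∈ near δ (Set.range (c e)) ∧
      b ∈ near δ (Set.range (c e)) ∧ gadj a b) (p (s e)) q → q ∈ BB s t c δ p (s e) := by
    intro q hq
    induction hq with
    | refl => exact A_sub_B hδ h0 h1 hp ps
    | @tail a b _ hab ih =>
      obtain ⟨-, hb, hab⟩ := hab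
      by_cases hbt : b ∈ near δ (KA s t c (t e))
      · exact (hno ⟨a, ih, b, A_sub_B hδ h0 h1 hp hbt, hab⟩).elim
      · have hbS : b ∈ SS s t c δ (s e) := by
          by_cases hbs : b ∈ near δ (KA s t c (s e))
          · exact Or.inl hbs
          · rcases F4 (s := s) (t := t) hb with h | h | h
            · exact (hbs h).elim
            · refine Or.inr ⟨fun w hw => ?_, e, rfl, h⟩
              rcases F3 hδ hsep h hw with rfl | rfl
              · exact hbs hw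
              · exact hbt hw
            · exact (hbt h).elim
        exact ⟨hbS, ih.2.tail ⟨ih.1, hbS, hab⟩⟩
  exact hloop e (SS_disj hδ hsep (all _ hreach).1 (Or.inl pt))

lemma tg_of_gadj {a b : ℤ × ℤ} (h : gadj a b) : TG.Adj a b := by
  obtain ⟨⟨⟨x, y⟩, o⟩, ⟨rfl, rfl⟩ | ⟨rfl, rfl⟩⟩ := h <;> cases o <;>
    simp [TG, gtgt, SimpleGraph.fromRel_adj, Prod.ext_iff]

lemma BB_conn (p : V → ℤ × ℤ) (v : V) : IsConn TG (BB s t c δ p v) := by
  have key : ∀ q, q ∈ BB s t c δ p v → Conn TG (BB s t c δ p v) (p v) q ∧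
      Conn TG (BB s t c δ p v) q (p v) := by
    rintro q ⟨-, hq⟩
    induction hq with
    | refl => exact ⟨Relation.ReflTransGen.refl, Relation.ReflTransGen.refl⟩
    | @tail a b ha hab ih =>
      have m1 : a ∈ BB s t c δ p v := ⟨hab.1, ha⟩
      have m2 : b ∈ BB s t c δ p v := ⟨hab.2.1, ha.tail hab⟩
      exact ⟨Relation.ReflTransGen.tail ih.1 ⟨m1, m2, tg_of_gadj hab.2.2⟩,
        Relation.ReflTransGen.head ⟨m2, m1, (tg_of_gadj hab.2.2).symm⟩ ih.2⟩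
  intro a ha b hb
  exact Relation.ReflTransGen.trans (key a ha).2 (key b hb).1

lemma SS_own {u : V} {q : ℤ × ℤ} (hq : q ∈ SS s t c δ u) :
    ∃ e τ, dist (emb δ q) (c e τ) < δ ∧ (s e = u ∨ t e = u) ∧ ∀ z, AtO s t e τ z → z = u := by
  rcases hq with ⟨_, ⟨e, τ, a, rfl⟩, d⟩ | ⟨-, e, rfl, _, ⟨τ, a, b, rfl⟩, d⟩
  · refine ⟨e, τ, d, ?_, fun z hz => hOC hz a⟩
    rcases a with ⟨-, h⟩ | ⟨-, h⟩
    · exact Or.inl h
    · exact Or.inr h
  · exact ⟨e, τ, d, Or.inl rfl, fun z hz => (hOM hz a b).elim⟩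

lemma emb_close (hδ : 0 < δ) {x y : ℤ × ℤ} (h1 : |x.1 - y.1| ≤ 2) (h2 : |x.2 - y.2| ≤ 2) :
    dist (emb δ x) (emb δ y) ≤ 2 * δ := by
  have key : ∀ a b : ℤ, |a - b| ≤ 2 → dist ((a : ℝ) * δ) ((b : ℝ) * δ) ≤ 2 * δ := by
    intro a b h
    rw [Real.dist_eq, ← sub_mul, abs_mul, abs_of_pos hδ]
    have : |(a : ℝ) - b| ≤ 2 := by exact_mod_cast h
    exact mul_le_mul_of_nonneg_right this hδ.le
  rw [Prod.dist_eq]
  exact max_le (key _ _ h1) (key _ _ h2)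

lemma margin (hδ : 0 < δ) (hsep : Sep s t c δ) {u v : V} {x y : ℤ × ℤ}
    (hx : x ∈ SS s t c δ u) (hy : y ∈ SS s t c δ v) (h1 : |x.1 - y.1| ≤ 2)
    (h2 : |x.2 - y.2| ≤ 2) :
    u = v ∨ (x ≠ y ∧ ∃ e, (s e = u ∧ t e = v) ∨ (t e = u ∧ s e = v)) := by
  by_cases huv : u = v
  · exact Or.inl huv
  right
  refine ⟨fun h => huv (SS_disj hδ hsep hx (h ▸ hy)), ?_⟩
  obtain ⟨e, τ, d, o, z⟩ := SS_own hx
  obtain ⟨e', τ', d', o', z'⟩ := SS_own hy
  have hd : dist (c e τ) (c e' τ') < 4 * δ := by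
    have a1 := dist_triangle4 (c e τ) (emb δ x) (emb δ y) (c e' τ')
    have a2 := emb_close hδ h1 h2
    rw [dist_comm (c e τ) (emb δ x)] at a1
    linarith
  rcases hsep e e' τ τ' hd with ⟨rfl, -⟩ | ⟨w, w1, w2⟩
  · rcases o with o | o <;> rcases o' with o' | o'
    · exact (huv (o.symm.trans o')).elim
    · exact ⟨e, Or.inl ⟨o, o'⟩⟩
    · exact ⟨e, Or.inr ⟨o, o'⟩⟩
    · exact (huv (o.symm.trans o')).elim
  · exact (huv ((z w w1).symm.trans (z' w w2))).elim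

lemma pair_mesh {f : V → ℝ × ℝ} (hf : Function.Injective f)
    (h0 : ∀ e, c e 0 = f (s e)) (h1 : ∀ e, c e 1 = f (t e))
    (hinj : ∀ e, Function.Injective (c e))
    (hcross : ∀ e e', e ≠ e' → ∀ τ τ', c e τ = c e' τ' →
      (τ = 0 ∨ τ = 1) ∧ (τ' = 0 ∨ τ' = 1)) (e e' : E) :
    ∃ d : ℝ, 0 < d ∧ ∀ τ τ', dist (c e τ) (c e' τ') < d →
      (e = e' ∧ |(τ : ℝ) - τ'| < 1 / 3) ∨ ∃ w, AtO s t e τ w ∧ AtO s t e' τ' w := by
  classical
  let good : Set (unitInterval × unitInterval) := {z |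
    (e = e' ∧ |(z.1 : ℝ) - z.2| < 1 / 3) ∨ ∃ w, AtO s t e z.1 w ∧ AtO s t e' z.2 w}
  have hA : ∀ (e : E) (w : V), IsOpen {τ : unitInterval | AtO s t e τ w} := by
    intro e w
    apply IsOpen.union
    · exact (isOpen_lt continuous_subtype_val continuous_const).inter isOpen_const
    · exact (isOpen_lt continuous_const continuous_subtype_val).inter isOpen_const
  have hopen : IsOpen good := by
    apply IsOpen.union
    · have : IsOpen {z : unitInterval × unitInterval | |(z.1 : ℝ) - z.2| < 1 / 3} :=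
        isOpen_lt (by fun_prop) continuous_const
      exact isOpen_const.inter this
    · have : {z : unitInterval × unitInterval | ∃ w, AtO s t e z.1 w ∧ AtO s t e' z.2 w} =
          ⋃ w, ({τ : unitInterval | AtO s t e τ w} ×ˢ {τ : unitInterval | AtO s t e' τ w}) := by
        ext z
        simp
      show IsOpen {z : unitInterval × unitInterval | ∃ w, AtO s t e z.1 w ∧ AtO s t e' z.2 w}
      rw [this]
      exact isOpen_iUnion fun w => (hA e w).prod (hA e' w)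
  have hcomp : IsCompact goodᶜ := hopen.isClosed_compl.isCompact
  have hcont : Continuous fun z : unitInterval × unitInterval =>
      dist (c e z.1) (c e' z.2) := by fun_prop
  have hpos : ∀ z ∈ goodᶜ, 0 < dist (c e z.1) (c e' z.2) := by
    rintro ⟨τ, τ'⟩ hz
    rw [dist_pos]
    intro heq
    apply hz
    by_cases hee : e = e'
    · left
      subst hee
      have := hinj e heq
      simp only at this
      refine ⟨rfl, ?_⟩
      simp only [this, sub_self, abs_zero]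
      norm_num
    · right
      obtain ⟨a, b⟩ := hcross e e' hee τ τ' heq
      simp only at heq
      rcases a with rfl | rfl <;> rcases b with rfl | rfl
      · rw [h0, h0] at heq
        exact ⟨s e, Or.inl ⟨by norm_num, rfl⟩, Or.inl ⟨by norm_num, (hf heq).symm⟩⟩
      · rw [h0, h1] at heq
        exact ⟨s e, Or.inl ⟨by norm_num, rfl⟩, Or.inr ⟨by norm_num, (hf heq).symm⟩⟩
      · rw [h1, h0] at heq
        exact ⟨t e, Or.inr ⟨by norm_num, rfl⟩, Or.inl ⟨by norm_num, (hf heq).symm⟩⟩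
      · rw [h1, h1] at heq
        exact ⟨t e, Or.inr ⟨by norm_num, rfl⟩, Or.inr ⟨by norm_num, (hf heq).symm⟩⟩
  obtain ⟨m, hm, hmle⟩ := hcomp.exists_forall_le' hcont.continuousOn hpos
  refine ⟨m, hm, fun τ τ' hd => ?_⟩
  by_contra hbad
  have := hmle (τ, τ') hbad
  simp only at this hd
  linarith

end Generic

section Lift

variable {V E : Type} (s t : E → V) (f : V → ℝ × ℝ) (c : E → C(unitInterval, ℝ × ℝ))
  (k : E → ℤ × ℤ)

/-- Start of a lifted edge. -/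
def ls (e : E × (ℤ × ℤ)) : V × (ℤ × ℤ) := (s e.1, e.2)

/-- End of a lifted edge. -/
def lt (e : E × (ℤ × ℤ)) : V × (ℤ × ℤ) := (t e.1, e.2 + k e.1)

/-- Position of a lifted vertex. -/
def lf (v : V × (ℤ × ℤ)) : ℝ × ℝ := f v.1 + sh v.2

/-- A lifted arc. -/
def lc (e : E × (ℤ × ℤ)) : C(unitInterval, ℝ × ℝ) := c e.1 + ContinuousMap.const _ (sh e.2)

lemma lc_apply (e : E × (ℤ × ℤ)) (τ : unitInterval) : lc c e τ = c e.1 τ + sh e.2 := rfl

lemma sh_add (a b : ℤ × ℤ) : sh (a + b) = sh a + sh b := by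
  simp [sh]

lemma sh_sub (a b : ℤ × ℤ) : sh (a - b) = sh a - sh b := by
  simp [sh]

lemma sh_zero : sh 0 = 0 := by
  simp [sh]

variable {s t f c k}

lemma l_inj (H : Lifted s t f c k) : Function.Injective (lf f) := by
  rintro ⟨u, a⟩ ⟨v, b⟩ h
  have h' : f u = f v + sh (b - a) := by
    simp only [lf] at h
    rw [sh_sub]
    linear_combination h
  obtain ⟨rfl, h2⟩ := H.hf u v _ h'
  rw [sub_eq_zero] at h2
  rw [h2]

lemma l_h0 (H : Lifted s t f c k) (e : E × (ℤ × ℤ)) : lc c e 0 = lf f (ls s e) := by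
  simp only [lc_apply, lf, ls, H.h0]

lemma l_h1 (H : Lifted s t f c k) (e : E × (ℤ × ℤ)) : lc c e 1 = lf f (lt t k e) := by
  simp only [lc_apply, lf, lt, H.h1, sh_add]
  abel

lemma l_cinj (H : Lifted s t f c k) (e : E × (ℤ × ℤ)) : Function.Injective (lc c e) := by
  intro τ τ' h
  simp only [lc_apply, add_left_inj] at h
  exact (H.hinj e.1 τ τ' 0 (by rw [sh_zero, add_zero]; exact h)).1

lemma l_cross (H : Lifted s t f c k) (e e' : E × (ℤ × ℤ)) (hne : e ≠ e')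
    (τ τ' : unitInterval) (h : lc c e τ = lc c e' τ') :
    (τ = 0 ∨ τ = 1) ∧ (τ' = 0 ∨ τ' = 1) := by
  obtain ⟨e, a⟩ := e
  obtain ⟨e', b⟩ := e'
  have h' : c e τ = c e' τ' + sh (b - a) := by
    simp only [lc_apply] at h
    rw [sh_sub]
    linear_combination h
  by_cases hee : e = e'
  · subst hee
    have := (H.hinj e τ τ' _ h').2
    rw [sub_eq_zero] at this
    exact (hne (by rw [this])).elim
  · exact H.hcross e e' hee τ τ' _ h'

lemma l_loop (H : Lifted s t f c k) (e : E × (ℤ × ℤ)) : ls s e ≠ lt t k e :=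
  fun h => H.loop e.1 (congrArg Prod.fst h)

lemma AtO_shift {e : E} {a : ℤ × ℤ} {τ : unitInterval} {w : V × (ℤ × ℤ)}
    (h : AtO (ls s) (lt t k) (e, a) τ w) (b : ℤ × ℤ) :
    AtO (ls s) (lt t k) (e, a + b) τ (w.1, w.2 + b) := by
  rcases h with ⟨h, rfl⟩ | ⟨h, rfl⟩
  · exact Or.inl ⟨h, rfl⟩
  · refine Or.inr ⟨h, ?_⟩
    simp only [lt, Prod.mk.injEq, true_and]
    abel

lemma AtC_shift {e : E} {a : ℤ × ℤ} {τ : unitInterval} {w : V × (ℤ × ℤ)}
    (h : AtC (ls s) (lt t k) (e, a) τ w) (b : ℤ × ℤ) :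
    AtC (ls s) (lt t k) (e, a + b) τ (w.1, w.2 + b) := by
  rcases h with ⟨h, rfl⟩ | ⟨h, rfl⟩
  · exact Or.inl ⟨h, rfl⟩
  · refine Or.inr ⟨h, ?_⟩
    simp only [lt, Prod.mk.injEq, true_and]
    abel

lemma l_mesh [Fintype E] (H : Lifted s t f c k) :
    ∃ d : ℝ, 0 < d ∧ ∀ e e' τ τ', dist (lc c e τ) (lc c e' τ') < d →
      (e = e' ∧ |(τ : ℝ) - τ'| < 1 / 3) ∨
        ∃ w, AtO (ls s) (lt t k) e τ w ∧ AtO (ls s) (lt t k) e' τ' w := by
  classical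
  have hbdd : Bornology.IsBounded (⋃ e, Set.range (c e)) :=
    (isCompact_iUnion fun e => isCompact_range (c e).continuous).isBounded
  obtain ⟨r, hr⟩ := hbdd.subset_closedBall 0
  obtain ⟨R, hR⟩ := exists_int_gt (2 * r + 1)
  have hc : ∀ e τ, |(c e τ).1| ≤ r ∧ |(c e τ).2| ≤ r := by
    intro e τ
    have := hr (Set.mem_iUnion.2 ⟨e, τ, rfl⟩)
    rw [Metric.mem_closedBall, Prod.dist_eq, max_le_iff] at this
    simpa using this
  choose d hd hgood using fun x : (E × (ℤ × ℤ)) × (E × (ℤ × ℤ)) =>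
    pair_mesh (s := ls s) (t := lt t k) (c := lc c) (l_inj H) (l_h0 H) (l_h1 H) (l_cinj H)
      (l_cross H) x.1 x.2
  let box : Finset (ℤ × ℤ) := Finset.Icc (-R) R ×ˢ Finset.Icc (-R) R
  let I : Finset ((E × (ℤ × ℤ)) × (E × (ℤ × ℤ))) :=
    (Finset.univ ×ˢ {0}) ×ˢ (Finset.univ ×ˢ box)
  have hex : ∃ d0 : ℝ, 0 < d0 ∧ d0 ≤ 1 ∧ ∀ x ∈ I, d0 ≤ d x := by
    by_cases hI : I.Nonempty
    · obtain ⟨x, -, hx⟩ := I.exists_min_image d hI
      exact ⟨min 1 (d x), lt_min one_pos (hd x), min_le_left _ _,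
        fun y hy => (min_le_right _ _).trans (hx y hy)⟩
    · exact ⟨1, one_pos, le_rfl, fun x hx => (hI ⟨x, hx⟩).elim⟩
  obtain ⟨d0, h0, h1, h2⟩ := hex
  refine ⟨d0, h0, ?_⟩
  rintro ⟨e, a⟩ ⟨e', b⟩ τ τ' hdist
  have hdist' : dist (lc c (e, 0) τ) (lc c (e', b - a) τ') < d0 := by
    have e1 : lc c (e, a) τ = lc c (e, 0) τ + sh a := by
      simp only [lc_apply, sh_zero, add_zero]
    have e2 : lc c (e', b) τ' = lc c (e', b - a) τ' + sh a := by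
      simp only [lc_apply, sh_sub]
      abel
    rwa [e1, e2, dist_add_right] at hdist
  have hbox : b - a ∈ box := by
    have q := hdist'
    rw [Prod.dist_eq, max_lt_iff, Real.dist_eq, Real.dist_eq, abs_lt, abs_lt] at q
    simp only [lc_apply, sh, Prod.fst_add, Prod.snd_add, Prod.fst_zero, Prod.snd_zero,
      Int.cast_zero, add_zero] at q
    obtain ⟨c1, c2⟩ := hc e τ
    obtain ⟨c3, c4⟩ := hc e' τ'
    rw [abs_le] at c1 c2 c3 c4
    have g1 : ((b - a).1 : ℝ) < R := by linarith [q.1.1, c1.2, c3.1]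
    have g2 : -(R : ℝ) < (b - a).1 := by linarith [q.1.2, c1.1, c3.2]
    have g3 : ((b - a).2 : ℝ) < R := by linarith [q.2.1, c2.2, c4.1]
    have g4 : -(R : ℝ) < (b - a).2 := by linarith [q.2.2, c2.1, c4.2]
    have g1' : (b - a).1 < R := by exact_mod_cast g1
    have g2' : -R < (b - a).1 := by exact_mod_cast g2
    have g3' : (b - a).2 < R := by exact_mod_cast g3
    have g4' : -R < (b - a).2 := by exact_mod_cast g4
    simp only [box, Finset.mem_product, Finset.mem_Icc]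
    exact ⟨⟨g2'.le, g1'.le⟩, g4'.le, g3'.le⟩
  have hI : ((e, 0), (e', b - a)) ∈ I := by
    simp only [I, Finset.mem_product, Finset.mem_univ, Finset.mem_singleton, true_and]
    exact hbox
  rcases hgood ((e, 0), (e', b - a)) τ τ' (hdist'.trans_le (h2 _ hI)) with ⟨h, h'⟩ | ⟨w, w1, w2⟩
  · left
    simp only [Prod.mk.injEq] at h
    obtain ⟨rfl, h⟩ := h
    have : b = a := by
      have := h.symm
      rwa [sub_eq_zero] at this
    exact ⟨by rw [this], h'⟩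
  · right
    have z1 := AtO_shift w1 a
    have z2 := AtO_shift w2 a
    rw [zero_add] at z1
    rw [sub_add_cancel] at z2
    exact ⟨_, z1, z2⟩

lemma emb_shift {N : ℕ} (hN : 0 < N) (q a : ℤ × ℤ) :
    emb (1 / N) (q + (N : ℤ) • a) = emb (1 / N) q + sh a := by
  have : (N : ℝ) ≠ 0 := by exact_mod_cast hN.ne'
  simp only [emb, sh, Prod.fst_add, Prod.snd_add, Prod.smul_fst, Prod.smul_snd, smul_eq_mul,
    Prod.mk_add_mk, Prod.mk.injEq]
  push_cast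
  constructor <;> field_simp

lemma near_shift {N : ℕ} (hN : 0 < N) {K K' : Set (ℝ × ℝ)} {a : ℤ × ℤ}
    (h : ∀ x ∈ K, x + sh a ∈ K') {q : ℤ × ℤ} (hq : q ∈ near (1 / N) K) :
    q + (N : ℤ) • a ∈ near (1 / N) K' := by
  obtain ⟨x, hx, d⟩ := hq
  refine ⟨x + sh a, h x hx, ?_⟩
  rwa [emb_shift hN, dist_add_right]

lemma A_shift {N : ℕ} (hN : 0 < N) {w : V × (ℤ × ℤ)} (a : ℤ × ℤ) {q : ℤ × ℤ}
    (hq : q ∈ near (1 / N) (KA (ls s) (lt t k) (lc c) w)) :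
    q + (N : ℤ) • a ∈ near (1 / N) (KA (ls s) (lt t k) (lc c) (w.1, w.2 + a)) := by
  refine near_shift hN ?_ hq
  rintro _ ⟨⟨e, b⟩, τ, h, rfl⟩
  refine ⟨(e, b + a), τ, AtC_shift h a, ?_⟩
  simp only [lc_apply, sh_add]
  abel

lemma SS_shift {N : ℕ} (hN : 0 < N) {w : V × (ℤ × ℤ)} (a : ℤ × ℤ) {q : ℤ × ℤ}
    (hq : q ∈ SS (ls s) (lt t k) (lc c) (1 / N) w) :
    q + (N : ℤ) • a ∈ SS (ls s) (lt t k) (lc c) (1 / N) (w.1, w.2 + a) := by
  rcases hq with h | ⟨h, ⟨e, b⟩, rfl, h'⟩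
  · exact Or.inl (A_shift hN a h)
  · refine Or.inr ⟨fun w hw => ?_, (e, b + a), rfl, ?_⟩
    · have := A_shift hN (-a) hw
      rw [smul_neg, add_neg_cancel_right] at this
      exact h _ this
    · refine near_shift hN ?_ h'
      rintro _ ⟨τ, x, y, rfl⟩
      refine ⟨τ, x, y, ?_⟩
      simp only [lc_apply, sh_add]
      abel

lemma gadj_shift {a b : ℤ × ℤ} (h : gadj a b) (n : ℤ × ℤ) : gadj (a + n) (b + n) := by
  obtain ⟨⟨x, o⟩, hd⟩ := h
  have e : gtgt (x + n, o) = gtgt (x, o) + n := by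
    cases o <;> simp [gtgt, Prod.ext_iff] <;> ring
  refine ⟨(x + n, o), ?_⟩
  rw [e]
  rcases hd with ⟨rfl, rfl⟩ | ⟨rfl, rfl⟩
  · exact Or.inl ⟨rfl, rfl⟩
  · exact Or.inr ⟨rfl, rfl⟩

lemma BB_shift {N : ℕ} (hN : 0 < N) (p : V → ℤ × ℤ) {w : V × (ℤ × ℤ)} (a : ℤ × ℤ) {q : ℤ × ℤ}
    (hq : q ∈ BB (ls s) (lt t k) (lc c) (1 / N) (fun v => p v.1 + (N : ℤ) • v.2) w) :
    q + (N : ℤ) • a ∈
      BB (ls s) (lt t k) (lc c) (1 / N) (fun v => p v.1 + (N : ℤ) • v.2) (w.1, w.2 + a) := by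
  refine ⟨SS_shift hN a hq.1, ?_⟩
  obtain ⟨-, hq⟩ := hq
  have e : p w.1 + (N : ℤ) • (w.2 + a) = p w.1 + (N : ℤ) • w.2 + (N : ℤ) • a := by
    rw [smul_add, add_assoc]
  simp only at hq ⊢
  rw [e]
  induction hq with
  | refl => exact Relation.ReflTransGen.refl
  | tail _ hab ih =>
    exact ih.tail ⟨SS_shift hN a hab.1, SS_shift hN a hab.2.1, gadj_shift hab.2.2 _⟩

lemma SS_finite [Fintype E] {δ : ℝ} (hδ : 0 < δ) (v : V) :
    (SS (ls s) (lt t k) (lc c) δ (v, 0)).Finite := by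
  have hbdd : Bornology.IsBounded
      ((⋃ e, Set.range (lc c (e, 0))) ∪ ⋃ e, Set.range (lc c (e, -k e))) :=
    ((isCompact_iUnion fun e => isCompact_range (lc c (e, 0)).continuous).union
      (isCompact_iUnion fun e => isCompact_range (lc c (e, -k e)).continuous)).isBounded
  refine (near_finite hδ hbdd).subset fun q hq => ?_
  obtain ⟨⟨e, a⟩, τ, d, o, -⟩ := SS_own hq
  refine ⟨_, ?_, d⟩
  rcases o with o | o
  · have : a = 0 := congrArg Prod.snd o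
    subst this
    exact Or.inl (Set.mem_iUnion.2 ⟨e, τ, rfl⟩)
  · have h : a + k e = 0 := congrArg Prod.snd o
    have : a = -k e := eq_neg_of_add_eq_zero_left h
    subst this
    exact Or.inr (Set.mem_iUnion.2 ⟨e, τ, rfl⟩)

end Lift

end Br

open Br in
theorem pkg_Br : S_Br := by
  intro V _ m s t f c k H
  obtain ⟨d, hd, hsep0⟩ := l_mesh H
  obtain ⟨N, hN⟩ := exists_nat_gt (max 3 (4 / d))
  have hN3 : (3 : ℝ) < N := (le_max_left _ _).trans_lt hN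
  have hN4 : 4 / d < N := (le_max_right _ _).trans_lt hN
  have hN3' : 3 ≤ N := by
    have : 3 < N := by exact_mod_cast hN3
    omega
  have hN0 : 0 < N := by omega
  have hNR : (0 : ℝ) < N := by linarith
  have hδ : (0 : ℝ) < 1 / N := by positivity
  have hsep : Sep (ls s) (Br.lt t k) (lc c) (1 / N) := by
    intro e e' τ τ' h
    apply hsep0
    refine h.trans_le ?_
    rw [div_lt_iff₀ hd] at hN4
    rw [mul_one_div, div_le_iff₀ hNR]
    linarith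
  choose p hp using fun v => exists_near hδ (f v)
  let p' : V × (ℤ × ℤ) → ℤ × ℤ := fun v => p v.1 + (N : ℤ) • v.2
  have hp' : ∀ v, dist (emb (1 / N) (p' v)) (lf f v) < 1 / N := by
    intro v
    simp only [p', lf]
    rw [emb_shift hN0, dist_add_right]
    exact hp v.1
  refine ⟨N, fun v => BB (ls s) (Br.lt t k) (lc c) (1 / N) p' (v, 0), hN3',
    fun v => (SS_finite hδ v).subset fun q hq => hq.1, fun v => BB_conn _ _, ?_, ?_⟩
  · intro e
    obtain ⟨x, hx, y, hy, hxy⟩ := edge_ex hδ hsep (l_loop H) (l_h0 H) (l_h1 H) hp' (e, 0)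
    have hy' := BB_shift hN0 p (-k e) hy
    simp only [Br.lt, zero_add, add_neg_cancel] at hy'
    refine ⟨x, hx, _, hy', ?_⟩
    rw [smul_neg, neg_add_cancel_right]
    exact tg_of_gadj hxy
  · intro u v a x hx y hy h1 h2
    have hy' := SS_shift hN0 a hy.1
    simp only [zero_add] at hy'
    rcases margin hδ hsep hx.1 hy' h1 h2 with h | ⟨h, ⟨e, b⟩, ⟨o1, o2⟩ | ⟨o1, o2⟩⟩
    · left
      simp only [Prod.mk.injEq] at h
      exact ⟨h.1, h.2.symm⟩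
    · right
      simp only [ls, Br.lt, Prod.mk.injEq] at o1 o2
      refine ⟨h, e, Or.inl ⟨o1.1, o2.1, ?_⟩⟩
      rw [← o2.2, o1.2, zero_add]
    · right
      simp only [ls, Br.lt, Prod.mk.injEq] at o1 o2
      refine ⟨h, e, Or.inr ⟨o1.1, o2.1, ?_⟩⟩
      rw [← o2.2]
      exact eq_neg_of_add_eq_zero_right o1.2

end Pool.Agent.P.MP_08fd93_co
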