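import Pool.Agent.P.MP_08fd93_co.StB

/-! Package CC: contraction of a connected set and removal of a part attached along a clique. -/

set_option autoImplicit false

namespace Pool.Agent.P.MP_08fd93_co

namespace CC

variable {W : Type}

theorem conn_symm {H : SimpleGraph W} {A : Set W} {a b : W} (h : Conn H A a b) : Conn H A b a := by
  induction h with
  | refl => exact Relation.ReflTransGen.refl
  | tail _ hbc ih =>
    exact Relation.ReflTransGen.head ⟨hbc.2.1, hbc.1, hbc.2.2.symm⟩ ih

theorem conn_trans {H : SimpleGraph W} {A : Set W} {a b c : W} (h : Conn H A a b)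
    (h' : Conn H A b c) : Conn H A a c := Relation.ReflTransGen.trans h h'

theorem conn_mem {H : SimpleGraph W} {A : Set W} {a b : W} (ha : a ∈ A) (h : Conn H A a b) :
    b ∈ A := by
  induction h with
  | refl => exact ha
  | tail _ hbc _ => exact hbc.2.1

theorem pl_empty (H : SimpleGraph W) : Pl H ∅ := by
  refine ⟨fun a ha => ha.elim, ?_, ?_, ?_⟩
  · rintro ⟨X, h1, h2⟩
    obtain ⟨a, ha, -⟩ := (h2 0 1 (by decide)).2
    exact (h1 0).1 ha
  · rintro ⟨X, Y, h1, -, h3⟩
    obtain ⟨a, ha, -⟩ := (h3 0 0).2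
    exact (h1 0).1 ha
  · intro A B _ _ _ _ _ _ x y _ _ hx _
    exact hx.1.elim

theorem contr_pl (hQ : S_Quot) : S_Contr := by
  classical
  intro W H U Z z hP hZU hz hZ hfin
  have hfz : U ∩ (fun w => if w ∈ Z then z else w) ⁻¹' {z} = Z := by
    ext w
    simp only [Set.mem_inter_iff, Set.mem_preimage, Set.mem_singleton_iff]
    constructor
    · rintro ⟨-, h⟩
      by_cases hw : w ∈ Z
      · exact hw
      · rw [if_neg hw] at h
        exact h ▸ hz
    · intro hw
      exact ⟨hZU hw, if_pos hw⟩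
  have hfz' : U \ (fun w => if w ∈ Z then z else w) ⁻¹' {z} = U \ Z := by
    ext w
    simp only [Set.mem_sdiff, Set.mem_preimage, Set.mem_singleton_iff]
    constructor
    · rintro ⟨hu, h⟩
      exact ⟨hu, fun hw => h (if_pos hw)⟩
    · rintro ⟨hu, hw⟩
      refine ⟨hu, fun h => ?_⟩
      rw [if_neg hw] at h
      exact hw (h ▸ hz)
  have hfx : ∀ x, x ∉ Z → U ∩ (fun w => if w ∈ Z then z else w) ⁻¹' {x} ⊆ {x} := by
    intro x hx w hw
    obtain ⟨-, h⟩ := hw
    simp only [Set.mem_preimage, Set.mem_singleton_iff] at h ⊢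
    by_cases hw : w ∈ Z
    · rw [if_pos hw] at h
      exact absurd (h ▸ hz) hx
    · rwa [if_neg hw] at h
  refine hQ W W H (contr H Z z) U ((U \ Z) ∪ {z}) (fun w => if w ∈ Z then z else w) hP ?_ ?_ ?_ ?_
  · ext x
    constructor
    · rintro ⟨w, hw, rfl⟩
      by_cases hwZ : w ∈ Z
      · right
        simp [hwZ]
      · left
        simpa [hwZ] using hw
    · rintro (hx | hx)
      · exact ⟨x, hx.1, if_neg hx.2⟩
      · refine ⟨z, hZU hz, ?_⟩
        rw [Set.mem_singleton_iff] at hx
        simp [hz, hx]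
  · rintro x (hx | hx)
    · intro a ha b hb
      have h1 : a = x := hfx x hx.2 ha
      have h2 : b = x := hfx x hx.2 hb
      rw [h1, h2]
      exact Relation.ReflTransGen.refl
    · rw [Set.mem_singleton_iff] at hx
      rw [hx, hfz]
      exact hZ
  · rintro x (hx | hx)
    · exact Or.inl ((Set.finite_singleton x).subset (hfx x hx.2))
    · rw [Set.mem_singleton_iff] at hx
      rw [hx, hfz, hfz']
      exact hfin
  · have hU : ∀ x ∈ (U \ Z) ∪ {z}, x ∉ Z → x ∈ U := by
      rintro x (hx | hx) hxZ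
      · exact hx.1
      · rw [Set.mem_singleton_iff] at hx
        exact absurd (hx ▸ hz) hxZ
    intro x hx y hy
    unfold contr
    rw [SimpleGraph.fromRel_adj]
    refine and_congr_right fun hne => ?_
    constructor
    · rintro ((⟨h1, h2, h3⟩ | ⟨h1, h2, b, hb, h3⟩) | (⟨h1, h2, h3⟩ | ⟨h1, h2, b, hb, h3⟩))
      · exact ⟨x, hU x hx h1, y, hU y hy h2, if_neg h1, if_neg h2, h3⟩
      · exact ⟨b, hZU hb, y, hU y hy h2, by simp [hb, h1], if_neg h2, h3.symm⟩
      · exact ⟨x, hU x hx h2, y, hU y hy h1, if_neg h2, if_neg h1, h3.symm⟩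
      · exact ⟨x, hU x hx h2, b, hZU hb, if_neg h2, by simp [hb, h1], h3⟩
    · rintro ⟨a, -, b, -, h1, h2, h3⟩
      by_cases haZ : a ∈ Z
      · by_cases hbZ : b ∈ Z
        · rw [if_pos haZ] at h1
          rw [if_pos hbZ] at h2
          exact absurd (h1.symm.trans h2) hne
        · rw [if_pos haZ] at h1
          rw [if_neg hbZ] at h2
          subst h2
          exact Or.inl (Or.inr ⟨h1.symm, hbZ, a, haZ, h3.symm⟩)
      · rw [if_neg haZ] at h1
        subst h1
        by_cases hbZ : b ∈ Z
        · rw [if_pos hbZ] at h2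
          exact Or.inr (Or.inr ⟨h2.symm, haZ, b, hbZ, h3⟩)
        · rw [if_neg hbZ] at h2
          subst h2
          exact Or.inl (Or.inl ⟨haZ, hbZ, h3⟩)

theorem cut_pl (hQ : S_Quot) : S_Cut := by
  classical
  intro W H U K D hP hfin hKU hK hDU hDK hN
  by_cases hall : ∀ d ∈ D, ∃ k ∈ K, ∃ y, Conn H D d y ∧ H.Adj y k
  swap
  · push Not at hall
    obtain ⟨d, hd, hno⟩ := hall
    have hsub : ∀ u, Conn H U d u → Conn H D d u := by
      intro u hu
      induction hu with
      | refl => exact Relation.ReflTransGen.refl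
      | @tail b c _ hbc ih =>
        have hb : b ∈ D := conn_mem hd ih
        have hc : c ∈ D ∪ K := hN ⟨hbc.2.1, b, hb, hbc.2.2.symm⟩
        rcases hc with hc | hc
        · exact ih.tail ⟨hb, hc, hbc.2.2⟩
        · exact absurd hbc.2.2 (hno c hc b ih)
    have hE : U \ D = ∅ := by
      ext u
      simp only [Set.mem_sdiff, Set.mem_empty_iff_false, iff_false, not_and, not_not]
      intro hu
      exact conn_mem hd (hsub u (hP.conn d (hDU hd) u hu))
    rw [hE]
    exact pl_empty H
  -- a choice of a neighbour in `K` that depends only on the component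
  have hch : ∃ ch : W → W, (∀ d ∈ D, ch d ∈ K ∧ ∃ y, Conn H D d y ∧ H.Adj y (ch d)) ∧
      ∀ d d', Conn H D d d' → ch d = ch d' := by
    have key : ∀ C : Set W, ∃ k : W → W, ∀ w : W, (∃ k' ∈ K, ∃ y ∈ C, H.Adj y k') →
        (k w ∈ K ∧ ∃ y ∈ C, H.Adj y (k w)) ∧ ∀ w', k w' = k w := by
      intro C
      by_cases hC : ∃ k' ∈ K, ∃ y ∈ C, H.Adj y k'
      · obtain ⟨k', hk', hy⟩ := hC
        exact ⟨fun _ => k', fun _ _ => ⟨⟨hk', hy⟩, fun _ => rfl⟩⟩
      · exact ⟨id, fun _ h => absurd h hC⟩
    choose k hk using key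
    refine ⟨fun d => if d ∈ D then k {y | Conn H D d y} d else d, ?_, ?_⟩
    · intro d hd
      obtain ⟨k', hk', y, hy, hyk⟩ := hall d hd
      simp only [if_pos hd]
      exact (hk {y | Conn H D d y} d ⟨k', hk', y, hy, hyk⟩).1
    · intro d d' hdd
      by_cases hd : d ∈ D
      · have hd' : d' ∈ D := conn_mem hd hdd
        have hC : {y | Conn H D d' y} = {y | Conn H D d y} := by
          ext y
          exact ⟨fun h => conn_trans hdd h, fun h => conn_trans (conn_symm hdd) h⟩
        obtain ⟨k', hk', y, hy, hyk⟩ := hall d hd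
        simp only [if_pos hd, if_pos hd', hC]
        exact (hk {y | Conn H D d y} d' ⟨k', hk', y, hy, hyk⟩).2 d
      · have : d' = d := by
          induction hdd with
          | refl => rfl
          | tail _ hbc ih => exact absurd (ih ▸ hbc.1) hd
        rw [this]
  obtain ⟨ch, hch1, hch2⟩ := hch
  have hKD : ∀ k ∈ K, k ∉ D := fun k hk hd => Set.disjoint_left.mp hDK hd hk
  refine hQ W W H H U (U \ D) (fun w => if w ∈ D then ch w else w) hP ?_ ?_ ?_ ?_
  · ext x
    constructor
    · rintro ⟨w, hw, rfl⟩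
      by_cases hwD : w ∈ D
      · simp only [if_pos hwD]
        exact ⟨hKU (hch1 w hwD).1, hKD _ (hch1 w hwD).1⟩
      · simp only [if_neg hwD]
        exact ⟨hw, hwD⟩
    · intro hx
      exact ⟨x, hx.1, if_neg hx.2⟩
  · intro x hx
    have hto : ∀ w ∈ U ∩ (fun w => if w ∈ D then ch w else w) ⁻¹' {x},
        Conn H (U ∩ (fun w => if w ∈ D then ch w else w) ⁻¹' {x}) w x := by
      intro w hw
      have hw2 : (if w ∈ D then ch w else w) = x := hw.2
      by_cases hwD : w ∈ D
      · rw [if_pos hwD] at hw2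
        obtain ⟨-, y, hy, hyk⟩ := hch1 w hwD
        have hmem : ∀ v, Conn H D w v → v ∈ U ∩ (fun w => if w ∈ D then ch w else w) ⁻¹' {x} := by
          intro v hv
          have hvD : v ∈ D := conn_mem hwD hv
          refine ⟨hDU hvD, ?_⟩
          simp only [Set.mem_preimage, Set.mem_singleton_iff, if_pos hvD]
          rw [← hch2 w v hv, hw2]
        have hwalk : ∀ v, Conn H D w v →
            Conn H (U ∩ (fun w => if w ∈ D then ch w else w) ⁻¹' {x}) w v := by
          intro v hv
          induction hv with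
          | refl => exact Relation.ReflTransGen.refl
          | @tail b c hb hbc ih =>
            exact ih.tail ⟨hmem b hb, hmem c (Relation.ReflTransGen.tail hb hbc), hbc.2.2⟩
        refine (hwalk y hy).tail ⟨hmem y hy, ⟨hx.1, ?_⟩, hw2 ▸ hyk⟩
        simp only [Set.mem_preimage, Set.mem_singleton_iff, if_neg hx.2]
      · rw [if_neg hwD] at hw2
        rw [hw2]
        exact Relation.ReflTransGen.refl
    intro a ha b hb
    exact conn_trans (hto a ha) (conn_symm (hto b hb))
  · intro x _
    exact Or.inl (hfin.subset Set.inter_subset_left)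
  · intro x hx y hy
    constructor
    · intro h
      exact ⟨h.ne, x, hx.1, y, hy.1, if_neg hx.2, if_neg hy.2, h⟩
    · rintro ⟨hne, a, ha, b, hb, h1, h2, h3⟩
      by_cases haD : a ∈ D
      · rw [if_pos haD] at h1
        by_cases hbD : b ∈ D
        · rw [if_pos hbD] at h2
          have := hch2 a b (Relation.ReflTransGen.single ⟨haD, hbD, h3⟩)
          exact absurd (h1.symm.trans (this.trans h2)) hne
        · rw [if_neg hbD] at h2
          have hbK : b ∈ K := (hN ⟨hb, a, haD, h3.symm⟩).resolve_left hbD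
          exact hK (h1 ▸ (hch1 a haD).1) (h2 ▸ hbK) hne
      · rw [if_neg haD] at h1
        by_cases hbD : b ∈ D
        · rw [if_pos hbD] at h2
          have haK : a ∈ K := (hN ⟨ha, b, hbD, h3⟩).resolve_left haD
          exact hK (h1 ▸ haK) (h2 ▸ (hch1 b hbD).1) hne
        · rw [if_neg hbD] at h2
          exact h1 ▸ h2 ▸ h3

end CC

/-- Package CC. -/
theorem pkg_CC : S_CC := fun hQ => ⟨CC.contr_pl hQ, CC.cut_pl hQ⟩

end Pool.Agent.P.MP_08fd93_co
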