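import Pool.Agent.P.MP_08fd93_co.StA

/-! Package DLC: the disc lemma for a finite region of a one-ended graph, in rank form. -/

set_option autoImplicit false

namespace Pool.Agent.P.MP_08fd93_co

namespace PkDLC

variable {W : Type} {H : SimpleGraph W}

theorem conn_symm {A : Set W} {a b : W} (h : Conn H A a b) : Conn H A b a := by
  induction h with
  | refl => exact Relation.ReflTransGen.refl
  | tail _ hbc ih => exact Relation.ReflTransGen.head ⟨hbc.2.1, hbc.1, hbc.2.2.symm⟩ ih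

theorem conn_mono {A B : Set W} (hAB : A ⊆ B) {a b : W} (h : Conn H A a b) : Conn H B a b := by
  induction h with
  | refl => exact Relation.ReflTransGen.refl
  | tail _ hbc ih => exact ih.tail ⟨hAB hbc.1, hAB hbc.2.1, hbc.2.2⟩

theorem conn_comp {A : Set W} {z y : W} (h : Conn H A z y) :
    Conn H {y | y ∈ A ∧ Conn H A z y} z y := by
  induction h with
  | refl => exact Relation.ReflTransGen.refl
  | tail hab hbc ih => exact ih.tail ⟨⟨hbc.1, hab⟩, ⟨hbc.2.1, hab.tail hbc⟩, hbc.2.2⟩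

theorem isConn_comp (A : Set W) (z : W) : IsConn H {y | y ∈ A ∧ Conn H A z y} :=
  fun _ ha _ hb => (conn_symm (conn_comp ha.2)).trans (conn_comp hb.2)

theorem le2_mono {v : W} {A B : Set W} (hAB : A ⊆ B) (h : Le2 H v B) : Le2 H v A :=
  fun a ha b hb c hc => h a (hAB ha) b (hAB hb) c (hAB hc)

theorem exists_rank (S : Set W) (n : ℕ) : ∀ R : Set W, R.Finite → R.ncard = n → Deg2 H S R →
    ∃ r : W → ℕ, ∀ v ∈ R, Le2 H v (S ∪ {u | u ∈ R ∧ r u ≤ r v}) := by
  classical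
  induction n with
  | zero =>
    intro R hR h0 _
    rw [Set.ncard_eq_zero hR] at h0
    exact ⟨fun _ => 0, fun v hv => by simp [h0] at hv⟩
  | succ n ih =>
    intro R hR hn hD
    have hne : R.Nonempty := Set.nonempty_of_ncard_ne_zero (by omega)
    obtain ⟨v0, hv0, hle⟩ := hD R subset_rfl hne
    obtain ⟨r, hr⟩ := ih (R \ {v0}) hR.sdiff
      (by rw [Set.ncard_sdiff_singleton_of_mem hv0]; omega)
      fun T hT hTne => hD T (hT.trans Set.sdiff_subset) hTne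
    obtain ⟨m, hm⟩ := (hR.image r).bddAbove
    refine ⟨Function.update r v0 (m + 1), fun v hv => ?_⟩
    by_cases e : v = v0
    · subst e
      refine le2_mono ?_ hle
      rintro u (hu | hu)
      · exact Or.inr hu
      · exact Or.inl hu.1
    · refine le2_mono ?_ (hr v ⟨hv, e⟩)
      rintro u (hu | ⟨hu, hu'⟩)
      · exact Or.inl hu
      · rw [Function.update_of_ne e] at hu'
        have h1 : r v ≤ m := hm ⟨v, hv, rfl⟩
        have e' : u ≠ v0 := by
          rintro rfl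
          rw [Function.update_self] at hu'
          omega
        rw [Function.update_of_ne e'] at hu'
        exact Or.inr ⟨⟨hu, e'⟩, hu'⟩

theorem contr_adj {Z : Set W} {z x y : W} (hx : x ∉ Z) (hy : y ∉ Z) (h : H.Adj x y) :
    (contr H Z z).Adj x y :=
  (SimpleGraph.fromRel_adj _ _ _).2 ⟨h.ne, Or.inl (Or.inl ⟨hx, hy, h⟩)⟩

theorem contr_nb {Z : Set W} {z x : W} (hz : z ∈ Z) (hx : x ∉ Z) (h : x ∈ Nb H Z) :
    x ∈ Nb (contr H Z z) {z} :=
  ⟨z, rfl, (SimpleGraph.fromRel_adj _ _ _).2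
    ⟨fun e => hx (e ▸ hz), Or.inr (Or.inr ⟨rfl, hx, h⟩)⟩⟩

theorem le2_contr {Z : Set W} {z v : W} {B : Set W} (hv : v ∉ Z) (hB : ∀ x ∈ B, x ∉ Z)
    (h : Le2 (contr H Z z) v B) : Le2 H v B :=
  fun a ha b hb c hc h1 h2 h3 => h a ha b hb c hc (contr_adj hv (hB a ha) h1)
    (contr_adj hv (hB b hb) h2) (contr_adj hv (hB c hc) h3)

end PkDLC

open PkDLC in
theorem pkg_DLC : S_DLC := by
  intro hC hDL W H A S Z hPl hOE hA hSA hS hcl hZ hZi hZA hSZ
  obtain ⟨z, hz⟩ := hZi.nonempty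
  set I : Set W := {y | y ∈ Aᶜ ∧ Conn H Aᶜ z y} with hI
  have hZA' : Z ⊆ Aᶜ := fun x hx => Set.disjoint_left.1 hZA hx
  have hZI : Z ⊆ I := fun x hx => ⟨hZA' hx, conn_mono hZA' (hZ z hz x hx)⟩
  have hAI : ∀ x ∈ A, x ∉ I := fun x hx h => h.1 hx
  have hfin : (Set.univ \ I).Finite := by
    obtain ⟨Z', hc, hf, hd⟩ := hOE A hA
    have hZ'A : Z' ⊆ Aᶜ := fun x hx => Set.disjoint_left.1 hd hx
    obtain ⟨w, hw, hw'⟩ := hZi.exists_notMem_finite hf
    have hw'' : w ∈ Z' := by simpa using hw'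
    refine hf.subset fun x hx hx' => hx.2 ⟨hZ'A hx', ?_⟩
    exact (hZI hw).2.trans (conn_mono hZ'A (hc w hw'' x hx'))
  have hnb : ∀ x, x ∉ I → x ∈ Nb H Z → x ∈ Nb (contr H I z) {z} := fun x hx h =>
    contr_nb (hZI hz) hx (by
      obtain ⟨b, hb, hxb⟩ := h
      exact ⟨b, hZI hb, hxb⟩)
  obtain ⟨X, hX, hX2, hD⟩ := hDL W (contr H I z) ((Set.univ \ I) ∪ {z}) z S
    { fin := hfin.union (Set.finite_singleton z)
      pl := hC W H Set.univ I z hPl (Set.subset_univ _) (hZI hz) (isConn_comp _ _) (Or.inr hfin)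
      hz := Or.inr rfl
      sub := fun x hx => ⟨Or.inl ⟨trivial, hAI x (hSA hx)⟩, hnb x (hAI x (hSA hx)) (hSZ hx)⟩
      card := hS
      clq := fun x hx y hy hxy => contr_adj (hAI x (hSA hx)) (hAI y (hSA hy)) (hcl hx hy hxy) }
  have hD' : Deg2 H S (A \ (S ∪ X ∩ A)) := by
    intro T hT hne
    obtain ⟨v, hv, hle⟩ := hD T (fun x hx => ⟨Or.inl ⟨trivial, hAI x (hT hx).1⟩, by
      rintro ((e | e) | e)
      · exact hAI x (hT hx).1 (e ▸ hZI hz)
      · exact (hT hx).2 (Or.inl e)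
      · exact (hT hx).2 (Or.inr ⟨e, (hT hx).1⟩)⟩) hne
    refine ⟨v, hv, le2_contr (hAI v (hT hv).1) ?_ hle⟩
    rintro x (hx | hx)
    · exact hAI x (hT hx).1
    · exact hAI x (hSA hx)
  obtain ⟨r, hr⟩ := exists_rank S _ _ hA.sdiff rfl hD'
  refine ⟨X ∩ A, r, fun x hx => ⟨hx.2, fun h => (hX hx.1).2 (Or.inr (hnb x (hAI x hx.2) h))⟩,
    fun x hx => le2_contr (hAI x hx.2) (fun y hy => hAI y hy.2)
      (le2_mono Set.inter_subset_left (hX2 x hx.1)), fun v hv => le2_mono ?_ (hr v hv)⟩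
  rintro u (hu | ⟨hu, hu'⟩)
  · exact Or.inl hu
  · by_cases huS : u ∈ S
    · exact Or.inl huS
    · exact Or.inr ⟨⟨hu.1, fun h => h.elim huS hu.2⟩, hu'⟩

end Pool.Agent.P.MP_08fd93_co
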