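import Pool.Agent.P.MP_08fd93_co.StA

/-! Package DLa: a separating clique of outer vertices. -/

set_option autoImplicit false

namespace Pool.Agent.P.MP_08fd93_co

namespace DLa

variable {W : Type} {H : SimpleGraph W}

theorem symm {A : Set W} {a b : W} (h : Conn H A a b) : Conn H A b a := by
  induction h with
  | refl => exact .refl
  | tail _ h ih => exact .head ⟨h.2.1, h.1, h.2.2.symm⟩ ih

theorem le2 {v : W} {A B : Set W} (h : Le2 H v A) (hB : ∀ a ∈ B, H.Adj v a → a ∈ A) :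
    Le2 H v B := fun a ha b hb c hc h1 h2 h3 =>
  h a (hB a ha h1) b (hB b hb h2) c (hB c hc h3) h1 h2 h3

theorem nb_single {z x : W} : x ∈ Nb H {z} ↔ H.Adj x z := by simp [Nb]

end DLa

open DLa in
theorem pkg_DLa : S_DLa := by
  intro hcut W H U z S hS ih hn
  simp only [NoCut, not_forall] at hn
  obtain ⟨K, hK, hK2, hKc, hn⟩ := hn
  have hSA : ∀ s ∈ S, s ≠ z := fun s hs e => (nb_single.1 (hS.sub hs).2).ne e
  obtain ⟨x, hx, y, hy, hxy, hD⟩ : ∃ x ∈ U \ ({z} ∪ K), ∃ y ∈ U \ ({z} ∪ K),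
      ¬ Conn H (U \ ({z} ∪ K)) x y ∧
        ∀ s ∈ S, s ∈ U \ ({z} ∪ K) → ¬ Conn H (U \ ({z} ∪ K)) x s := by
    simp only [IsConn, not_forall] at hn
    obtain ⟨a, ha, b, hb, hab⟩ := hn
    by_contra! h
    obtain ⟨s, hs, h1, h2⟩ := h a ha b hb hab
    obtain ⟨t, ht, h3, h4⟩ := h b hb a ha fun e => hab (symm e)
    refine hab (h2.trans (.trans ?_ (symm h4)))
    by_cases e : s = t
    · exact e ▸ .refl
    · exact .single ⟨h1, h3, hS.clq hs ht e⟩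
  obtain ⟨D, hDA, hxD, hyD, hDS, hcl⟩ : ∃ D ⊆ U \ ({z} ∪ K), x ∈ D ∧ y ∉ D ∧ (∀ s ∈ S, s ∉ D) ∧
      ∀ d ∈ D, ∀ u ∈ U \ ({z} ∪ K), H.Adj d u → u ∈ D :=
    ⟨{u | u ∈ U \ ({z} ∪ K) ∧ Conn H (U \ ({z} ∪ K)) x u}, fun _ h => h.1, ⟨hx, .refl⟩,
      fun h => hxy h.2, fun s hs h => hD s hs h.1 h.2,
      fun d hd u hu h => ⟨hu, hd.2.tail ⟨hd.1, hu, h⟩⟩⟩
  have hK' : {z} ∪ K ⊆ U := Set.union_subset (Set.singleton_subset_iff.2 hS.hz) fun k h => (hK h).1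
  have hc : H.IsClique ({z} ∪ K) := by
    rintro a (rfl | ha) b (rfl | hb) hab
    · exact absurd rfl hab
    · exact (nb_single.1 (hK hb).2).symm
    · exact nb_single.1 (hK ha).2
    · exact hKc ha hb hab
  have hlt : ∀ E ⊆ U, E.Nonempty → (U \ E).ncard < U.ncard := fun E _ ⟨e, he⟩ =>
    Set.ncard_lt_ncard ⟨Set.sdiff_subset, fun h => (h (‹E ⊆ U› he)).2 he⟩ hS.fin
  have hDU : D ⊆ U := fun d h => (hDA h).1
  obtain ⟨X1, h1, h2, h3⟩ := ih H (U \ D) z S (hlt D hDU ⟨x, hxD⟩)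
    ⟨hS.fin.sdiff, hcut W H U _ D hS.pl hS.fin hK' hc hDU
      (Set.disjoint_left.2 fun d h => (hDA h).2) (by
        rintro u ⟨hu, d, hd, h⟩
        by_cases e : u ∈ {z} ∪ K
        · exact Or.inr e
        · exact Or.inl (hcl d hd u ⟨hu, e⟩ h.symm)),
      ⟨hS.hz, fun h => (hDA h).2 (Or.inl rfl)⟩,
      fun s hs => ⟨⟨(hS.sub hs).1, hDS s hs⟩, (hS.sub hs).2⟩, hS.card, hS.clq⟩
  obtain ⟨X2, h4, h5, h6⟩ := ih H (U \ ((U \ ({z} ∪ K)) \ D)) z K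
    (hlt _ (fun _ h => h.1.1) ⟨y, hy, hyD⟩)
    ⟨hS.fin.sdiff, hcut W H U _ _ hS.pl hS.fin hK' hc (fun _ h => h.1.1)
      (Set.disjoint_left.2 fun d h => h.1.2) (by
        rintro u ⟨hu, d, hd, h⟩
        by_cases e : u ∈ {z} ∪ K
        · exact Or.inr e
        · exact Or.inl ⟨⟨hu, e⟩, fun hu' => hd.2 (hcl u hu' d hd.1 h)⟩),
      ⟨hS.hz, fun h => h.1.2 (Or.inl rfl)⟩,
      fun k hk => ⟨⟨(hK hk).1, fun h => h.1.2 (Or.inr hk)⟩, (hK hk).2⟩, hK2, hKc⟩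
  have hX1 : ∀ u ∈ X1, u ∈ U \ ({z} ∪ K) := fun u hu => ⟨(h1 hu).1.1, fun h =>
    (h1 hu).2 (h.imp_right fun h => (hK h).2)⟩
  have hX2 : ∀ u ∈ X2, u ∈ D := fun u hu => by
    by_contra e
    exact (h4 hu).1.2 ⟨⟨(h4 hu).1.1, fun h => (h4 hu).2 (h.imp_right fun h => (hK h).2)⟩, e⟩
  refine ⟨X1 ∪ X2, ?_, ?_, fun T hT hne => ?_⟩
  · rintro u (hu | hu)
    · exact ⟨(h1 hu).1.1, (h1 hu).2⟩
    · exact ⟨(h4 hu).1.1, (h4 hu).2⟩
  · rintro u (hu | hu)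
    · exact le2 (h2 u hu) fun a ha h => ha.resolve_right fun e =>
        (h1 hu).1.2 (hcl a (hX2 a e) u (hX1 u hu) h.symm)
    · exact le2 (h5 u hu) fun a ha h => ha.resolve_left fun e =>
        (h1 e).1.2 (hcl u (hX2 u hu) a (hX1 a e) h)
  · by_cases hTD : (T ∩ D).Nonempty
    · obtain ⟨v, hv, h⟩ := h6 (T ∩ D) (fun u hu => ⟨⟨hDU hu.2, fun h => h.2 hu.2⟩, fun h =>
        h.elim (hDA hu.2).2 fun h => (hT hu.1).2 (Or.inr (Or.inr h))⟩) hTD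
      refine ⟨v, hv.1, le2 h fun a ha e => ?_⟩
      by_cases hk : a ∈ K
      · exact Or.inr hk
      · have haD : a ∈ D := hcl v hv.2 a ⟨ha.elim (fun h => (hT h).1) fun h => (hS.sub h).1,
          fun h => h.elim (fun h => ha.elim (fun h' => (hT h').2 (Or.inl (Or.inl h)))
            fun h' => hSA a h' h) hk⟩ e
        exact Or.inl ⟨ha.resolve_right fun h => hDS a h haD, haD⟩
    · exact h3 T (fun u hu => ⟨⟨(hT hu).1, fun h => hTD ⟨u, hu, h⟩⟩, fun h =>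
        (hT hu).2 (h.imp_right Or.inl)⟩) hne

end Pool.Agent.P.MP_08fd93_co
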