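import Pool.Agent.P.MP_08fd93_co.StA

set_option autoImplicit false

namespace Pool.Agent.P.MP_08fd93_co

namespace PkDLb

variable {W : Type} {H : SimpleGraph W}

theorem mem_nb {z x : W} : x ∈ Nb H {z} ↔ H.Adj x z := by
  constructor
  · rintro ⟨b, hb, h⟩
    rw [Set.mem_singleton_iff] at hb
    rwa [hb] at h
  · intro h
    exact ⟨z, rfl, h⟩

theorem first_step {A : Set W} {a b : W} (h : Conn H A a b) (hne : a ≠ b) :
    ∃ y ∈ A, H.Adj a y := by
  rcases Relation.ReflTransGen.cases_head h with h1 | ⟨y, ⟨-, hy, hadj⟩, -⟩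
  · exact (hne h1).elim
  · exact ⟨y, hy, hadj⟩

theorem isConn_singleton (a : W) : IsConn H {a} := by
  intro x hx y hy
  rw [Set.mem_singleton_iff] at hx hy
  rw [hx, hy]
  exact Relation.ReflTransGen.refl

theorem exists_apex {U S : Set W} {z : W} (hs : Setup H U z S) (hn : NoCut H U z)
    {p0 : W} (hp0 : p0 ∈ U \ ({z} ∪ S)) :
    ∃ p ∈ U \ ({z} ∪ S), ∀ a ∈ S, H.Adj a p := by
  have hSz : ∀ a ∈ S, a ≠ z := fun a ha => (mem_nb.1 (hs.sub ha).2).ne
  have hSU : ∀ a ∈ S, a ∈ U := fun a ha => (hs.sub ha).1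
  have hfin : S.Finite := hs.fin.subset fun a ha => hSU a ha
  have hone : ∀ a ∈ S, IsConn H (U \ ({z} ∪ {a})) := fun a ha =>
    hn {a} (Set.singleton_subset_iff.2 (hs.sub ha)) (by simp) (Set.pairwise_singleton _ _)
  have hp0U := hp0.1
  have hp0z : p0 ≠ z := fun h => hp0.2 (Or.inl h)
  have hp0S : p0 ∉ S := fun h => hp0.2 (Or.inr h)
  have hc := hs.card
  rcases Nat.lt_or_ge S.ncard 1 with h0 | h1
  · have : S = ∅ := (Set.ncard_eq_zero hfin).1 (by omega)
    exact ⟨p0, hp0, fun a ha => by simp [this] at ha⟩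
  rcases Nat.lt_or_ge S.ncard 2 with h1' | h2
  · obtain ⟨a, ha⟩ := Set.ncard_eq_one.1 (show S.ncard = 1 by omega)
    have haS : a ∈ S := by simp [ha]
    have hco : IsConn H (U \ ({z} ∪ ∅)) :=
      hn ∅ (Set.empty_subset _) (by simp) (Set.pairwise_empty _)
    obtain ⟨y, hy, hadj⟩ := first_step
      (hco a ⟨hSU a haS, by simpa using hSz a haS⟩ p0 ⟨hp0U, by simpa using hp0z⟩)
      (fun h => hp0S (h ▸ haS))
    refine ⟨y, ⟨hy.1, ?_⟩, ?_⟩
    · rintro (h | h)
      · exact hy.2 (Or.inl h)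
      · rw [ha, Set.mem_singleton_iff] at h
        exact hadj.ne h.symm
    · intro a' ha'
      rw [ha, Set.mem_singleton_iff] at ha'
      rwa [ha']
  · obtain ⟨a, b, hab, hS⟩ := Set.ncard_eq_two.1 (show S.ncard = 2 by omega)
    have haS : a ∈ S := by simp [hS]
    have hbS : b ∈ S := by simp [hS]
    have hadj : H.Adj a b := hs.clq haS hbS hab
    obtain ⟨y, hy, hay⟩ := first_step
      (hone b hbS a ⟨hSU a haS, by simp [hSz a haS, hab]⟩ p0
        ⟨hp0U, by
          rintro (h | h)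
          · exact hp0z h
          · exact hp0S (h ▸ hbS)⟩)
      (fun h => hp0S (h ▸ haS))
    have hyz : y ≠ z := fun h => hy.2 (Or.inl h)
    have hyb : y ≠ b := fun h => hy.2 (Or.inr h)
    have hb' : b ∈ U \ ({z} ∪ {a}) := ⟨hSU b hbS, by simp [hSz b hbS, hab.symm]⟩
    have hy' : y ∈ U \ ({z} ∪ {a}) := ⟨hy.1, by simp [hyz, hay.ne.symm]⟩
    have ht := hs.pl.tim {z} {a} (Set.singleton_subset_iff.2 hs.hz)
      (Set.singleton_subset_iff.2 (hSU a haS)) (Set.disjoint_singleton.2 (hSz a haS).symm)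
      (isConn_singleton z) (isConn_singleton a) (Or.inl (Set.finite_singleton a)) b y
      (mem_nb.2 hadj.symm) (mem_nb.2 hay.symm) hb' (hone a haS b hb' y hy')
    obtain ⟨p, hp, hbp⟩ := first_step ht hyb.symm
    refine ⟨p, ⟨hp.1.1, ?_⟩, ?_⟩
    · rintro (h | h)
      · exact hp.2 (Or.inl h)
      · rw [hS] at h
        rcases h with h | h
        · exact hp.2 (Or.inr h)
        · exact hbp.ne (Set.mem_singleton_iff.1 h).symm
    · intro a' ha'
      rw [hS] at ha'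
      rcases ha' with h | h
      · rw [h]
        exact (mem_nb.1 hp.1.2).symm
      · rw [Set.mem_singleton_iff.1 h]
        exact hbp

end PkDLb

open PkDLb in
theorem pkg_DLb : S_DLb := by
  intro hcut W H U z S hs hih hn hO
  by_cases hD : (U \ ({z} ∪ S)).Nonempty
  swap
  · refine ⟨∅, Set.empty_subset _, fun x hx => hx.elim, fun T hT hne => ?_⟩
    obtain ⟨v, hv⟩ := hne
    exact (hD ⟨v, by simpa using hT hv⟩).elim
  obtain ⟨p0, hp0⟩ := hD
  obtain ⟨p, hp, hpa⟩ := exists_apex hs hn hp0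
  have hSz : ∀ a ∈ S, a ≠ z := fun a ha => (mem_nb.1 (hs.sub ha).2).ne
  have hSU : S ⊆ U := fun a ha => (hs.sub ha).1
  have hpz : p ≠ z := fun h => hp.2 (Or.inl h)
  have hpS : p ∉ S := fun h => hp.2 (Or.inr h)
  have hpl : Pl H (U \ {z}) := hcut W H U S {z} hs.pl hs.fin hSU hs.clq
    (Set.singleton_subset_iff.2 hs.hz) (Set.disjoint_singleton_left.2 fun h => hSz z h rfl)
    (by rw [hO]; exact Set.subset_union_right)
  have hs' : Setup H (U \ {z}) p S :=
    ⟨hs.fin.sdiff, hpl, ⟨hp.1, hpz⟩, fun a ha => ⟨⟨hSU ha, hSz a ha⟩, mem_nb.2 (hpa a ha)⟩,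
      hs.card, hs.clq⟩
  obtain ⟨X, hX, hle, hdeg⟩ := hih H (U \ {z}) p S
    (Set.ncard_sdiff_singleton_lt_of_mem hs.hz hs.fin) hs'
  have hXp : ∀ x ∈ X, ¬ H.Adj x p := fun x hx h => (hX hx).2 (Or.inr (mem_nb.2 h))
  have hnz : ∀ x ∈ U, x ∉ S → x ∉ Nb H {z} := fun x hx hxS h => hxS (hO ▸ ⟨hx, h⟩)
  refine ⟨insert p X, ?_, ?_, ?_⟩
  · rintro x (rfl | hx)
    · refine ⟨hp.1, ?_⟩
      rintro (h | h)
      · exact hpz h
      · exact hnz x hp.1 hpS h
    · refine ⟨(hX hx).1.1, ?_⟩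
      rintro (h | h)
      · exact (hX hx).1.2 h
      · exact hnz x (hX hx).1.1 (fun hxS => hXp x hx (hpa x hxS)) h
  · rintro x (rfl | hx)
    · rintro a (rfl | ha) b - c - h1 - -
      · exact (h1.ne rfl).elim
      · exact (hXp a ha h1.symm).elim
    · have key : ∀ a ∈ insert p X, H.Adj x a → a ∈ X := by
        rintro a (rfl | ha) h
        · exact (hXp x hx h).elim
        · exact ha
      intro a ha b hb c hc h1 h2 h3
      exact hle x hx a (key a ha h1) b (key b hb h2) c (key c hc h3) h1 h2 h3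
  · intro T hT hne
    refine hdeg T (fun v hv => ?_) hne
    obtain ⟨h1, h2⟩ := hT hv
    refine ⟨⟨h1, fun h => h2 (Or.inl (Or.inl h))⟩, ?_⟩
    rintro ((h | h) | h)
    · exact h2 (Or.inr (Or.inl h))
    · exact h2 (Or.inl (Or.inr h))
    · exact h2 (Or.inr (Or.inr h))

end Pool.Agent.P.MP_08fd93_co
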