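import Pool.Agent.P.MP_08fd93_co.StA

/-! Package DLd: peeling an outer vertex that is not a root. -/

set_option autoImplicit false

namespace Pool.Agent.P.MP_08fd93_co

namespace PkDLd

variable {W : Type}

lemma le2_of {H H' : SimpleGraph W} {v : W} {A A' : Set W} (h : Le2 H' v A')
    (hA : ∀ y ∈ A, H.Adj v y → y ∈ A' ∧ H'.Adj v y) : Le2 H v A :=
  fun a ha b hb c hc h1 h2 h3 => h a (hA a ha h1).1 b (hA b hb h2).1 c (hA c hc h3).1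
    (hA a ha h1).2 (hA b hb h2).2 (hA c hc h3).2

lemma adj_out {H : SimpleGraph W} {Z : Set W} {z x y : W} (hx : x ∉ Z) (hy : y ∉ Z)
    (h : H.Adj x y) : (contr H Z z).Adj x y := by
  unfold contr
  rw [SimpleGraph.fromRel_adj]
  exact ⟨h.ne, Or.inl (Or.inl ⟨hx, hy, h⟩)⟩

lemma adj_apex {H : SimpleGraph W} {Z : Set W} {z x : W} (hz : z ∈ Z) (hx : x ∉ Z)
    (h : x ∈ Nb H Z) : x ∈ Nb (contr H Z z) {z} := by
  refine ⟨z, rfl, ?_⟩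
  unfold contr
  rw [SimpleGraph.fromRel_adj]
  exact ⟨fun e => hx (e ▸ hz), Or.inr (Or.inr ⟨rfl, hx, h⟩)⟩

lemma useIH (hC : S_Contr) {H : SimpleGraph W} {U Z S : Set W} {z b : W} (hf : U.Finite)
    (hp : Pl H U) (ih : IH W U.ncard) (hZ : Z ⊆ U) (hz : z ∈ Z) (hc : IsConn H Z) (hb : b ∈ Z)
    (hbz : b ≠ z) (hS : S ⊆ (U \ Z) ∩ Nb H Z) (h2 : S.ncard ≤ 2) (hq : H.IsClique S) :
    ∃ X : Set W, X ⊆ (U \ Z) \ Nb H Z ∧ (∀ x ∈ X, Le2 H x X) ∧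
      Deg2 H S ((U \ Z) \ (S ∪ X)) := by
  have hsub : (U \ Z) ∪ {z} ⊆ U := by
    rintro x (hx | rfl)
    · exact hx.1
    · exact hZ hz
  have hlt : ((U \ Z) ∪ {z}).ncard < U.ncard := by
    refine Set.ncard_lt_ncard ⟨hsub, fun h => ?_⟩ hf
    rcases h (hZ hb) with h | h
    · exact h.2 hb
    · exact hbz h
  have hset : Setup (contr H Z z) ((U \ Z) ∪ {z}) z S :=
    { fin := hf.subset hsub
      pl := hC W H U Z z hp hZ hz hc (Or.inl (hf.subset hZ))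
      hz := Or.inr rfl
      sub := fun s hs => ⟨Or.inl (hS hs).1, adj_apex hz (hS hs).1.2 (hS hs).2⟩
      card := h2
      clq := fun s hs t ht hne => adj_out (hS hs).1.2 (hS ht).1.2 (hq hs ht hne) }
  obtain ⟨X, hX, hX2, hD⟩ := ih _ _ _ _ hlt hset
  have hX' : X ⊆ (U \ Z) \ Nb H Z := by
    intro x hx
    obtain ⟨h1 | h1, h3⟩ := hX hx
    · exact ⟨h1, fun h => h3 (Or.inr (adj_apex hz h1.2 h))⟩
    · exact absurd (Or.inl h1) h3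
  refine ⟨X, hX', fun x hx => le2_of (hX2 x hx) fun y hy h =>
    ⟨hy, adj_out (hX' hx).1.2 (hX' hy).1.2 h⟩, fun T hT hne => ?_⟩
  obtain ⟨v, hv, h⟩ := hD T (fun t ht => ⟨Or.inl (hT ht).1, by
    rintro ((h | h) | h)
    · exact (hT ht).1.2 (h ▸ hz)
    · exact (hT ht).2 (Or.inl h)
    · exact (hT ht).2 (Or.inr h)⟩) hne
  refine ⟨v, hv, le2_of h fun y hy h => ⟨hy, adj_out (hT hv).1.2 ?_ h⟩⟩
  rcases hy with hy | hy
  · exact (hT hy).1.2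
  · exact (hS hy).1.2

lemma pocket (hC : S_Contr) {H : SimpleGraph W} {U Q : Set W} {z a b c : W} (hf : U.Finite)
    (hp : Pl H U) (ih : IH W U.ncard) (hz : z ∈ U) (hQ : Q ⊆ U \ ({z} ∪ Nb H {z}))
    (ha : a ∈ U ∩ Nb H {z} ∩ Nb H {b}) (hb : b ∈ U ∩ Nb H {z})
    (hc : c ∈ U ∩ Nb H {z} ∩ Nb H {b}) (hac : a ≠ c) (hcon : IsConn H (U \ (Q ∪ {a, b}))) :
    ∃ X : Set W, X ⊆ Q ∧ (∀ x ∈ X, ∀ y ∈ U, H.Adj x y → y ∈ Q ∪ {a, b}) ∧
      (∀ x ∈ X, Le2 H x X) ∧ Deg2 H {a, b} (Q \ X) := by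
  obtain ⟨⟨ha1, _, rfl, ha2⟩, _, rfl, ha3⟩ := ha
  obtain ⟨⟨hc1, z', hz', hc2⟩, b', hb', hc3⟩ := hc
  obtain ⟨hb1, z'', hz'', hb2⟩ := hb
  rw [Set.mem_singleton_iff] at hz' hb' hz''
  subst z' b' z''
  rename_i z b
  have hzZ : z ∈ U \ (Q ∪ {a, b}) := by
    refine ⟨hz, ?_⟩
    rintro (h | h | h)
    · exact (hQ h).2 (Or.inl rfl)
    · exact ha2.ne h.symm
    · exact hb2.ne (Eq.symm h)
  obtain ⟨X, hX, hX2, hD⟩ := useIH hC (S := {a, b}) (b := c) hf hp ih Set.sdiff_subset hzZ hcon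
    ⟨hc1, by
      rintro (h | h | h)
      · exact (hQ h).2 (Or.inr ⟨z, rfl, hc2⟩)
      · exact hac h.symm
      · exact hc3.ne h⟩ hc2.ne
    (by
      rintro s (rfl | rfl)
      · exact ⟨⟨ha1, fun h => h.2 (Or.inr (Or.inl rfl))⟩, z, hzZ, ha2⟩
      · exact ⟨⟨hb1, fun h => h.2 (Or.inr (Or.inr rfl))⟩, z, hzZ, hb2⟩)
    ((Set.ncard_insert_le _ _).trans (by simp)) (by
      rw [SimpleGraph.isClique_pair]
      exact fun _ => ha3)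
  refine ⟨X, fun x hx => ?_, fun x hx y hy h => ?_, hX2, fun T hT hne => hD T (fun t ht => ?_) hne⟩
  · obtain ⟨⟨h1, h2⟩, h3⟩ := hX hx
    by_contra h4
    refine h2 ⟨h1, ?_⟩
    rintro (h | rfl | rfl)
    · exact h4 h
    · exact h3 ⟨z, hzZ, ha2⟩
    · exact h3 ⟨z, hzZ, hb2⟩
  · by_contra h4
    exact (hX hx).2 ⟨y, ⟨hy, h4⟩, h⟩
  · obtain ⟨h1, h2⟩ := hT ht
    refine ⟨⟨(hQ h1).1, fun h => h.2 (Or.inl h1)⟩, ?_⟩
    rintro ((rfl | rfl) | h)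
    · exact (hQ h1).2 (Or.inr ⟨z, rfl, ha2⟩)
    · exact (hQ h1).2 (Or.inr ⟨z, rfl, hb2⟩)
    · exact h2 h

end PkDLd

open PkDLd in
theorem pkg_DLd : S_DLd := by
  intro hC W H U z S a b c P Qa Qc hs ih hb hac hab hP
  have ha : a ∈ U ∩ Nb H {z} ∩ Nb H {b} := by rw [hab]; exact Or.inl rfl
  have hc : c ∈ U ∩ Nb H {z} ∩ Nb H {b} := by rw [hab]; exact Or.inr rfl
  have sP : P ⊆ U \ ({z} ∪ Nb H {z}) := fun x hx => hP.sub (Or.inl (Or.inl hx))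
  have sa : Qa ⊆ U \ ({z} ∪ Nb H {z}) := fun x hx => hP.sub (Or.inl (Or.inr hx))
  have sc : Qc ⊆ U \ ({z} ∪ Nb H {z}) := fun x hx => hP.sub (Or.inr hx)
  have nz : ∀ x ∈ Nb H {z}, x ≠ z := by
    rintro x ⟨_, rfl, h⟩
    exact h.ne
  have nZ : ∀ x ∈ Nb H {z}, x ∈ Nb H ({z, b} ∪ P ∪ Qa ∪ Qc) := by
    rintro x ⟨_, rfl, h⟩
    exact ⟨_, Or.inl (Or.inl (Or.inl (Or.inl rfl))), h⟩
  obtain ⟨Xa, a1, a2, a3, a4⟩ := pocket hC hs.fin hs.pl ih hs.hz sa ha hb.1 hc hac hP.ca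
  obtain ⟨Xc, c1, c2, c3, c4⟩ := pocket hC hs.fin hs.pl ih hs.hz sc hc hb.1 ha hac.symm hP.cc
  obtain ⟨X, x1, x3, x4⟩ := useIH hC (Z := {z, b} ∪ P ∪ Qa ∪ Qc) (S := S) (z := z) (b := b)
    hs.fin hs.pl ih
    (by
      rintro x ((((rfl | rfl) | h) | h) | h)
      · exact hs.hz
      · exact hb.1.1
      · exact (sP h).1
      · exact (sa h).1
      · exact (sc h).1)
    (Or.inl (Or.inl (Or.inl (Or.inl rfl)))) hP.c0 (Or.inl (Or.inl (Or.inl (Or.inr rfl))))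
    (nz b hb.1.2)
    (by
      intro s h
      have h1 := hs.sub h
      refine ⟨⟨h1.1, ?_⟩, nZ s h1.2⟩
      rintro ((((h2 | rfl) | h2) | h2) | h2)
      · exact nz s h1.2 h2
      · exact hb.2 h
      · exact (sP h2).2 (Or.inr h1.2)
      · exact (sa h2).2 (Or.inr h1.2)
      · exact (sc h2).2 (Or.inr h1.2))
    hs.card hs.clq
  have sX : P ∪ X ∪ Xa ∪ Xc ⊆ U \ ({z} ∪ Nb H {z}) := by
    rintro x (((h | h) | h) | h)
    · exact sP h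
    · refine ⟨(x1 h).1.1, ?_⟩
      rintro (h1 | h1)
      · exact (x1 h).1.2 (Or.inl (Or.inl (Or.inl (Or.inl h1))))
      · exact (x1 h).2 (nZ x h1)
    · exact sa (a1 h)
    · exact sc (c1 h)
  have ka : ∀ x ∈ Xa, ∀ y ∈ P ∪ X ∪ Xa ∪ Xc, H.Adj x y → y ∈ Qa := by
    intro x hx y hy h
    rcases a2 x hx y (sX hy).1 h with h1 | rfl | rfl
    · exact h1
    · exact absurd (Or.inr ha.1.2) (sX hy).2
    · exact absurd (Or.inr hb.1.2) (sX hy).2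
  have kc : ∀ x ∈ Xc, ∀ y ∈ P ∪ X ∪ Xa ∪ Xc, H.Adj x y → y ∈ Qc := by
    intro x hx y hy h
    rcases c2 x hx y (sX hy).1 h with h1 | rfl | rfl
    · exact h1
    · exact absurd (Or.inr hc.1.2) (sX hy).2
    · exact absurd (Or.inr hb.1.2) (sX hy).2
  refine ⟨P ∪ X ∪ Xa ∪ Xc, sX, ?_, ?_⟩
  · intro x hx
    rcases id hx with ((h | h) | h) | h
    · refine le2_of (hP.le2 x h) fun y hy e => ⟨?_, e⟩
      rcases hy with ((h1 | h1) | h1) | h1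
      · exact h1
      · exact absurd ⟨x, Or.inl (Or.inl (Or.inr h)), e.symm⟩ (x1 h1).2
      · exact absurd (ka y h1 x hx e.symm) (Set.disjoint_left.1 hP.d1 h)
      · exact absurd (kc y h1 x hx e.symm) (Set.disjoint_left.1 hP.d2 h)
    · refine le2_of (x3 x h) fun y hy e => ⟨?_, e⟩
      rcases hy with ((h1 | h1) | h1) | h1
      · exact absurd ⟨y, Or.inl (Or.inl (Or.inr h1)), e⟩ (x1 h).2
      · exact h1
      · exact absurd ⟨y, Or.inl (Or.inr (a1 h1)), e⟩ (x1 h).2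
      · exact absurd ⟨y, Or.inr (c1 h1), e⟩ (x1 h).2
    · refine le2_of (a3 x h) fun y hy e => ⟨?_, e⟩
      have h2 := ka x h y hy e
      rcases hy with ((h1 | h1) | h1) | h1
      · exact absurd h2 (Set.disjoint_left.1 hP.d1 h1)
      · exact absurd (Or.inl (Or.inr h2)) (x1 h1).1.2
      · exact h1
      · exact absurd (c1 h1) (Set.disjoint_left.1 hP.d3 h2)
    · refine le2_of (c3 x h) fun y hy e => ⟨?_, e⟩
      have h2 := kc x h y hy e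
      rcases hy with ((h1 | h1) | h1) | h1
      · exact absurd h2 (Set.disjoint_left.1 hP.d2 h1)
      · exact absurd (Or.inr h2) (x1 h1).1.2
      · exact absurd h2 (Set.disjoint_left.1 hP.d3 (a1 h1))
      · exact h1
  intro T hT hne
  have hU : ∀ y ∈ T ∪ S, y ∈ U ∧ y ≠ z ∧ y ∉ P ∧ (y ∈ Qa → y ∈ T) ∧ (y ∈ Qc → y ∈ T) := by
    rintro y (hy | hy)
    · exact ⟨(hT hy).1, fun h => (hT hy).2 (Or.inl (Or.inl h)),
        fun h => (hT hy).2 (Or.inr (Or.inl (Or.inl (Or.inl h)))), fun _ => hy, fun _ => hy⟩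
    · have h1 := hs.sub hy
      exact ⟨h1.1, nz y h1.2, fun h => (sP h).2 (Or.inr h1.2),
        fun h => absurd (Or.inr h1.2) (sa h).2, fun h => absurd (Or.inr h1.2) (sc h).2⟩
  by_cases ta : (T ∩ Qa).Nonempty
  · obtain ⟨v, hv, h⟩ := a4 (T ∩ Qa)
      (fun t ht => ⟨ht.2, fun h => (hT ht.1).2 (Or.inr (Or.inl (Or.inr h)))⟩) ta
    refine ⟨v, hv.1, le2_of h fun y hy e => ⟨?_, e⟩⟩
    obtain ⟨u1, -, u3, u4, -⟩ := hU y hy
    rcases hP.na ⟨u1, v, hv.2, e.symm⟩ with (h1 | h1) | h1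
    · exact Or.inl ⟨u4 h1, h1⟩
    · exact absurd h1 u3
    · exact Or.inr h1
  by_cases tc : (T ∩ Qc).Nonempty
  · obtain ⟨v, hv, h⟩ := c4 (T ∩ Qc)
      (fun t ht => ⟨ht.2, fun h => (hT ht.1).2 (Or.inr (Or.inr h))⟩) tc
    refine ⟨v, hv.1, le2_of h fun y hy e => ⟨?_, e⟩⟩
    obtain ⟨u1, -, u3, -, u5⟩ := hU y hy
    rcases hP.nc ⟨u1, v, hv.2, e.symm⟩ with (h1 | h1) | h1
    · exact Or.inl ⟨u5 h1, h1⟩
    · exact absurd h1 u3
    · exact Or.inr h1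
  by_cases tb : b ∈ T
  · have h : Le2 H b {a, c} := by
      rintro p (rfl | rfl) q (rfl | rfl) r (rfl | rfl) - - - <;> simp
    refine ⟨b, tb, le2_of h fun y hy e => ⟨?_, e⟩⟩
    obtain ⟨u1, u2, u3, u4, u5⟩ := hU y hy
    rcases hP.link ⟨u1, b, rfl, e.symm⟩ with (((h1 | h1) | h1) | h1) | h1
    · exact absurd h1 u2
    · exact h1
    · exact absurd h1 u3
    · exact absurd ⟨y, u4 h1, h1⟩ ta
    · exact absurd ⟨y, u5 h1, h1⟩ tc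
  refine x4 T (fun t ht => ⟨⟨(hT ht).1, ?_⟩, ?_⟩) hne
  · obtain ⟨-, u2, u3, -, -⟩ := hU t (Or.inl ht)
    rintro ((((h | rfl) | h) | h) | h)
    · exact u2 h
    · exact tb ht
    · exact u3 h
    · exact ta ⟨t, ht, h⟩
    · exact tc ⟨t, ht, h⟩
  · rintro (h | h)
    · exact (hT ht).2 (Or.inl (Or.inr h))
    · exact (hT ht).2 (Or.inr (Or.inl (Or.inl (Or.inr h))))

end Pool.Agent.P.MP_08fd93_co
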