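import Pool.Agent.P.MP_08fd93_co.StA

/-! Package DLm for MP_08fd93_co: the induction of the disc lemma. -/

set_option autoImplicit false

namespace Pool.Agent.P.MP_08fd93_co

namespace PkDLm

variable {W : Type} {H : SimpleGraph W}

theorem two_of_three {O : Set W} (hf : O.Finite) (h : O.ncard ≤ 2) {a b c : W} (ha : a ∈ O)
    (hb : b ∈ O) (hc : c ∈ O) : a = b ∨ a = c ∨ b = c := by
  by_contra hn
  push Not at hn
  have h3 : ({a, b, c} : Set W).ncard = 3 :=
    Set.ncard_eq_three.2 ⟨a, b, c, hn.1, hn.2.1, hn.2.2, rfl⟩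
  have hs : ({a, b, c} : Set W) ⊆ O := by
    rintro x (rfl | rfl | rfl) <;> assumption
  have := Set.ncard_le_ncard hs hf
  omega

theorem clique_outer {U : Set W} {z : W} (hf : U.Finite) (hp : Pl H U) (hz : z ∈ U)
    (hn : NoCut H U z) (h : (U ∩ Nb H {z}).ncard ≤ 2) : H.IsClique (U ∩ Nb H {z}) := by
  intro x hx y hy hxy
  have hne : ∀ v ∈ U ∩ Nb H {z}, v ≠ z := by
    rintro v ⟨-, w, rfl, hw⟩
    exact hw.ne
  have h0 := hn ∅ (Set.empty_subset _) (by simp) (by simp)
  rw [Set.union_comm] at h0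
  have hm : ∀ v ∈ U ∩ Nb H {z}, v ∈ U \ (∅ ∪ {z}) := fun v hv =>
    ⟨hv.1, by simpa using hne v hv⟩
  have h1 := hp.tim ∅ {z} (Set.empty_subset _) (Set.singleton_subset_iff.2 hz)
    (Set.empty_disjoint _) (fun a ha => ha.elim)
    (by rintro a rfl b rfl; exact Relation.ReflTransGen.refl) (Or.inl (Set.finite_singleton z))
    x y hx.2 hy.2 (hm x hx) (h0 x (hm x hx) y (hm y hy))
  rcases Relation.ReflTransGen.cases_head h1 with e | ⟨w, ⟨-, hw, ha⟩, -⟩
  · exact (hxy e).elim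
  · rcases two_of_three (hf.inter_of_left _) h hx hy hw.1 with e | e | e
    · exact (hxy e).elim
    · exact (ha.ne e).elim
    · exact e ▸ ha

theorem dl_mono {U O S : Set W} {z : W} (hf : O.Finite) (h : O.ncard ≤ 2) (hS : S ⊆ O)
    (hd : DL H U z O) : DL H U z S := by
  obtain ⟨X, h1, h2, h3⟩ := hd
  refine ⟨X, h1, h2, fun T hT hne => ?_⟩
  by_cases hs : T ⊆ O
  · obtain ⟨v, hv⟩ := hne
    have hm : ∀ a ∈ T ∪ S, a ∈ O := fun a ha => ha.elim (fun e => hs e) fun e => hS e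
    exact ⟨v, hv, fun a ha b hb c hc _ _ _ => two_of_three hf h (hm a ha) (hm b hb) (hm c hc)⟩
  · obtain ⟨v, hv, hl⟩ := h3 (T \ O) (fun x hx => ⟨(hT hx.1).1, fun e => by
      rcases e with (e | e) | e
      · exact (hT hx.1).2 (Or.inl (Or.inl e))
      · exact hx.2 e
      · exact (hT hx.1).2 (Or.inr e)⟩) (Set.nonempty_iff_ne_empty.2 fun e =>
        hs (Set.sdiff_eq_empty.1 e))
    have hm : ∀ a ∈ T ∪ S, a ∈ T \ O ∪ O := fun a ha => by
      by_cases e : a ∈ O
      · exact Or.inr e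
      · exact ha.elim (fun e' => Or.inl ⟨e', e⟩) fun e' => (e (hS e')).elim
    exact ⟨v, hv.1, fun a ha b hb c hc => hl a (hm a ha) b (hm b hb) c (hm c hc)⟩

end PkDLm

theorem pkg_DLm : S_DLm := by
  intro ha hb ho hp hd W
  have key : ∀ (H : SimpleGraph W) (U : Set W) (z : W) (S : Set W), Setup H U z S →
      IH W U.ncard → DL H U z S := by
    intro H U z S hs ih
    by_cases hn : NoCut H U z
    · have hf : (U ∩ Nb H {z}).Finite := hs.fin.inter_of_left _
      by_cases h3 : 3 ≤ (U ∩ Nb H {z}).ncard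
      · obtain ⟨b, hbO, hbS⟩ := Set.exists_mem_notMem_of_ncard_lt_ncard
          (s := S) (t := U ∩ Nb H {z}) (by have := hs.card; omega) (hf.subset hs.sub)
        obtain ⟨a, c, hac, e, hc⟩ := ho W H U z b hs.fin hs.pl hs.hz hn h3 hbO
        obtain ⟨P, Qa, Qc, hP⟩ := hp W H U z a b c hs.fin hs.pl hs.hz hn hbO hac e hc
        exact hd W H U z S a b c P Qa Qc hs ih ⟨hbO, hbS⟩ hac e hP
      · have h2 : (U ∩ Nb H {z}).ncard ≤ 2 := by omega
        exact PkDLm.dl_mono hf h2 hs.sub (hb W H U z _ ⟨hs.fin, hs.pl, hs.hz, subset_rfl, h2,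
          PkDLm.clique_outer hs.fin hs.pl hs.hz hn h2⟩ ih hn rfl)
    · exact ha W H U z S hs ih hn
  have all : ∀ n, IH W n := by
    intro n
    induction n with
    | zero => exact fun H U z S h => absurd h (Nat.not_lt_zero _)
    | succ n ih =>
      exact fun H U z S h hs => key H U z S hs fun H' U' z' S' h' hs' =>
        ih H' U' z' S' (by omega) hs'
  exact fun H U z S hs => key H U z S hs (all _)

end Pool.Agent.P.MP_08fd93_co
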