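import Pool.Agent.P.MP_08fd93_co.StA

/-! Package DLo: an outer vertex has exactly two outer neighbours. -/

set_option autoImplicit false

namespace Pool.Agent.P.MP_08fd93_co

namespace PkDLo

variable {W : Type} {H : SimpleGraph W}

theorem conn_mono {A B : Set W} (h : A ⊆ B) {x y : W} (hc : Conn H A x y) : Conn H B x y := by
  induction hc with
  | refl => exact Relation.ReflTransGen.refl
  | tail _ hh ih => exact ih.tail ⟨h hh.1, h hh.2.1, hh.2.2⟩

theorem conn_symm {A : Set W} {x y : W} (hc : Conn H A x y) : Conn H A y x := by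
  induction hc with
  | refl => exact Relation.ReflTransGen.refl
  | tail _ h ih => exact Relation.ReflTransGen.head ⟨h.2.1, h.1, h.2.2.symm⟩ ih

theorem isConn_of {A : Set W} {r : W} (h : ∀ v ∈ A, Conn H A v r) : IsConn H A :=
  fun a ha b hb => (h a ha).trans (conn_symm (h b hb))

theorem isConn_single (x : W) : IsConn H {x} :=
  isConn_of (r := x) fun v hv => by
    rw [Set.mem_singleton_iff.1 hv]
    exact Relation.ReflTransGen.refl

theorem isConn_clique {K : Set W} (h : H.IsClique K) : IsConn H K := by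
  intro a ha b hb
  by_cases hab : a = b
  · rw [hab]
    exact Relation.ReflTransGen.refl
  · exact Relation.ReflTransGen.single ⟨ha, hb, h ha hb hab⟩

theorem touch_symm {A B : Set W} (h : Touch H A B) : Touch H B A := by
  obtain ⟨a, ha, b, hb, hab⟩ := h
  exact ⟨b, hb, a, ha, hab.symm⟩

/-- a walk inside `S` stays in every set that is closed under the steps of `S` -/
theorem conn_closed {S P : Set W} (hP : ∀ x ∈ P, ∀ y ∈ S, H.Adj x y → y ∈ P) {x y : W}
    (hc : Conn H S x y) (hx : x ∈ P) : Conn H P x y ∧ y ∈ P := by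
  induction hc with
  | refl => exact ⟨Relation.ReflTransGen.refl, hx⟩
  | tail _ h ih => exact ⟨ih.1.tail ⟨ih.2, hP _ ih.2 _ h.2.1 h.2.2, h.2.2⟩, hP _ ih.2 _ h.2.1 h.2.2⟩

theorem exists_nb {A : Set W} {x y : W} (hc : Conn H A x y) (hxy : x ≠ y) :
    ∃ u ∈ A, H.Adj u x := by
  rcases hc.cases_head with h | ⟨u, hu, _⟩
  · exact absurd h hxy
  · exact ⟨u, hu.2.1, hu.2.2.symm⟩

/-- vertices of `S` whose component touches `x` -/
def Tc (H : SimpleGraph W) (S : Set W) (x : W) : Set W :=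
  {v | v ∈ S ∧ ∃ u ∈ S, Conn H S v u ∧ H.Adj u x}

theorem Tc_step {S : Set W} {x : W} : ∀ v ∈ Tc H S x, ∀ y ∈ S, H.Adj v y → y ∈ Tc H S x := by
  rintro v ⟨hv, u, hu, hc, ha⟩ y hy hvy
  exact ⟨hy, u, hu, Relation.ReflTransGen.head ⟨hy, hv, hvy.symm⟩ hc, ha⟩

theorem arm_conn (S : Set W) (x y : W) : IsConn H (insert x (Tc H S x ∩ Tc H S y)) := by
  refine isConn_of (r := x) ?_
  rintro v (rfl | hv)
  · exact Relation.ReflTransGen.refl
  · obtain ⟨u, _, hc, ha⟩ := hv.1.2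
    obtain ⟨h1, h2⟩ := conn_closed (P := Tc H S x ∩ Tc H S y)
      (fun p hp q hq hpq => ⟨Tc_step p hp.1 q hq hpq, Tc_step p hp.2 q hq hpq⟩) hc hv
    exact (conn_mono (Set.subset_insert _ _) h1).tail
      ⟨Set.mem_insert_of_mem _ h2, Set.mem_insert _ _, ha⟩

theorem arm_touch {S A : Set W} {x y : W} (hA : ∀ v ∈ A, v ∈ S ∨ v = x ∨ v = y) (hy : y ∉ S)
    (hxy : x ≠ y) (hc : Conn H A x y) : ∃ v ∈ insert x (Tc H S x ∩ Tc H S y), H.Adj v y := by
  have key : ∀ p, Conn H A x p → p ∈ insert x (Tc H S x) ∨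
      ∃ v ∈ insert x (Tc H S x), H.Adj v y := by
    intro p hp
    induction hp with
    | refl => exact Or.inl (Set.mem_insert _ _)
    | tail _ h ih =>
      rcases ih with ih | ih
      · rcases hA _ h.2.1 with h1 | h1 | h1
        · refine Or.inl (Set.mem_insert_of_mem _ ?_)
          rcases ih with ih | ih
          · exact ⟨h1, _, h1, Relation.ReflTransGen.refl, ih ▸ h.2.2.symm⟩
          · exact Tc_step _ ih _ h1 h.2.2
        · exact Or.inl (Or.inl h1)
        · exact Or.inr ⟨_, ih, h1 ▸ h.2.2⟩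
      · exact Or.inr ih
  rcases key y hc with h | ⟨v, hv, hvy⟩
  · rcases h with h | h
    · exact absurd h.symm hxy
    · exact absurd h.1 hy
  · rcases hv with hv | hv
    · exact ⟨v, Or.inl hv, hvy⟩
    · exact ⟨v, Or.inr ⟨hv, hv.1, v, hv.1, Relation.ReflTransGen.refl, hvy⟩, hvy⟩

/-- three pairwise touching connected sets seen from the edge `z b` -/
theorem no_k5 {U : Set W} (hU : NoK5 H U) {z b : W} (hz : z ∈ U) (hb : b ∈ U) (hzb : H.Adj z b)
    (X : Fin 3 → Set W) (h1 : ∀ i, X i ⊆ U ∧ IsConn H (X i))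
    (h2 : ∀ i j, i ≠ j → Disjoint (X i) (X j) ∧ Touch H (X i) (X j))
    (h3 : ∀ i, z ∉ X i ∧ b ∉ X i ∧ Touch H {z} (X i) ∧ Touch H {b} (X i)) : False := by
  refine hU ⟨Fin.cons {z} (Fin.cons {b} X), fun i => ?_, fun i j hij => ?_⟩
  · refine Fin.cases ?_ (fun i => Fin.cases ?_ (fun i => ?_) i) i
    · exact ⟨Set.singleton_subset_iff.2 hz, isConn_single z⟩
    · exact ⟨Set.singleton_subset_iff.2 hb, isConn_single b⟩
    · exact h1 i
  · revert hij
    refine Fin.cases ?_ (fun i => Fin.cases ?_ (fun i => ?_) i) i <;>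
      refine Fin.cases ?_ (fun j => Fin.cases ?_ (fun j => ?_) j) j <;> intro hij
    · exact absurd rfl hij
    · exact ⟨Set.disjoint_singleton.2 hzb.ne, z, rfl, b, rfl, hzb⟩
    · exact ⟨Set.disjoint_singleton_left.2 (h3 j).1, (h3 j).2.2.1⟩
    · exact ⟨Set.disjoint_singleton.2 hzb.ne', b, rfl, z, rfl, hzb.symm⟩
    · exact absurd rfl hij
    · exact ⟨Set.disjoint_singleton_left.2 (h3 j).2.1, (h3 j).2.2.2⟩
    · exact ⟨Set.disjoint_singleton_right.2 (h3 i).1, touch_symm (h3 i).2.2.1⟩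
    · exact ⟨Set.disjoint_singleton_right.2 (h3 i).2.1, touch_symm (h3 i).2.2.2⟩
    · exact h2 i j fun h => hij (by rw [h])

/-- a connected set and two vertices that all see three vertices -/
theorem no_k33 {U : Set W} (hU : NoK33 H U) {z b : W} (hz : z ∈ U) (hb : b ∈ U) (hzb : z ≠ b)
    {P : Set W} (hP : P ⊆ U) (hc : IsConn H P) (hzP : z ∉ P) (hbP : b ∉ P) (y : Fin 3 → W)
    (hy : Function.Injective y)
    (h : ∀ i, y i ∈ U ∧ y i ∉ P ∧ H.Adj z (y i) ∧ H.Adj b (y i) ∧ ∃ u ∈ P, H.Adj u (y i)) :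
    False := by
  refine hU ⟨![{z}, {b}, P], fun i => {y i}, fun i => ⟨?_, ?_, ?_, isConn_single _⟩,
    fun i j hij => ⟨?_, ?_⟩, fun i j => ?_⟩
  · fin_cases i
    · exact Set.singleton_subset_iff.2 hz
    · exact Set.singleton_subset_iff.2 hb
    · exact hP
  · fin_cases i
    · exact isConn_single z
    · exact isConn_single b
    · exact hc
  · exact Set.singleton_subset_iff.2 (h i).1
  · fin_cases i <;> fin_cases j
    · exact absurd rfl hij
    · exact Set.disjoint_singleton.2 hzb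
    · exact Set.disjoint_singleton_left.2 hzP
    · exact Set.disjoint_singleton.2 hzb.symm
    · exact absurd rfl hij
    · exact Set.disjoint_singleton_left.2 hbP
    · exact Set.disjoint_singleton_right.2 hzP
    · exact Set.disjoint_singleton_right.2 hbP
    · exact absurd rfl hij
  · exact Set.disjoint_singleton.2 fun e => hij (hy e)
  · obtain ⟨_, h2, h3, h4, u, hu, h5⟩ := h j
    fin_cases i
    · exact ⟨Set.disjoint_singleton.2 h3.ne, z, rfl, y j, rfl, h3⟩
    · exact ⟨Set.disjoint_singleton.2 h4.ne, b, rfl, y j, rfl, h4⟩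
    · exact ⟨Set.disjoint_singleton_right.2 h2, u, hu, y j, rfl, h5⟩

theorem mem_nb {x z : W} : x ∈ Nb H {z} ↔ H.Adj x z :=
  ⟨fun ⟨_, h1, h2⟩ => Set.mem_singleton_iff.1 h1 ▸ h2, fun h => ⟨z, rfl, h⟩⟩

theorem outer_conn {U : Set W} {z : W} (hpl : Pl H U) (hz : z ∈ U) (hN : NoCut H U z)
    {K : Set W} (hK : K ⊆ U ∩ Nb H {z}) (hc : K.ncard ≤ 2) (hq : H.IsClique K) :
    IsConn H ((U ∩ Nb H {z}) \ K) := by
  intro x hx y hy
  have hm : ∀ v ∈ (U ∩ Nb H {z}) \ K, v ∈ U \ ({z} ∪ K) := by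
    rintro v hv
    refine ⟨hv.1.1, ?_⟩
    rintro (h | h)
    · exact (mem_nb.1 hv.1.2).ne h
    · exact hv.2 h
  have h1 := hN K hK hc hq x (hm x hx) y (hm y hy)
  rw [Set.union_comm] at h1 hm
  have h2 := hpl.tim K {z} (fun v hv => (hK hv).1) (Set.singleton_subset_iff.2 hz)
    (Set.disjoint_singleton_right.2 fun h => (mem_nb.1 (hK h).2).ne rfl) (isConn_clique hq)
    (isConn_single z) (Or.inl (Set.finite_singleton z)) x y hx.1.2 hy.1.2 (hm x hx) h1
  refine conn_mono ?_ h2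
  exact fun v hv => ⟨hv.1, fun h => hv.2 (Or.inl h)⟩

theorem no_three {U : Set W} {z b : W} (hpl : Pl H U) (hz : z ∈ U) (hN : NoCut H U z)
    (hb : b ∈ U ∩ Nb H {z}) (y : Fin 3 → W) (hy : Function.Injective y)
    (h : ∀ i, y i ∈ U ∩ Nb H {z} ∩ Nb H {b}) : False := by
  set S : Set W := (U ∩ Nb H {z}) \ insert b (Set.range y) with hS
  have hzb : H.Adj z b := (mem_nb.1 hb.2).symm
  have hyS : ∀ i, y i ∉ S := fun i hi => hi.2 (Or.inr ⟨i, rfl⟩)
  have hzS : z ∉ S := fun hi => (mem_nb.1 hi.1.2).ne rfl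
  have hbS : b ∉ S := fun hi => hi.2 (Or.inl rfl)
  have hzy : ∀ i, H.Adj z (y i) := fun i => (mem_nb.1 (h i).1.2).symm
  have hby : ∀ i, H.Adj b (y i) := fun i => (mem_nb.1 (h i).2).symm
  by_cases hv : ∃ v, ∀ i, v ∈ Tc H S (y i)
  · obtain ⟨v, hv⟩ := hv
    have hcl : ∀ x ∈ {p | p ∈ S ∧ Conn H S v p}, ∀ q ∈ S, H.Adj x q →
        q ∈ {p | p ∈ S ∧ Conn H S v p} := fun x hx q hq hxq => ⟨hq, hx.2.tail ⟨hx.1, hq, hxq⟩⟩
    refine no_k33 hpl.k33 hz hb.1 hzb.ne (P := {p | p ∈ S ∧ Conn H S v p})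
      (fun p hp => hp.1.1.1) (isConn_of (r := v) fun p hp => conn_symm ?_)
      (fun hp => hzS hp.1) (fun hp => hbS hp.1) y hy fun i =>
        ⟨(h i).1.1, fun hp => hyS i hp.1, hzy i, hby i, ?_⟩
    · exact (conn_closed hcl hp.2 ⟨(hv 0).1, Relation.ReflTransGen.refl⟩).1
    · obtain ⟨u, hu, hc, ha⟩ := (hv i).2
      exact ⟨u, ⟨hu, hc⟩, ha⟩
  · have hne : ∀ i : Fin 3, i ≠ i + 1 ∧ i ≠ i + 2 ∧ i + 1 ≠ i + 2 := by decide
    have hall : ∀ i j : Fin 3, j = i ∨ j = i + 1 ∨ j = i + 2 := by decide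
    have hsucc : ∀ i j : Fin 3, i ≠ j → j = i + 1 ∨ i = j + 1 := by decide
    have hadd : ∀ i : Fin 3, i + 1 + 1 = i + 2 := by decide
    have ht : ∀ i, ∃ v ∈ insert (y i) (Tc H S (y i) ∩ Tc H S (y (i + 1))),
        H.Adj v (y (i + 1)) := by
      intro i
      have hc := outer_conn hpl hz hN (K := {b, y (i + 2)})
        (by
          rintro v (rfl | rfl)
          · exact hb
          · exact (h _).1)
        (Set.ncard_pair (hby _).ne).le (SimpleGraph.isClique_pair.2 fun _ => hby _)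
      refine arm_touch (A := (U ∩ Nb H {z}) \ {b, y (i + 2)}) (fun v hv => ?_) (hyS _)
        (fun e => (hne i).1 (hy e)) (hc _ ⟨(h _).1, ?_⟩ _ ⟨(h _).1, ?_⟩)
      · by_cases hvS : v ∈ S
        · exact Or.inl hvS
        · right
          have : v ∈ insert b (Set.range y) := by
            by_contra hh
            exact hvS ⟨hv.1, hh⟩
          rcases this with rfl | ⟨j, rfl⟩
          · exact absurd (Or.inl rfl) hv.2
          · rcases hall i j with rfl | rfl | rfl
            · exact Or.inl rfl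
            · exact Or.inr rfl
            · exact absurd (Or.inr rfl) hv.2
      · rintro (e | e)
        · exact (hby _).ne' e
        · exact (hne i).2.1 (hy e)
      · rintro (e | e)
        · exact (hby _).ne' e
        · exact (hne i).2.2 (hy e)
    have hd : ∀ i, Disjoint (insert (y i) (Tc H S (y i) ∩ Tc H S (y (i + 1))))
        (insert (y (i + 1)) (Tc H S (y (i + 1)) ∩ Tc H S (y (i + 1 + 1)))) ∧
        Touch H (insert (y i) (Tc H S (y i) ∩ Tc H S (y (i + 1))))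
        (insert (y (i + 1)) (Tc H S (y (i + 1)) ∩ Tc H S (y (i + 1 + 1)))) := by
      intro i
      refine ⟨Set.disjoint_left.2 ?_, ?_⟩
      · rintro v (rfl | h1) (h2 | h2)
        · exact (hne i).1 (hy h2)
        · exact hyS _ h2.1.1
        · exact hyS _ (h2 ▸ h1.1.1)
        · refine hv ⟨v, fun j => ?_⟩
          rcases hall i j with rfl | rfl | rfl
          · exact h1.1
          · exact h1.2
          · exact hadd i ▸ h2.2
      · obtain ⟨v, h1, h2⟩ := ht i
        exact ⟨v, h1, _, Set.mem_insert _ _, h2⟩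
    refine no_k5 hpl.k5 hz hb.1 hzb (fun i => insert (y i) (Tc H S (y i) ∩ Tc H S (y (i + 1))))
      (fun i => ⟨?_, arm_conn S _ _⟩) (fun i j hij => ?_) fun i => ⟨?_, ?_, ?_, ?_⟩
    · rintro v (rfl | h1)
      · exact (h i).1.1
      · exact h1.1.1.1.1
    · rcases hsucc i j hij with rfl | rfl
      · exact hd i
      · exact ⟨(hd j).1.symm, touch_symm (hd j).2⟩
    · rintro (e | h1)
      · exact (hzy i).ne e
      · exact hzS h1.1.1
    · rintro (e | h1)
      · exact (hby i).ne e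
      · exact hbS h1.1.1
    · exact ⟨z, rfl, _, Set.mem_insert _ _, hzy i⟩
    · exact ⟨b, rfl, _, Set.mem_insert _ _, hby i⟩

end PkDLo

open PkDLo in
theorem pkg_DLo : DLo := by
  intro W H U z b hU hpl hz hN h3 hb
  have hone : ∀ v ∈ U ∩ Nb H {z}, IsConn H ((U ∩ Nb H {z}) \ {v}) := fun v hv =>
    outer_conn hpl hz hN (Set.singleton_subset_iff.2 hv) (by simp) (by simp)
  have hex : ∀ p q : W, ∃ v ∈ U ∩ Nb H {z}, v ≠ p ∧ v ≠ q := by
    intro p q
    by_contra hh
    have hs : U ∩ Nb H {z} ⊆ {p, q} := by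
      intro v hv
      by_contra h
      exact hh ⟨v, hv, fun e => h (Or.inl e), fun e => h (Or.inr e)⟩
    have h1 := Set.ncard_le_ncard hs (Set.toFinite _)
    have h2 := Set.ncard_insert_le p {q}
    rw [Set.ncard_singleton] at h2
    omega
  have hnb : ∀ p ∈ U ∩ Nb H {z}, p ≠ b → ∃ u ∈ U ∩ Nb H {z} ∩ Nb H {b}, u ≠ p := by
    intro p hp hpb
    obtain ⟨v, hv, h1, h2⟩ := hex p b
    obtain ⟨u, hu, hub⟩ := exists_nb (hone p hp b ⟨hb, hpb.symm⟩ v ⟨hv, h1⟩) h2.symm
    exact ⟨u, ⟨hu.1, mem_nb.2 hub⟩, hu.2⟩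
  obtain ⟨p, hp, hpb, -⟩ := hex b b
  obtain ⟨a, ha, -⟩ := hnb p hp hpb
  obtain ⟨c, hc, hca⟩ := hnb a ha.1 (mem_nb.1 ha.2).ne
  refine ⟨a, c, hca.symm, ?_, hone b hb⟩
  refine Set.Subset.antisymm (fun d hd => ?_) ?_
  · by_contra h
    have hda : d ≠ a := fun e => h (Or.inl e)
    have hdc : d ≠ c := fun e => h (Or.inr e)
    refine no_three hpl hz hN hb ![a, c, d] ?_ fun i => ?_
    · intro i j hij
      fin_cases i <;> fin_cases j <;> simp_all
    · fin_cases i
      · exact ha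
      · exact hc
      · exact hd
  · rintro v (rfl | rfl)
    · exact ha
    · exact hc

end Pool.Agent.P.MP_08fd93_co
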