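import Pool.Agent.P.MP_08fd93_co.StA

/-! Package DLp: the path and the pockets cut off at an outer vertex. -/

set_option autoImplicit false

namespace Pool.Agent.P.MP_08fd93_co

namespace PkDLp

variable {W : Type} {H : SimpleGraph W}

theorem symm {A : Set W} {x y : W} (h : Conn H A x y) : Conn H A y x := by
  induction h with
  | refl => exact Relation.ReflTransGen.refl
  | tail _ h ih => exact Relation.ReflTransGen.head ⟨h.2.1, h.1, h.2.2.symm⟩ ih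

theorem step {A : Set W} {x y : W} (hx : x ∈ A) (hy : y ∈ A) (h : H.Adj x y) : Conn H A x y :=
  Relation.ReflTransGen.single ⟨hx, hy, h⟩

theorem mem {A : Set W} {x y : W} (h : Conn H A x y) (hx : x ∈ A) : y ∈ A := by
  induction h with
  | refl => exact hx
  | tail _ h _ => exact h.2.1

theorem sub {R S : Set W} {x y : W} (h : Conn H R x y) (hS : ∀ w, Conn H R x w → w ∈ S) :
    Conn H S x y := by
  induction h with
  | refl => exact Relation.ReflTransGen.refl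
  | tail h1 h2 ih => exact ih.tail ⟨hS _ h1, hS _ (h1.tail h2), h2.2.2⟩

theorem mono {R S : Set W} (hRS : R ⊆ S) {x y : W} (h : Conn H R x y) : Conn H S x y := by
  induction h with
  | refl => exact Relation.ReflTransGen.refl
  | tail _ h2 ih => exact ih.tail ⟨hRS h2.1, hRS h2.2.1, h2.2.2⟩

theorem isConn_of {A : Set W} (r : W) (h : ∀ x ∈ A, Conn H A x r) : IsConn H A :=
  fun x hx y hy => (h x hx).trans (symm (h y hy))

theorem isConn_single (x : W) : IsConn H {x} := by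
  rintro _ rfl _ rfl
  exact Relation.ReflTransGen.refl

theorem isConn_comp (R : Set W) (x : W) : IsConn H {y | Conn H R x y} :=
  isConn_of x fun _ hy => symm (sub hy fun _ hw => hw)

theorem exit {A R : Set W} {x y : W} (h : Conn H A x y) (hx : x ∈ R) (hy : y ∉ R) :
    ∃ u v, Conn H R x u ∧ H.Adj u v ∧ v ∈ A ∧ v ∉ R := by
  have key : Conn H R x y ∨ ∃ u v, Conn H R x u ∧ H.Adj u v ∧ v ∈ A ∧ v ∉ R := by
    clear hy
    induction h with
    | refl => exact Or.inl Relation.ReflTransGen.refl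
    | @tail u v _ h2 ih =>
      rcases ih with ih | ih
      · by_cases hv : v ∈ R
        · exact Or.inl (ih.tail ⟨mem ih hx, hv, h2.2.2⟩)
        · exact Or.inr ⟨u, v, ih, h2.2.2, h2.2.1, hv⟩
      · exact Or.inr ih
  exact key.resolve_left fun h => hy (mem h hx)

theorem k33 {U : Set W} (h : NoK33 H U) {X0 X1 X2 Y0 Y1 Y2 : Set W}
    (s0 : X0 ⊆ U ∧ IsConn H X0 ∧ Y0 ⊆ U ∧ IsConn H Y0)
    (s1 : X1 ⊆ U ∧ IsConn H X1 ∧ Y1 ⊆ U ∧ IsConn H Y1)
    (s2 : X2 ⊆ U ∧ IsConn H X2 ∧ Y2 ⊆ U ∧ IsConn H Y2)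
    (d01 : Disjoint X0 X1 ∧ Disjoint Y0 Y1) (d02 : Disjoint X0 X2 ∧ Disjoint Y0 Y2)
    (d12 : Disjoint X1 X2 ∧ Disjoint Y1 Y2)
    (t00 : Disjoint X0 Y0 ∧ Touch H X0 Y0) (t01 : Disjoint X0 Y1 ∧ Touch H X0 Y1)
    (t02 : Disjoint X0 Y2 ∧ Touch H X0 Y2) (t10 : Disjoint X1 Y0 ∧ Touch H X1 Y0)
    (t11 : Disjoint X1 Y1 ∧ Touch H X1 Y1) (t12 : Disjoint X1 Y2 ∧ Touch H X1 Y2)
    (t20 : Disjoint X2 Y0 ∧ Touch H X2 Y0) (t21 : Disjoint X2 Y1 ∧ Touch H X2 Y1)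
    (t22 : Disjoint X2 Y2 ∧ Touch H X2 Y2) : False := by
  refine h ⟨![X0, X1, X2], ![Y0, Y1, Y2], fun i => ?_, fun i j hij => ?_, fun i j => ?_⟩
  · fin_cases i
    exacts [s0, s1, s2]
  · fin_cases i <;> fin_cases j
    exacts [absurd rfl hij, d01, d02, ⟨d01.1.symm, d01.2.symm⟩, absurd rfl hij, d12,
      ⟨d02.1.symm, d02.2.symm⟩, ⟨d12.1.symm, d12.2.symm⟩, absurd rfl hij]
  · fin_cases i <;> fin_cases j
    exacts [t00, t01, t02, t10, t11, t12, t20, t21, t22]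

theorem exists_walk {A : Set W} {x y : W} (h : Conn H A x y) (hx : x ∈ A) :
    ∃ (n : ℕ) (p : ℕ → W), p 0 = x ∧ p n = y ∧ (∀ i, i ≤ n → p i ∈ A) ∧
      ∀ i, i < n → H.Adj (p i) (p (i + 1)) := by
  induction h with
  | refl => exact ⟨0, fun _ => x, rfl, rfl, fun _ _ => hx, fun i hi => absurd hi (by omega)⟩
  | @tail u v _ h2 ih =>
    obtain ⟨n, p, h0, hn, hA, hadj⟩ := ih
    refine ⟨n + 1, fun i => if i ≤ n then p i else v, by simpa using h0, by simp, fun i _ => ?_,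
      fun i hi => ?_⟩ <;> beta_reduce
    · split_ifs with h
      exacts [hA i h, h2.2.1]
    · by_cases h : i < n
      · rw [if_pos h.le, if_pos (by omega)]
        exact hadj i h
      · obtain rfl : i = n := by omega
        rw [if_pos le_rfl, if_neg (by omega), hn]
        exact h2.2.2

/-- a shortest path inside `M` between two sets -/
theorem exists_path {M A C : Set W} {x y : W} (h : Conn H M x y) (hx : x ∈ M) (hxA : x ∈ A)
    (hy : y ∈ C) : ∃ P : Set W, P ⊆ M ∧ IsConn H P ∧ (∃ u ∈ P, u ∈ A) ∧ (∃ v ∈ P, v ∈ C) ∧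
      ∀ x ∈ P, Le2 H x P := by
  classical
  have hex : ∃ n : ℕ, ∃ p : ℕ → W, p 0 ∈ A ∧ p n ∈ C ∧ (∀ i, i ≤ n → p i ∈ M) ∧
      ∀ i, i < n → H.Adj (p i) (p (i + 1)) := by
    obtain ⟨n, p, h0, hn, hA, hadj⟩ := exists_walk h hx
    exact ⟨n, p, h0 ▸ hxA, hn ▸ hy, hA, hadj⟩
  obtain ⟨p, h0, hn, hM, hadj⟩ := Nat.find_spec hex
  have hmin := fun m (hm : m < Nat.find hex) => Nat.find_min hex hm
  generalize Nat.find hex = n at hn hM hadj hmin
  have short : ∀ i j, i + 1 < j → j ≤ n → ¬ H.Adj (p i) (p j) := fun i j hij hj ha => by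
    refine hmin (n - (j - i - 1)) (by omega)
      ⟨fun k => if k ≤ i then p k else p (k + (j - i - 1)), by simpa using h0, ?_, fun k hk => ?_,
        fun k hk => ?_⟩ <;> beta_reduce
    · rw [if_neg (by omega), show n - (j - i - 1) + (j - i - 1) = n by omega]
      exact hn
    · split_ifs with h
      exacts [hM _ (by omega), hM _ (by omega)]
    · rcases lt_trichotomy k i with h | rfl | h
      · rw [if_pos h.le, if_pos (by omega)]
        exact hadj k (by omega)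
      · rw [if_pos le_rfl, if_neg (by omega), show k + 1 + (j - k - 1) = j by omega]
        exact ha
      · rw [if_neg (by omega), if_neg (by omega), Nat.add_right_comm]
        exact hadj _ (by omega)
  have near : ∀ i j, i ≤ n → j ≤ n → H.Adj (p i) (p j) → j = i + 1 ∨ j + 1 = i :=
    fun i j hi hj ha => by
      have h1 : ¬ i + 1 < j := fun h => short i j h hj ha
      have h2 : ¬ j + 1 < i := fun h => short j i h hi ha.symm
      have h3 : i ≠ j := fun h => ha.ne (by rw [h])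
      omega
  refine ⟨{w | ∃ i, i ≤ n ∧ p i = w}, ?_, ?_, ⟨_, ⟨0, Nat.zero_le _, rfl⟩, h0⟩,
    ⟨_, ⟨n, le_rfl, rfl⟩, hn⟩, ?_⟩
  · rintro _ ⟨i, hi, rfl⟩
    exact hM i hi
  · refine isConn_of (p 0) ?_
    rintro _ ⟨i, hi, rfl⟩
    induction i with
    | zero => exact Relation.ReflTransGen.refl
    | succ i ih =>
      exact Relation.ReflTransGen.head
        ⟨⟨_, hi, rfl⟩, ⟨i, by omega, rfl⟩, (hadj i (by omega)).symm⟩ (ih (by omega))
  · rintro _ ⟨i, hi, rfl⟩ _ ⟨j1, h1, rfl⟩ _ ⟨j2, h2, rfl⟩ _ ⟨j3, h3, rfl⟩ a1 a2 a3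
    have e1 := near i j1 hi h1 a1
    have e2 := near i j2 hi h2 a2
    have e3 := near i j3 hi h3 a3
    have : j1 = j2 ∨ j1 = j3 ∨ j2 = j3 := by omega
    rcases this with rfl | rfl | rfl
    exacts [Or.inl rfl, Or.inr (Or.inl rfl), Or.inr (Or.inr rfl)]

/-- the basic adjacencies -/
structure Cfg (H : SimpleGraph W) (U : Set W) (z a b c : W) : Prop where
  pl : Pl H U
  hz : z ∈ U
  ha : a ∈ U
  hb : b ∈ U
  hc : c ∈ U
  ac : a ≠ c
  az : H.Adj a z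
  bz : H.Adj b z
  cz : H.Adj c z
  ab : H.Adj a b
  cb : H.Adj c b
  na : IsConn H (U \ {z, a, b})
  nc : IsConn H (U \ {z, c, b})

variable {U : Set W} {z a b c : W}

theorem Cfg.swap (h : Cfg H U z a b c) : Cfg H U z c b a :=
  ⟨h.pl, h.hz, h.hc, h.hb, h.ha, h.ac.symm, h.cz, h.bz, h.az, h.cb, h.ab, h.nc, h.na⟩

theorem Cfg.c_mem (h : Cfg H U z a b c) : c ∈ U \ {z, a, b} :=
  ⟨h.hc, by simp [h.cz.ne, h.ac.symm, h.cb.ne]⟩

/-- the link of `b` without `z` and `a` is connected -/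
theorem Cfg.link (h : Cfg H U z a b c) {x : W} (hx : x ∈ U \ {z, a, b}) (hxb : H.Adj x b) :
    Conn H ((U ∩ Nb H {b}) \ {z, a, b}) x c := by
  have e : ({z, a} : Set W) ∪ {b} = {z, a, b} := by
    ext w
    simp only [Set.mem_union, Set.mem_insert_iff, Set.mem_singleton_iff, or_assoc]
  have := h.pl.tim {z, a} {b} (by rintro _ (rfl | rfl); exacts [h.hz, h.ha])
    (by rintro _ rfl; exact h.hb) (by simp [h.bz.ne, h.ab.ne'])
    (isConn_of z (by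
      rintro _ (rfl | rfl)
      · exact Relation.ReflTransGen.refl
      · exact step (by simp) (by simp) h.az))
    (isConn_single b) (Or.inl (Set.finite_singleton b)) x c ⟨b, rfl, hxb⟩ ⟨b, rfl, h.cb⟩
  rw [e] at this
  exact this hx (h.na _ hx _ h.c_mem)

/-- the complement of one pocket set and two outer vertices is connected -/
theorem Cfg.rest (h : Cfg H U z a b c) {P Q : Set W} (hP : P ⊆ U \ {z, a, b, c})
    (hPc : IsConn H P) (hc : ∃ v ∈ P, H.Adj v c) (hQ : Q ⊆ U \ ({z, a, b, c} ∪ P))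
    (hcl : ∀ x y, Conn H (U \ ({z, a, b, c} ∪ P)) x y → y ∈ Q → x ∈ Q) :
    IsConn H (U \ (Q ∪ {a, b})) := by
  have hcT : c ∈ U \ (Q ∪ {a, b}) :=
    ⟨h.hc, by rintro (h1 | h1); exacts [(hQ h1).2 (by simp), h.c_mem.2 (Or.inr h1)]⟩
  have hPT : P ⊆ U \ (Q ∪ {a, b}) := fun x hx => ⟨(hP hx).1, by
    rintro (h1 | h1)
    · exact (hQ h1).2 (Or.inr hx)
    · exact (hP hx).2 (by rcases h1 with rfl | rfl <;> simp)⟩
  have hP' : ∀ x ∈ P, Conn H (U \ (Q ∪ {a, b})) x c := fun x hx => by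
    obtain ⟨v, hv, hvc⟩ := hc
    exact (mono hPT (hPc x hx v hv)).tail ⟨hPT hv, hcT, hvc⟩
  refine isConn_of c fun x hx => ?_
  by_cases hR : x ∈ U \ ({z, a, b, c} ∪ P)
  · have hx' : x ∈ U \ {z, a, b} := ⟨hx.1, fun h1 => hR.2 (Or.inl (by
      rcases h1 with rfl | rfl | rfl <;> simp))⟩
    obtain ⟨u, v, hu, huv, hv, hvR⟩ := exit (h.na _ hx' _ h.c_mem) hR (fun h1 => h1.2 (by simp))
    have hin : ∀ w, Conn H (U \ ({z, a, b, c} ∪ P)) x w → w ∈ U \ (Q ∪ {a, b}) := fun w hw =>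
      ⟨(mem hw hR).1, by
        rintro (h1 | h1)
        · exact hx.2 (Or.inl (hcl x w hw h1))
        · exact (mem hw hR).2 (Or.inl (by rcases h1 with rfl | rfl <;> simp))⟩
    have hv' : v = c ∨ v ∈ P := by
      by_contra hn
      rw [not_or] at hn
      refine hvR ⟨hv.1, ?_⟩
      rintro ((rfl | rfl | rfl | rfl) | h1)
      exacts [hv.2 (by simp), hv.2 (by simp), hv.2 (by simp), hn.1 rfl, hn.2 h1]
    rcases hv' with rfl | hv'
    · exact (sub hu hin).tail ⟨hin u hu, hcT, huv⟩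
    · exact ((sub hu hin).tail ⟨hin u hu, hPT hv', huv⟩).trans (hP' v hv')
  · have hx' : x ∈ ({z, a, b, c} : Set W) ∪ P := by
      by_contra hn
      exact hR ⟨hx.1, hn⟩
    rcases hx' with (rfl | rfl | rfl | rfl) | h1
    · exact step hx hcT h.cz.symm
    · exact absurd (Or.inr (by simp)) hx.2
    · exact absurd (Or.inr (by simp)) hx.2
    · exact Relation.ReflTransGen.refl
    · exact hP' x h1

section Pocket

variable (h : Cfg H U z a b c) {P Q : Set W} (hP : P ⊆ U \ {z, a, b, c}) (hPc : IsConn H P)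
  (pa : ∃ v ∈ P, H.Adj v a) (pb : ∃ v ∈ P, H.Adj v b) (pc : ∃ v ∈ P, H.Adj v c)
  (hQ : Q ⊆ U \ ({z, a, b, c} ∪ P)) (hQc : IsConn H Q) (qb : ∃ v ∈ Q, H.Adj v b)

include h hP hPc pa pb pc hQ hQc qb

theorem not_both (qa : ∃ v ∈ Q, H.Adj v a) (qc : ∃ v ∈ Q, H.Adj v c) : False := by
  have dP : ∀ x ∈ ({z, a, b, c} : Set W), Disjoint P {x} := fun x hx =>
    Set.disjoint_singleton_right.2 fun h1 => (hP h1).2 hx
  have dQ : ∀ x ∈ ({z, a, b, c} : Set W), Disjoint Q {x} := fun x hx =>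
    Set.disjoint_singleton_right.2 fun h1 => (hQ h1).2 (Or.inl hx)
  have tt : ∀ {S : Set W} {x : W}, (∃ v ∈ S, H.Adj v x) → Touch H S {x} :=
    fun ⟨v, hv, hvx⟩ => ⟨v, hv, _, rfl, hvx⟩
  exact k33 h.pl.k33 (X0 := {z}) (X1 := P) (X2 := Q) (Y0 := {a}) (Y1 := {b}) (Y2 := {c})
    ⟨by simpa using h.hz, isConn_single _, by simpa using h.ha, isConn_single _⟩
    ⟨fun x hx => (hP hx).1, hPc, by simpa using h.hb, isConn_single _⟩
    ⟨fun x hx => (hQ hx).1, hQc, by simpa using h.hc, isConn_single _⟩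
    ⟨(dP z (by simp)).symm, by simpa using h.ab.ne⟩
    ⟨(dQ z (by simp)).symm, by simpa using h.ac⟩
    ⟨Set.disjoint_left.2 fun x hx h1 => (hQ h1).2 (Or.inr hx), by simpa using h.cb.ne'⟩
    ⟨by simpa using h.az.ne', tt ⟨z, rfl, h.az.symm⟩⟩
    ⟨by simpa using h.bz.ne', tt ⟨z, rfl, h.bz.symm⟩⟩
    ⟨by simpa using h.cz.ne', tt ⟨z, rfl, h.cz.symm⟩⟩
    ⟨dP a (by simp), tt pa⟩ ⟨dP b (by simp), tt pb⟩ ⟨dP c (by simp), tt pc⟩
    ⟨dQ a (by simp), tt qa⟩ ⟨dQ b (by simp), tt qb⟩ ⟨dQ c (by simp), tt qc⟩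

omit pb in
theorem not_outer (qp : Touch H Q P) (qz : ∃ v ∈ Q, H.Adj v z) : False := by
  have dP : ∀ x ∈ ({z, a, b, c} : Set W), Disjoint {x} P := fun x hx =>
    Set.disjoint_singleton_left.2 fun h1 => (hP h1).2 hx
  have dQ : ∀ x ∈ ({z, a, b, c} : Set W), Disjoint Q {x} := fun x hx =>
    Set.disjoint_singleton_right.2 fun h1 => (hQ h1).2 (Or.inl hx)
  have tt : ∀ {S : Set W} {x : W}, (∃ v ∈ S, H.Adj v x) → Touch H S {x} :=
    fun ⟨v, hv, hvx⟩ => ⟨v, hv, _, rfl, hvx⟩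
  have tt' : ∀ {S : Set W} {x : W}, (∃ v ∈ S, H.Adj v x) → Touch H {x} S :=
    fun ⟨v, hv, hvx⟩ => ⟨_, rfl, v, hv, hvx.symm⟩
  exact k33 h.pl.k33 (X0 := {a}) (X1 := {c}) (X2 := Q) (Y0 := {z}) (Y1 := {b}) (Y2 := P)
    ⟨by simpa using h.ha, isConn_single _, by simpa using h.hz, isConn_single _⟩
    ⟨by simpa using h.hc, isConn_single _, by simpa using h.hb, isConn_single _⟩
    ⟨fun x hx => (hQ hx).1, hQc, fun x hx => (hP hx).1, hPc⟩
    ⟨by simpa using h.ac, by simpa using h.bz.ne'⟩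
    ⟨(dQ a (by simp)).symm, dP z (by simp)⟩
    ⟨(dQ c (by simp)).symm, dP b (by simp)⟩
    ⟨by simpa using h.az.ne, tt ⟨a, rfl, h.az⟩⟩
    ⟨by simpa using h.ab.ne, tt ⟨a, rfl, h.ab⟩⟩
    ⟨dP a (by simp), tt' pa⟩
    ⟨by simpa using h.cz.ne, tt ⟨c, rfl, h.cz⟩⟩
    ⟨by simpa using h.cb.ne, tt ⟨c, rfl, h.cb⟩⟩
    ⟨dP c (by simp), tt' pc⟩
    ⟨dQ z (by simp), tt qz⟩ ⟨dQ b (by simp), tt qb⟩
    ⟨Set.disjoint_left.2 fun x hx h1 => (hQ hx).2 (Or.inr h1), qp⟩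

end Pocket

/-- a vertex of the link outside `P` reaches `c` or `P` -/
theorem Cfg.out (h : Cfg H U z a b c) {P : Set W} {m : W} (hm : m ∈ U \ ({z, a, b, c} ∪ P))
    (hmb : H.Adj m b) : ∃ u v, Conn H (U \ ({z, a, b, c} ∪ P)) m u ∧ H.Adj u v ∧
      (v = c ∨ v ∈ P) := by
  have hm' : m ∈ U \ {z, a, b} := ⟨hm.1, fun h1 => hm.2 (Or.inl (by
    rcases h1 with rfl | rfl | rfl <;> simp))⟩
  obtain ⟨u, v, hu, huv, hv, hvR⟩ := exit (h.link hm' hmb) hm (fun h1 => h1.2 (by simp))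
  refine ⟨u, v, hu, huv, ?_⟩
  by_contra hn
  rw [not_or] at hn
  refine hvR ⟨hv.1.1, ?_⟩
  rintro ((rfl | rfl | rfl | rfl) | h1)
  exacts [hv.2 (by simp), hv.2 (by simp), hv.2 (by simp), hn.1 rfl, hn.2 h1]

theorem four_swap : ({z, c, b, a} : Set W) = {z, a, b, c} := by
  ext w
  simp only [Set.mem_insert_iff, Set.mem_singleton_iff]
  tauto

theorem Cfg.exists_P (h : Cfg H U z a b c) {m : W} (hm : m ∈ U \ {z, a, b, c})
    (hmb : H.Adj m b) : ∃ P : Set W, P ⊆ (U \ {z, a, b, c}) ∩ Nb H {b} ∧ IsConn H P ∧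
      (∃ u ∈ P, H.Adj u a) ∧ (∃ v ∈ P, H.Adj v c) ∧ ∀ x ∈ P, Le2 H x P := by
  have key : ∀ {a c : W}, Cfg H U z a b c → m ∈ U \ {z, a, b, c} →
      ∃ u, Conn H ((U \ {z, a, b, c}) ∩ Nb H {b}) m u ∧ H.Adj u c := fun {a c} h hm => by
    have hm' : m ∈ U \ {z, a, b} := ⟨hm.1, fun h1 => hm.2 (by
      rcases h1 with rfl | rfl | rfl <;> simp)⟩
    obtain ⟨u, v, hu, huv, hv, hvR⟩ := exit (R := (U \ {z, a, b, c}) ∩ Nb H {b})
      (h.link hm' hmb) ⟨hm, b, rfl, hmb⟩ (fun h1 => h1.1.2 (by simp))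
    refine ⟨u, hu, ?_⟩
    by_contra hn
    refine hvR ⟨⟨hv.1.1, ?_⟩, hv.1.2⟩
    rintro (rfl | rfl | rfl | rfl)
    exacts [hv.2 (by simp), hv.2 (by simp), hv.2 (by simp), hn huv]
  obtain ⟨v, hv, hvc⟩ := key h hm
  obtain ⟨u, hu, hua⟩ := key h.swap (four_swap ▸ hm)
  rw [four_swap] at hu
  exact exists_path (A := {w | H.Adj w a}) (C := {w | H.Adj w c}) ((symm hu).trans hv)
    (mem hu ⟨hm, b, rfl, hmb⟩) hua hvc

theorem Cfg.peel (h : Cfg H U z a b c)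
    (hO : ∀ x ∈ U, H.Adj x z → H.Adj x b → x = a ∨ x = c) {m : W} (hm : m ∈ U \ {z, a, b, c})
    (hmb : H.Adj m b) : ∃ P Qa Qc, Peel H U z a b c P Qa Qc := by
  obtain ⟨P, hP, hPc, pa, pc, le2⟩ := h.exists_P hm hmb
  have hP1 : P ⊆ U \ {z, a, b, c} := fun x hx => (hP hx).1
  have hPb : ∀ x ∈ P, H.Adj x b := fun x hx => by
    obtain ⟨_, rfl, h1⟩ := (hP hx).2
    exact h1
  have pb : ∃ v ∈ P, H.Adj v b := by
    obtain ⟨v, hv, -⟩ := pa
    exact ⟨v, hv, hPb v hv⟩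
  obtain ⟨R, hR⟩ : ∃ R, R = U \ ({z, a, b, c} ∪ P) := ⟨_, rfl⟩
  -- pockets
  have both : ∀ y ∈ R, (∃ m, Conn H R y m ∧ H.Adj m b) → (∃ m, Conn H R y m ∧ H.Adj m a) →
      ¬ ∃ m, Conn H R y m ∧ H.Adj m c := fun y hy qb qa qc =>
    not_both h hP1 hPc pa pb pc (Q := {w | Conn H R y w}) (fun w hw => hR ▸ mem hw hy)
      (isConn_comp R y) qb qa qc
  have outer : ∀ y ∈ R, (∃ m, Conn H R y m ∧ H.Adj m b) → ¬ H.Adj y z := fun y hy qb hyz => by
    refine not_outer h hP1 hPc pa pc (Q := {w | Conn H R y w}) (fun w hw => hR ▸ mem hw hy)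
      (isConn_comp R y) qb ?_ ⟨y, Relation.ReflTransGen.refl, hyz⟩
    obtain ⟨m', hm', hmb'⟩ := qb
    obtain ⟨u, v, hu, huv, hv⟩ := h.out (hR ▸ mem hm' hy) hmb'
    obtain ⟨u', v', hu', huv', hv'⟩ := h.swap.out (P := P) (m := m')
      (by rw [four_swap, ← hR]; exact mem hm' hy) hmb'
    rw [four_swap, ← hR] at hu'
    rw [← hR] at hu
    rcases hv with rfl | hv
    · rcases hv' with rfl | hv'
      · exact absurd ⟨u, hm'.trans hu, huv⟩ (both y hy ⟨m', hm', hmb'⟩ ⟨u', hm'.trans hu', huv'⟩)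
      · exact ⟨u', hm'.trans hu', v', hv', huv'⟩
    · exact ⟨u, hm'.trans hu, v, hv, huv⟩
  have tr : ∀ {x y t : W}, Conn H R x y → (∃ m, Conn H R y m ∧ H.Adj m t) →
      ∃ m, Conn H R x m ∧ H.Adj m t := fun hxy ⟨m, hm, hmt⟩ => ⟨m, hxy.trans hm, hmt⟩
  have split : ∀ x ∈ U, x ∈ R ∨ x = z ∨ x = a ∨ x = b ∨ x = c ∨ x ∈ P := fun x hx => by
    by_contra hn
    simp only [not_or] at hn
    refine hn.1 (hR ▸ ⟨hx, ?_⟩)
    rintro ((rfl | rfl | rfl | rfl) | h1) <;> tauto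
  have hRs : ∀ x ∈ R, x ∈ U \ ({z, a, b, c} ∪ P) := fun x hx => hR ▸ hx
  obtain ⟨Qa, hQa⟩ : ∃ Qa : Set W, ∀ y, y ∈ Qa ↔ y ∈ R ∧ (∃ m, Conn H R y m ∧ H.Adj m b) ∧
    ¬ ∃ m, Conn H R y m ∧ H.Adj m c := ⟨{y | _}, fun _ => Iff.rfl⟩
  obtain ⟨Qc, hQc⟩ : ∃ Qc : Set W, ∀ y, y ∈ Qc ↔ y ∈ R ∧ (∃ m, Conn H R y m ∧ H.Adj m b) ∧
    ∃ m, Conn H R y m ∧ H.Adj m c := ⟨{y | _}, fun _ => Iff.rfl⟩
  have cla : ∀ x y, Conn H R x y → y ∈ Qa → x ∈ Qa := fun x y hxy hy => by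
    rw [hQa] at hy ⊢
    exact ⟨mem (symm hxy) hy.1, tr hxy hy.2.1, fun h1 => hy.2.2 (tr (symm hxy) h1)⟩
  have clc : ∀ x y, Conn H R x y → y ∈ Qc → x ∈ Qc := fun x y hxy hy => by
    rw [hQc] at hy ⊢
    exact ⟨mem (symm hxy) hy.1, tr hxy hy.2.1, tr hxy hy.2.2⟩
  have hQ : ∀ y ∈ R, (∃ m, Conn H R y m ∧ H.Adj m b) → y ∈ U \ ({z} ∪ Nb H {z}) :=
    fun y hy qb => ⟨(hRs y hy).1, by
      rintro (rfl | ⟨_, rfl, h1⟩)
      · exact (hRs _ hy).2 (by simp)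
      · exact outer y hy qb h1⟩
  refine ⟨P, Qa, Qc, ?_, ?_, ?_, ?_, le2, ?_, ?_, ?_, ?_, ?_, ?_⟩
  · rintro x ((hx | hx) | hx)
    · refine ⟨(hP1 hx).1, ?_⟩
      rintro (rfl | ⟨_, rfl, h1⟩)
      · exact (hP1 hx).2 (by simp)
      · rcases hO x (hP1 hx).1 h1 (hPb x hx) with rfl | rfl <;> exact (hP1 hx).2 (by simp)
    · exact hQ x ((hQa x).1 hx).1 ((hQa x).1 hx).2.1
    · exact hQ x ((hQc x).1 hx).1 ((hQc x).1 hx).2.1
  · exact Set.disjoint_left.2 fun x hx h1 => (hRs x ((hQa x).1 h1).1).2 (Or.inr hx)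
  · exact Set.disjoint_left.2 fun x hx h1 => (hRs x ((hQc x).1 h1).1).2 (Or.inr hx)
  · exact Set.disjoint_left.2 fun x hx h1 => ((hQa x).1 hx).2.2 ((hQc x).1 h1).2.2
  · rintro x ⟨hx, _, rfl, hxb⟩
    rcases split x hx with h1 | rfl | rfl | rfl | rfl | h1
    · by_cases h2 : ∃ m, Conn H R x m ∧ H.Adj m c
      · exact Or.inr ((hQc x).2 ⟨h1, ⟨x, Relation.ReflTransGen.refl, hxb⟩, h2⟩)
      · exact Or.inl (Or.inr ((hQa x).2 ⟨h1, ⟨x, Relation.ReflTransGen.refl, hxb⟩, h2⟩))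
    · simp
    · simp
    · exact absurd rfl hxb.ne
    · simp
    · exact Or.inl (Or.inl (Or.inr h1))
  · rintro x ⟨hx, y, hy, hxy⟩
    have hy' := (hQa y).1 hy
    rcases split x hx with h1 | rfl | rfl | rfl | rfl | h1
    · exact Or.inl (Or.inl (cla x y (step h1 hy'.1 hxy) hy))
    · exact absurd hxy.symm (outer y hy'.1 hy'.2.1)
    · simp
    · simp
    · exact absurd ⟨y, Relation.ReflTransGen.refl, hxy.symm⟩ hy'.2.2
    · exact Or.inl (Or.inr h1)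
  · rintro x ⟨hx, y, hy, hxy⟩
    have hy' := (hQc y).1 hy
    rcases split x hx with h1 | rfl | rfl | rfl | rfl | h1
    · exact Or.inl (Or.inl (clc x y (step h1 hy'.1 hxy) hy))
    · exact absurd hxy.symm (outer y hy'.1 hy'.2.1)
    · exact absurd hy'.2.2 (both y hy'.1 hy'.2.1 ⟨y, Relation.ReflTransGen.refl, hxy.symm⟩)
    · simp
    · simp
    · exact Or.inl (Or.inr h1)
  · have hb : b ∈ ({z, b} : Set W) ∪ P ∪ Qa ∪ Qc := by simp
    refine isConn_of b fun x hx => ?_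
    rcases id hx with (((rfl | rfl) | h1) | h1) | h1
    · exact step hx hb h.bz.symm
    · exact Relation.ReflTransGen.refl
    · exact step hx hb (hPb x h1)
    · obtain ⟨m, hm, hmb⟩ := ((hQa x).1 h1).2.1
      have hin : ∀ w, Conn H R x w → w ∈ ({z, b} : Set W) ∪ P ∪ Qa ∪ Qc :=
        fun w hw => Or.inl (Or.inr (cla w x (symm hw) h1))
      exact (sub hm hin).tail ⟨hin m hm, hb, hmb⟩
    · obtain ⟨m, hm, hmb⟩ := ((hQc x).1 h1).2.1
      have hin : ∀ w, Conn H R x w → w ∈ ({z, b} : Set W) ∪ P ∪ Qa ∪ Qc :=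
        fun w hw => Or.inr (clc w x (symm hw) h1)
      exact (sub hm hin).tail ⟨hin m hm, hb, hmb⟩
  · exact h.rest hP1 hPc pc (fun x hx => hRs x ((hQa x).1 hx).1) (hR ▸ cla)
  · refine h.swap.rest (four_swap ▸ hP1) hPc pa ?_ ?_
    · rw [four_swap]
      exact fun x hx => hRs x ((hQc x).1 hx).1
    · rw [four_swap, ← hR]
      exact clc

theorem Cfg.add_z (h : Cfg H U z a b c) : IsConn H (U \ (∅ ∪ {a, b})) := by
  have hc : c ∈ U \ (∅ ∪ {a, b}) := ⟨h.hc, by simp [h.ac.symm, h.cb.ne]⟩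
  refine isConn_of c fun x hx => ?_
  by_cases hxz : x = z
  · exact step hx hc (hxz ▸ h.cz.symm)
  · refine mono (R := U \ {z, a, b})
      (fun w hw => Set.mem_sdiff_of_mem hw.1 fun h1 => hw.2 (Or.inr (by simpa using h1)))
      (h.na x ⟨hx.1, ?_⟩ c h.c_mem)
    rintro (h1 | h1)
    exacts [hxz h1, hx.2 (Or.inr h1)]

end PkDLp

open PkDLp in
theorem pkg_DLp : DLp := by
  intro W H U z a b c _ hpl hz hn hb hac hO _
  have hbz : H.Adj b z := by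
    obtain ⟨_, rfl, h1⟩ := hb.2
    exact h1
  have hx : ∀ x ∈ ({a, c} : Set W), x ∈ U ∧ H.Adj x z ∧ H.Adj x b ∧
      IsConn H (U \ {z, x, b}) := fun x hx => by
    rw [← hO] at hx
    obtain ⟨⟨h1, _, rfl, h2⟩, _, rfl, h3⟩ := hx
    refine ⟨h1, h2, h3, hn {x, _} ?_ (Set.ncard_pair h3.ne).le (H.isClique_pair.2 fun _ => h3)⟩
    rintro _ (rfl | rfl)
    exacts [⟨h1, _, rfl, h2⟩, hb]
  obtain ⟨a1, a2, a3, a4⟩ := hx a (by simp)
  obtain ⟨c1, c2, c3, c4⟩ := hx c (by simp)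
  have h : Cfg H U z a b c := ⟨hpl, hz, a1, hb.1, c1, hac, a2, hbz, c2, a3, c3, a4, c4⟩
  by_cases hm : ∃ m ∈ U \ {z, a, b, c}, H.Adj m b
  · obtain ⟨m, hm, hmb⟩ := hm
    refine h.peel (fun x h1 h2 h3 => ?_) hm hmb
    have : x ∈ ({a, c} : Set W) := hO ▸ ⟨⟨h1, z, rfl, h2⟩, b, rfl, h3⟩
    exact this
  · refine ⟨∅, ∅, ∅, by simp, by simp, by simp, by simp, by simp, ?_, ?_, ?_, ?_, h.add_z,
      h.swap.add_z⟩
    · rintro x ⟨h1, _, rfl, h2⟩
      by_contra h3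
      refine hm ⟨x, ⟨h1, ?_⟩, h2⟩
      rintro (rfl | rfl | rfl | rfl)
      exacts [h3 (by simp), h3 (by simp), h2.ne rfl, h3 (by simp)]
    · rintro x ⟨_, _, h1, _⟩
      exact h1.elim
    · rintro x ⟨_, _, h1, _⟩
      exact h1.elim
    · refine isConn_of b ?_
      rintro x hx
      rcases id hx with (((rfl | rfl) | h1) | h1) | h1
      · exact step hx (by simp) hbz.symm
      · exact Relation.ReflTransGen.refl
      all_goals exact h1.elim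

end Pool.Agent.P.MP_08fd93_co
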