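import Pool.Agent.P.MP_08fd93_co.StB

/-! The ladder lemma. -/

set_option autoImplicit false

namespace Pool.Agent.P.MP_08fd93_co

namespace PkLad

section general

variable {W : Type} {H : SimpleGraph W}

theorem conn_mono {A B : Set W} (h : A ⊆ B) {a b : W} (c : Conn H A a b) : Conn H B a b := by
  induction c with
  | refl => exact Relation.ReflTransGen.refl
  | tail _ p ih => exact Relation.ReflTransGen.tail ih ⟨h p.1, h p.2.1, p.2.2⟩

theorem conn_symm {A : Set W} {a b : W} (c : Conn H A a b) : Conn H A b a := by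
  induction c with
  | refl => exact Relation.ReflTransGen.refl
  | tail _ p ih => exact Relation.ReflTransGen.head ⟨p.2.1, p.1, p.2.2.symm⟩ ih

theorem conn_trans {A : Set W} {a b c : W} (p : Conn H A a b) (q : Conn H A b c) :
    Conn H A a c := Relation.ReflTransGen.trans p q

theorem isConn_of_base {A : Set W} (x : W) (h : ∀ y ∈ A, Conn H A x y) : IsConn H A :=
  fun a ha b hb => conn_trans (conn_symm (h a ha)) (h b hb)

theorem touch_symm {A B : Set W} (h : Touch H A B) : Touch H B A := by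
  obtain ⟨a, ha, b, hb, e⟩ := h
  exact ⟨b, hb, a, ha, e.symm⟩

theorem touch_mono {A B A' B' : Set W} (h : Touch H A B) (p : A ⊆ A') (q : B ⊆ B') :
    Touch H A' B' := by
  obtain ⟨a, ha, b, hb, e⟩ := h
  exact ⟨a, p ha, b, q hb, e⟩

theorem conn_of_touch {A B U : Set W} (hA : IsConn H A) (hB : IsConn H B) (p : A ⊆ U)
    (q : B ⊆ U) (h : Touch H A B) {a b : W} (ha : a ∈ A) (hb : b ∈ B) : Conn H U a b := by
  obtain ⟨x, hx, y, hy, e⟩ := h
  exact conn_trans (conn_mono p (hA a ha x hx))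
    (Relation.ReflTransGen.head ⟨p hx, q hy, e⟩ (conn_mono q (hB y hy b hb)))

theorem isConn_union {A B : Set W} (hA : IsConn H A) (hB : IsConn H B) (h : Touch H A B) :
    IsConn H (A ∪ B) := by
  obtain ⟨x, hx, -⟩ := id h
  refine isConn_of_base x fun y hy => ?_
  rcases hy with hy | hy
  · exact conn_mono Set.subset_union_left (hA x hx y hy)
  · exact conn_of_touch hA hB Set.subset_union_left Set.subset_union_right h hx hy

/-- The component of `x` in `U`. -/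
def comp (H : SimpleGraph W) (U : Set W) (x : W) : Set W := {y | y ∈ U ∧ Conn H U x y}

theorem comp_conn (U : Set W) (x : W) : IsConn H (comp H U x) := by
  refine isConn_of_base x fun y hy => ?_
  obtain ⟨-, c⟩ := hy
  induction c with
  | refl => exact Relation.ReflTransGen.refl
  | tail c p ih => exact Relation.ReflTransGen.tail ih ⟨⟨p.1, c⟩, ⟨p.2.1, c.tail p⟩, p.2.2⟩

theorem exists_exit {A : Set W} {a b : W} (c : Conn H Set.univ a b) (ha : a ∈ A) (hb : b ∉ A) :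
    ∃ x ∈ A, ∃ y, y ∉ A ∧ H.Adj x y := by
  induction c with
  | refl => exact absurd ha hb
  | @tail u v _ p ih =>
    by_cases hu : u ∈ A
    · exact ⟨u, hu, v, hb, p.2.2⟩
    · exact ih hu

end general

variable {J : Type} {Γ : SimpleGraph (J × (ℤ × ℤ))} {l : ℤ → J × (ℤ × ℤ)} {N : ℕ}
  {g s : ℤ × ℤ} {R : Set (J × (ℤ × ℤ))}

theorem tr_tr (a b : ℤ × ℤ) (w : J × (ℤ × ℤ)) : tr a (tr b w) = tr (b + a) w := by
  simp [tr, add_assoc]

theorem tr_zero (w : J × (ℤ × ℤ)) : tr 0 w = w := by simp [tr]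

theorem tr_inj {a b : ℤ × ℤ} {w : J × (ℤ × ℤ)} (h : tr a w = tr b w) : a = b := by
  simpa [tr] using h

theorem eq_tr {w x : J × (ℤ × ℤ)} (h : w.1 = x.1) : w = tr (w.2 - x.2) x := by
  ext <;> simp [tr, h]

theorem tr_mem {A : Set (J × (ℤ × ℤ))} {a : ℤ × ℤ} (b : ℤ × ℤ) {w : J × (ℤ × ℤ)}
    (h : w ∈ tr a '' A) : tr b w ∈ tr (a + b) '' A := by
  obtain ⟨x, hx, rfl⟩ := h
  exact ⟨x, hx, (tr_tr _ _ _).symm⟩

theorem tr_mem_ln {a : ℤ × ℤ} (b : ℤ × ℤ) {w : J × (ℤ × ℤ)} (h : w ∈ Ln l a) :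
    tr b w ∈ Ln l (a + b) := by
  obtain ⟨i, rfl⟩ := h
  exact ⟨i, tr_tr _ _ _⟩

theorem conn_tr (hΓ : Good Γ) {A B : Set (J × (ℤ × ℤ))} (a : ℤ × ℤ) (h : ∀ w ∈ A, tr a w ∈ B)
    {x y : J × (ℤ × ℤ)} (c : Conn Γ A x y) : Conn Γ B (tr a x) (tr a y) := by
  induction c with
  | refl => exact Relation.ReflTransGen.refl
  | tail _ p ih => exact ih.tail ⟨h _ p.1, h _ p.2.1, hΓ.inv _ _ _ p.2.2⟩

theorem isConn_tr (hΓ : Good Γ) {A : Set (J × (ℤ × ℤ))} (hA : IsConn Γ A) (a : ℤ × ℤ) :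
    IsConn Γ (tr a '' A) := by
  rintro _ ⟨x, hx, rfl⟩ _ ⟨y, hy, rfl⟩
  exact conn_tr hΓ a (fun w hw => Set.mem_image_of_mem _ hw) (hA x hx y hy)

theorem touch_tr (hΓ : Good Γ) {A B A' B' : Set (J × (ℤ × ℤ))} (a : ℤ × ℤ) (h : Touch Γ A B)
    (p : ∀ w ∈ A, tr a w ∈ A') (q : ∀ w ∈ B, tr a w ∈ B') : Touch Γ A' B' := by
  obtain ⟨x, hx, y, hy, e⟩ := h
  exact ⟨_, p x hx, _, q y hy, hΓ.inv a _ _ e⟩

theorem per_mul (hL : Line Γ l N g) (k i : ℤ) : l (i + N * k) = tr (k • g) (l i) := by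
  induction k using Int.induction_on with
  | zero => simp [tr_zero]
  | succ k ih => rw [mul_add, mul_one, ← add_assoc, hL.per, ih, tr_tr, add_smul, one_smul]
  | pred k ih =>
    have h1 := hL.per (i + N * (-(k : ℤ) - 1))
    rw [show i + N * (-(k : ℤ) - 1) + N = i + N * (-(k : ℤ)) by ring, ih] at h1
    have h2 := congrArg (tr (-g)) h1
    rw [tr_tr, tr_tr, add_neg_cancel, tr_zero] at h2
    rw [← h2, sub_smul, one_smul, sub_eq_add_neg]

theorem ln_shift (hL : Line Γ l N g) {a b : ℤ × ℤ} (k : ℤ) (h : b = a + k • g) :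
    Ln l b = Ln l a := by
  have key : ∀ (a : ℤ × ℤ) (k : ℤ), Ln l (a + k • g) ⊆ Ln l a := by
    rintro a k _ ⟨i, rfl⟩
    exact ⟨i + N * k, by rw [per_mul hL, tr_tr, add_comm]⟩
  refine Set.Subset.antisymm (h ▸ key a k) ?_
  have := key b (-k)
  rwa [h, neg_smul, add_neg_cancel_right, ← h] at this

theorem ln_meet (hL : Line Γ l N g) {a b : ℤ × ℤ} {w : J × (ℤ × ℤ)} (ha : w ∈ Ln l a)
    (hb : w ∈ Ln l b) : ∃ k : ℤ, b = a + k • g := by
  obtain ⟨i, rfl⟩ := ha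
  obtain ⟨j, e⟩ := hb
  obtain ⟨k, hk⟩ := hL.inj i j (congrArg Prod.fst e :)
  rw [show i = j + N * k by omega, per_mul hL, tr_tr] at e
  exact ⟨k, by rw [← tr_inj e, add_comm]⟩

theorem ln_conn (hΓ : Good Γ) (hL : Line Γ l N g) (a : ℤ × ℤ) : IsConn Γ (Ln l a) := by
  refine isConn_of_base (tr a (l 0)) ?_
  rintro _ ⟨i, rfl⟩
  induction i using Int.induction_on with
  | zero => exact Relation.ReflTransGen.refl
  | succ k ih => exact ih.tail ⟨⟨_, rfl⟩, ⟨_, rfl⟩, hΓ.inv _ _ _ (hL.adj _)⟩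
  | pred k ih =>
    refine ih.tail ⟨⟨_, rfl⟩, ⟨_, rfl⟩, hΓ.inv _ _ _ ?_⟩
    have := (hL.adj (-(k : ℤ) - 1)).symm
    rwa [sub_add_cancel] at this

theorem ln_sat (a : ℤ × ℤ) : Ln l a ⊆ Sat (Ln l 0) := by
  rintro _ ⟨i, rfl⟩
  exact ⟨_, ⟨i, rfl⟩, rfl⟩

theorem sat_ln {w : J × (ℤ × ℤ)} (h : w ∈ Sat (Ln l 0)) : ∃ a, w ∈ Ln l a := by
  obtain ⟨_, ⟨i, rfl⟩, e⟩ := h
  exact ⟨_, i, eq_tr e⟩

theorem not_mul (hS : Step Γ l g s) {n k : ℤ} (hn : n ≠ 0) : n • s ≠ k • g := by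
  intro h
  have h1 : n * s.1 = k * g.1 := congrArg Prod.fst h
  have h2 : n * s.2 = k * g.2 := congrArg Prod.snd h
  refine mul_ne_zero hn hS.det ?_
  linear_combination g.1 * h2 - g.2 * h1

theorem mul_inj (hL : Line Γ l N g) {n k : ℤ} (h : n • g = k • g) : n = k := by
  by_contra hne
  apply hL.ne
  have h1 : (n - k) • g = 0 := by rw [sub_smul, h, sub_self]
  exact (smul_eq_zero.1 h1).resolve_left (sub_ne_zero.2 hne)

theorem touch_two (hL : Line Γ l N g) {D : Set (J × (ℤ × ℤ))} {u t : ℤ × ℤ}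
    (hu : Nb Γ D ∩ Sat (Ln l 0) ⊆ Ln l u ∪ Ln l (s + u)) (h : Touch Γ D (Ln l t)) :
    (∃ k : ℤ, t = u + k • g) ∨ ∃ k : ℤ, t = s + u + k • g := by
  obtain ⟨x, hx, y, hy, e⟩ := h
  rcases hu ⟨⟨x, hx, e.symm⟩, ln_sat t hy⟩ with h | h
  · exact Or.inl (ln_meet hL h hy)
  · exact Or.inr (ln_meet hL h hy)

theorem two_lines (hL : Line Γ l N g) (hS : Step Γ l g s) {D : Set (J × (ℤ × ℤ))}
    {u t : ℤ × ℤ} (hu : Nb Γ D ∩ Sat (Ln l 0) ⊆ Ln l u ∪ Ln l (s + u))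
    (h0 : Touch Γ D (Ln l t)) (h1 : Touch Γ D (Ln l (s + t))) : ∃ k : ℤ, t = u + k • g := by
  rcases touch_two hL hu h0 with h | ⟨k, hk⟩
  · exact h
  · exfalso
    rcases touch_two hL hu h1 with ⟨j, hj⟩ | ⟨j, hj⟩
    · refine not_mul hS (n := 2) (k := j - k) (by norm_num) ?_
      rw [hk] at hj
      rw [sub_smul, two_smul]
      linear_combination (exp := 1) hj
    · refine not_mul hS (n := 1) (k := j - k) (by norm_num) ?_
      rw [hk] at hj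
      rw [sub_smul, one_smul]
      linear_combination (exp := 1) hj

theorem r_sat (a : ℤ × ℤ) : tr a '' R ⊆ Sat (Ln l 0 ∪ R) := by
  rintro _ ⟨x, hx, rfl⟩
  exact ⟨x, Or.inr hx, rfl⟩

theorem l_sat : Sat (Ln l 0) ⊆ Sat (Ln l 0 ∪ R) := fun _ ⟨x, hx, e⟩ => ⟨x, Or.inl hx, e⟩

theorem r_off (hR : Rung Γ l s R) {a : ℤ × ℤ} {w : J × (ℤ × ℤ)} (h : w ∈ tr a '' R) :
    w ∉ Sat (Ln l 0) := by
  obtain ⟨x, hx, rfl⟩ := h
  exact fun h => Set.disjoint_left.1 hR.disj hx h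

theorem r_meet (hR : Rung Γ l s R) {a b : ℤ × ℤ} {w : J × (ℤ × ℤ)} (ha : w ∈ tr a '' R)
    (hb : w ∈ tr b '' R) : a = b := by
  obtain ⟨x, hx, rfl⟩ := ha
  obtain ⟨y, hy, e⟩ := hb
  obtain rfl := hR.inj y hy x hx (congrArg Prod.fst e :)
  exact (tr_inj e).symm

theorem r_t0 (hΓ : Good Γ) (hR : Rung Γ l s R) (a : ℤ × ℤ) : Touch Γ (tr a '' R) (Ln l a) :=
  touch_tr hΓ a hR.t0 (fun w hw => ⟨w, hw, rfl⟩) fun w hw => by simpa using tr_mem_ln a hw

theorem r_t1 (hΓ : Good Γ) (hR : Rung Γ l s R) (a : ℤ × ℤ) :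
    Touch Γ (tr a '' R) (Ln l (s + a)) :=
  touch_tr hΓ a hR.t1 (fun w hw => ⟨w, hw, rfl⟩) fun _ hw => tr_mem_ln a hw

/-- All rungs between two fixed lines together with one more set. -/
def comb (R : Set (J × (ℤ × ℤ))) (g t : ℤ × ℤ) (L : Set (J × (ℤ × ℤ))) : Set (J × (ℤ × ℤ)) :=
  {w | ∃ k : ℤ, w ∈ tr (t + k • g) '' R} ∪ L

theorem comb_ok (hΓ : Good Γ) (hL : Line Γ l N g) (hR : Rung Γ l s R) {t a b : ℤ × ℤ}
    (ha : ∀ k : ℤ, Touch Γ (tr (t + k • g) '' R) (Ln l a)) (hb : Touch Γ (tr t '' R) (Ln l b))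
    (hab : ∀ k : ℤ, b ≠ a + k • g) (j : ℤ) :
    IsConn Γ (comb R g t (Ln l a)) ∧ Disjoint (comb R g t (Ln l a)) (Ln l b) ∧
      Touch Γ (comb R g t (Ln l a)) (Ln l b) ∧ ∀ w ∈ comb R g t (Ln l a),
        tr (j • g) w ∈ comb R g t (Ln l a) ∧ tr (-(j • g)) w ∈ comb R g t (Ln l a) := by
  have inv : ∀ j : ℤ, ∀ w ∈ comb R g t (Ln l a), tr (j • g) w ∈ comb R g t (Ln l a) := by
    rintro j w (⟨k, hk⟩ | hw)
    · refine Or.inl ⟨k + j, ?_⟩
      rw [add_smul, ← add_assoc]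
      exact tr_mem _ hk
    · exact Or.inr (ln_shift hL j rfl ▸ tr_mem_ln (j • g) hw)
  refine ⟨isConn_of_base (tr a (l 0)) ?_, Set.disjoint_left.2 ?_,
    touch_mono hb (fun w hw => Or.inl ⟨0, by simpa using hw⟩) le_rfl,
    fun w hw => ⟨inv j w hw, neg_smul j g ▸ inv (-j) w hw⟩⟩
  · rintro w (⟨k, hk⟩ | hw)
    · exact conn_of_touch (ln_conn hΓ hL a) (isConn_tr hΓ hR.conn _) Set.subset_union_right
        (fun w hw => Or.inl (Exists.intro k hw)) (touch_symm (ha k)) ⟨0, rfl⟩ hk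
    · exact conn_mono Set.subset_union_right (ln_conn hΓ hL a _ ⟨0, rfl⟩ w hw)
  · rintro w (⟨k, hk⟩ | hw) h
    · exact r_off hR hk (ln_sat b h)
    · obtain ⟨k, hk⟩ := ln_meet hL hw h
      exact hab k hk

theorem comb_sat {t a : ℤ × ℤ} : comb R g t (Ln l a) ⊆ Sat (Ln l 0 ∪ R) := by
  rintro w (⟨k, hk⟩ | hw)
  · exact r_sat _ hk
  · exact l_sat (ln_sat a hw)

theorem comb_up (hΓ : Good Γ) (hL : Line Γ l N g) (hS : Step Γ l g s) (hR : Rung Γ l s R)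
    (t : ℤ × ℤ) (j : ℤ) :
    IsConn Γ (comb R g t (Ln l (s + t))) ∧ Disjoint (comb R g t (Ln l (s + t))) (Ln l t) ∧
      Touch Γ (comb R g t (Ln l (s + t))) (Ln l t) ∧ ∀ w ∈ comb R g t (Ln l (s + t)),
        tr (j • g) w ∈ comb R g t (Ln l (s + t)) ∧ tr (-(j • g)) w ∈ comb R g t (Ln l (s + t)) := by
  refine comb_ok hΓ hL hR (fun k => ?_) (r_t0 hΓ hR t) (fun k h => ?_) j
  · rw [← ln_shift hL k (add_assoc s t (k • g)).symm]
    exact r_t1 hΓ hR _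
  · refine not_mul hS (n := 1) (k := -k) (by norm_num) ?_
    rw [neg_smul, one_smul]
    linear_combination (exp := 1) -h

theorem comb_dn (hΓ : Good Γ) (hL : Line Γ l N g) (hS : Step Γ l g s) (hR : Rung Γ l s R)
    (t : ℤ × ℤ) (j : ℤ) :
    IsConn Γ (comb R g (t - s) (Ln l (t - s))) ∧
      Disjoint (comb R g (t - s) (Ln l (t - s))) (Ln l t) ∧
      Touch Γ (comb R g (t - s) (Ln l (t - s))) (Ln l t) ∧ ∀ w ∈ comb R g (t - s) (Ln l (t - s)),
        tr (j • g) w ∈ comb R g (t - s) (Ln l (t - s)) ∧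
          tr (-(j • g)) w ∈ comb R g (t - s) (Ln l (t - s)) := by
  refine comb_ok hΓ hL hR (fun k => ?_) ?_ (fun k h => ?_) j
  · rw [← ln_shift hL k rfl]
    exact r_t0 hΓ hR _
  · simpa using r_t1 hΓ hR (t - s)
  · refine not_mul hS (n := 1) (k := k) (by norm_num) ?_
    rw [one_smul]
    linear_combination (exp := 1) h

theorem three {α : Type} {A B C : Set α} (h1 : Disjoint A B) (h2 : Disjoint A C)
    (h3 : Disjoint B C) : ∀ i j : Fin 3, i ≠ j → Disjoint (![A, B, C] i) (![A, B, C] j) := by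
  intro i j h
  fin_cases i <;> fin_cases j <;> first
    | exact absurd rfl h | exact h1 | exact h2 | exact h3
    | exact h1.symm | exact h2.symm | exact h3.symm

theorem two_rungs (hΓ : Good Γ) (hL : Line Γ l N g) (hS : Step Γ l g s) (hR : Rung Γ l s R)
    {C : Set (J × (ℤ × ℤ))} (hC : IsConn Γ C) (hK : Disjoint C (Sat (Ln l 0 ∪ R)))
    {t t' : ℤ × ℤ} (h : Touch Γ C (tr t '' R)) (h' : Touch Γ C (tr t' '' R)) :
    (∃ k : ℤ, t' = t + k • g) ∧ Nb Γ C ∩ Sat (Ln l 0) ⊆ Ln l t ∪ Ln l (s + t) := by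
  have c1 : IsConn Γ (C ∪ tr t '' R ∪ tr t' '' R) :=
    isConn_union (isConn_union hC (isConn_tr hΓ hR.conn t) h) (isConn_tr hΓ hR.conn t')
      (touch_mono h' Set.subset_union_left le_rfl)
  obtain ⟨u, hu⟩ := hS.two _ c1 (Set.disjoint_left.2 (by
    rintro w ((hw | hw) | hw) h
    · exact Set.disjoint_left.1 hK hw (l_sat h)
    · exact r_off hR hw h
    · exact r_off hR hw h))
  have s1 : tr t '' R ⊆ C ∪ tr t '' R ∪ tr t' '' R := fun w hw => Or.inl (Or.inr hw)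
  obtain ⟨k, hk⟩ := two_lines hL hS hu (touch_mono (r_t0 hΓ hR t) s1 le_rfl)
    (touch_mono (r_t1 hΓ hR t) s1 le_rfl)
  obtain ⟨k', hk'⟩ := two_lines hL hS hu
    (touch_mono (r_t0 hΓ hR t') Set.subset_union_right le_rfl)
    (touch_mono (r_t1 hΓ hR t') Set.subset_union_right le_rfl)
  refine ⟨⟨k' - k, by rw [hk, hk', sub_smul]; abel⟩, ?_⟩
  rw [ln_shift hL k hk, ln_shift hL (a := s + u) (b := s + t) k (by rw [hk, add_assoc])]
  rintro w ⟨⟨x, hx, e⟩, hw⟩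
  exact hu ⟨⟨x, Or.inl (Or.inl hx), e⟩, hw⟩

theorem no_shift (hΓ : Good Γ) (hL : Line Γ l N g) (hS : Step Γ l g s) (hR : Rung Γ l s R)
    {C : Set (J × (ℤ × ℤ))} (hC : IsConn Γ C) (hK : Disjoint C (Sat (Ln l 0 ∪ R)))
    {t a : ℤ × ℤ} (h : Touch Γ C (tr t '' R)) (ha : a ≠ 0) (inv : ∀ w ∈ C, tr a w ∈ C) :
    False := by
  have h1 : Touch Γ C (tr (t + a) '' R) := touch_tr hΓ a h inv fun w hw => tr_mem a hw
  have h2 : Touch Γ C (tr (t + a + a) '' R) := touch_tr hΓ a h1 inv fun w hw => tr_mem a hw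
  obtain ⟨k1, e1⟩ := (two_rungs hΓ hL hS hR hC hK h h1).1
  obtain ⟨k2, e2⟩ := (two_rungs hΓ hL hS hR hC hK h h2).1
  have dj : ∀ {x y : ℤ × ℤ}, x ≠ y → Disjoint (tr x '' R) (tr y '' R) :=
    fun hxy => Set.disjoint_left.2 fun w p q => hxy (r_meet hR p q)
  have d1 : ∀ x, Disjoint C (Ln l x) := fun x => hK.mono_right fun w hw => l_sat (ln_sat x hw)
  have d2 : ∀ x y, Disjoint (tr x '' R) (Ln l y) :=
    fun x y => Set.disjoint_left.2 fun w p q => r_off hR p (ln_sat y q)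
  have d3 : ∀ x, Disjoint (tr x '' R) C := fun x => (hK.mono_right (r_sat x)).symm
  have q0 : ∀ (x : ℤ × ℤ) (k : ℤ), x = t + k • g → Touch Γ (tr x '' R) (Ln l t) ∧
      Touch Γ (tr x '' R) (Ln l (s + t)) := fun x k e =>
    ⟨ln_shift hL k e ▸ r_t0 hΓ hR x,
      ln_shift hL (a := s + t) (b := s + x) k (by rw [e, add_assoc]) ▸ r_t1 hΓ hR x⟩
  have a2 : a + a ≠ 0 := fun e => ha (by
    have : (2 : ℤ) • a = 0 := by rw [two_smul, e]
    exact (smul_eq_zero.1 this).resolve_left (by norm_num))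
  refine hΓ.pl.k33 ⟨![tr t '' R, tr (t + a) '' R, tr (t + a + a) '' R],
    ![C, Ln l t, Ln l (s + t)], fun i => ?_, fun i j hij => ⟨three (dj (by simpa using ha))
      (dj (by rw [add_assoc]; simpa using a2)) (dj (by simpa using ha)) i j hij,
      three (d1 _) (d1 _) ((comb_up hΓ hL hS hR t 0).2.1.symm.mono_right Set.subset_union_right)
        i j hij⟩, fun i j => ?_⟩
  · have c1 := isConn_tr hΓ hR.conn
    have c2 := ln_conn hΓ hL
    fin_cases i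
    · exact ⟨Set.subset_univ _, c1 _, Set.subset_univ _, hC⟩
    · exact ⟨Set.subset_univ _, c1 _, Set.subset_univ _, c2 _⟩
    · exact ⟨Set.subset_univ _, c1 _, Set.subset_univ _, c2 _⟩
  · have p0 := q0 t 0 (by simp)
    have p1 := q0 _ k1 e1
    have p2 := q0 _ k2 e2
    fin_cases i <;> fin_cases j
    exacts [⟨d3 _, touch_symm h⟩, ⟨d2 _ _, p0.1⟩, ⟨d2 _ _, p0.2⟩, ⟨d3 _, touch_symm h1⟩,
      ⟨d2 _ _, p1.1⟩, ⟨d2 _ _, p1.2⟩, ⟨d3 _, touch_symm h2⟩, ⟨d2 _ _, p2.1⟩, ⟨d2 _ _, p2.2⟩]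

theorem comb_disj (hL : Line Γ l N g) (hS : Step Γ l g s) (hR : Rung Γ l s R) (t : ℤ × ℤ) :
    Disjoint (comb R g t (Ln l (s + t))) (comb R g (t - s) (Ln l (t - s))) := by
  refine Set.disjoint_left.2 ?_
  rintro w (⟨k, hk⟩ | hw) (⟨j, hj⟩ | hw')
  · refine not_mul hS (n := 1) (k := j - k) (by norm_num) ?_
    have := r_meet hR hk hj
    rw [one_smul, sub_smul]
    linear_combination (exp := 1) this
  · exact r_off hR hk (ln_sat _ hw')
  · exact r_off hR hj (ln_sat _ hw)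
  · obtain ⟨k, hk⟩ := ln_meet hL hw hw'
    refine not_mul hS (n := 2) (k := -k) (by norm_num) ?_
    rw [two_smul, neg_smul]
    linear_combination (exp := 1) -hk

theorem no_shift_line (hs : S_Side) (hΓ : Good Γ) (hL : Line Γ l N g) (hS : Step Γ l g s)
    (hR : Rung Γ l s R) {C : Set (J × (ℤ × ℤ))} (hC : IsConn Γ C)
    (hK : Disjoint C (Sat (Ln l 0 ∪ R))) {t a : ℤ × ℤ} (h : Touch Γ C (Ln l t)) (ha : a ≠ 0)
    (inv : ∀ w ∈ C, tr a w ∈ C ∧ tr (-a) w ∈ C) : False := by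
  have h1 : Touch Γ C (Ln l (t + a)) :=
    touch_tr hΓ a h (fun w hw => (inv w hw).1) fun w hw => tr_mem_ln a hw
  have h2 : Touch Γ C (Ln l (t + a + a)) :=
    touch_tr hΓ a h1 (fun w hw => (inv w hw).1) fun w hw => tr_mem_ln a hw
  obtain ⟨u, hu⟩ := hS.two C hC (hK.mono_right l_sat)
  have key : ∃ j : ℤ, a + a = j • g := by
    rcases touch_two hL hu h with ⟨k0, e0⟩ | ⟨k0, e0⟩ <;>
      rcases touch_two hL hu h1 with ⟨k1, e1⟩ | ⟨k1, e1⟩ <;>
      rcases touch_two hL hu h2 with ⟨k2, e2⟩ | ⟨k2, e2⟩ <;>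
      first
        | exact ⟨k2 - k0, by rw [sub_smul]; linear_combination (exp := 1) e2 - e0⟩
        | exact ⟨k1 - k0 + (k1 - k0), by
            rw [add_smul, sub_smul]; linear_combination (exp := 1) e1 - e0 + e1 - e0⟩
        | exact ⟨k2 - k1 + (k2 - k1), by
            rw [add_smul, sub_smul]; linear_combination (exp := 1) e2 - e1 + e2 - e1⟩
  obtain ⟨j, hj⟩ := key
  have j0 : j ≠ 0 := by
    rintro rfl
    have : (2 : ℤ) • a = 0 := by rw [two_smul, hj, zero_smul]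
    exact ha ((smul_eq_zero.1 this).resolve_left (by norm_num))
  refine hs J Γ l N g hΓ hL t j j0
    ![C, comb R g t (Ln l (s + t)), comb R g (t - s) (Ln l (t - s))] (fun i => ?_)
    (three (hK.mono_right comb_sat) (hK.mono_right comb_sat) (comb_disj hL hS hR t))
  fin_cases i
  · refine ⟨hC, hK.mono_right fun w hw => l_sat (ln_sat t hw), h, fun w hw => ?_⟩
    rw [← hj, neg_add, ← tr_tr, ← tr_tr]
    exact ⟨(inv _ (inv w hw).1).1, (inv _ (inv w hw).2).2⟩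
  · exact comb_up hΓ hL hS hR t j
  · exact comb_dn hΓ hL hS hR t j

/-- A chain of rungs and copies of `C`. -/
def chain (R C : Set (J × (ℤ × ℤ))) (b t c : ℤ × ℤ) : Set (J × (ℤ × ℤ)) :=
  {w | ∃ i : ℤ, w ∈ tr (t + c + i • b) '' R ∨ w ∈ tr (c + i • b) '' C}

theorem chain_conn (hΓ : Good Γ) (hR : Rung Γ l s R) {C : Set (J × (ℤ × ℤ))} (hC : IsConn Γ C)
    {t b : ℤ × ℤ} (h : Touch Γ C (tr t '' R)) (h' : Touch Γ C (tr (t + b) '' R)) (c : ℤ × ℤ) :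
    IsConn Γ (chain R C b t c) := by
  obtain ⟨x, hx, -⟩ := hR.t0
  have c1 := isConn_tr hΓ hR.conn
  have c2 := isConn_tr hΓ hC
  have s1 : ∀ i : ℤ, tr (t + c + i • b) '' R ⊆ chain R C b t c := fun i w hw => ⟨i, Or.inl hw⟩
  have s2 : ∀ i : ℤ, tr (c + i • b) '' C ⊆ chain R C b t c := fun i w hw => ⟨i, Or.inr hw⟩
  have t1 : ∀ i : ℤ, Touch Γ (tr (t + c + i • b) '' R) (tr (c + i • b) '' C) := fun i =>
    touch_tr hΓ (c + i • b) (touch_symm h) (fun w hw => add_assoc t c _ ▸ tr_mem _ hw)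
      fun w hw => ⟨w, hw, rfl⟩
  have t2 : ∀ i : ℤ, Touch Γ (tr (t + c + (i + 1) • b) '' R) (tr (c + i • b) '' C) := fun i =>
    touch_tr hΓ (c + i • b) (touch_symm h') (fun w hw => by
      rw [show t + c + (i + 1) • b = t + b + (c + i • b) by rw [add_smul, one_smul]; abel]
      exact tr_mem _ hw) fun w hw => ⟨w, hw, rfl⟩
  have step : ∀ i : ℤ, Conn Γ (chain R C b t c) (tr (t + c + i • b) x)
      (tr (t + c + (i + 1) • b) x) := by
    intro i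
    obtain ⟨-, -, y, hy, -⟩ := t1 i
    exact conn_trans (conn_of_touch (c1 _) (c2 _) (s1 i) (s2 i) (t1 i) ⟨x, hx, rfl⟩ hy)
      (conn_symm (conn_of_touch (c1 _) (c2 _) (s1 (i + 1)) (s2 i) (t2 i) ⟨x, hx, rfl⟩ hy))
  have all : ∀ i : ℤ, Conn Γ (chain R C b t c) (tr (t + c + (0 : ℤ) • b) x)
      (tr (t + c + i • b) x) := by
    intro i
    induction i using Int.induction_on with
    | zero => exact Relation.ReflTransGen.refl
    | succ k ih => exact conn_trans ih (step k)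
    | pred k ih =>
      have := step (-(k : ℤ) - 1)
      rw [sub_add_cancel] at this
      exact conn_trans ih (conn_symm this)
  refine isConn_of_base (tr (t + c + (0 : ℤ) • b) x) ?_
  rintro w ⟨i, hw | hw⟩
  · exact conn_trans (all i) (conn_mono (s1 i) (c1 _ _ ⟨x, hx, rfl⟩ w hw))
  · exact conn_trans (all i) (conn_of_touch (c1 _) (c2 _) (s1 i) (s2 i) (t1 i) ⟨x, hx, rfl⟩ hw)

theorem chain_inv {C : Set (J × (ℤ × ℤ))} {t b c : ℤ × ℤ} (j : ℤ) {w : J × (ℤ × ℤ)}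
    (h : w ∈ chain R C b t c) : tr (j • b) w ∈ chain R C b t c := by
  obtain ⟨i, hw | hw⟩ := h
  · exact ⟨i + j, Or.inl (by rw [add_smul, ← add_assoc]; exact tr_mem _ hw)⟩
  · exact ⟨i + j, Or.inr (by rw [add_smul, ← add_assoc]; exact tr_mem _ hw)⟩

theorem tr_off {C K : Set (J × (ℤ × ℤ))} (hK : Disjoint C (Sat K)) {a : ℤ × ℤ}
    {w : J × (ℤ × ℤ)} (h : w ∈ tr a '' C) : w ∉ Sat K := by
  obtain ⟨x, hx, rfl⟩ := h
  exact fun h => Set.disjoint_left.1 hK hx h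

theorem gap (hs : S_Side) (hΓ : Good Γ) (hL : Line Γ l N g) (hS : Step Γ l g s)
    (hR : Rung Γ l s R) {C : Set (J × (ℤ × ℤ))} (hC : IsConn Γ C)
    (hK : Disjoint C (Sat (Ln l 0 ∪ R))) (one : ∀ x ∈ C, ∀ a, tr a x ∈ C → a = 0)
    {t : ℤ × ℤ} {k : ℤ} (h : Touch Γ C (tr t '' R)) (h' : Touch Γ C (tr (t + k • g) '' R)) :
    k = -1 ∨ k = 0 ∨ k = 1 := by
  by_contra hk
  have ne : ∀ i j : ℤ, i * k ≠ 1 + j * k := by
    intro i j e
    have : k ∣ 1 := ⟨i - j, by linear_combination -e⟩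
    rcases Int.isUnit_iff.1 (isUnit_of_dvd_one this) with e | e <;> omega
  have ok : ∀ n : ℤ, IsConn Γ (chain R C (k • g) t (n • g)) ∧
      Disjoint (chain R C (k • g) t (n • g)) (Ln l t) ∧
      Touch Γ (chain R C (k • g) t (n • g)) (Ln l t) ∧ ∀ w ∈ chain R C (k • g) t (n • g),
        tr (k • g) w ∈ chain R C (k • g) t (n • g) ∧
          tr (-(k • g)) w ∈ chain R C (k • g) t (n • g) := by
    intro n
    refine ⟨chain_conn hΓ hR hC h h' _, Set.disjoint_left.2 ?_, ?_, fun w hw =>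
      ⟨by simpa using chain_inv 1 hw, by simpa using chain_inv (-1) hw⟩⟩
    · rintro w ⟨i, hw | hw⟩ p
      · exact r_off hR hw (ln_sat t p)
      · exact tr_off hK hw (l_sat (ln_sat t p))
    · rw [← ln_shift hL n rfl]
      exact touch_mono (r_t0 hΓ hR _) (fun w hw => ⟨0, Or.inl (by simpa using hw)⟩) le_rfl
  have dj : ∀ n : ℤ, Disjoint (chain R C (k • g) t (n • g)) (comb R g (t - s) (Ln l (t - s))) := by
    intro n
    refine Set.disjoint_left.2 ?_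
    rintro w ⟨i, hw | hw⟩ p
    · rcases p with ⟨j, hj⟩ | p
      · refine not_mul hS (n := 1) (k := j - n - i * k) (by norm_num) ?_
        have := r_meet hR hw hj
        rw [one_smul, sub_smul, sub_smul, mul_smul]
        linear_combination (exp := 1) this
      · exact r_off hR hw (ln_sat _ p)
    · exact tr_off hK hw (comb_sat p)
  refine hs J Γ l N g hΓ hL t k (by omega) ![chain R C (k • g) t ((0 : ℤ) • g),
    chain R C (k • g) t ((1 : ℤ) • g), comb R g (t - s) (Ln l (t - s))] (fun i => ?_)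
    (three (Set.disjoint_left.2 ?_) (dj 0) (dj 1))
  · fin_cases i
    exacts [ok 0, ok 1, comb_dn hΓ hL hS hR t k]
  · rintro w ⟨i, hw | hw⟩ ⟨j, hw' | hw'⟩
    · refine ne i j (mul_inj hL ?_)
      have := r_meet hR hw hw'
      rw [add_smul, mul_smul, mul_smul]
      rw [zero_smul] at this
      linear_combination (exp := 1) this
    · exact tr_off hK hw' (r_sat _ hw)
    · exact tr_off hK hw (r_sat _ hw')
    · obtain ⟨x, hx, rfl⟩ := hw
      obtain ⟨y, hy, e⟩ := hw'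
      have e1 := congrArg (tr (-((1 : ℤ) • g + j • k • g))) e
      rw [tr_tr, tr_tr, add_neg_cancel, tr_zero] at e1
      have := one x hx _ (e1 ▸ hy)
      refine ne i j (mul_inj hL ?_)
      rw [add_smul, mul_smul, mul_smul]
      rw [zero_smul] at this
      linear_combination (exp := 1) this

theorem sat_cases {w : J × (ℤ × ℤ)} (h : w ∈ Sat (Ln l 0 ∪ R)) :
    w ∈ Sat (Ln l 0) ∨ ∃ t, w ∈ tr t '' R := by
  obtain ⟨x, hx | hx, e⟩ := h
  · exact Or.inl ⟨x, hx, e⟩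
  · exact Or.inr ⟨_, x, hx, (eq_tr e).symm⟩

theorem comp_one (hs : S_Side) (hΓ : Good Γ) (hL : Line Γ l N g) (hS : Step Γ l g s)
    (hR : Rung Γ l s R) {x : J × (ℤ × ℤ)} (hx : x ∉ Sat (Ln l 0 ∪ R)) :
    ∀ y ∈ comp Γ (Sat (Ln l 0 ∪ R))ᶜ x, ∀ a, tr a y ∈ comp Γ (Sat (Ln l 0 ∪ R))ᶜ x → a = 0 := by
  intro y hy a hay
  by_contra ha
  have inv : ∀ y ∈ comp Γ (Sat (Ln l 0 ∪ R))ᶜ x, ∀ a, tr a y ∈ comp Γ (Sat (Ln l 0 ∪ R))ᶜ x →
      ∀ w ∈ comp Γ (Sat (Ln l 0 ∪ R))ᶜ x, tr a w ∈ comp Γ (Sat (Ln l 0 ∪ R))ᶜ x :=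
    fun y hy a hay w hw => ⟨hw.1, conn_trans hay.2
      (conn_tr hΓ a (fun _ h => h) (conn_trans (conn_symm hy.2) hw.2))⟩
  have i1 := inv y hy a hay
  have i2 := inv _ hay (-a) (by rwa [tr_tr, add_neg_cancel, tr_zero])
  have hK : Disjoint (comp Γ (Sat (Ln l 0 ∪ R))ᶜ x) (Sat (Ln l 0 ∪ R)) :=
    Set.disjoint_left.2 fun w hw => hw.1
  obtain ⟨u, hu, v, hv, e⟩ := exists_exit (A := comp Γ (Sat (Ln l 0 ∪ R))ᶜ x)
    (hΓ.pl.conn x trivial (tr 0 (l 0)) trivial) ⟨hx, Relation.ReflTransGen.refl⟩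
    fun h => h.1 (l_sat (ln_sat 0 ⟨0, rfl⟩))
  have hv' : v ∈ Sat (Ln l 0 ∪ R) := by
    by_contra h
    exact hv ⟨h, hu.2.tail ⟨hu.1, h, e⟩⟩
  rcases sat_cases hv' with h | ⟨t, ht⟩
  · obtain ⟨t, ht⟩ := sat_ln h
    exact no_shift_line hs hΓ hL hS hR (comp_conn _ x) hK ⟨u, hu, v, ht, e⟩ ha
      fun w hw => ⟨i1 w hw, i2 w hw⟩
  · exact no_shift hΓ hL hS hR (comp_conn _ x) hK ⟨u, hu, v, ht, e⟩ ha i1

theorem window (hs : S_Side) (hΓ : Good Γ) (hL : Line Γ l N g) (hS : Step Γ l g s)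
    (hR : Rung Γ l s R) {C : Set (J × (ℤ × ℤ))} (hC : IsConn Γ C)
    (hK : Disjoint C (Sat (Ln l 0 ∪ R))) (one : ∀ x ∈ C, ∀ a, tr a x ∈ C → a = 0) :
    ∃ t, Nb Γ C ∩ Sat (Ln l 0 ∪ R) ⊆ Ln l t ∪ Ln l (s + t) ∪ tr t '' R ∪ tr (g + t) '' R := by
  by_cases hT : ∃ t, Touch Γ C (tr t '' R)
  · have key : ∃ t, Touch Γ C (tr t '' R) ∧
        ∀ t', Touch Γ C (tr t' '' R) → t' = t ∨ t' = g + t := by
      obtain ⟨t, ht⟩ := hT
      by_cases h : Touch Γ C (tr (t + (-1 : ℤ) • g) '' R)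
      · refine ⟨_, h, fun t' h' => ?_⟩
        obtain ⟨k, rfl⟩ := (two_rungs hΓ hL hS hR hC hK ht h').1
        have a1 := gap hs hΓ hL hS hR hC hK one ht h'
        have a2 := gap hs hΓ hL hS hR hC hK one (k := k + 1) h (by
          rwa [add_assoc, ← add_smul, show -1 + (k + 1) = k by ring])
        rcases (by omega : k = -1 ∨ k = 0) with rfl | rfl
        · exact Or.inl rfl
        · exact Or.inr (by simp)
      · refine ⟨t, ht, fun t' h' => ?_⟩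
        obtain ⟨k, rfl⟩ := (two_rungs hΓ hL hS hR hC hK ht h').1
        rcases gap hs hΓ hL hS hR hC hK one ht h' with rfl | rfl | rfl
        · exact absurd h' h
        · exact Or.inl (by simp)
        · exact Or.inr (by simp [add_comm])
    obtain ⟨t, ht, h⟩ := key
    refine ⟨t, ?_⟩
    rintro w ⟨⟨x, hx, e⟩, hw⟩
    rcases sat_cases hw with p | ⟨t', p⟩
    · exact Or.inl (Or.inl ((two_rungs hΓ hL hS hR hC hK ht ht).2 ⟨⟨x, hx, e⟩, p⟩))
    · rcases h t' ⟨x, hx, w, p, e.symm⟩ with rfl | rfl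
      · exact Or.inl (Or.inr p)
      · exact Or.inr p
  · obtain ⟨t, ht⟩ := hS.two C hC (hK.mono_right l_sat)
    refine ⟨t, ?_⟩
    rintro w ⟨⟨x, hx, e⟩, hw⟩
    rcases sat_cases hw with p | ⟨t', p⟩
    · exact Or.inl (Or.inl (ht ⟨⟨x, hx, e⟩, p⟩))
    · exact absurd ⟨t', x, hx, w, p, e.symm⟩ hT

end PkLad

open PkLad in
theorem pkg_Lad : S_Ladder := by
  intro hs J _ Γ l N g s R hΓ hL hS hR E hE hK
  rcases E.eq_empty_or_nonempty with rfl | ⟨x, hx⟩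
  · exact ⟨Set.finite_empty, 0, fun w hw => by obtain ⟨⟨_, h, -⟩, -⟩ := hw; exact h.elim⟩
  have off : E ⊆ (Sat (Ln l 0 ∪ R))ᶜ := fun w hw => Set.disjoint_left.1 hK hw
  have sub : E ⊆ comp Γ (Sat (Ln l 0 ∪ R))ᶜ x := fun w hw => ⟨off hw, conn_mono off (hE x hx w hw)⟩
  have one := comp_one hs hΓ hL hS hR (off hx)
  refine ⟨Set.Finite.of_finite_image (f := Prod.fst) (Set.toFinite _) fun u hu v hv e => ?_,
    window hs hΓ hL hS hR hE hK fun y hy a h => one y (sub hy) a (sub h)⟩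
  have h1 := eq_tr e
  rw [h1, one v (sub hv) (u.2 - v.2) (h1 ▸ sub hu), tr_zero]

end Pool.Agent.P.MP_08fd93_co
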