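import Pool.Agent.P.MP_08fd93_co.StA

/-! Package LemI for MP_08fd93_co: an independent set whose removal leaves a sparse graph. -/

set_option autoImplicit false

namespace Pool.Agent.P.MP_08fd93_co

namespace PkLemI

open Finset

/-- A finite set of neighbours inside a set where `v` has at most two neighbours. -/
theorem card_le_two {V : Type} (H : SimpleGraph V) (v : V) (A : Set V) (h : Le2 H v A)
    (N : Finset V) (hN : ∀ u ∈ N, u ∈ A ∧ H.Adj v u) : N.card ≤ 2 := by
  classical
  by_contra hc
  obtain ⟨a, b, c, ha, hb, hc', hab, hac, hbc⟩ := Finset.two_lt_card.1 (not_le.1 hc) |>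
    fun ⟨a, ha, b, hb, c, hc, h1, h2, h3⟩ => (⟨a, b, c, ha, hb, hc, h1, h2, h3⟩ :
      ∃ a b c, a ∈ N ∧ b ∈ N ∧ c ∈ N ∧ a ≠ b ∧ a ≠ c ∧ b ≠ c)
  rcases h a (hN a ha).1 b (hN b hb).1 c (hN c hc').1 (hN a ha).2 (hN b hb).2 (hN c hc').2 with
    h1 | h1 | h1
  · exact hab h1
  · exact hac h1
  · exact hbc h1

/-- Adding a vertex adds twice its degree to the degree sum. -/
theorem dsum_insert {V : Type} [DecidableEq V] (G : SimpleGraph V) (Y : Finset V) (v : V)
    (hv : v ∉ Y) : dsum G (insert v Y) = dsum G Y + 2 * (nb G Y v).card := by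
  classical
  unfold dsum
  rw [Finset.sum_insert hv]
  have h1 : (nb G (insert v Y) v).card = (nb G Y v).card := by
    congr 1
    ext u
    simp only [nb, Finset.mem_filter, Finset.mem_insert]
    constructor
    · rintro ⟨h | h, h'⟩
      · exact absurd (h ▸ h') (G.irrefl)
      · exact ⟨h, h'⟩
    · rintro ⟨h, h'⟩
      exact ⟨Or.inr h, h'⟩
  have h2 : ∀ u ∈ Y, (nb G (insert v Y) u).card =
      (nb G Y u).card + (if G.Adj v u then 1 else 0) := by
    intro u _
    by_cases h : G.Adj v u
    · rw [if_pos h]
      have : nb G (insert v Y) u = insert v (nb G Y u) := by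
        ext w
        simp only [nb, Finset.mem_filter, Finset.mem_insert]
        constructor
        · rintro ⟨h1 | h1, h2⟩
          · exact Or.inl h1
          · exact Or.inr ⟨h1, h2⟩
        · rintro (h1 | ⟨h1, h2⟩)
          · exact ⟨Or.inl h1, h1 ▸ h.symm⟩
          · exact ⟨Or.inr h1, h2⟩
      rw [this, Finset.card_insert_of_notMem]
      intro hm
      exact hv (Finset.mem_filter.1 hm).1
    · rw [if_neg h, add_zero]
      congr 1
      ext w
      simp only [nb, Finset.mem_filter, Finset.mem_insert]
      constructor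
      · rintro ⟨h1 | h1, h2⟩
        · exact absurd (h1 ▸ h2).symm h
        · exact ⟨h1, h2⟩
      · rintro ⟨h1, h2⟩
        exact ⟨Or.inr h1, h2⟩
  rw [Finset.sum_congr rfl h2, Finset.sum_add_distrib, h1]
  have h3 : (∑ u ∈ Y, if G.Adj v u then 1 else 0) = (nb G Y v).card := by
    rw [← Finset.card_filter]
    congr 1
  rw [h3]
  ring

open Classical in
/-- The removed edges with both ends in `T`. -/
noncomputable def ins {V : Type} (F : Finset (Sym2 V)) (T : Finset V) : Finset (Sym2 V) :=
  F.filter fun e => ∀ x ∈ e, x ∈ T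

theorem ins_mono {V : Type} (F : Finset (Sym2 V)) {T T' : Finset V} (h : T ⊆ T') :
    (ins F T).card ≤ (ins F T').card := by
  classical
  apply Finset.card_le_card
  intro e he
  simp only [ins, Finset.mem_filter] at he ⊢
  exact ⟨he.1, fun x hx => h (he.2 x hx)⟩

theorem ins_insert {V : Type} [DecidableEq V] (F : Finset (Sym2 V)) (T : Finset V) (v : V)
    (hv : v ∉ T) (N : Finset V) (hN : ∀ u ∈ N, u ∈ T ∧ s(v, u) ∈ F) :
    (ins F T).card + N.card ≤ (ins F (insert v T)).card := by
  classical
  have hinj : Function.Injective fun u : V => s(v, u) := by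
    intro a b hab
    exact Sym2.congr_right.1 hab
  rw [← Finset.card_image_of_injective N hinj, ← Finset.card_union_of_disjoint]
  · apply Finset.card_le_card
    intro e he
    rcases Finset.mem_union.1 he with he | he
    · simp only [ins, Finset.mem_filter] at he ⊢
      exact ⟨he.1, fun x hx => Finset.mem_insert_of_mem (he.2 x hx)⟩
    · obtain ⟨u, hu, rfl⟩ := Finset.mem_image.1 he
      simp only [ins, Finset.mem_filter]
      refine ⟨(hN u hu).2, fun x hx => ?_⟩
      rcases Sym2.mem_iff.1 hx with rfl | rfl
      · exact Finset.mem_insert_self _ _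
      · exact Finset.mem_insert_of_mem (hN _ hu).1
  · rw [Finset.disjoint_left]
    intro e he he'
    obtain ⟨u, _, rfl⟩ := Finset.mem_image.1 he'
    simp only [ins, Finset.mem_filter] at he
    exact hv (he.2 v (Sym2.mem_mk_left _ _))

/-- The induction over the degeneracy order. -/
theorem main {V : Type} [DecidableEq V] (G : SimpleGraph V) (F : Finset (Sym2 V)) (R : Set V)
    (h : Deg2 (G.deleteEdges (F : Set (Sym2 V))) ∅ R) (n : ℕ) :
    ∀ T : Finset V, T.card = n → (T : Set V) ⊆ R → ∃ I : Finset V, I ⊆ T ∧
      (∀ x ∈ I, ∀ y ∈ I, ¬ G.Adj x y) ∧ ∀ Y : Finset V, Y ⊆ T → Disjoint Y I → Y.Nonempty →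
        dsum G Y + 2 ≤ 2 * Y.card + 2 * (ins F T).card := by
  classical
  induction n with
  | zero =>
    intro T hT _
    rw [Finset.card_eq_zero] at hT
    subst hT
    refine ⟨∅, Finset.Subset.refl _, by simp, fun Y hY _ hne => ?_⟩
    rw [Finset.subset_empty] at hY
    subst hY
    exact absurd hne (by simp)
  | succ n ih =>
    intro T hT hR
    have hne : (T : Set V).Nonempty := by
      rw [Finset.coe_nonempty, ← Finset.card_pos]
      omega
    obtain ⟨v, hv, hle⟩ := h T hR hne
    have hv' : v ∈ T := Finset.mem_coe.1 hv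
    obtain ⟨T', hvT, rfl⟩ : ∃ T', v ∉ T' ∧ T = insert v T' :=
      ⟨T.erase v, Finset.notMem_erase _ _, (Finset.insert_erase hv').symm⟩
    rw [Finset.card_insert_of_notMem hvT] at hT
    obtain ⟨I, hIT, hI, hY⟩ := ih T' (by omega)
      (fun x hx => hR (Finset.mem_coe.2 (Finset.mem_insert_of_mem (Finset.mem_coe.1 hx))))
    have hmono : (ins F T').card ≤ (ins F (insert v T')).card :=
      ins_mono F (Finset.subset_insert _ _)
    by_cases hn : ∃ i ∈ I, G.Adj v i
    · obtain ⟨i, hi, hvi⟩ := hn
      refine ⟨I, hIT.trans (Finset.subset_insert _ _), hI, fun Y hYT hd hYne => ?_⟩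
      by_cases hvY : v ∈ Y
      · obtain ⟨Y', hvY', rfl⟩ : ∃ Y', v ∉ Y' ∧ Y = insert v Y' :=
          ⟨Y.erase v, Finset.notMem_erase _ _, (Finset.insert_erase hvY).symm⟩
        have hY'T : Y' ⊆ T' := by
          intro x hx
          rcases Finset.mem_insert.1 (hYT (Finset.mem_insert_of_mem hx)) with h1 | h1
          · exact absurd (h1 ▸ hx) hvY'
          · exact h1
        have hd' : Disjoint Y' I := Finset.disjoint_of_subset_left (Finset.subset_insert _ _) hd
        rw [dsum_insert G Y' v hvY', Finset.card_insert_of_notMem hvY']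
        rcases Y'.eq_empty_or_nonempty with he | he
        · subst he
          simp [dsum, nb]
        · have h1 := hY Y' hY'T hd' he
          have hiY : i ∉ nb G Y' v := by
            intro hm
            exact Finset.disjoint_left.1 hd' (Finset.mem_filter.1 hm).1 hi
          have hN : ∀ u ∈ insert i (nb G Y' v), u ∈ T' ∧ G.Adj v u := by
            intro u hu
            rcases Finset.mem_insert.1 hu with rfl | hu
            · exact ⟨hIT hi, hvi⟩
            · have := Finset.mem_filter.1 hu
              exact ⟨hY'T this.1, this.2⟩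
          have hA := ins_insert F T' v hvT ((insert i (nb G Y' v)).filter fun u => s(v, u) ∈ F)
            (fun u hu => ⟨(hN u (Finset.mem_filter.1 hu).1).1, (Finset.mem_filter.1 hu).2⟩)
          have hB := card_le_two _ v _ hle ((insert i (nb G Y' v)).filter fun u => ¬ s(v, u) ∈ F)
            (fun u hu => by
              have h2 := Finset.mem_filter.1 hu
              refine ⟨Or.inl (Finset.mem_coe.2 (Finset.mem_insert_of_mem (hN u h2.1).1)), ?_⟩
              rw [SimpleGraph.deleteEdges_adj]
              exact ⟨(hN u h2.1).2, fun h3 => h2.2 (Finset.mem_coe.1 h3)⟩)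
          have hC := Finset.card_filter_add_card_filter_not (s := insert i (nb G Y' v))
            (fun u => s(v, u) ∈ F)
          rw [Finset.card_insert_of_notMem hiY] at hC
          omega
      · have hYT' : Y ⊆ T' := by
          intro x hx
          rcases Finset.mem_insert.1 (hYT hx) with h1 | h1
          · exact absurd (h1 ▸ hx) hvY
          · exact h1
        have := hY Y hYT' hd hYne
        omega
    · refine ⟨insert v I, Finset.insert_subset_insert _ hIT, ?_, fun Y hYT hd hYne => ?_⟩
      · intro x hx y hy hxy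
        rcases Finset.mem_insert.1 hx with hx1 | hx1
        · rcases Finset.mem_insert.1 hy with hy1 | hy1
          · exact hxy.ne (hx1.trans hy1.symm)
          · exact hn ⟨y, hy1, hx1 ▸ hxy⟩
        · rcases Finset.mem_insert.1 hy with hy1 | hy1
          · exact hn ⟨x, hx1, hy1 ▸ hxy.symm⟩
          · exact hI x hx1 y hy1 hxy
      · have hvY : v ∉ Y := fun hm =>
          Finset.disjoint_left.1 hd hm (Finset.mem_insert_self _ _)
        have hYT' : Y ⊆ T' := by
          intro x hx
          rcases Finset.mem_insert.1 (hYT hx) with h1 | h1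
          · exact absurd (h1 ▸ hx) hvY
          · exact h1
        have := hY Y hYT' (Finset.disjoint_of_subset_right (Finset.subset_insert _ _) hd) hYne
        omega

end PkLemI

/-- Package LemI. -/
theorem pkg_LemI : S_LemI := by
  classical
  intro V _ G hD
  obtain ⟨X, F, hF, hX, hdeg⟩ := hD
  obtain ⟨I, _, hI, hY⟩ := PkLemI.main G F Xᶜ hdeg _ (Finset.univ.filter fun x => x ∉ X) rfl
    (fun x hx => (Finset.mem_filter.1 (Finset.mem_coe.1 hx)).2)
  refine ⟨X, (I : Set V), hX, fun x hx y hy => hI x hx y hy, fun Y hd => ?_⟩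
  rcases Y.eq_empty_or_nonempty with he | he
  · subst he
    simp [dsum]
  · have h1 := hY Y (fun x hx => Finset.mem_filter.2 ⟨Finset.mem_univ _, fun hm =>
      Set.disjoint_left.1 hd (Finset.mem_coe.2 hx) (Or.inl hm)⟩)
      (Finset.disjoint_left.2 fun x hx hm =>
        Set.disjoint_left.1 hd (Finset.mem_coe.2 hx) (Or.inr (Finset.mem_coe.2 hm))) he
    have h2 : (PkLemI.ins F (Finset.univ.filter fun x => x ∉ X)).card ≤ 3 :=
      le_trans (Finset.card_le_card fun e he => by
        simp only [PkLemI.ins, Finset.mem_filter] at he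
        exact he.1) hF
    omega

end Pool.Agent.P.MP_08fd93_co
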