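import Pool.Agent.P.MP_08fd93_co.StA

/-! Package LemJ: graphs with at most two more edges than vertices in every subgraph have a
two-colouring in which every vertex has at most one neighbour of its own colour. -/

set_option autoImplicit false

namespace Pool.Agent.P.MP_08fd93_co

open Finset

namespace PkLemJ

variable {V : Type}

open Classical in
/-- The weight of the ordered pair `x y` if it is a monochromatic edge. -/
noncomputable def mw (G : SimpleGraph V) (w : V → V → ℕ) (c : V → Bool) (x y : V) : ℕ :=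
  if G.Adj x y ∧ c y = c x then w x y else 0

/-- The total weight of the monochromatic edges. -/
noncomputable def pot (G : SimpleGraph V) (U : Finset V) (w : V → V → ℕ) (c : V → Bool) : ℕ :=
  ∑ x ∈ U, ∑ y ∈ U, mw G w c x y

theorem mem_nb {G : SimpleGraph V} {U : Finset V} {v u : V} :
    u ∈ nb G U v ↔ u ∈ U ∧ G.Adj v u := by
  classical
  unfold nb
  simp only [Finset.mem_filter]

theorem mw_symm (G : SimpleGraph V) {w : V → V → ℕ} (hw : ∀ x y, w x y = w y x)
    (c : V → Bool) (x y : V) : mw G w c x y = mw G w c y x := by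
  unfold mw
  by_cases h : G.Adj x y ∧ c y = c x
  · rw [if_pos h, if_pos ⟨h.1.symm, h.2.symm⟩, hw]
  · rw [if_neg h, if_neg (fun h' => h ⟨h'.1.symm, h'.2.symm⟩)]

theorem pot_split [DecidableEq V] (G : SimpleGraph V) (U : Finset V) {w : V → V → ℕ}
    (hw : ∀ x y, w x y = w y x) (c : V → Bool) {v : V} (hv : v ∈ U) :
    pot G U w c = 2 * ∑ y ∈ U.erase v, mw G w c v y + pot G (U.erase v) w c := by
  unfold pot
  have h0 : mw G w c v v = 0 := by
    unfold mw
    rw [if_neg (fun h => G.irrefl h.1)]
  rw [← Finset.add_sum_erase U _ hv, ← Finset.add_sum_erase U _ hv, h0]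
  have h1 : ∀ x ∈ U.erase v, ∑ y ∈ U, mw G w c x y =
      mw G w c v x + ∑ y ∈ U.erase v, mw G w c x y := by
    intro x _
    rw [← Finset.add_sum_erase U _ hv, mw_symm G hw c x v]
  rw [Finset.sum_congr rfl h1, Finset.sum_add_distrib]
  ring

/-- A colouring that is locally optimal off a frozen set. -/
theorem locopt (G : SimpleGraph V) (U : Finset V) (F : Set V) (w : V → V → ℕ)
    (hw : ∀ x y, w x y = w y x) :
    ∃ c : V → Bool, (∀ z ∈ F, c z = true) ∧ ∀ v ∈ U, v ∉ F → ∀ (S : Finset V) (M : ℕ),
      (∀ y ∈ S, y ∈ U ∧ G.Adj v y ∧ c y = c v) →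
      (∀ y ∈ U, G.Adj v y → c y ≠ c v → w v y ≤ M) →
      ∑ y ∈ S, w v y + M * S.card ≤ M * (nb G U v).card := by
  classical
  have hex : ∃ n, ∃ c : V → Bool, (∀ z ∈ F, c z = true) ∧ pot G U w c = n :=
    ⟨_, fun _ => true, fun _ _ => rfl, rfl⟩
  obtain ⟨c, hcF, hc⟩ := Nat.find_spec hex
  refine ⟨c, hcF, ?_⟩
  intro v hv hvF S M hS hM
  set c' : V → Bool := Function.update c v (!c v) with hc'
  have hc'F : ∀ z ∈ F, c' z = true := by
    intro z hz
    have hne : z ≠ v := fun h => hvF (h ▸ hz)
    rw [hc', Function.update_of_ne hne]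
    exact hcF z hz
  have hle : pot G U w c ≤ pot G U w c' := by
    rw [hc]
    exact Nat.find_min' hex ⟨c', hc'F, rfl⟩
  have hrest : pot G (U.erase v) w c' = pot G (U.erase v) w c := by
    unfold pot
    refine Finset.sum_congr rfl fun x hx => Finset.sum_congr rfl fun y hy => ?_
    unfold mw
    rw [hc', Function.update_of_ne (Finset.ne_of_mem_erase hx),
      Function.update_of_ne (Finset.ne_of_mem_erase hy)]
  rw [pot_split G U hw c hv, pot_split G U hw c' hv, hrest] at hle
  have hle2 : ∑ y ∈ U.erase v, mw G w c v y ≤ ∑ y ∈ U.erase v, mw G w c' v y := by omega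
  have hSsub : S ⊆ U.erase v := by
    intro y hy
    exact Finset.mem_erase.2 ⟨(hS y hy).2.1.ne.symm, (hS y hy).1⟩
  have h1 : ∑ y ∈ S, w v y ≤ ∑ y ∈ U.erase v, mw G w c v y := by
    calc ∑ y ∈ S, w v y = ∑ y ∈ S, mw G w c v y := by
          refine Finset.sum_congr rfl fun y hy => ?_
          unfold mw
          rw [if_pos (hS y hy).2]
      _ ≤ _ := Finset.sum_le_sum_of_subset hSsub
  set N : Finset V := (nb G U v).filter (fun y => c y ≠ c v) with hN
  have h2 : ∑ y ∈ U.erase v, mw G w c' v y ≤ M * N.card := by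
    calc ∑ y ∈ U.erase v, mw G w c' v y
        ≤ ∑ y ∈ U.erase v, (if y ∈ N then M else 0) := by
          refine Finset.sum_le_sum fun y hy => ?_
          unfold mw
          by_cases h : G.Adj v y ∧ c' y = c' v
          · have hne : c y ≠ c v := by
              have h3 := h.2
              rw [hc', Function.update_of_ne (Finset.ne_of_mem_erase hy),
                Function.update_self] at h3
              rw [h3]
              cases c v <;> simp
            have hyU := Finset.mem_of_mem_erase hy
            rw [if_pos h, if_pos (Finset.mem_filter.2 ⟨mem_nb.2 ⟨hyU, h.1⟩, hne⟩)]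
            exact hM y hyU h.1 hne
          · rw [if_neg h]
            exact Nat.zero_le _
      _ = ∑ y ∈ (U.erase v).filter (fun y => y ∈ N), M := by
          rw [Finset.sum_filter]
      _ ≤ ∑ y ∈ N, M := by
          refine Finset.sum_le_sum_of_subset fun y hy => ?_
          exact (Finset.mem_filter.1 hy).2
      _ = M * N.card := by
          rw [Finset.sum_const, smul_eq_mul, mul_comm]
  have h3 : N.card + S.card ≤ (nb G U v).card := by
    rw [← Finset.card_union_of_disjoint]
    · refine Finset.card_le_card fun y hy => ?_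
      rcases Finset.mem_union.1 hy with h | h
      · exact (Finset.mem_filter.1 h).1
      · exact mem_nb.2 ⟨(hS y h).1, (hS y h).2.1⟩
    · rw [Finset.disjoint_left]
      intro y hy hy'
      exact (Finset.mem_filter.1 hy).2 (hS y hy').2.2
  calc ∑ y ∈ S, w v y + M * S.card ≤ M * N.card + M * S.card := by omega
    _ = M * (N.card + S.card) := by ring
    _ ≤ _ := Nat.mul_le_mul_left M h3

/-- The edge weights. -/
def wt (d : V → ℕ) (x y : V) : ℕ :=
  if 4 ≤ d x ∨ 4 ≤ d y then (if 3 ≤ d x ∧ 3 ≤ d y then 5 else 4) else 3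

theorem wt_symm (d : V → ℕ) (x y : V) : wt d x y = wt d y x := by
  unfold wt
  split_ifs <;> omega

theorem wt_ge (d : V → ℕ) (x y : V) : 3 ≤ wt d x y := by
  unfold wt
  split_ifs <;> omega

theorem wt_le (d : V → ℕ) (x y : V) : wt d x y ≤ 5 := by
  unfold wt
  split_ifs <;> omega

/-- The case of minimum degree at least two. -/
theorem core (G : SimpleGraph V) (U : Finset V) (hmin : ∀ v ∈ U, 2 ≤ (nb G U v).card)
    (hsum : dsum G U ≤ 2 * U.card + 4) :
    ∃ c : V → Bool, ∀ v ∈ U, ∀ a ∈ U, ∀ b ∈ U, G.Adj v a → G.Adj v b → c a = c v → c b = c v →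
      a = b := by
  classical
  set d : V → ℕ := fun v => (nb G U v).card with hd
  have hT : ∀ T : Finset V, T ⊆ U → ∑ v ∈ T, (d v - 2) ≤ 4 := by
    intro T hT
    have h1 : ∑ v ∈ U, d v = ∑ v ∈ U, ((d v - 2) + 2) := by
      refine Finset.sum_congr rfl fun v hv => ?_
      have := hmin v hv
      simp only [hd]
      omega
    rw [Finset.sum_add_distrib, Finset.sum_const, smul_eq_mul] at h1
    have h2 : ∑ v ∈ U, d v ≤ 2 * U.card + 4 := hsum
    have h3 : ∑ v ∈ T, (d v - 2) ≤ ∑ v ∈ U, (d v - 2) := Finset.sum_le_sum_of_subset hT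
    omega
  have hT3 : ∀ x ∈ U, ∀ y ∈ U, ∀ z ∈ U, x ≠ y → x ≠ z → y ≠ z →
      (d x - 2) + (d y - 2) + (d z - 2) ≤ 4 := by
    intro x hx y hy z hz hxy hxz hyz
    have h := hT {x, y, z} (by
      intro u hu
      simp only [Finset.mem_insert, Finset.mem_singleton] at hu
      rcases hu with rfl | rfl | rfl <;> assumption)
    rw [Finset.sum_insert (by simp [hxy, hxz]), Finset.sum_pair hyz] at h
    omega
  have hT4 : ∀ x ∈ U, ∀ y ∈ U, ∀ z ∈ U, ∀ e ∈ U, x ≠ y → x ≠ z → y ≠ z → e ≠ x → e ≠ y →
      e ≠ z → (d x - 2) + (d y - 2) + (d z - 2) + (d e - 2) ≤ 4 := by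
    intro x hx y hy z hz e he hxy hxz hyz hex hey hez
    have h := hT {e, x, y, z} (by
      intro u hu
      simp only [Finset.mem_insert, Finset.mem_singleton] at hu
      rcases hu with rfl | rfl | rfl | rfl <;> assumption)
    rw [Finset.sum_insert (by simp [hex, hey, hez]), Finset.sum_insert (by simp [hxy, hxz]),
      Finset.sum_pair hyz] at h
    omega
  set F : Set V := {z | z ∈ U ∧ 4 ≤ d z ∧ ∃ z' ∈ U, z' ≠ z ∧ 4 ≤ d z'} with hF
  obtain ⟨c, hcF, hc⟩ := locopt G U F (wt d) (wt_symm d)
  refine ⟨c, ?_⟩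
  intro v hv a ha b hb hva hvb hca hcb
  by_contra hab
  have hpair : ∀ y ∈ ({a, b} : Finset V), y ∈ U ∧ G.Adj v y ∧ c y = c v := by
    intro y hy
    simp only [Finset.mem_insert, Finset.mem_singleton] at hy
    rcases hy with rfl | rfl
    · exact ⟨ha, hva, hca⟩
    · exact ⟨hb, hvb, hcb⟩
  by_cases hdv : 4 ≤ d v
  · -- a monochromatic neighbour of `v` has degree at least three
    have key : ∀ x ∈ U, G.Adj v x → c x = c v → 3 ≤ d x := by
      intro x hx hvx hcx
      by_contra hlt
      have hxF : x ∉ F := fun h => hlt (le_trans (by norm_num) h.2.1)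
      have h := hc x hx hxF {v} 3 (by
        intro y hy
        rw [Finset.mem_singleton.1 hy]
        exact ⟨hv, hvx.symm, hcx.symm⟩) (by
        intro y hy hxy hcy
        have hyv : y ≠ v := fun h => hcy (by rw [h, hcx])
        have hdy : ¬ 4 ≤ d y := by
          intro hdy
          have h1 := hcF y ⟨hy, hdy, v, hv, hyv.symm, hdv⟩
          have h2 := hcF v ⟨hv, hdv, y, hy, hyv, hdy⟩
          exact hcy (by rw [h1, hcx, h2])
        unfold wt
        split_ifs <;> omega)
      rw [Finset.sum_singleton, Finset.card_singleton] at h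
      have h4 : wt d x v = 4 := by
        unfold wt
        split_ifs <;> omega
      have h5 : (nb G U x).card = d x := rfl
      omega
    have hda := key a ha hva hca
    have hdb := key b hb hvb hcb
    have h3 := hT3 v hv a ha b hb hva.ne hvb.ne hab
    have hother : ∀ e ∈ U, e ≠ v → e ≠ a → e ≠ b → d e ≤ 2 := by
      intro e he h1 h2 h3'
      have := hT4 v hv a ha b hb e he hva.ne hvb.ne hab h1 h2 h3'
      omega
    have hvF : v ∉ F := by
      rintro ⟨-, -, z, hz, hzv, hdz⟩
      by_cases h1 : z = a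
      · rw [h1] at hdz
        omega
      · by_cases h2 : z = b
        · rw [h2] at hdz
          omega
        · have := hother z hz hzv h1 h2
          omega
    have h := hc v hv hvF {a, b} 4 hpair (by
      intro y hy hvy hcy
      have h1 : y ≠ a := fun h => hcy (by rw [h, hca])
      have h2 : y ≠ b := fun h => hcy (by rw [h, hcb])
      have := hother y hy hvy.ne.symm h1 h2
      unfold wt
      split_ifs <;> omega)
    rw [Finset.sum_pair hab, Finset.card_pair hab] at h
    have h4 : wt d v a = 5 := by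
      unfold wt
      split_ifs <;> omega
    have h5 : wt d v b = 5 := by
      unfold wt
      split_ifs <;> omega
    have h6 : (nb G U v).card = d v := rfl
    omega
  · have hvF : v ∉ F := fun h => hdv h.2.1
    have h := hc v hv hvF {a, b} 5 hpair (fun y _ _ _ => wt_le d v y)
    rw [Finset.sum_pair hab, Finset.card_pair hab] at h
    have h4 := wt_ge d v a
    have h5 := wt_ge d v b
    have h6 : (nb G U v).card = d v := rfl
    omega

theorem main (G : SimpleGraph V) : ∀ (n : ℕ) (U : Finset V), U.card = n →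
    (∀ Y : Finset V, Y ⊆ U → dsum G Y ≤ 2 * Y.card + 4) →
    ∃ c : V → Bool, ∀ v ∈ U, ∀ a ∈ U, ∀ b ∈ U, G.Adj v a → G.Adj v b → c a = c v → c b = c v →
      a = b := by
  classical
  intro n
  induction n with
  | zero =>
    intro U hU _
    refine ⟨fun _ => true, fun v hv => ?_⟩
    rw [Finset.card_eq_zero.1 hU] at hv
    exact absurd hv (Finset.notMem_empty v)
  | succ n ih =>
    intro U hU hY
    by_cases hmin : ∀ v ∈ U, 2 ≤ (nb G U v).card
    · exact core G U hmin (hY U (Finset.Subset.refl U))
    · push Not at hmin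
      obtain ⟨x, hx, hdx⟩ := hmin
      obtain ⟨c, hc⟩ := ih (U.erase x) (by rw [Finset.card_erase_of_mem hx, hU]; rfl)
        (fun Y hYU => hY Y (hYU.trans (Finset.erase_subset x U)))
      have hcol : ∃ t : Bool, ∀ y ∈ U, G.Adj x y → c y ≠ t := by
        by_cases hne : (nb G U x).Nonempty
        · obtain ⟨y0, hy0⟩ := hne
          refine ⟨!c y0, fun y hy hxy => ?_⟩
          have : y = y0 :=
            Finset.card_le_one.1 (by omega) y (mem_nb.2 ⟨hy, hxy⟩) y0 hy0
          rw [this]
          cases c y0 <;> simp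
        · exact ⟨true, fun y hy hxy => absurd ⟨y, mem_nb.2 ⟨hy, hxy⟩⟩ hne⟩
      obtain ⟨t, ht⟩ := hcol
      have hno : ∀ v ∈ U, ∀ a ∈ U, G.Adj v a →
          Function.update c x t a = Function.update c x t v → v ≠ x ∧ a ≠ x := by
        intro v hv a ha hva hca
        constructor
        · intro h
          subst h
          rw [Function.update_self, Function.update_of_ne hva.ne.symm] at hca
          exact ht a ha hva hca
        · intro h
          subst h
          rw [Function.update_self, Function.update_of_ne hva.ne] at hca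
          exact ht v hv hva.symm hca.symm
      refine ⟨Function.update c x t, ?_⟩
      intro v hv a ha b hb hva hvb hca hcb
      obtain ⟨h1, h2⟩ := hno v hv a ha hva hca
      obtain ⟨-, h3⟩ := hno v hv b hb hvb hcb
      rw [Function.update_of_ne h1, Function.update_of_ne h2] at hca
      rw [Function.update_of_ne h1, Function.update_of_ne h3] at hcb
      exact hc v (Finset.mem_erase.2 ⟨h1, hv⟩) a (Finset.mem_erase.2 ⟨h2, ha⟩) b
        (Finset.mem_erase.2 ⟨h3, hb⟩) hva hvb hca hcb

end PkLemJ

theorem pkg_LemJ : S_LemJ := fun _ G U h => PkLemJ.main G U.card U rfl h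

end Pool.Agent.P.MP_08fd93_co
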