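import Pool.Agent.P.MP_08fd93_co.StC

set_option autoImplicit false

namespace Pool.Agent.P.MP_08fd93_co

namespace PkLift

/-- The projection of the plane onto the torus. -/
def pr (x : ℝ × ℝ) : AddCircle (1 : ℝ) × AddCircle (1 : ℝ) := ((x.1 : AddCircle (1 : ℝ)), (x.2 : AddCircle (1 : ℝ)))

theorem coe_eq_iff (x y : ℝ) :
    (x : AddCircle (1 : ℝ)) = (y : AddCircle (1 : ℝ)) ↔ ∃ a : ℤ, x = y + (a : ℝ) := by
  rw [QuotientAddGroup.eq_iff_sub_mem, AddSubgroup.mem_zmultiples_iff]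
  constructor
  · rintro ⟨a, ha⟩
    refine ⟨a, ?_⟩
    rw [zsmul_eq_mul, mul_one] at ha
    linarith
  · rintro ⟨a, ha⟩
    refine ⟨a, ?_⟩
    rw [zsmul_eq_mul, mul_one]
    linarith

theorem pr_eq_iff (x y : ℝ × ℝ) : pr x = pr y ↔ ∃ a : ℤ × ℤ, x = y + sh a := by
  constructor
  · intro h
    obtain ⟨a, ha⟩ := (coe_eq_iff x.1 y.1).1 (congrArg Prod.fst h)
    obtain ⟨b, hb⟩ := (coe_eq_iff x.2 y.2).1 (congrArg Prod.snd h)
    exact ⟨(a, b), Prod.ext ha hb⟩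
  · rintro ⟨a, ha⟩
    exact Prod.ext ((coe_eq_iff x.1 y.1).2 ⟨a.1, congrArg Prod.fst ha⟩)
      ((coe_eq_iff x.2 y.2).2 ⟨a.2, congrArg Prod.snd ha⟩)

theorem pr_surj (z : AddCircle (1 : ℝ) × AddCircle (1 : ℝ)) : ∃ x, pr x = z := by
  obtain ⟨a, ha⟩ := QuotientAddGroup.mk_surjective z.1
  obtain ⟨b, hb⟩ := QuotientAddGroup.mk_surjective z.2
  exact ⟨(a, b), Prod.ext ha hb⟩

theorem sh_eq_zero {x : ℝ × ℝ} {a : ℤ × ℤ} (h : x = x + sh a) : a = 0 := by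
  have h1 : x.1 = x.1 + (a.1 : ℝ) := congrArg Prod.fst h
  have h2 : x.2 = x.2 + (a.2 : ℝ) := congrArg Prod.snd h
  have e1 : (a.1 : ℝ) = 0 := by linarith
  have e2 : (a.2 : ℝ) = 0 := by linarith
  exact Prod.ext (Int.cast_eq_zero.1 e1) (Int.cast_eq_zero.1 e2)

theorem lift (g : C(unitInterval, AddCircle (1 : ℝ) × AddCircle (1 : ℝ))) (x : ℝ × ℝ)
    (hx : g 0 = pr x) : ∃ c : C(unitInterval, ℝ × ℝ), c 0 = x ∧ ∀ τ, pr (c τ) = g τ := by
  obtain ⟨c1, h1, e1⟩ := (AddCircle.isCoveringMap_coe (1 : ℝ)).exists_path_lifts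
    (ContinuousMap.fst.comp g) x.1 (congrArg Prod.fst hx)
  obtain ⟨c2, h2, e2⟩ := (AddCircle.isCoveringMap_coe (1 : ℝ)).exists_path_lifts
    (ContinuousMap.snd.comp g) x.2 (congrArg Prod.snd hx)
  refine ⟨c1.prodMk c2, Prod.ext e1 e2, fun τ => ?_⟩
  exact Prod.ext (congrFun h1 τ) (congrFun h2 τ)

theorem ends (τ : unitInterval) : (τ = 0 ∨ τ = 1) ∨ (0 < (τ : ℝ) ∧ (τ : ℝ) < 1) := by
  rcases eq_or_lt_of_le τ.2.1 with h | h
  · exact Or.inl (Or.inl (Subtype.ext h.symm))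
  rcases eq_or_lt_of_le τ.2.2 with h' | h'
  · exact Or.inl (Or.inr (Subtype.ext h'))
  exact Or.inr ⟨h, h'⟩

theorem exists_ends {V : Type} (G : SimpleGraph V) (z : Sym2 V) (hz : z ∈ G.edgeSet) :
    ∃ uv : V × V, G.Adj uv.1 uv.2 ∧ s(uv.1, uv.2) = z := by
  induction z using Sym2.ind with
  | h u v => exact ⟨(u, v), hz, rfl⟩

end PkLift

open PkLift in
theorem pkg_Lift : S_Lift := by
  classical
  intro V _ G hG
  obtain ⟨p, γ, hp, hγ, hv, hc⟩ := hG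
  let E := G.edgeSet
  let ε : Fin (Fintype.card E) ≃ E := (Fintype.equivFin E).symm
  choose uv hadj huv using fun e : Fin (Fintype.card E) => exists_ends G (ε e).1 (ε e).2
  choose f hf using fun v => pr_surj (p v)
  choose c hc0 hcl using fun e : Fin (Fintype.card E) =>
    lift (γ (uv e).1 (uv e).2 (hadj e)).toContinuousMap (f (uv e).1)
      (by rw [hf]; exact (γ _ _ (hadj e)).source)
  have hcl' : ∀ e τ, pr (c e τ) = γ (uv e).1 (uv e).2 (hadj e) τ := hcl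
  choose k hk using fun e : Fin (Fintype.card E) =>
    (pr_eq_iff (c e 1) (f (uv e).2)).1 (by rw [hcl', hf]; exact (γ _ _ (hadj e)).target)
  have hsimple : ∀ e e', s((uv e).1, (uv e).2) = s((uv e').1, (uv e').2) → e = e' := by
    intro e e' h
    rw [huv, huv] at h
    exact ε.injective (Subtype.ext h)
  have hend : ∀ e (τ : unitInterval), (τ = 0 ∨ τ = 1) →
      ∃ w, γ (uv e).1 (uv e).2 (hadj e) τ = p w := by
    rintro e τ (rfl | rfl)
    · exact ⟨_, (γ _ _ (hadj e)).source⟩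
    · exact ⟨_, (γ _ _ (hadj e)).target⟩
  have hcr : ∀ e e', e ≠ e' → ∀ τ τ' : unitInterval,
      γ (uv e).1 (uv e).2 (hadj e) τ = γ (uv e').1 (uv e').2 (hadj e') τ' → τ = 0 ∨ τ = 1 := by
    intro e e' hne τ τ' h
    rcases ends τ with h1 | h1
    · exact h1
    exfalso
    rcases ends τ' with h2 | h2
    · obtain ⟨w, hw⟩ := hend e' τ' h2
      exact hv _ _ (hadj e) w τ h1.1 h1.2 (h.trans hw)
    · exact hc _ _ (hadj e) _ _ (hadj e') τ τ' (fun h3 => hne (hsimple e e' h3)) h1.1 h1.2 h2.1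
        h2.2 h
  refine ⟨Fintype.card E, fun e => (uv e).1, fun e => (uv e).2, f, c, k, ?_, ?_⟩
  · intro u v
    constructor
    · intro h
      refine ⟨ε.symm ⟨s(u, v), h⟩, ?_⟩
      rw [huv, Equiv.apply_symm_apply]
    · rintro ⟨e, he⟩
      have h1 : s(u, v) ∈ G.edgeSet := by
        rw [← he, huv]
        exact (ε e).2
      exact h1
  · refine ⟨fun e => (hadj e).ne, hsimple, hc0, hk, ?_, ?_, ?_, ?_⟩
    · intro u v a h
      have h1 : pr (f u) = pr (f v) := (pr_eq_iff _ _).2 ⟨a, h⟩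
      rw [hf, hf] at h1
      obtain rfl := hp h1
      exact ⟨rfl, sh_eq_zero h⟩
    · intro e τ τ' a h
      have h1 : pr (c e τ) = pr (c e τ') := (pr_eq_iff _ _).2 ⟨a, h⟩
      rw [hcl', hcl'] at h1
      obtain rfl := hγ _ _ (hadj e) h1
      exact ⟨rfl, sh_eq_zero h⟩
    · intro e e' hne τ τ' a h
      have h1 : pr (c e τ) = pr (c e' τ') := (pr_eq_iff _ _).2 ⟨a, h⟩
      rw [hcl', hcl'] at h1
      exact ⟨hcr e e' hne τ τ' h1, hcr e' e hne.symm τ' τ h1.symm⟩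
    · intro e τ v a h
      have h1 : pr (c e τ) = pr (f v) := (pr_eq_iff _ _).2 ⟨a, h⟩
      rw [hcl', hf] at h1
      rcases ends τ with h2 | h2
      · exact h2
      · exact (hv _ _ (hadj e) v τ h2.1 h2.2 h1).elim

end Pool.Agent.P.MP_08fd93_co
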