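import Pool.Agent.P.MP_08fd93_co.StB

/-! Package Line: a shortest non-contractible closed walk, unrolled to a periodic line. -/

set_option autoImplicit false

namespace Pool.Agent.P.MP_08fd93_co

namespace PkLine

variable {J : Type}

theorem tr_tr (a b : ℤ × ℤ) (w : J × (ℤ × ℤ)) : tr a (tr b w) = tr (b + a) w := by
  simp only [tr, add_assoc]

theorem tr_zero (w : J × (ℤ × ℤ)) : tr 0 w = w := by
  simp only [tr, add_zero]

theorem eq_zero_of_tr {a : ℤ × ℤ} {w : J × (ℤ × ℤ)} (h : tr a w = w) : a = 0 := by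
  have := congrArg Prod.snd h
  simpa [tr] using this

theorem walk_of_conn {W : Type} {H : SimpleGraph W} {A : Set W} {a b : W} (h : Conn H A a b) :
    ∃ (n : ℕ) (p : ℕ → W), p 0 = a ∧ p n = b ∧ ∀ i, i < n → H.Adj (p i) (p (i + 1)) := by
  induction h with
  | refl => exact ⟨0, fun _ => a, rfl, rfl, fun i hi => absurd hi (Nat.not_lt_zero i)⟩
  | @tail x y _ hxy ih =>
    obtain ⟨n, p, h0, hn, hp⟩ := ih
    refine ⟨n + 1, fun i => if i ≤ n then p i else y, by simpa using h0, by simp, ?_⟩
    intro i hi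
    by_cases hin : i < n
    · simp only [if_pos hin.le, if_pos (Nat.succ_le_of_lt hin)]
      exact hp i hin
    · have e : i = n := by omega
      subst e
      simp only [le_refl, if_true, Nat.not_succ_le_self, if_false, hn]
      exact hxy.2.2

section

variable {Γ : SimpleGraph (J × (ℤ × ℤ))} {l : ℤ → J × (ℤ × ℤ)} {N : ℕ} {g : ℤ × ℤ}

theorem per_mul (per : ∀ i, l (i + N) = tr g (l i)) (q : ℤ) (i : ℤ) :
    l (i + q * N) = tr (q • g) (l i) := by
  induction q using Int.induction_on with
  | zero => simp [tr_zero]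
  | succ k ih =>
    rw [show i + ((k : ℤ) + 1) * N = i + k * N + N by ring, per, ih, tr_tr, add_smul, one_smul]
  | pred k ih =>
    have h := per (i + (-(k : ℤ) - 1) * N)
    rw [show i + (-(k : ℤ) - 1) * N + N = i + -(k : ℤ) * N by ring, ih] at h
    have h2 := congrArg (tr (-g)) h
    rw [tr_tr, tr_tr, add_neg_cancel, tr_zero] at h2
    rw [← h2, sub_smul, one_smul, sub_eq_add_neg]

variable (adj : ∀ i, Γ.Adj (l i) (l (i + 1)))
  (min : ∀ (p : ℕ → J × (ℤ × ℤ)) (n : ℕ), (∀ i, i < n → Γ.Adj (p i) (p (i + 1))) →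
    (p n).1 = (p 0).1 → p n ≠ p 0 → N ≤ n)
include adj min

/-- a short piece of the line followed by one more edge -/
theorem close {i d : ℤ} (h0 : 0 ≤ d) (hd : d + 1 < N) {x : J × (ℤ × ℤ)}
    (hx : Γ.Adj (l (i + d)) x) (h1 : x.1 = (l i).1) : x = l i := by
  obtain ⟨n, rfl⟩ := Int.eq_ofNat_of_zero_le h0
  by_contra hne
  have := min (fun k => if k ≤ n then l (i + k) else x) (n + 1) ?_ (by simpa using h1)
    (by simpa using hne)
  · omega
  · intro k hk
    by_cases hkn : k < n
    · simp only [if_pos hkn.le, if_pos (Nat.succ_le_of_lt hkn)]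
      rw [Nat.cast_succ, ← add_assoc]
      exact adj _
    · have e : k = n := by omega
      subst e
      simp only [le_refl, if_true, Nat.not_succ_le_self, if_false]
      exact hx

theorem close' {i d : ℤ} (h0 : 0 < d) (hd : d < N) (h1 : (l (i + d)).1 = (l i).1) :
    l (i + d) = l i := by
  refine close adj min (d := d - 1) (by omega) (by omega) ?_ h1
  have := adj (i + (d - 1))
  rwa [show i + (d - 1) + 1 = i + d by ring] at this

end

end PkLine

open PkLine in
theorem pkg_Line : S_Line := by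
  classical
  intro J Γ ⟨j0⟩ hG
  have hex : ∃ n : ℕ, ∃ p : ℕ → J × (ℤ × ℤ), (∀ i, i < n → Γ.Adj (p i) (p (i + 1))) ∧
      (p n).1 = (p 0).1 ∧ p n ≠ p 0 := by
    obtain ⟨n, p, h0, hn, hp⟩ := walk_of_conn
      (hG.pl.conn (j0, (0, 0)) (Set.mem_univ _) (j0, (1, 0)) (Set.mem_univ _))
    refine ⟨n, p, hp, by rw [h0, hn], ?_⟩
    rw [h0, hn]
    simp
  obtain ⟨p, hp, hp1, hp2⟩ := Nat.find_spec hex
  have min : ∀ (p : ℕ → J × (ℤ × ℤ)) (n : ℕ), (∀ i, i < n → Γ.Adj (p i) (p (i + 1))) →
      (p n).1 = (p 0).1 → p n ≠ p 0 → Nat.find hex ≤ n := fun p n h1 h2 h3 =>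
    Nat.find_min' hex ⟨p, h1, h2, h3⟩
  generalize Nat.find hex = N at hp hp1 hp2 min
  have hN : 0 < N := Nat.pos_of_ne_zero fun h => hp2 (by rw [h])
  have hN' : (0 : ℤ) < N := by exact_mod_cast hN
  set g : ℤ × ℤ := (p N).2 - (p 0).2 with hg
  have hpN : p N = tr g (p 0) := Prod.ext hp1 (by simp [tr, hg])
  have hg0 : g ≠ 0 := fun h => hp2 (by rw [hpN, h, tr_zero])
  set l : ℤ → J × (ℤ × ℤ) := fun i => tr ((i / N) • g) (p (i % N).toNat) with hl
  have per : ∀ i, l (i + N) = tr g (l i) := by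
    intro i
    simp only [hl]
    rw [Int.add_emod_right, Int.add_ediv_of_dvd_right (dvd_refl _), Int.ediv_self hN'.ne',
      tr_tr, add_smul, one_smul]
  have hlr : ∀ r : ℕ, r ≤ N → l r = p r := by
    intro r hr
    rcases hr.lt_or_eq with hr | hr
    · have hr' : (r : ℤ) < N := by exact_mod_cast hr
      simp only [hl]
      rw [Int.emod_eq_of_lt (by positivity) hr', Int.ediv_eq_zero_of_lt (by positivity) hr',
        zero_smul, tr_zero, Int.toNat_natCast]
    · subst hr
      simp only [hl]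
      rw [Int.emod_self, Int.ediv_self hN'.ne', one_smul, hpN]
      rfl
  have adj : ∀ i, Γ.Adj (l i) (l (i + 1)) := by
    intro i
    obtain ⟨r, hr⟩ := Int.eq_ofNat_of_zero_le (Int.emod_nonneg i hN'.ne')
    have hrN : r < N := by
      have := Int.emod_lt_of_pos i hN'
      omega
    have e : i = r + i / N * N := by
      have := Int.emod_add_ediv_mul i N
      omega
    rw [e, show (r : ℤ) + i / N * N + 1 = ((r + 1 : ℕ) : ℤ) + i / N * N by push_cast; ring,
      per_mul per, per_mul per, hlr r hrN.le, hlr (r + 1) hrN]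
    exact hG.inv _ _ _ (hp r hrN)
  have hdec : ∀ i j : ℤ, ∃ d q : ℤ, 0 ≤ d ∧ d < N ∧ j = i + d + q * N := by
    intro i j
    refine ⟨(j - i) % N, (j - i) / N, Int.emod_nonneg _ hN'.ne', Int.emod_lt_of_pos _ hN', ?_⟩
    have := Int.emod_add_ediv_mul (j - i) N
    omega
  refine ⟨l, N, g, hN, hg0, per, adj, fun i j hij => ?_, fun i j a h => ?_, min⟩
  · obtain ⟨d, q, h0, hd, rfl⟩ := hdec i j
    rcases h0.lt_or_eq with h0 | h0
    · exfalso
      rw [per_mul per] at hij
      have h1 : l (i + d) = l i := close' adj min h0 hd hij.symm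
      have h2 : l (i + d + (N - d)) = l (i + d) := by
        refine close' adj min (by omega) (by omega) ?_
        rw [show i + d + (N - d) = i + N by ring, per, h1]
        rfl
      rw [show i + d + (N - d) = i + N by ring, per, h1] at h2
      exact hg0 (eq_zero_of_tr h2)
    · subst h0
      exact ⟨-q, by ring⟩
  · obtain ⟨d, q, h0, hd, rfl⟩ := hdec i j
    rw [per_mul per, tr_tr] at h ⊢
    generalize q • g + a = b at h ⊢
    by_cases e0 : d = 0
    · subst e0
      exact absurd (by rw [add_zero]; rfl) (hG.nl _ _ h)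
    by_cases e1 : d = 1
    · subst e1
      exact Or.inl (hG.simp _ _ _ h (adj i) rfl)
    by_cases e2 : d = N - 1
    · subst e2
      have h3 := (adj (i - 1)).symm
      rw [sub_add_cancel] at h3
      refine Or.inr (hG.simp _ _ _ h h3 ?_)
      rw [show i + (N - 1) = i - 1 + N by ring, per]
      rfl
    exfalso
    have h1 : tr (-b) (l i) = l i := by
      refine close adj min h0 (by omega) ?_ rfl
      have := (hG.inv (-b) _ _ h).symm
      rwa [tr_tr, add_neg_cancel, tr_zero] at this
    have hb : b = 0 := neg_eq_zero.1 (eq_zero_of_tr h1)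
    have h2 : tr g (l (i + d)) = l (i + d) := by
      refine close adj min (d := N - d) (by omega) (by omega) ?_ rfl
      have := hG.inv g _ _ h
      rw [hb, tr_zero, ← per] at this
      rwa [show i + d + (N - d) = i + N by ring]
    exact hg0 (eq_zero_of_tr h2)

end Pool.Agent.P.MP_08fd93_co
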