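import Pool.Agent.P.MP_08fd93_co.StB

set_option autoImplicit false

namespace Pool.Agent.P.MP_08fd93_co

namespace PkMk

theorem tg_add {p q : ℤ × ℤ} (h : TG.Adj p q) (c : ℤ × ℤ) : TG.Adj (p + c) (q + c) := by
  simp only [TG, SimpleGraph.fromRel_adj, ne_eq, Prod.ext_iff, Prod.fst_add, Prod.snd_add] at h ⊢
  omega

theorem tg_near {p q : ℤ × ℤ} (h : TG.Adj p q) : |p.1 - q.1| ≤ 1 ∧ |p.2 - q.2| ≤ 1 := by
  simp only [TG, SimpleGraph.fromRel_adj, ne_eq, Prod.ext_iff, Prod.fst_add, Prod.snd_add] at h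
  simp only [abs_le]
  omega

theorem conn_map {W W' : Type} {H : SimpleGraph W} {H' : SimpleGraph W'} (π : W → W')
    (hπ : ∀ a b, H.Adj a b → π a = π b ∨ H'.Adj (π a) (π b)) {A : Set W} (hA : IsConn H A) :
    IsConn H' (π '' A) := by
  rintro _ ⟨a, ha, rfl⟩ _ ⟨b, hb, rfl⟩
  have h := hA a ha b hb
  clear hb
  induction h with
  | refl => exact Relation.ReflTransGen.refl
  | tail _ h ih =>
    rcases hπ _ _ h.2.2 with e | e
    · exact e ▸ ih
    · exact ih.tail ⟨⟨_, h.1, rfl⟩, ⟨_, h.2.1, rfl⟩, e⟩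

/-- The graph on the fibres of `π`. -/
def Gam {W : Type} (π : ℤ × ℤ → W) : SimpleGraph W where
  Adj x y := x ≠ y ∧ ∃ p q, π p = x ∧ π q = y ∧ TG.Adj p q
  symm := ⟨fun _ _ ⟨h, p, q, a, b, c⟩ => ⟨h.symm, q, p, b, a, c.symm⟩⟩
  loopless := ⟨fun _ h => h.1 rfl⟩

theorem good {J : Type} (hM : S_TM) (hS : S_TS) (hO : S_TO) (hQ : S_Quot) (N : ℤ)
    (π : ℤ × ℤ → J × (ℤ × ℤ)) (surj : Function.Surjective π)
    (eqv : ∀ q b, π (q + N • b) = tr b (π q)) (fin : ∀ x, (π ⁻¹' {x}).Finite)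
    (con : ∀ x, IsConn TG (π ⁻¹' {x}))
    (nl : ∀ p q, TG.Adj p q → (π p).1 = (π q).1 → π p = π q)
    (sp : ∀ p q p' q', TG.Adj p q → TG.Adj p' q' → π p = π p' → (π q).1 = (π q').1 →
      π p ≠ π q → π p' ≠ π q' → π q = π q') : Good (Gam π) := by
  refine ⟨hQ _ _ TG _ Set.univ Set.univ π ⟨hO.1, hM.1, hM.2, hS⟩ ?_ (fun x _ => ?_)
    (fun x _ => Or.inl ?_) (fun x _ y _ => ?_), fun F hF => ?_, ?_, ?_, ?_⟩
  · rw [Set.image_univ, surj.range_eq]
  · rw [Set.univ_inter]; exact con x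
  · rw [Set.univ_inter]; exact fin x
  · simp only [Gam, Set.mem_univ, true_and]
  · have hF' : (π ⁻¹' F).Finite := by
      refine (hF.biUnion fun x _ => fin x).subset fun p hp => ?_
      exact Set.mem_biUnion hp rfl
    obtain ⟨Z, z1, z2, z3⟩ := hO.2 _ hF'
    refine ⟨π '' Z, conn_map π (fun a b h => ?_) z1, (z2.image π).subset fun x hx => ?_, ?_⟩
    · by_cases e : π a = π b
      · exact Or.inl e
      · exact Or.inr ⟨e, a, b, rfl, rfl, h⟩
    · obtain ⟨p, rfl⟩ := surj x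
      exact ⟨p, fun hp => hx ⟨p, hp, rfl⟩, rfl⟩
    · rw [Set.disjoint_left]
      rintro _ ⟨p, hp, rfl⟩ h
      exact Set.disjoint_left.1 z3 hp h
  · rintro a _ _ ⟨h, p, q, rfl, rfl, e⟩
    refine ⟨fun h' => h ?_, p + N • a, q + N • a, eqv p a, eqv q a, tg_add e _⟩
    simp only [tr, Prod.mk.injEq, add_left_inj] at h'
    exact Prod.ext h'.1 h'.2
  · rintro _ _ ⟨h, p, q, rfl, rfl, e⟩ h'
    exact h (nl p q e h')
  · rintro _ _ _ ⟨h, p, q, rfl, rfl, e⟩ ⟨h', p', q', e1, rfl, e'⟩ e2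
    exact sp p q p' q' e e' e1.symm e2 h (e1 ▸ h')

section

variable {V : Type} (N : ℤ) (B : V → Set (ℤ × ℤ))

open Classical in
/-- The label and the period of a cell. -/
noncomputable def lab (q : ℤ × ℤ) : (V ⊕ (ℤ × ℤ)) × (ℤ × ℤ) :=
  if h : ∃ x : V × (ℤ × ℤ), q - N • x.2 ∈ B x.1 then (Sum.inl h.choose.1, h.choose.2)
  else (Sum.inr (q.1 % N, q.2 % N), (q.1 / N, q.2 / N))

variable {N B}

theorem lab_cases (q : ℤ × ℤ) :
    (∃ v, (lab N B q).1 = Sum.inl v ∧ q - N • (lab N B q).2 ∈ B v) ∨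
      ((∀ v a, q - N • a ∉ B v) ∧
        lab N B q = (Sum.inr (q.1 % N, q.2 % N), (q.1 / N, q.2 / N))) := by
  unfold lab
  split_ifs with h
  · exact Or.inl ⟨_, rfl, h.choose_spec⟩
  · exact Or.inr ⟨fun v a hv => h ⟨(v, a), hv⟩, rfl⟩

theorem lab_inl {q a : ℤ × ℤ} {v : V} (h : lab N B q = (Sum.inl v, a)) : q - N • a ∈ B v := by
  rcases lab_cases (N := N) (B := B) q with ⟨u, h1, h2⟩ | ⟨-, h1⟩
  · rw [h] at h1 h2
    obtain rfl : v = u := Sum.inl.inj h1
    exact h2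
  · rw [h] at h1
    exact absurd (congrArg Prod.fst h1) Sum.inl_ne_inr

theorem lab_inr {q a r : ℤ × ℤ} (h : lab N B q = (Sum.inr r, a)) : q = r + N • a := by
  rcases lab_cases (N := N) (B := B) q with ⟨u, h1, -⟩ | ⟨-, h1⟩
  · rw [h] at h1
    exact absurd h1 Sum.inr_ne_inl
  · rw [h, Prod.mk.injEq, Sum.inr.injEq] at h1
    rw [h1.1, h1.2]
    exact Prod.ext (Int.emod_add_mul_ediv _ _).symm (Int.emod_add_mul_ediv _ _).symm

theorem lab_eq (uq : ∀ u v q a b, q - N • a ∈ B u → q - N • b ∈ B v → u = v ∧ a = b)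
    {q a : ℤ × ℤ} {v : V} (h : q - N • a ∈ B v) : lab N B q = (Sum.inl v, a) := by
  rcases lab_cases (N := N) (B := B) q with ⟨u, h1, h2⟩ | ⟨h1, -⟩
  · obtain ⟨rfl, e⟩ := uq _ _ _ _ _ h2 h
    exact Prod.ext h1 e
  · exact absurd h (h1 v a)

theorem lab_add (hN : N ≠ 0)
    (uq : ∀ u v q a b, q - N • a ∈ B u → q - N • b ∈ B v → u = v ∧ a = b) (q b : ℤ × ℤ) :
    lab N B (q + N • b) = tr b (lab N B q) := by
  rcases lab_cases (N := N) (B := B) q with ⟨u, h1, h2⟩ | ⟨h1, h2⟩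
  · rw [tr, h1]
    refine lab_eq uq ?_
    rwa [smul_add, add_sub_add_right_eq_sub]
  rcases lab_cases (N := N) (B := B) (q + N • b) with ⟨u, -, h3⟩ | ⟨-, h3⟩
  · refine absurd ?_ (h1 u ((lab N B (q + N • b)).2 - b))
    rwa [smul_sub, ← sub_add, sub_add_eq_add_sub]
  · rw [h3, h2, tr]
    simp only [Prod.fst_add, Prod.snd_add, Prod.smul_fst, Prod.smul_snd, smul_eq_mul,
      Int.add_mul_emod_self_left, Int.add_mul_ediv_left _ _ hN]
    rfl

end

theorem small {N x : ℤ} (hN : 3 ≤ N) (h : |N * x| ≤ 2) : x = 0 := by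
  rw [abs_le] at h
  rcases lt_trichotomy x 0 with e | e | e
  · nlinarith [h.1]
  · exact e
  · nlinarith [h.2]

end PkMk

open PkMk

theorem pkg_Mk : S_Mk := by
  intro hL hB hM hS hO hQ V _ G hG
  obtain ⟨m, s, t, f, c, k, li, lf⟩ := hL V G hG
  obtain ⟨N, B, hN, bf, bc, be, bm⟩ := hB V m s t f c k lf
  have hN' : (3 : ℤ) ≤ N := by exact_mod_cast hN
  have mg : ∀ u v p q a b, p - (N : ℤ) • a ∈ B u → q - (N : ℤ) • b ∈ B v → |p.1 - q.1| ≤ 2 →
      |p.2 - q.2| ≤ 2 → (u = v ∧ a = b) ∨ (p ≠ q ∧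
        ∃ e, (s e = u ∧ t e = v ∧ k e = b - a) ∨ (t e = u ∧ s e = v ∧ k e = -(b - a))) := by
    intro u v p q a b hp hq h1 h2
    have e : q - (N : ℤ) • b + (N : ℤ) • (b - a) = q - (N : ℤ) • a := by
      rw [smul_sub, sub_add_sub_cancel]
    rcases bm u v (b - a) _ hp _ hq (by rw [e]; simpa using h1) (by rw [e]; simpa using h2) with
      h | h
    · exact Or.inl ⟨h.1, (sub_eq_zero.1 h.2).symm⟩
    · exact Or.inr ⟨fun e' => h.1 (by rw [e, e']), h.2⟩
  have uq : ∀ u v q a b, q - (N : ℤ) • a ∈ B u → q - (N : ℤ) • b ∈ B v → u = v ∧ a = b :=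
    fun u v q a b h1 h2 => (mg u v q q a b h1 h2 (by simp) (by simp)).resolve_right
      fun h => h.1 rfl
  have eqv := lab_add (N := (N : ℤ)) (B := B) (by omega) uq
  have key : ∀ p q : ℤ × ℤ, |p.1 - q.1| ≤ 2 → |p.2 - q.2| ≤ 2 →
      (lab (N : ℤ) B p).1 = (lab (N : ℤ) B q).1 → lab (N : ℤ) B p = lab (N : ℤ) B q := by
    intro p q h1 h2 e
    refine Prod.ext e ?_
    rcases hj : (lab (N : ℤ) B q).1 with v | r
    · rcases mg v v p q _ _ (lab_inl (Prod.ext (e.trans hj) rfl)) (lab_inl (Prod.ext hj rfl))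
        h1 h2 with h | ⟨-, x, h | h⟩
      · exact h.2
      · exact absurd (h.1.trans h.2.1.symm) (lf.loop x)
      · exact absurd (h.2.1.trans h.1.symm) (lf.loop x)
    · have gen : ∀ a b : ℤ × ℤ, p = r + (N : ℤ) • a → q = r + (N : ℤ) • b → a = b := by
        intro a b a1 a2
        rw [a1, a2] at h1 h2
        simp only [Prod.fst_add, Prod.snd_add, Prod.smul_fst, Prod.smul_snd, smul_eq_mul,
          add_sub_add_left_eq_sub, ← mul_sub] at h1 h2
        exact Prod.ext (sub_eq_zero.1 (small hN' h1)) (sub_eq_zero.1 (small hN' h2))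
      exact gen _ _ (lab_inr (B := B) (Prod.ext (e.trans hj) rfl))
        (lab_inr (B := B) (Prod.ext hj rfl))
  have two : ∀ p q q' : ℤ × ℤ, TG.Adj p q → TG.Adj p q' →
      |q.1 - q'.1| ≤ 2 ∧ |q.2 - q'.2| ≤ 2 := by
    intro p q q' h h'
    have a1 := tg_near h
    have a2 := tg_near h'
    simp only [abs_le] at a1 a2 ⊢
    omega
  have sp : ∀ p q p' q', TG.Adj p q → TG.Adj p' q' → lab (N : ℤ) B p = lab (N : ℤ) B p' →
      (lab (N : ℤ) B q).1 = (lab (N : ℤ) B q').1 → lab (N : ℤ) B p ≠ lab (N : ℤ) B q →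
      lab (N : ℤ) B p' ≠ lab (N : ℤ) B q' → lab (N : ℤ) B q = lab (N : ℤ) B q' := by
    intro p q p' q' h h' e1 e2 n1 n2
    rcases hx : lab (N : ℤ) B p with ⟨u | r, a⟩
    swap
    · obtain rfl : p = p' := (lab_inr hx).trans (lab_inr (e1.symm.trans hx)).symm
      exact key q q' (two p q q' h h').1 (two p q q' h h').2 e2
    rcases hy : lab (N : ℤ) B q with ⟨v | r, b⟩
    · rcases hy' : lab (N : ℤ) B q' with ⟨v', b'⟩
      rw [hy, hy'] at e2
      subst e2
      have c1 := tg_near h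
      have c2 := tg_near h'
      rcases mg u v p q a b (lab_inl hx) (lab_inl hy) (by linarith [c1.1]) (by linarith [c1.2])
        with d | ⟨-, x, d⟩
      · exact absurd (by rw [hx, hy, d.1, d.2]) n1
      rcases mg u v p' q' a b' (lab_inl (e1.symm.trans hx)) (lab_inl hy') (by linarith [c2.1])
        (by linarith [c2.2]) with d' | ⟨-, x', d'⟩
      · exact absurd (by rw [← e1, hx, hy', d'.1, d'.2]) n2
      obtain rfl : x = x' := by
        refine lf.simple x x' ?_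
        rcases d with d | d <;> rcases d' with d' | d' <;> rw [d.1, d.2.1, d'.1, d'.2.1]
        all_goals exact Sym2.eq_swap
      refine Prod.ext rfl ?_
      rcases d with d | d <;> rcases d' with d' | d'
      · exact sub_left_injective (d.2.2.symm.trans d'.2.2)
      · exact absurd (d.1.trans d'.1.symm) (lf.loop x)
      · exact absurd (d'.1.trans d.1.symm) (lf.loop x)
      · exact sub_left_injective (neg_injective (d.2.2.symm.trans d'.2.2))
    · rcases hy' : lab (N : ℤ) B q' with ⟨v', b'⟩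
      rw [hy, hy'] at e2
      subst e2
      have a1 : q = q' + (N : ℤ) • (b - b') := by
        rw [lab_inr hy, lab_inr hy', smul_sub, add_assoc, add_sub_cancel]
      have a2 := tg_add h' ((N : ℤ) • (b - b'))
      rw [← a1] at a2
      have a3 := key _ _ (two q _ _ h.symm a2.symm).1 (two q _ _ h.symm a2.symm).2
        (by rw [eqv, e1]; rfl)
      rw [eqv, ← e1] at a3
      have a4 : (lab (N : ℤ) B p).2 = (lab (N : ℤ) B p).2 + (b - b') := congrArg Prod.snd a3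
      exact Prod.ext rfl (sub_eq_zero.1 (left_eq_add.1 a4))
  let J : Type := {j : V ⊕ (ℤ × ℤ) // ∃ q, (lab (N : ℤ) B q).1 = j}
  let π : ℤ × ℤ → J × (ℤ × ℤ) := fun q => (⟨(lab (N : ℤ) B q).1, q, rfl⟩, (lab (N : ℤ) B q).2)
  have pe : ∀ p q, π p = π q ↔ lab (N : ℤ) B p = lab (N : ℤ) B q := fun p q => by
    rw [Prod.ext_iff, Prod.ext_iff (x := lab (N : ℤ) B p)]
    exact and_congr Subtype.ext_iff Iff.rfl
  have pe1 : ∀ p q, (π p).1 = (π q).1 ↔ (lab (N : ℤ) B p).1 = (lab (N : ℤ) B q).1 :=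
    fun p q => Subtype.ext_iff
  have eqπ : ∀ q b, π (q + (N : ℤ) • b) = tr b (π q) := fun q b =>
    Prod.ext (Subtype.ext (Prod.ext_iff.1 (eqv q b)).1) (Prod.ext_iff.1 (eqv q b)).2
  have surj : Function.Surjective π := by
    rintro ⟨⟨j, q, rfl⟩, a⟩
    refine ⟨q + (N : ℤ) • (a - (π q).2), ?_⟩
    rw [eqπ, tr, add_sub_cancel]
  have fib : ∀ x, (π ⁻¹' {x}).Finite ∧ IsConn TG (π ⁻¹' {x}) := by
    intro x
    obtain ⟨q, rfl⟩ := surj x
    rcases hx : lab (N : ℤ) B q with ⟨u | r, a⟩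
    · have e : π ⁻¹' {π q} = (fun p => p + (N : ℤ) • a) '' B u := by
        ext p
        rw [Set.mem_preimage, Set.mem_singleton_iff, pe, hx]
        constructor
        · exact fun h => ⟨_, lab_inl h, sub_add_cancel _ _⟩
        · rintro ⟨p, hp, rfl⟩
          exact lab_eq uq (by rwa [add_sub_cancel_right])
      rw [e]
      exact ⟨(bf u).image _, conn_map _ (fun a b h => Or.inr (tg_add h _)) (bc u)⟩
    · have e : ∀ p ∈ π ⁻¹' {π q}, p = q := fun p hp =>
        (lab_inr (((pe p q).1 hp).trans hx)).trans (lab_inr hx).symm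
      refine ⟨(Set.finite_singleton q).subset e, fun a ha b hb => ?_⟩
      rw [e a ha, e b hb]
      exact Relation.ReflTransGen.refl
  have hJ : Finite J := by
    have : (Set.univ : Set J) ⊆ (fun q => (π q).1) ''
        (Set.Ico (0 : ℤ) N ×ˢ Set.Ico (0 : ℤ) N) := by
      rintro ⟨j, q, rfl⟩ -
      refine ⟨(q.1 % N, q.2 % N), ⟨⟨Int.emod_nonneg _ (by omega), Int.emod_lt_of_pos _ (by omega)⟩,
        Int.emod_nonneg _ (by omega), Int.emod_lt_of_pos _ (by omega)⟩, ?_⟩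
      have e : q = (q.1 % N, q.2 % N) + (N : ℤ) • (q.1 / N, q.2 / N) :=
        Prod.ext (Int.emod_add_mul_ediv _ _).symm (Int.emod_add_mul_ediv _ _).symm
      have e' := eqπ (q.1 % N, q.2 % N) (q.1 / N, q.2 / N)
      rw [← e] at e'
      exact (congrArg Prod.fst e').symm
    exact Set.finite_univ_iff.1
      ((((Set.finite_Ico _ _).prod (Set.finite_Ico _ _)).image _).subset this)
  classical
  let ι : V → J := fun v => if h : (B v).Nonempty then (π h.choose).1 else (π 0).1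
  have hι : ∀ v, ∀ p ∈ B v, (ι v).1 = Sum.inl v := fun v p hp => by
    have h : (B v).Nonempty := ⟨p, hp⟩
    simp only [ι, dif_pos h, π]
    rw [lab_eq (a := 0) uq (by simpa using h.choose_spec)]
  have hπ : ∀ v, ∀ p ∈ B v, ∀ a, π (p + (N : ℤ) • a) = (ι v, a) := fun v p hp a => by
    have h : lab (N : ℤ) B (p + (N : ℤ) • a) = (Sum.inl v, a) :=
      lab_eq uq (by rwa [add_sub_cancel_right])
    exact Prod.ext (Subtype.ext ((congrArg Prod.fst h).trans (hι v p hp).symm))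
      (Prod.ext_iff.1 h).2
  have hne : ∀ u v, G.Adj u v → (ι u).1 = Sum.inl u := by
    intro u v h
    obtain ⟨e, he⟩ := (li u v).1 h
    obtain ⟨p, hp, q, hq, -⟩ := be e
    rcases Sym2.eq_iff.1 he with h1 | h1
    · exact hι u p (h1.1 ▸ hp)
    · exact hι u q (h1.2 ▸ hq)
  refine ⟨J, Fintype.ofFinite J, Gam π, ⟨(π 0).1⟩, good hM hS hO hQ N π surj eqπ
    (fun x => (fib x).1) (fun x => (fib x).2) (fun p q h e => ?_)
    (fun p q p' q' h h' e1 e2 n1 n2 => ?_), ι, fun u v h => ?_, fun u v u' v' h h' e => ?_⟩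
  · have c1 := tg_near h
    exact (pe p q).2 (key p q (by linarith [c1.1]) (by linarith [c1.2]) ((pe1 p q).1 e))
  · exact (pe _ _).2 (sp p q p' q' h h' ((pe _ _).1 e1) ((pe1 _ _).1 e2)
      (fun e => n1 ((pe _ _).2 e)) fun e => n2 ((pe _ _).2 e))
  · have n : ι u ≠ ι v := fun e => h.ne (Sum.inl.inj
      (((hne u v h).symm.trans (congrArg Subtype.val e)).trans (hne v u h.symm)))
    obtain ⟨e, he⟩ := (li u v).1 h
    obtain ⟨p, hp, q, hq, a⟩ := be e
    have a1 := hπ _ p hp 0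
    rw [smul_zero, add_zero] at a1
    have a2 := hπ _ q hq (k e)
    rw [Quo, SimpleGraph.fromRel_adj]
    refine ⟨n, ?_⟩
    rcases Sym2.eq_iff.1 he with ⟨rfl, rfl⟩ | ⟨rfl, rfl⟩
    · exact Or.inl ⟨0, k e, fun e => n (congrArg Prod.fst e), p, _, a1, a2, a⟩
    · exact Or.inr ⟨0, k e, fun e => n (congrArg Prod.fst e).symm, p, _, a1, a2, a⟩
  · exact Sum.inl.inj (((hne u u' h).symm.trans (congrArg Subtype.val e)).trans (hne v v' h'))

end Pool.Agent.P.MP_08fd93_co
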