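import Pool.Agent.P.MP_08fd93_co.StB

/-! Package Quot: quotients by connected fibres. -/

set_option autoImplicit false

namespace Pool.Agent.P.MP_08fd93_co

namespace PkQuot

variable {W W' : Type} {H : SimpleGraph W} {H' : SimpleGraph W'} {U : Set W} {U' : Set W'}
  {π : W → W'}

theorem mono {A B : Set W} (h : A ⊆ B) {a b : W} (c : Conn H A a b) : Conn H B a b := by
  induction c with
  | refl => exact .refl
  | tail _ e ih => exact ih.tail ⟨h e.1, h e.2.1, e.2.2⟩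

theorem mem_end {A : Set W} {a b : W} (c : Conn H A a b) (h : a ∈ A) : b ∈ A := by
  induction c with
  | refl => exact h
  | tail _ e _ => exact e.2.1

theorem push (hadj : ∀ x ∈ U', ∀ y ∈ U',
      H'.Adj x y ↔ x ≠ y ∧ ∃ a ∈ U, ∃ b ∈ U, π a = x ∧ π b = y ∧ H.Adj a b)
    {A : Set W} {A' : Set W'} (hA : A ⊆ U) (hA' : A' ⊆ U') (h : ∀ a ∈ A, π a ∈ A') {a b : W}
    (c : Conn H A a b) : Conn H' A' (π a) (π b) := by
  induction c with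
  | refl => exact .refl
  | @tail x y _ e ih =>
    by_cases d : π x = π y
    · exact d ▸ ih
    · exact ih.tail ⟨h _ e.1, h _ e.2.1, (hadj _ (hA' (h _ e.1)) _ (hA' (h _ e.2.1))).2
        ⟨d, x, hA e.1, y, hA e.2.1, rfl, rfl, e.2.2⟩⟩

theorem pull (hfib : ∀ x ∈ U', IsConn H (U ∩ π ⁻¹' {x})) (hadj : ∀ x ∈ U', ∀ y ∈ U',
      H'.Adj x y ↔ x ≠ y ∧ ∃ a ∈ U, ∃ b ∈ U, π a = x ∧ π b = y ∧ H.Adj a b)
    {A' : Set W'} (hA' : A' ⊆ U') {a : W} (ha : a ∈ U ∩ π ⁻¹' A') {y : W'}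
    (c : Conn H' A' (π a) y) : ∀ b ∈ U, π b = y → Conn H (U ∩ π ⁻¹' A') a b := by
  have fib : ∀ a ∈ U, ∀ b ∈ U, π a ∈ A' → π b = π a → Conn H (U ∩ π ⁻¹' A') a b :=
    fun a ha b hb h e => mono (Set.inter_subset_inter_right _
      (Set.preimage_mono (Set.singleton_subset_iff.2 h)))
      (hfib _ (hA' h) a ⟨ha, rfl⟩ b ⟨hb, e⟩)
  induction c with
  | refl => exact fun b hb e => fib a ha.1 b hb ha.2 e
  | @tail x y _ e ih =>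
    intro b hb d
    obtain ⟨-, p, hp, q, hq, rfl, rfl, f⟩ := (hadj _ (hA' e.1) _ (hA' e.2.1)).1 e.2.2
    exact ((ih p hp rfl).tail ⟨⟨hp, e.1⟩, ⟨hq, e.2.1⟩, f⟩).trans (fib q hq b hb e.2.1 d)

theorem fin_or (hf : ∀ x ∈ U', (U ∩ π ⁻¹' {x}).Finite ∨ (U \ π ⁻¹' {x}).Finite) {B : Set W'}
    (hB : B ⊆ U') (h : B.Finite) : (U ∩ π ⁻¹' B).Finite ∨ (U \ π ⁻¹' B).Finite := by
  by_cases e : ∀ x ∈ B, (U ∩ π ⁻¹' {x}).Finite
  · exact Or.inl ((h.biUnion e).subset fun a ha => Set.mem_biUnion ha.2 ⟨ha.1, rfl⟩)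
  · push Not at e
    obtain ⟨x, hx, e⟩ := e
    exact Or.inr (((hf x (hB hx)).resolve_left e).subset fun a ha =>
      ⟨ha.1, fun d => ha.2 (show π a ∈ B from (show π a = x from d) ▸ hx)⟩)

end PkQuot

open PkQuot in
theorem pkg_Quot : S_Quot := by
  intro W W' H H' U U' π hpl him hfib hf hadj
  have hU : ∀ a ∈ U, π a ∈ U' := fun a ha => him ▸ ⟨a, ha, rfl⟩
  have hc : ∀ A' ⊆ U', IsConn H' A' → IsConn H (U ∩ π ⁻¹' A') := fun A' hA' h a ha b hb =>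
    pull hfib hadj hA' ha (h _ ha.2 _ hb.2) b hb.1 rfl
  have hd : ∀ A' B' : Set W', Disjoint A' B' → Disjoint (U ∩ π ⁻¹' A') (U ∩ π ⁻¹' B') :=
    fun A' B' h => (h.preimage π).mono Set.inter_subset_right Set.inter_subset_right
  have ht : ∀ A' ⊆ U', ∀ B' ⊆ U', Touch H' A' B' → Touch H (U ∩ π ⁻¹' A') (U ∩ π ⁻¹' B') := by
    rintro A' hA' B' hB' ⟨x, hx, y, hy, e⟩
    obtain ⟨-, p, hp, q, hq, rfl, rfl, f⟩ := (hadj _ (hA' hx) _ (hB' hy)).1 e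
    exact ⟨p, ⟨hp, hx⟩, q, ⟨hq, hy⟩, f⟩
  refine ⟨?_, ?_, ?_, ?_⟩
  · subst him
    rintro _ ⟨a, ha, rfl⟩ _ ⟨b, hb, rfl⟩
    exact push hadj subset_rfl subset_rfl hU (hpl.conn a ha b hb)
  · rintro ⟨X, h1, h2⟩
    exact hpl.k5 ⟨fun i => U ∩ π ⁻¹' X i, fun i => ⟨Set.inter_subset_left, hc _ (h1 i).1 (h1 i).2⟩,
      fun i j e => ⟨hd _ _ (h2 i j e).1, ht _ (h1 i).1 _ (h1 j).1 (h2 i j e).2⟩⟩
  · rintro ⟨X, Y, h1, h2, h3⟩
    exact hpl.k33 ⟨fun i => U ∩ π ⁻¹' X i, fun i => U ∩ π ⁻¹' Y i,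
      fun i => ⟨Set.inter_subset_left, hc _ (h1 i).1 (h1 i).2.1, Set.inter_subset_left,
        hc _ (h1 i).2.2.1 (h1 i).2.2.2⟩,
      fun i j e => ⟨hd _ _ (h2 i j e).1, hd _ _ (h2 i j e).2⟩,
      fun i j => ⟨hd _ _ (h3 i j).1, ht _ (h1 i).1 _ (h1 j).2.2.1 (h3 i j).2⟩⟩
  · rintro A B hA hB hAB cA cB hfin x y ⟨x', hx', ex⟩ ⟨y', hy', ey⟩ hx c
    have hy := mem_end c hx
    obtain ⟨-, a, ha, a', ha', rfl, rfl, fa⟩ := (hadj _ hx.1 _ (hB hx')).1 ex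
    obtain ⟨-, b, hb, b', hb', rfl, rfl, fb⟩ := (hadj _ hy.1 _ (hB hy')).1 ey
    have e : U ∩ π ⁻¹' (U' \ (A ∪ B)) = U \ (U ∩ π ⁻¹' A ∪ U ∩ π ⁻¹' B) := by
      ext w
      have := hU w
      simp only [Set.mem_inter_iff, Set.mem_preimage, Set.mem_sdiff, Set.mem_union]
      tauto
    have hfin' : (U ∩ π ⁻¹' B).Finite ∨ (U \ (U ∩ π ⁻¹' B)).Finite := by
      rcases hfin with h | h
      · exact (fin_or hf hB h).imp_right fun d => d.subset fun w hw =>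
          ⟨hw.1, fun g => hw.2 ⟨hw.1, g⟩⟩
      · refine (fin_or hf Set.sdiff_subset h).symm.imp (fun d => d.subset fun w hw =>
          ⟨hw.1, fun g => g.2 hw.2⟩) fun d => d.subset fun w hw =>
          ⟨hw.1, hU w hw.1, fun g => hw.2 ⟨hw.1, g⟩⟩
    have k := hpl.tim _ _ Set.inter_subset_left Set.inter_subset_left (hd _ _ hAB) (hc _ hA cA)
      (hc _ hB cB) hfin' a b ⟨a', ⟨ha', hx'⟩, fa⟩ ⟨b', ⟨hb', hy'⟩, fb⟩ (e ▸ ⟨ha, hx⟩)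
      (e ▸ pull hfib hadj Set.sdiff_subset ⟨ha, hx⟩ c b hb rfl)
    refine push hadj (fun w hw => hw.1.1) (fun w hw => hw.1.1) ?_ k
    rintro w ⟨⟨h1, q, hq, f⟩, h2⟩
    have h3 : π w ∉ A ∪ B := fun g => h2 (g.imp (fun g => ⟨h1, g⟩) fun g => ⟨h1, g⟩)
    exact ⟨⟨hU w h1, π q, hq.2, (hadj _ (hU w h1) _ (hU q hq.1)).2
      ⟨fun g => h3 (Or.inr (g ▸ hq.2)), w, h1, q, hq.1, rfl, rfl, f⟩⟩, h3⟩

end Pool.Agent.P.MP_08fd93_co
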