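import Pool.Agent.P.MP_08fd93_co.StB

/-! Package Rep: a fundamental domain made of whole components. -/

set_option autoImplicit false

namespace Pool.Agent.P.MP_08fd93_co

namespace Rep

theorem symm {W : Type} {H : SimpleGraph W} {A : Set W} {a b : W} (h : Conn H A a b) :
    Conn H A b a := by
  induction h with
  | refl => exact Relation.ReflTransGen.refl
  | tail _ e ih => exact Relation.ReflTransGen.head ⟨e.2.1, e.1, e.2.2.symm⟩ ih

theorem mem {W : Type} {H : SimpleGraph W} {A : Set W} {a b : W} (h : Conn H A a b) (ha : a ∈ A) :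
    b ∈ A := by
  induction h with
  | refl => exact ha
  | tail _ e _ => exact e.2.1

theorem comp {W : Type} (H : SimpleGraph W) (A : Set W) (x : W) :
    IsConn H {y | y ∈ A ∧ Conn H A x y} := by
  have key : ∀ b, Conn H A x b → Conn H {y | y ∈ A ∧ Conn H A x y} x b := by
    intro b hb
    induction hb with
    | refl => exact Relation.ReflTransGen.refl
    | tail h e ih =>
      exact Relation.ReflTransGen.tail ih
        ⟨⟨e.1, h⟩, ⟨e.2.1, Relation.ReflTransGen.tail h e⟩, e.2.2⟩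
  intro a ha b hb
  exact Relation.ReflTransGen.trans (symm (key a ha.2)) (key b hb.2)

variable {J : Type} {Γ : SimpleGraph (J × (ℤ × ℤ))} {K : Set J}

theorem shift (hΓ : Good Γ) (a : ℤ × ℤ) {x y : J × (ℤ × ℤ)} (h : Conn Γ {w | w.1 ∉ K} x y) :
    Conn Γ {w | w.1 ∉ K} (tr a x) (tr a y) := by
  induction h with
  | refl => exact Relation.ReflTransGen.refl
  | tail _ e ih => exact Relation.ReflTransGen.tail ih ⟨e.1, e.2.1, hΓ.inv a _ _ e.2.2⟩

theorem move (hΓ : Good Γ) {u v : J} {a b : ℤ × ℤ} (h : Conn Γ {w | w.1 ∉ K} (u, a) (v, b))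
    (a' : ℤ × ℤ) : Conn Γ {w | w.1 ∉ K} (u, a') (v, b + (a' - a)) := by
  have := shift hΓ (a' - a) h
  simp only [tr] at this
  rwa [add_sub_cancel] at this

theorem uniq (hΓ : Good Γ)
    (hf : ∀ E : Set (J × (ℤ × ℤ)), IsConn Γ E → (∀ w ∈ E, w.1 ∉ K) → E.Finite)
    {u : J} (hu : u ∉ K) {a b : ℤ × ℤ} (h : Conn Γ {w | w.1 ∉ K} (u, a) (u, b)) : a = b := by
  have key : ∀ n : ℕ, Conn Γ {w | w.1 ∉ K} (u, a) (u, a + n • (b - a)) := by
    intro n
    induction n with
    | zero =>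
      rw [zero_smul, add_zero]
      exact Relation.ReflTransGen.refl
    | succ n ih =>
      have := move hΓ h (a + n • (b - a))
      rw [show b + (a + n • (b - a) - a) = a + (n + 1) • (b - a) by rw [succ_nsmul]; abel] at this
      exact Relation.ReflTransGen.trans ih this
  by_contra hne
  refine Set.infinite_of_injective_forall_mem (f := fun n : ℕ => (u, a + n • (b - a)))
    (fun n m e => ?_) (fun n => ?_)
    (hf _ (comp Γ {w | w.1 ∉ K} (u, a)) fun w hw => hw.1)
  · have e' : n • (b - a) = m • (b - a) := add_left_cancel (congrArg Prod.snd e)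
    rw [← natCast_zsmul, ← natCast_zsmul] at e'
    exact Nat.cast_injective (smul_left_injective ℤ (sub_ne_zero.2 (Ne.symm hne)) e')
  · exact ⟨hu, key n⟩

end Rep

theorem pkg_Rep : S_Rep := by
  intro J Γ K Φ hΓ hf hΦ hex
  let s : Setoid J :=
    ⟨fun u v => ∃ a b, Conn Γ {w | w.1 ∉ K} (u, a) (v, b),
      fun u => ⟨0, 0, Relation.ReflTransGen.refl⟩,
      fun ⟨a, b, h⟩ => ⟨b, a, Rep.symm h⟩,
      fun ⟨a, b, h⟩ ⟨_, _, h'⟩ => ⟨a, _, Relation.ReflTransGen.trans h (Rep.move hΓ h' b)⟩⟩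
  have h0 : ∀ u, ∃ a, u ∉ K → Φ (u, a) := fun u => by
    by_cases hu : u ∈ K
    · exact ⟨0, fun h => absurd hu h⟩
    · obtain ⟨a, ha⟩ := hex (u, 0) hu
      exact ⟨_, fun _ => ha⟩
  choose a0 ha0 using h0
  have h1 : ∀ u, ∃ b, Conn Γ {w | w.1 ∉ K}
      ((Quotient.mk s u).out, a0 (Quotient.mk s u).out) (u, b) := fun u => by
    obtain ⟨a, b, h⟩ : s (Quotient.mk s u).out u := Quotient.mk_out u
    exact ⟨_, Rep.move hΓ h _⟩
  choose σ hσ using h1
  have h2 : ∀ x y, Conn Γ {w | w.1 ∉ K} x y → Φ x → Φ y := fun x y h hx => by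
    induction h with
    | refl => exact hx
    | tail _ e ih => exact hΦ _ _ e.1 e.2.1 e.2.2 ih
  refine ⟨σ, fun u hu => h2 _ _ (hσ u) (ha0 _ (Rep.mem (Rep.symm (hσ u)) hu)), ?_⟩
  rintro u ⟨v, b⟩ hu hv h
  have e1 : Conn Γ {w | w.1 ∉ K} (u, σ u) (v, b) := Relation.ReflTransGen.single ⟨hu, hv, h⟩
  have e2 : Quotient.mk s u = Quotient.mk s v := Quotient.sound ⟨_, _, e1⟩
  have e3 := hσ v
  rw [← e2] at e3
  exact Rep.uniq hΓ hf hv
    (Relation.ReflTransGen.trans (Rep.symm (Relation.ReflTransGen.trans (hσ u) e1)) e3)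

end Pool.Agent.P.MP_08fd93_co
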