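import Pool.Agent.P.MP_08fd93_co.StA

/-! Package Rung: choice of the rung. -/

set_option autoImplicit false

namespace Pool.Agent.P.MP_08fd93_co

namespace PkRung

section General

variable {W : Type} {H : SimpleGraph W}

theorem conn_symm {A : Set W} {a b : W} (h : Conn H A a b) : Conn H A b a := by
  induction h with
  | refl => exact .refl
  | tail _ h ih => exact .head ⟨h.2.1, h.1, h.2.2.symm⟩ ih

theorem conn_mono {A B : Set W} (hAB : A ⊆ B) {a b : W} (h : Conn H A a b) : Conn H B a b := by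
  induction h with
  | refl => exact .refl
  | tail _ h ih => exact ih.tail ⟨hAB h.1, hAB h.2.1, h.2.2⟩

theorem conn_one {A : Set W} {a b : W} (ha : a ∈ A) (hb : b ∈ A) (h : H.Adj a b) :
    Conn H A a b := .single ⟨ha, hb, h⟩

theorem conn_exit {A R : Set W} {a b : W} (h : Conn H A a b) (ha : a ∈ R) (hb : b ∉ R) :
    ∃ x ∈ A, ∃ y ∈ A, x ∈ R ∧ y ∉ R ∧ H.Adj x y := by
  induction h with
  | refl => exact absurd ha hb
  | @tail x y _ h ih =>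
    by_cases hx : x ∈ R
    · exact ⟨x, h.1, y, h.2.1, hx, hb, h.2.2⟩
    · exact ih hx

theorem isConn_of {A : Set W} (c : W) (h : ∀ x ∈ A, Conn H A c x) : IsConn H A :=
  fun x hx y hy => (conn_symm (h x hx)).trans (h y hy)

theorem comp_sub {A : Set W} {a : W} (ha : a ∈ A) {w : W} (h : Conn H A a w) : w ∈ A := by
  induction h with
  | refl => exact ha
  | tail _ h _ => exact h.2.1

theorem comp_conn (A : Set W) (a : W) : IsConn H {w | Conn H A a w} := by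
  refine isConn_of a fun x hx => ?_
  induction hx with
  | refl => exact .refl
  | tail h h' ih => exact ih.tail ⟨h, h.tail h', h'.2.2⟩

/-- The vertices joined to `T` by a walk of length `n` inside `U`. -/
def lev (H : SimpleGraph W) (U T : Set W) : ℕ → Set W
  | 0 => U ∩ T
  | n + 1 => {x | x ∈ U ∧ ∃ y ∈ lev H U T n, H.Adj x y}

variable {U T : Set W}

theorem lev_sub {n : ℕ} {x : W} (h : x ∈ lev H U T n) : x ∈ U := by
  cases n <;> exact h.1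

theorem lev_map {φ : W → W} (h1 : ∀ x y, H.Adj x y → H.Adj (φ x) (φ y)) (h2 : ∀ x ∈ U, φ x ∈ U)
    (h3 : ∀ x ∈ T, φ x ∈ T) (n : ℕ) : ∀ x ∈ lev H U T n, φ x ∈ lev H U T n := by
  induction n with
  | zero => exact fun x hx => ⟨h2 x hx.1, h3 x hx.2⟩
  | succ n ih =>
    rintro x ⟨hx, y, hy, e⟩
    exact ⟨h2 x hx, φ y, ih y hy, h1 x y e⟩

theorem lev_conn (n : ℕ) : ∀ x ∈ lev H U T n, ∃ y ∈ U ∩ T, Conn H U x y := by
  induction n with
  | zero => exact fun x hx => ⟨x, hx, .refl⟩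
  | succ n ih =>
    rintro x ⟨hx, y, hy, e⟩
    obtain ⟨z, hz, c⟩ := ih y hy
    exact ⟨z, hz, .head ⟨hx, lev_sub hy, e⟩ c⟩

theorem lev_path (n : ℕ) : ∀ x ∈ lev H U T n, (∀ j < n, x ∉ lev H U T j) → ∃ f : ℕ → W,
    f n = x ∧ (∀ i ≤ n, f i ∈ lev H U T i ∧ ∀ j < i, f i ∉ lev H U T j) ∧
      ∀ i < n, H.Adj (f (i + 1)) (f i) := by
  induction n with
  | zero =>
    intro x hx h
    refine ⟨fun _ => x, rfl, fun i hi => ?_, fun i hi => absurd hi (Nat.not_lt_zero i)⟩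
    obtain rfl : i = 0 := by omega
    exact ⟨hx, h⟩
  | succ n ih =>
    intro x hx h
    obtain ⟨hU, y, hy, e⟩ := id hx
    obtain ⟨f, f1, f2, f3⟩ := ih y hy fun j hj hm => h (j + 1) (by omega) ⟨hU, y, hm, e⟩
    refine ⟨fun i => if i = n + 1 then x else f i, if_pos rfl, fun i hi => ?_, fun i hi => ?_⟩
    · by_cases h' : i = n + 1
      · subst h'
        simp only [if_true]
        exact ⟨hx, h⟩
      · simp only [if_neg h']
        exact f2 i (by omega)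
    · have h1 : i ≠ n + 1 := by omega
      by_cases h' : i = n
      · subst h'
        simp only [if_true, if_neg h1]
        rw [f1]
        exact e
      · have h2 : i + 1 ≠ n + 1 := by omega
        simp only [if_neg h1, if_neg h2]
        exact f3 i (by omega)

end General

variable {J : Type} {Γ : SimpleGraph (J × (ℤ × ℤ))} {l : ℤ → J × (ℤ × ℤ)} {N : ℕ}
  {g s : ℤ × ℤ}

theorem tr_tr (a b : ℤ × ℤ) (w : J × (ℤ × ℤ)) : tr a (tr b w) = tr (b + a) w := by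
  simp only [tr, add_assoc]

theorem tr_zero (w : J × (ℤ × ℤ)) : tr 0 w = w := by simp only [tr, add_zero]

theorem eq_tr {x y : J × (ℤ × ℤ)} (h : x.1 = y.1) : x = tr (x.2 - y.2) y :=
  Prod.ext h (by simp [tr])

theorem tr_back {k : ℤ} {x y : J × (ℤ × ℤ)} (h : x = tr (k • g) y) : y = tr ((-k) • g) x := by
  rw [h, tr_tr, neg_smul, add_neg_cancel, tr_zero]

theorem per_int (hL : Line Γ l N g) (k i : ℤ) : l (i + k * N) = tr (k • g) (l i) := by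
  induction k using Int.induction_on with
  | zero => simp [tr_zero]
  | succ k ih => rw [add_mul, one_mul, ← add_assoc, hL.per, ih, tr_tr, add_smul, one_smul]
  | pred k ih =>
    have e := hL.per (i + (-(k : ℤ) - 1) * N)
    rw [show i + (-(k : ℤ) - 1) * N + N = i + -(k : ℤ) * N by ring, ih] at e
    rw [← tr_zero (l (i + (-(k : ℤ) - 1) * N)), ← add_neg_cancel g, ← tr_tr, ← e, tr_tr, sub_smul,
      one_smul, sub_eq_add_neg]

theorem ln_tr {t : ℤ × ℤ} {w : J × (ℤ × ℤ)} (h : w ∈ Ln l t) (u : ℤ × ℤ) :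
    tr u w ∈ Ln l (t + u) := by
  obtain ⟨i, rfl⟩ := h
  exact ⟨i, tr_tr _ _ _⟩

theorem ln_shift (hL : Line Γ l N g) {t : ℤ × ℤ} {w : J × (ℤ × ℤ)} (k : ℤ)
    (h : w ∈ Ln l (t + k • g)) : w ∈ Ln l t := by
  obtain ⟨i, rfl⟩ := h
  exact ⟨i + k * N, by rw [per_int hL, tr_tr, add_comm]⟩

theorem ln_meet (hL : Line Γ l N g) {t t' : ℤ × ℤ} {w : J × (ℤ × ℤ)} (h : w ∈ Ln l t)
    (h' : w ∈ Ln l t') : ∃ k : ℤ, t = t' + k • g := by
  obtain ⟨i, rfl⟩ := h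
  obtain ⟨j, e⟩ := h'
  obtain ⟨k, hk⟩ := hL.inj j i (congrArg Prod.fst e).symm
  have e2 := per_int hL k i
  rw [show i + k * N = j by linarith] at e2
  rw [e2, tr_tr] at e
  exact ⟨k, (add_left_cancel (congrArg Prod.snd e)).trans (add_comm _ _)⟩

theorem ln_sat {t : ℤ × ℤ} {w : J × (ℤ × ℤ)} (h : w ∈ Ln l t) : w ∈ Sat (Ln l 0) := by
  obtain ⟨i, rfl⟩ := h
  exact ⟨_, ⟨i, rfl⟩, rfl⟩

theorem sat_ln {w : J × (ℤ × ℤ)} (h : w ∈ Sat (Ln l 0)) : ∃ u, w ∈ Ln l u := by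
  obtain ⟨x, hx, e⟩ := h
  exact ⟨_, (eq_tr e) ▸ ln_tr hx _⟩

theorem ln_conn (hG : Good Γ) (hL : Line Γ l N g) (t : ℤ × ℤ) : IsConn Γ (Ln l t) := by
  refine isConn_of (tr t (l 0)) ?_
  rintro _ ⟨i, rfl⟩
  induction i using Int.induction_on with
  | zero => exact .refl
  | succ k ih => exact ih.tail ⟨⟨_, rfl⟩, ⟨_, rfl⟩, hG.inv _ _ _ (hL.adj k)⟩
  | pred k ih =>
    have e := hL.adj (-(k : ℤ) - 1)
    rw [sub_add_cancel] at e
    exact ih.tail ⟨⟨_, rfl⟩, ⟨_, rfl⟩, hG.inv _ _ _ e.symm⟩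

theorem nb_tr (hG : Good Γ) {t : ℤ × ℤ} {x : J × (ℤ × ℤ)} (h : x ∈ Nb Γ (Ln l t)) (u : ℤ × ℤ) :
    tr u x ∈ Nb Γ (Ln l (t + u)) := by
  obtain ⟨w, hw, e⟩ := h
  exact ⟨_, ln_tr hw u, hG.inv _ _ _ e⟩

theorem nb_shift (hL : Line Γ l N g) {t : ℤ × ℤ} {x : J × (ℤ × ℤ)} (k : ℤ)
    (h : x ∈ Nb Γ (Ln l (t + k • g))) : x ∈ Nb Γ (Ln l t) := by
  obtain ⟨w, hw, e⟩ := h
  exact ⟨w, ln_shift hL k hw, e⟩

theorem not_mul (hS : Step Γ l g s) {m k : ℤ} (hm : m ≠ 0) (h : m • s = k • g) : False := by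
  have h1 := congrArg Prod.fst h
  have h2 := congrArg Prod.snd h
  simp only [Prod.smul_fst, Prod.smul_snd, smul_eq_mul] at h1 h2
  exact mul_ne_zero hm hS.det (by linear_combination g.1 * h2 - g.2 * h1)

/-- A connected set between the two lines sees no other line. -/
theorem two (hL : Line Γ l N g) (hS : Step Γ l g s) {C : Set (J × (ℤ × ℤ))} (hC : IsConn Γ C)
    (hd : Disjoint C (Sat (Ln l 0))) {c0 c1 : J × (ℤ × ℤ)} (h0 : c0 ∈ C)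
    (h0' : c0 ∈ Nb Γ (Ln l 0)) (h1 : c1 ∈ C) (h1' : c1 ∈ Nb Γ (Ln l s)) {c : J × (ℤ × ℤ)}
    (h : c ∈ C) {u : ℤ × ℤ} (h' : c ∈ Nb Γ (Ln l u)) :
    (∃ k : ℤ, u = 0 + k • g) ∨ ∃ k : ℤ, u = s + k • g := by
  obtain ⟨t, ht⟩ := hS.two C hC hd
  have key : ∀ c ∈ C, ∀ u, c ∈ Nb Γ (Ln l u) →
      (∃ k : ℤ, u = t + k • g) ∨ ∃ k : ℤ, u = s + t + k • g := by
    rintro c hc u ⟨w, hw, e⟩
    exact (ht ⟨⟨c, hc, e.symm⟩, ln_sat hw⟩).imp (ln_meet hL hw) (ln_meet hL hw)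
  obtain ⟨k, hk⟩ : ∃ k : ℤ, 0 = t + k • g := by
    rcases key c0 h0 0 h0' with a | ⟨k, a⟩
    · exact a
    · exfalso
      rcases key c1 h1 s h1' with ⟨k', b⟩ | ⟨k', b⟩
      · refine not_mul hS (m := 2) (k := k' - k) (by norm_num) ?_
        rw [sub_smul, two_smul]
        linear_combination b - a
      · refine not_mul hS (m := 1) (k := k' - k) (by norm_num) ?_
        rw [sub_smul, one_smul]
        linear_combination b - a
  rcases key c h u h' with ⟨k', b⟩ | ⟨k', b⟩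
  · exact Or.inl ⟨k' - k, by rw [sub_smul]; linear_combination b - hk⟩
  · exact Or.inr ⟨k' - k, by rw [sub_smul]; linear_combination b - hk⟩

theorem conn_tr (hG : Good Γ) (u : ℤ × ℤ) {x y : J × (ℤ × ℤ)}
    (h : Conn Γ (Sat (Ln l 0))ᶜ x y) : Conn Γ (Sat (Ln l 0))ᶜ (tr u x) (tr u y) := by
  induction h with
  | refl => exact .refl
  | tail _ h ih => exact ih.tail ⟨h.1, h.2.1, hG.inv _ _ _ h.2.2⟩

/-- Two lifts of a vertex in the component between the lines differ by a multiple of `g`. -/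
theorem same (hG : Good Γ) (hL : Line Γ l N g) (hS : Step Γ l g s) {a c0 : J × (ℤ × ℤ)}
    (ha : a ∈ (Sat (Ln l 0))ᶜ) (ha' : a ∈ Nb Γ (Ln l s)) (h0 : Conn Γ (Sat (Ln l 0))ᶜ a c0)
    (h0' : c0 ∈ Nb Γ (Ln l 0)) {w y : J × (ℤ × ℤ)} (hw : Conn Γ (Sat (Ln l 0))ᶜ a w)
    (hy : Conn Γ (Sat (Ln l 0))ᶜ a y) (e : w.1 = y.1) : ∃ k : ℤ, w = tr (k • g) y := by
  obtain ⟨t, rfl⟩ : ∃ t, w = tr t y := ⟨_, eq_tr e⟩
  have h1 : Conn Γ (Sat (Ln l 0))ᶜ a (tr t a) := hw.trans (conn_tr hG t (conn_symm hy))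
  have h2 : Conn Γ (Sat (Ln l 0))ᶜ a (tr t c0) := h1.trans (conn_tr hG t h0)
  have tw := fun c hc u h' => two hL hS (comp_conn (Sat (Ln l 0))ᶜ a)
    (Set.disjoint_left.2 fun _ h => comp_sub ha h) h0 h0' .refl ha' (c := c) hc (u := u) h'
  rcases tw _ h2 _ (nb_tr hG h0' t) with ⟨k, b⟩ | ⟨k, b⟩
  · exact ⟨k, by rw [add_left_cancel b]⟩
  · exfalso
    rcases tw _ h1 _ (nb_tr hG ha' t) with ⟨k', c⟩ | ⟨k', c⟩
    · refine not_mul hS (m := 2) (k := k' - k) (by norm_num) ?_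
      rw [sub_smul, two_smul]
      linear_combination c - b
    · refine not_mul hS (m := 1) (k := k' - k) (by norm_num) ?_
      rw [sub_smul, one_smul]
      linear_combination c - b

/-- The levels: distance to the first line, away from the second line. -/
abbrev Lv (Γ : SimpleGraph (J × (ℤ × ℤ))) (l : ℤ → J × (ℤ × ℤ)) (s : ℤ × ℤ) :
    ℕ → Set (J × (ℤ × ℤ)) :=
  lev Γ ((Sat (Ln l 0))ᶜ \ Nb Γ (Ln l s)) (Nb Γ (Ln l 0))

theorem lv_tr (hG : Good Γ) (hL : Line Γ l N g) (k : ℤ) {n : ℕ} {x : J × (ℤ × ℤ)}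
    (h : x ∈ Lv Γ l s n) : tr (k • g) x ∈ Lv Γ l s n := by
  refine lev_map (φ := tr (k • g)) (hG.inv _) (fun x hx => ?_)
    (fun x hx => nb_shift hL k (nb_tr hG hx _)) n x h
  refine ⟨hx.1, fun h => hx.2 ?_⟩
  rw [tr_back (rfl : tr (k • g) x = tr (k • g) x)]
  exact nb_shift hL (-k) (nb_tr hG h _)

/-- There is no short rung. -/
def NoShort (Γ : SimpleGraph (J × (ℤ × ℤ))) (l : ℤ → J × (ℤ × ℤ)) (s : ℤ × ℤ) : Prop :=
  ∀ q ∈ (Sat (Ln l 0))ᶜ, ∀ q' ∈ (Sat (Ln l 0))ᶜ, q ∈ Nb Γ (Ln l 0) → q' ∈ Nb Γ (Ln l s) →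
    ¬ (q = q' ∨ Γ.Adj q q')

theorem exists_triangle (hG : Good Γ) (hL : Line Γ l N g) (hS : Step Γ l g s)
    (ns : NoShort Γ l s) : ∃ a ∈ (Sat (Ln l 0))ᶜ, ∃ b ∈ (Sat (Ln l 0))ᶜ, ∃ p n,
      a ∈ Nb Γ (Ln l s) ∧ b ∈ Nb Γ (Ln l s) ∧ p ∈ Lv Γ l s n ∧ Γ.Adj a b ∧ Γ.Adj a p ∧
        Γ.Adj b p := by
  obtain ⟨D, hD, hd, ⟨d0, h0, h0'⟩, ⟨d1, h1, h1'⟩⟩ := hS.ex
  have off : ∀ x ∈ D, x ∈ (Sat (Ln l 0))ᶜ := fun x hx => Set.disjoint_left.1 hd hx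
  have out : ∀ x y, (∃ n, x ∈ Lv Γ l s n) → (¬ ∃ n, y ∈ Lv Γ l s n) → Γ.Adj x y →
      y ∈ (Sat (Ln l 0))ᶜ → y ∈ Nb Γ (Ln l s) := by
    rintro x y ⟨n, hn⟩ hy e hy'
    by_contra h
    exact hy ⟨n + 1, ⟨hy', h⟩, x, hn, e.symm⟩
  obtain ⟨y, -, a, haD, ⟨n, hy⟩, ha, hya⟩ := conn_exit (R := {x | ∃ n, x ∈ Lv Γ l s n})
    (hD d0 h0 d1 h1) ⟨0, ⟨off d0 h0, fun h => ns d0 (off d0 h0) d0 (off d0 h0) h0' h (Or.inl rfl)⟩,
      h0'⟩ fun ⟨n, hn⟩ => (lev_sub hn).2 h1'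
  have ao := off a haD
  have an := out y a ⟨n, hy⟩ ha hya ao
  obtain ⟨z, hz, haz⟩ := id an
  have sub : ∀ x, x ≠ a → x ∈ Set.univ \ (∅ ∪ {a} : Set (J × (ℤ × ℤ))) := fun x hx => by
    simpa using hx
  have subU : (Sat (Ln l 0))ᶜ \ Nb Γ (Ln l s) ⊆ Set.univ \ (∅ ∪ {a}) :=
    fun x hx => sub x fun e => hx.2 (e ▸ an)
  have subL : ∀ t, Ln l t ⊆ Set.univ \ (∅ ∪ {a}) :=
    fun t x hx => sub x fun e => ao (e ▸ ln_sat hx)
  have down : ∀ x ∈ Lv Γ l s n, ∃ w ∈ Ln l 0, Conn Γ (Set.univ \ (∅ ∪ {a})) x w := by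
    intro x hx
    obtain ⟨c, ⟨hc, w, hw, e⟩, h⟩ := lev_conn n x hx
    exact ⟨w, hw, (conn_mono subU h).tail ⟨subU hc, subL 0 hw, e⟩⟩
  have hy' := lv_tr hG hL 1 hy
  have hz' : tr ((1 : ℤ) • g) z ∈ Ln l s := ln_shift hL 1 (ln_tr hz _)
  have hag : tr ((1 : ℤ) • g) a ≠ a := fun e => hL.ne (by
    have := congrArg Prod.snd e
    simpa [tr] using this)
  obtain ⟨w, hw, c1⟩ := down y hy
  obtain ⟨w', hw', c2⟩ := down _ hy'
  have c3 : Conn Γ (Set.univ \ (∅ ∪ {a})) y z :=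
    (((c1.trans (conn_mono (subL 0) (ln_conn hG hL 0 w hw w' hw'))).trans (conn_symm c2)).tail
      ⟨subU (lev_sub hy'), sub _ hag, hG.inv _ _ _ hya⟩).trans
      (.head ⟨sub _ hag, subL s hz', hG.inv _ _ _ haz⟩
        (conn_mono (subL s) (ln_conn hG hL s _ hz' z hz)))
  have c4 := hG.pl.tim ∅ {a} (Set.subset_univ _) (Set.subset_univ _) (Set.empty_disjoint _)
    (fun _ h => h.elim) (isConn_of a fun x hx => by rw [hx]; exact .refl)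
    (Or.inl (Set.finite_singleton a)) y z ⟨a, rfl, hya⟩ ⟨a, rfl, haz.symm⟩ (subU (lev_sub hy)) c3
  obtain ⟨p, ⟨⟨-, a1, e1, hpa⟩, -⟩, b, ⟨⟨-, a2, e2, hba⟩, -⟩, ⟨m, hp⟩, hb, hpb⟩ :=
    conn_exit (R := {x | ∃ n, x ∈ Lv Γ l s n}) c4 ⟨n, hy⟩ fun ⟨_, hn⟩ => (lev_sub hn).1 (ln_sat hz)
  rw [Set.mem_singleton_iff.1 e1] at hpa
  rw [Set.mem_singleton_iff.1 e2] at hba
  have bo : b ∈ (Sat (Ln l 0))ᶜ := by
    intro hb'
    obtain ⟨u, hu⟩ := sat_ln hb'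
    obtain ⟨c, hc, h⟩ := lev_conn m p hp
    have h' : Conn Γ (Sat (Ln l 0))ᶜ a c :=
      .head ⟨ao, (lev_sub hp).1, hpa.symm⟩ (conn_mono Set.sdiff_subset h)
    rcases two hL hS (comp_conn (Sat (Ln l 0))ᶜ a)
      (Set.disjoint_left.2 fun _ h => comp_sub ao h) h' hc.2 .refl an (c := a) .refl
      ⟨b, hu, hba.symm⟩ with ⟨k, rfl⟩ | ⟨k, rfl⟩
    · exact ns a ao a ao ⟨b, ln_shift hL k hu, hba.symm⟩ an (Or.inl rfl)
    · exact (lev_sub hp).2 ⟨b, ln_shift hL k hu, hpb⟩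
  exact ⟨a, ao, b, bo, p, m, an, out p b ⟨m, hp⟩ hb hpb bo, hp, hba.symm, hpa.symm, hpb.symm⟩

theorem exists_long (hG : Good Γ) (hL : Line Γ l N g) (hS : Step Γ l g s) (ns : NoShort Γ l s) :
    ∃ q a b P, Long Γ l s q a b P := by
  classical
  obtain ⟨a, ao, b, bo, p, n, an, bn, hp, ab, ap, bp⟩ := exists_triangle hG hL hS ns
  have ex : ∃ n, p ∈ Lv Γ l s n := ⟨n, hp⟩
  obtain ⟨f, f1, f2, f3⟩ := lev_path _ p (Nat.find_spec ex) fun j hj => Nat.find_min ex hj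
  generalize Nat.find ex = m at f1 f2 f3
  have fo : ∀ i ≤ m, f i ∈ (Sat (Ln l 0))ᶜ := fun i hi => (lev_sub (f2 i hi).1).1
  have fn : ∀ i ≤ m, f i ∉ Nb Γ (Ln l s) := fun i hi => (lev_sub (f2 i hi).1).2
  have q0 : f 0 ∈ Nb Γ (Ln l 0) := (f2 0 (Nat.zero_le m)).1.2
  have m1 : 1 ≤ m := by
    by_contra h
    obtain rfl : m = 0 := by omega
    exact ns (f 0) (fo 0 le_rfl) a ao q0 an (Or.inr (f1 ▸ ap.symm))
  obtain ⟨P, hP⟩ : ∃ P : Set (J × (ℤ × ℤ)), ∀ x, x ∈ P ↔ ∃ i, 1 ≤ i ∧ i ≤ m ∧ f i = x :=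
    ⟨{x | ∃ i, 1 ≤ i ∧ i ≤ m ∧ f i = x}, fun _ => Iff.rfl⟩
  have mem : ∀ i, 1 ≤ i → i ≤ m → f i ∈ P := fun i h h' => (hP _).2 ⟨i, h, h', rfl⟩
  have cP : IsConn Γ P := by
    refine isConn_of (f 1) fun x hx => ?_
    obtain ⟨i, h, h', rfl⟩ := (hP x).1 hx
    induction i, h using Nat.le_induction with
    | base => exact .refl
    | succ i h ih =>
      exact (ih (by omega) (mem i h (by omega))).tail
        ⟨mem i h (by omega), hx, (f3 i (by omega)).symm⟩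
  have pP : p ∈ P := f1 ▸ mem m m1 le_rfl
  have pq : f 0 ∈ Nb Γ P := ⟨f 1, mem 1 le_rfl m1, (f3 0 m1).symm⟩
  have cases : ∀ x ∈ ({f 0, a, b} ∪ P : Set _), (∃ i ≤ m, f i = x) ∨ x = a ∨ x = b := by
    rintro x ((rfl | h) | h)
    · exact Or.inl ⟨0, Nat.zero_le m, rfl⟩
    · exact Or.inr h
    · obtain ⟨i, -, h', e⟩ := (hP x).1 h
      exact Or.inl ⟨i, h', e⟩
  have cR : IsConn Γ ({f 0, a, b} ∪ P) := by
    have key : ∀ x ∈ ({f 0, a, b} : Set _), x ∈ Nb Γ P → Conn Γ ({f 0, a, b} ∪ P) p x := by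
      rintro x hx ⟨y, hy, e⟩
      exact (conn_mono Set.subset_union_right (cP p pP y hy)).tail ⟨Or.inr hy, Or.inl hx, e.symm⟩
    refine isConn_of p ?_
    rintro x (h | h)
    · refine key x h ?_
      rcases h with rfl | rfl | rfl
      · exact pq
      · exact ⟨p, pP, ap⟩
      · exact ⟨p, pP, bp⟩
    · exact conn_mono Set.subset_union_right (cP p pP x h)
  have oR : ({f 0, a, b} ∪ P : Set _) ⊆ (Sat (Ln l 0))ᶜ := by
    intro x hx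
    rcases cases x hx with ⟨i, hi, rfl⟩ | rfl | rfl
    · exact fo i hi
    · exact ao
    · exact bo
  have inC : ∀ x ∈ ({f 0, a, b} ∪ P : Set _), Conn Γ (Sat (Ln l 0))ᶜ a x :=
    fun x hx => conn_mono oR (cR a (by simp) x hx)
  have fC : ∀ i ≤ m, Conn Γ (Sat (Ln l 0))ᶜ a (f i) := fun i hi => inC _ (by
    rcases Nat.eq_zero_or_pos i with rfl | h
    · simp
    · exact Or.inr (mem i h hi))
  have sm := fun w y hw hy e => same hG hL hS ao an (fC 0 (Nat.zero_le m)) q0 (w := w) (y := y)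
    hw hy e
  have top : ∀ y ∈ Nb Γ (Ln l s), Conn Γ (Sat (Ln l 0))ᶜ a y → ∀ w,
      Conn Γ (Sat (Ln l 0))ᶜ a w → w.1 = y.1 → w ∈ Nb Γ (Ln l s) := by
    intro y hy cy w cw e
    obtain ⟨k, rfl⟩ := sm w y cw cy e
    exact nb_shift hL k (nb_tr hG hy _)
  have cb := inC b (by simp)
  have top' : ∀ w ∈ Sat {a, b}, Conn Γ (Sat (Ln l 0))ᶜ a w → w ∈ Nb Γ (Ln l s) := by
    rintro w ⟨y, rfl | rfl, e⟩ cw
    · exact top _ an .refl w cw e
    · exact top _ bn cb w cw e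
  have idx : ∀ i ≤ m, ∀ j ≤ m, (f i).1 = (f j).1 → ¬ j < i := by
    intro i hi j hj e h
    obtain ⟨k, e'⟩ := sm _ _ (fC i hi) (fC j hj) e
    exact (f2 i hi).2 j h (e' ▸ lv_tr hG hL k (f2 j hj).1)
  have nbr : ∀ i ≤ m, ∀ w ∈ Sat P, Γ.Adj (f i) w → w = f (i + 1) ∨ w = f (i - 1) := by
    rintro i hi w ⟨y, hy, e⟩ h
    obtain ⟨j, -, hj, rfl⟩ := (hP y).1 hy
    have wo : w ∈ (Sat (Ln l 0))ᶜ := fun ⟨x, hx, e'⟩ => fo j hj ⟨x, hx, e.symm.trans e'⟩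
    obtain ⟨k, e'⟩ := sm w _ ((fC i hi).tail ⟨fo i hi, wo, h⟩) (fC j hj) e
    have w1 : w ∈ Lv Γ l s j := e' ▸ lv_tr hG hL k (f2 j hj).1
    have a1 : ¬ j + 1 < i := fun h' => (f2 i hi).2 _ h' ⟨lev_sub (f2 i hi).1, w, w1, h⟩
    have a2 : ¬ i + 1 < j := fun h' => (f2 j hj).2 _ h' (tr_back e' ▸ lv_tr hG hL (-k)
      (n := i + 1) ⟨lev_sub w1, f i, (f2 i hi).1, h.symm⟩)
    have a3 : i ≠ j := fun h' => hG.nl _ _ h (by rw [e, h'])
    rcases (by omega : j = i + 1 ∨ i = j + 1) with rfl | rfl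
    · exact Or.inl (hG.simp _ _ _ h (f3 i (by omega)).symm e)
    · exact Or.inr (hG.simp _ _ _ h (f3 j (by omega)) e)
  refine ⟨f 0, a, b, P, ⟨cR, Set.disjoint_left.2 fun x hx => oR hx, ⟨f 0, by simp, q0⟩,
    ⟨a, by simp, an⟩, fun x hx y hy e => ?_⟩, q0, an, bn, ab, cP, pq, ⟨p, pP, ap⟩, ⟨p, pP, bp⟩,
    Set.disjoint_left.2 fun x hx hx' => ?_, fun x hx => ?_, ?_⟩
  · rcases cases x hx with ⟨i, hi, rfl⟩ | hx'
    · rcases cases y hy with ⟨j, hj, rfl⟩ | hy'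
      · rw [le_antisymm (not_lt.1 (idx i hi j hj e)) (not_lt.1 (idx j hj i hi e.symm))]
      · exact absurd (top' _ ⟨y, hy', e⟩ (fC i hi)) (fn i hi)
    · rcases cases y hy with ⟨j, hj, rfl⟩ | hy'
      · exact absurd (top' _ ⟨x, hx', e.symm⟩ (fC j hj)) (fn j hj)
      · rcases hx' with rfl | rfl <;> rcases hy' with rfl | rfl
        · rfl
        · exact absurd e (hG.nl _ _ ab)
        · exact absurd e (hG.nl _ _ ab.symm)
        · rfl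
  · obtain ⟨i, h1, hi, rfl⟩ := (hP x).1 hx
    obtain ⟨w, hw, e⟩ := hx'
    obtain ⟨u, hu⟩ := sat_ln hw
    rcases two hL hS (comp_conn (Sat (Ln l 0))ᶜ a)
      (Set.disjoint_left.2 fun _ h => comp_sub ao h) (fC 0 (Nat.zero_le m)) q0 .refl an
      (fC i hi) ⟨w, hu, e⟩ with ⟨k, rfl⟩ | ⟨k, rfl⟩
    · exact (f2 i hi).2 0 h1 ⟨lev_sub (f2 i hi).1, w, ln_shift hL k hu, e⟩
    · exact fn i hi ⟨w, ln_shift hL k hu, e⟩
  · obtain ⟨i, -, hi, rfl⟩ := (hP x).1 hx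
    intro u hu v hv w hw e1 e2 e3
    rcases nbr i hi u hu e1 with h1 | h1 <;> rcases nbr i hi v hv e2 with h2 | h2 <;>
      rcases nbr i hi w hw e3 with h3 | h3 <;> simp [h1, h2, h3]
  · rintro (h | ⟨w, hw, e⟩)
    · exact fn 0 (Nat.zero_le m) (top' _ h (fC 0 (Nat.zero_le m)))
    · have wo : w ∈ (Sat (Ln l 0))ᶜ := by
        obtain ⟨y, hy, e1⟩ := hw
        rintro ⟨x, hx, e'⟩
        exact oR (Or.inl (Or.inr hy)) ⟨x, hx, e1.symm.trans e'⟩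
      exact ns _ (fo 0 (Nat.zero_le m)) w wo q0
        (top' w hw ((fC 0 (Nat.zero_le m)).tail ⟨fo 0 (Nat.zero_le m), wo, e⟩)) (Or.inr e)

end PkRung

open PkRung in
theorem pkg_Rung : S_Rung := by
  intro J Γ l N g s hG hL hS
  by_cases ns : NoShort Γ l s
  · exact Or.inr (exists_long hG hL hS ns)
  · left
    simp only [NoShort, not_forall, not_not] at ns
    obtain ⟨q, hq, q', hq', h0, h1, e⟩ := ns
    refine ⟨q, q', ⟨isConn_of q ?_, Set.disjoint_left.2 ?_, ⟨q, by simp, h0⟩, ⟨q', by simp, h1⟩,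
      ?_⟩, h0, h1, e⟩
    · rintro x (rfl | rfl)
      · exact .refl
      · rcases e with rfl | e
        · exact .refl
        · exact conn_one (by simp) (by simp) e
    · rintro x (rfl | rfl)
      · exact hq
      · exact hq'
    · rintro x (rfl | rfl) y (rfl | rfl) h
      · rfl
      · exact e.resolve_right fun e => hG.nl _ _ e h
      · exact (e.resolve_right fun e => hG.nl _ _ e h.symm).symm
      · rfl

end Pool.Agent.P.MP_08fd93_co
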