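import Pool.Agent.P.MP_08fd93_co.StB

set_option autoImplicit false

namespace Pool.Agent.P.MP_08fd93_co

namespace PkSS

open Set

section General

variable {W : Type} {H : SimpleGraph W}

theorem conn_mono {A B : Set W} (h : A ⊆ B) {a b : W} (hc : Conn H A a b) : Conn H B a b := by
  induction hc with
  | refl => exact Relation.ReflTransGen.refl
  | tail _ hxy ih => exact ih.tail ⟨h hxy.1, h hxy.2.1, hxy.2.2⟩

theorem conn_symm {A : Set W} {a b : W} (hc : Conn H A a b) : Conn H A b a := by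
  induction hc with
  | refl => exact Relation.ReflTransGen.refl
  | tail _ h ih => exact Relation.ReflTransGen.head ⟨h.2.1, h.1, h.2.2.symm⟩ ih

theorem isConn_of {A : Set W} (c : W) (h : ∀ x ∈ A, Conn H A c x) : IsConn H A :=
  fun a ha b hb => Relation.ReflTransGen.trans (conn_symm (h a ha)) (h b hb)

theorem isConn_single (a : W) : IsConn H {a} :=
  isConn_of a fun x hx => by rw [mem_singleton_iff.1 hx]; exact Relation.ReflTransGen.refl

theorem isConn_union_mem {A B : Set W} (hA : IsConn H A) (hB : IsConn H B) {c : W} (h1 : c ∈ A)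
    (h2 : c ∈ B) : IsConn H (A ∪ B) :=
  isConn_of c fun x hx => hx.elim (fun h => conn_mono subset_union_left (hA c h1 x h))
    fun h => conn_mono subset_union_right (hB c h2 x h)

theorem isConn_insert {A : Set W} (hA : IsConn H A) {a b : W} (ha : a ∈ A) (h : H.Adj a b) :
    IsConn H (insert b A) :=
  isConn_of a fun x hx => hx.elim
    (fun e => by
      rw [e]
      exact Relation.ReflTransGen.single ⟨mem_insert_of_mem _ ha, mem_insert _ _, h⟩)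
    fun e => conn_mono (subset_insert _ _) (hA a ha x e)

theorem exists_fin {A : Set W} {a b : W} (ha : a ∈ A) (hc : Conn H A a b) :
    ∃ F : Set W, F ⊆ A ∧ F.Finite ∧ a ∈ F ∧ b ∈ F ∧ IsConn H F := by
  induction hc with
  | refl => exact ⟨{a}, singleton_subset_iff.2 ha, finite_singleton a, rfl, rfl, isConn_single a⟩
  | tail _ h ih =>
    obtain ⟨F, f1, f2, f3, f4, f5⟩ := ih
    exact ⟨insert _ F, insert_subset h.2.1 f1, f2.insert _, mem_insert_of_mem _ f3,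
      mem_insert _ _, isConn_insert f5 f4 h.2.2⟩

theorem isConn_star {ι : Type} {C : Set W} {D : ι → Set W} (hC : IsConn H C)
    (hD : ∀ i, IsConn H (D i)) (ht : ∀ i, Touch H (D i) C) {c : W} (hc : c ∈ C) :
    IsConn H (C ∪ ⋃ i, D i) := by
  refine isConn_of c fun x hx => hx.elim (fun h => conn_mono subset_union_left (hC c hc x h))
    fun h => ?_
  obtain ⟨i, hi⟩ := mem_iUnion.1 h
  obtain ⟨a, ha, b, hb, hab⟩ := ht i
  have s1 : D i ⊆ C ∪ ⋃ i, D i := (subset_iUnion D i).trans subset_union_right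
  exact ((conn_mono subset_union_left (hC c hc b hb)).tail
    ⟨Or.inl hb, s1 ha, hab.symm⟩).trans (conn_mono s1 (hD i a ha x hi))

theorem touch_mono {A A' B : Set W} (h : A ⊆ A') (ht : Touch H A B) : Touch H A' B := by
  obtain ⟨a, ha, b, hb, hab⟩ := ht
  exact ⟨a, h ha, b, hb, hab⟩

end General

variable {J : Type} {Γ : SimpleGraph (J × (ℤ × ℤ))} {l : ℤ → J × (ℤ × ℤ)} {N : ℕ} {g : ℤ × ℤ}

theorem tr_tr (a b : ℤ × ℤ) (w : J × (ℤ × ℤ)) : tr a (tr b w) = tr (b + a) w := by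
  simp only [tr, add_assoc]

theorem tr_zero (w : J × (ℤ × ℤ)) : tr 0 w = w := by
  simp only [tr, add_zero]

theorem tr_cancel {a b : ℤ × ℤ} {w : J × (ℤ × ℤ)} (h : tr a w = tr b w) : a = b :=
  add_left_cancel (congrArg Prod.snd h)

theorem inv_zsmul {A : Set (J × (ℤ × ℤ))} {c : ℤ × ℤ}
    (h : ∀ w ∈ A, tr c w ∈ A ∧ tr (-c) w ∈ A) (k : ℤ) : ∀ w ∈ A, tr (k • c) w ∈ A := by
  induction k using Int.induction_on with
  | zero => intro w hw; rwa [zero_smul, tr_zero]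
  | succ k ih =>
    intro w hw
    rw [add_smul, one_smul, ← tr_tr]
    exact (h _ (ih w hw)).1
  | pred k ih =>
    intro w hw
    rw [sub_smul, one_smul, sub_eq_add_neg, ← tr_tr]
    exact (h _ (ih w hw)).2

theorem per_mul (hL : Line Γ l N g) (i k : ℤ) : l (i + k * N) = tr (k • g) (l i) := by
  induction k using Int.induction_on with
  | zero => simp [tr_zero]
  | succ k ih =>
    rw [add_smul, one_smul, ← tr_tr, ← ih, ← hL.per]
    congr 1
    ring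
  | pred k ih =>
    have h1 := hL.per (i + (-(k : ℤ) - 1) * N)
    rw [show i + (-(k : ℤ) - 1) * N + N = i + -(k : ℤ) * N by ring, ih] at h1
    rw [sub_smul, one_smul, sub_eq_add_neg (_ • g), ← tr_tr, h1, tr_tr, add_neg_cancel, tr_zero]

theorem eq_mod (hL : Line Γ l N g) {a b : ℤ × ℤ} {i j : ℤ} (h : tr a (l i) = tr b (l j)) :
    ∃ k : ℤ, i = j + k * N ∧ b = a + k • g := by
  have h0 := congrArg Prod.fst h
  obtain ⟨k, hk⟩ := hL.inj i j h0
  have e : i = j + k * N := by linarith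
  refine ⟨k, e, ?_⟩
  rw [e, per_mul hL, tr_tr] at h
  rw [← tr_cancel h, add_comm]

theorem l_inj (hL : Line Γ l N g) {t : ℤ × ℤ} {i j : ℤ} (h : tr t (l i) = tr t (l j)) :
    i = j := by
  obtain ⟨k, h1, h2⟩ := eq_mod hL h
  have h3 : k • g = 0 := left_eq_add.1 h2
  rw [h1, (smul_eq_zero.1 h3).resolve_right hL.ne, zero_mul, add_zero]

theorem image_Ln (a c : ℤ × ℤ) : tr c '' Ln l a = Ln l (a + c) := by
  ext w
  constructor
  · rintro ⟨_, ⟨i, rfl⟩, rfl⟩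
    exact ⟨i, tr_tr _ _ _⟩
  · rintro ⟨i, rfl⟩
    exact ⟨_, ⟨i, rfl⟩, tr_tr _ _ _⟩

theorem Ln_add (hL : Line Γ l N g) (a : ℤ × ℤ) (k : ℤ) : Ln l (a + k • g) = Ln l a := by
  ext w
  constructor
  · rintro ⟨i, rfl⟩
    exact ⟨i + k * N, by rw [per_mul hL, tr_tr, add_comm]⟩
  · rintro ⟨i, rfl⟩
    refine ⟨i + (-k) * N, ?_⟩
    rw [per_mul hL, tr_tr]
    congr 1
    rw [neg_smul]
    abel

theorem Ln_of_mem (hL : Line Γ l N g) {a b : ℤ × ℤ} {w : J × (ℤ × ℤ)} (h1 : w ∈ Ln l a)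
    (h2 : w ∈ Ln l b) : Ln l a = Ln l b := by
  obtain ⟨i, rfl⟩ := h1
  obtain ⟨j, h⟩ := h2
  obtain ⟨k, -, rfl⟩ := eq_mod hL h
  exact (Ln_add hL a k).symm

theorem Ln_disj (hL : Line Γ l N g) {a b : ℤ × ℤ} (h : Ln l a ≠ Ln l b) :
    Disjoint (Ln l a) (Ln l b) :=
  disjoint_left.2 fun _ h1 h2 => h (Ln_of_mem hL h1 h2)

theorem Ln_shift {a b : ℤ × ℤ} (h : Ln l a = Ln l b) (c : ℤ × ℤ) :
    Ln l (a + c) = Ln l (b + c) := by
  rw [← image_Ln, ← image_Ln, h]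

theorem det_eq (hL : Line Γ l N g) {a b : ℤ × ℤ} (h : Ln l a = Ln l b) :
    g.1 * a.2 - g.2 * a.1 = g.1 * b.2 - g.2 * b.1 := by
  have h1 : tr a (l 0) ∈ Ln l b := h ▸ ⟨0, rfl⟩
  obtain ⟨j, hj⟩ := h1
  obtain ⟨k, -, rfl⟩ := eq_mod hL hj
  simp only [Prod.fst_add, Prod.snd_add, Prod.smul_fst, Prod.smul_snd, smul_eq_mul]
  ring

theorem Ln_of_adj (hG : Good Γ) (hL : Line Γ l N g) {a b : ℤ × ℤ} {x y : J × (ℤ × ℤ)}
    (h1 : x ∈ Ln l a) (h2 : y ∈ Ln l b) (h : Γ.Adj x y) : Ln l a = Ln l b := by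
  obtain ⟨i, rfl⟩ := h1
  obtain ⟨j, rfl⟩ := h2
  have h3 := hG.inv (-a) _ _ h
  rw [tr_tr, add_neg_cancel, tr_zero, tr_tr] at h3
  have h4 : tr (b + -a) (l j) ∈ Ln l 0 := by
    rcases hL.ind i j _ h3 with e | e
    · exact ⟨_, e.trans (tr_zero _).symm⟩
    · exact ⟨_, e.trans (tr_zero _).symm⟩
  have h5 := Ln_shift (Ln_of_mem hL h4 ⟨j, rfl⟩) a
  rwa [zero_add, neg_add_cancel_right] at h5

theorem mem_sat {w : J × (ℤ × ℤ)} : w ∈ Sat (Ln l 0) ↔ ∃ a, w ∈ Ln l a := by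
  constructor
  · rintro ⟨_, ⟨i, rfl⟩, h⟩
    refine ⟨w.2 - (l i).2, i, Prod.ext h ?_⟩
    simp [tr]
  · rintro ⟨a, i, rfl⟩
    exact ⟨_, ⟨i, rfl⟩, rfl⟩

theorem Ln_sub (a : ℤ × ℤ) : Ln l a ⊆ Sat (Ln l 0) := fun _ h => mem_sat.2 ⟨a, h⟩

theorem off_tr {D : Set (J × (ℤ × ℤ))} (h : Disjoint D (Sat (Ln l 0))) (c : ℤ × ℤ) :
    Disjoint (tr c '' D) (Sat (Ln l 0)) := by
  refine disjoint_left.2 ?_
  rintro _ ⟨w, hw, rfl⟩ ⟨x, hx, e⟩
  exact disjoint_left.1 h hw ⟨x, hx, e⟩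

theorem conn_tr (hG : Good Γ) {D : Set (J × (ℤ × ℤ))} (h : IsConn Γ D) (c : ℤ × ℤ) :
    IsConn Γ (tr c '' D) := by
  rintro _ ⟨a, ha, rfl⟩ _ ⟨b, hb, rfl⟩
  have hc := h a ha b hb
  clear hb
  induction hc with
  | refl => exact Relation.ReflTransGen.refl
  | tail _ hxy ih => exact ih.tail ⟨⟨_, hxy.1, rfl⟩, ⟨_, hxy.2.1, rfl⟩, hG.inv c _ _ hxy.2.2⟩

theorem touch_tr (hG : Good Γ) {D : Set (J × (ℤ × ℤ))} {a : ℤ × ℤ} (h : Touch Γ D (Ln l a))
    (c : ℤ × ℤ) : Touch Γ (tr c '' D) (Ln l (a + c)) := by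
  obtain ⟨x, hx, y, hy, hxy⟩ := h
  exact ⟨_, ⟨x, hx, rfl⟩, _, image_Ln a c ▸ ⟨y, hy, rfl⟩, hG.inv c _ _ hxy⟩

theorem conn_seg (hG : Good Γ) (hL : Line Γ l N g) (t : ℤ × ℤ) {S : Set ℤ} (hS : S.OrdConnected) :
    IsConn Γ ((fun i => tr t (l i)) '' S) := by
  have key : ∀ i ∈ S, ∀ n : ℕ, i + n ∈ S →
      Conn Γ ((fun i => tr t (l i)) '' S) (tr t (l i)) (tr t (l (i + n))) := by
    intro i hi n
    induction n with
    | zero => intro _; simp only [Nat.cast_zero, add_zero]; exact Relation.ReflTransGen.refl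
    | succ n ih =>
      intro hn
      have h1 : i + n ∈ S := hS.out hi hn ⟨by omega, by push_cast; omega⟩
      refine (ih h1).tail ⟨⟨_, h1, rfl⟩, ⟨_, hn, rfl⟩, ?_⟩
      have := hG.inv t _ _ (hL.adj (i + n))
      rwa [show i + (n : ℤ) + 1 = i + ((n + 1 : ℕ) : ℤ) by push_cast; ring] at this
  rintro _ ⟨i, hi, rfl⟩ _ ⟨j, hj, rfl⟩
  rcases le_total i j with h | h
  · obtain ⟨n, rfl⟩ := Int.le.dest h
    exact key i hi n hj
  · obtain ⟨n, rfl⟩ := Int.le.dest h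
    exact conn_symm (key j hj n hi)

theorem conn_Ln (hG : Good Γ) (hL : Line Γ l N g) (t : ℤ × ℤ) : IsConn Γ (Ln l t) := by
  have := conn_seg hG hL t (S := univ) ordConnected_univ
  convert this using 1
  ext w
  simp only [Ln, image_univ, mem_range, mem_setOf_eq, eq_comm]

theorem side : S_Side := by
  intro J Γ l N g hG hL t j hj A hA hd
  have hN : (0 : ℤ) < N := by exact_mod_cast hL.pos
  have hP : 0 < |j| * N := mul_pos (abs_pos.2 hj) hN
  have hinv : ∀ i (k : ℤ), ∀ w ∈ A i, tr ((k * |j|) • g) w ∈ A i := by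
    intro i k w hw
    rcases abs_choice j with e | e
    · rw [e, mul_smul]
      exact inv_zsmul (hA i).2.2.2 k w hw
    · rw [e, mul_neg, ← neg_mul, mul_smul]
      exact inv_zsmul (hA i).2.2.2 (-k) w hw
  let Y : Fin 3 → Set (J × (ℤ × ℤ)) := fun r =>
    (fun i => tr t (l i)) '' Ico ((r : ℕ) * (|j| * N)) (((r : ℕ) + 1) * (|j| * N))
  refine hG.pl.k33 ⟨A, Y, fun i => ⟨subset_univ _, (hA i).1, subset_univ _,
    conn_seg hG hL t ordConnected_Ico⟩, fun i i' h => ⟨hd i i' h, ?_⟩, fun i r => ⟨?_, ?_⟩⟩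
  · refine disjoint_left.2 ?_
    rintro _ ⟨a, ha, rfl⟩ ⟨b, hb, e⟩
    have e' : b = a := l_inj hL e
    subst e'
    apply h
    have h1 : (((i : ℕ) : ℤ)) < (i' : ℕ) + 1 := lt_of_mul_lt_mul_right (ha.1.trans_lt hb.2) hP.le
    have h2 : (((i' : ℕ) : ℤ)) < (i : ℕ) + 1 := lt_of_mul_lt_mul_right (hb.1.trans_lt ha.2) hP.le
    exact Fin.ext (by omega)
  · refine (hA i).2.1.mono_right ?_
    rintro _ ⟨a, -, rfl⟩
    exact ⟨a, rfl⟩
  · obtain ⟨x, hx, _, ⟨n, rfl⟩, hxy⟩ := (hA i).2.2.1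
    have h1 := Int.emod_nonneg n hP.ne'
    have h2 := Int.emod_lt_of_pos n hP
    have h3 := Int.emod_add_mul_ediv n (|j| * N)
    refine ⟨_, hinv i ((r : ℕ) - n / (|j| * N)) x hx, _,
      ⟨n + (((r : ℕ) - n / (|j| * N)) * |j|) * N, ⟨by nlinarith, by nlinarith⟩, rfl⟩, ?_⟩
    have := hG.inv ((((r : ℕ) - n / (|j| * N)) * |j|) • g) _ _ hxy
    simp only [per_mul hL, tr_tr] at this ⊢
    rwa [add_comm t] at this

theorem three (hG : Good Γ) (hL : Line Γ l N g) {D : Set (J × (ℤ × ℤ))} (hD : IsConn Γ D)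
    (ho : Disjoint D (Sat (Ln l 0))) (a : Fin 3 → ℤ × ℤ) (ht : ∀ i, Touch Γ D (Ln l (a i)))
    (hne : ∀ i j, i ≠ j → Ln l (a i) ≠ Ln l (a j)) : False := by
  choose x hx y hy hxy using ht
  obtain ⟨F1, f1, f2, f3, f4, f5⟩ := exists_fin (hx 0) (hD _ (hx 0) _ (hx 1))
  obtain ⟨F2, e1, e2, e3, e4, e5⟩ := exists_fin (hx 0) (hD _ (hx 0) _ (hx 2))
  have hF : IsConn Γ (F1 ∪ F2) := isConn_union_mem f5 e5 f3 e3
  have hfin : (F1 ∪ F2).Finite := f2.union e2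
  have hsub : F1 ∪ F2 ⊆ D := union_subset f1 e1
  have hxF : ∀ i, x i ∈ F1 ∪ F2 := by
    intro i
    fin_cases i
    · exact Or.inl f3
    · exact Or.inl f4
    · exact Or.inr e4
  generalize F1 ∪ F2 = F at hF hfin hsub hxF
  have hK : {k : ℤ | ∃ u ∈ F, tr (k • g) u ∈ F}.Finite := by
    have : {k : ℤ | ∃ u ∈ F, tr (k • g) u ∈ F} = ⋃ u ∈ F, (fun k : ℤ => tr (k • g) u) ⁻¹' F := by
      ext k
      simp
    rw [this]
    refine hfin.biUnion fun u _ => hfin.preimage fun k _ k' _ e => ?_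
    exact smul_left_injective ℤ hL.ne (tr_cancel e)
  obtain ⟨B, hB⟩ := hK.bddAbove
  have key : ∀ i i' : ℕ, i < i' → Disjoint (tr (((i : ℤ) * (|B| + 1)) • g) '' F)
      (tr (((i' : ℤ) * (|B| + 1)) • g) '' F) := by
    intro i i' h
    refine disjoint_left.2 ?_
    rintro _ ⟨u, hu, rfl⟩ ⟨v, hv, e⟩
    have e2 := congrArg (tr (-(((i : ℤ) * (|B| + 1)) • g))) e
    rw [tr_tr, tr_tr, add_neg_cancel, tr_zero, ← sub_eq_add_neg, ← sub_smul] at e2
    have h1 : (i' : ℤ) * (|B| + 1) - i * (|B| + 1) ≤ B := hB ⟨v, hv, e2 ▸ hu⟩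
    have h2 : (i : ℤ) + 1 ≤ i' := by exact_mod_cast h
    nlinarith [le_abs_self B, abs_nonneg B]
  refine hG.pl.k33 ⟨fun i => tr ((((i : ℕ) : ℤ) * (|B| + 1)) • g) '' F, fun i => Ln l (a i),
    fun i => ⟨subset_univ _, conn_tr hG hF _, subset_univ _, conn_Ln hG hL _⟩,
    fun i i' h => ⟨?_, Ln_disj hL (hne i i' h)⟩, fun i r =>
      ⟨(off_tr (ho.mono_left hsub) _).mono_right (Ln_sub _), ?_⟩⟩
  · rcases lt_or_gt_of_ne h with h | h
    · exact key _ _ h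
    · exact (key _ _ h).symm
  · have := touch_tr hG (l := l) (D := F) ⟨x r, hxF r, y r, hy r, hxy r⟩
      ((((i : ℕ) : ℤ) * (|B| + 1)) • g)
    rwa [Ln_add hL] at this

theorem three' (hG : Good Γ) (hL : Line Γ l N g) {D : Set (J × (ℤ × ℤ))} (hD : IsConn Γ D)
    (ho : Disjoint D (Sat (Ln l 0))) {a b c : ℤ × ℤ} (ha : Touch Γ D (Ln l a))
    (hb : Touch Γ D (Ln l b)) (hc : Touch Γ D (Ln l c)) (h1 : Ln l a ≠ Ln l b)
    (h2 : Ln l a ≠ Ln l c) (h3 : Ln l b ≠ Ln l c) : False := by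
  refine three hG hL hD ho ![a, b, c] (fun i => ?_) fun i j h => ?_
  · fin_cases i <;> assumption
  · fin_cases i <;> fin_cases j <;>
      first
        | exact absurd rfl h
        | assumption
        | (symm; assumption)

/-- A line joined to the base line by a connected set off the lines. -/
def Pt (Γ : SimpleGraph (J × (ℤ × ℤ))) (l : ℤ → J × (ℤ × ℤ)) (a : ℤ × ℤ) : Prop :=
  Ln l 0 ≠ Ln l a ∧ ∃ D : Set (J × (ℤ × ℤ)), IsConn Γ D ∧ Disjoint D (Sat (Ln l 0)) ∧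
    Touch Γ D (Ln l 0) ∧ Touch Γ D (Ln l a)

theorem pt_of (hG : Good Γ) {D : Set (J × (ℤ × ℤ))} (hD : IsConn Γ D)
    (ho : Disjoint D (Sat (Ln l 0))) {a b : ℤ × ℤ} (ha : Touch Γ D (Ln l a))
    (hb : Touch Γ D (Ln l b)) (h : Ln l a ≠ Ln l b) : Pt Γ l (b + -a) := by
  refine ⟨fun e => h ?_, _, conn_tr hG hD (-a), off_tr ho _, ?_, touch_tr hG hb _⟩
  · have := Ln_shift e a
    rwa [zero_add, neg_add_cancel_right] at this
  · have := touch_tr hG ha (-a)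
    rwa [add_neg_cancel] at this

theorem pt_three (hG : Good Γ) (hL : Line Γ l N g) (a : Fin 3 → ℤ × ℤ) (h : ∀ i, Pt Γ l (a i))
    (hne : ∀ i j, i ≠ j → Ln l (a i) ≠ Ln l (a j)) : False := by
  choose h0 D d1 d2 d3 d4 using h
  have t0 : ∀ i (k : ℤ), Touch Γ (tr (k • g) '' D i) (Ln l 0) := fun i k => by
    have := touch_tr hG (d3 i) (k • g)
    rwa [Ln_add hL] at this
  have t1 : ∀ i (k : ℤ), Touch Γ (tr (k • g) '' D i) (Ln l (a i)) := fun i k => by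
    have := touch_tr hG (d4 i) (k • g)
    rwa [Ln_add hL] at this
  have hinv : ∀ i (m : ℤ), ∀ w ∈ Ln l (a i) ∪ ⋃ k : ℤ, tr (k • g) '' D i,
      tr (m • g) w ∈ Ln l (a i) ∪ ⋃ k : ℤ, tr (k • g) '' D i := by
    rintro i m w (hw | hw)
    · left
      rw [← Ln_add hL (a i) m, ← image_Ln]
      exact ⟨w, hw, rfl⟩
    · right
      obtain ⟨k, u, hu, rfl⟩ := mem_iUnion.1 hw
      exact mem_iUnion.2 ⟨k + m, u, hu, by rw [tr_tr, add_smul]⟩
  refine side J Γ l N g hG hL 0 1 one_ne_zero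
    (fun i => Ln l (a i) ∪ ⋃ k : ℤ, tr (k • g) '' D i) (fun i => ⟨?_, ?_, ?_, fun w hw =>
      ⟨hinv i 1 w hw, by rw [← neg_smul]; exact hinv i (-1) w hw⟩⟩) fun i j hij => ?_
  · exact isConn_star (conn_Ln hG hL _) (fun k => conn_tr hG (d1 i) _) (t1 i) ⟨0, rfl⟩
  · exact disjoint_union_left.2 ⟨Ln_disj hL (h0 i).symm,
      disjoint_iUnion_left.2 fun k => (off_tr (d2 i) _).mono_right (Ln_sub _)⟩
  · exact touch_mono ((subset_iUnion (fun k : ℤ => tr (k • g) '' D i) 0).trans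
      subset_union_right) (t0 i 0)
  · refine disjoint_union_left.2 ⟨disjoint_union_right.2 ⟨Ln_disj hL (hne i j hij),
      disjoint_iUnion_right.2 fun k => ((off_tr (d2 j) _).mono_right (Ln_sub _)).symm⟩,
      disjoint_iUnion_left.2 fun k => disjoint_union_right.2
        ⟨(off_tr (d2 i) _).mono_right (Ln_sub _), disjoint_iUnion_right.2 fun k' => ?_⟩⟩
    refine disjoint_left.2 fun w h1 h2 => ?_
    exact three' hG hL (isConn_union_mem (conn_tr hG (d1 i) _) (conn_tr hG (d1 j) _) h1 h2)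
      (disjoint_union_left.2 ⟨off_tr (d2 i) _, off_tr (d2 j) _⟩)
      (touch_mono subset_union_left (t0 i k)) (touch_mono subset_union_left (t1 i k))
      (touch_mono subset_union_right (t1 j k')) (h0 i) (h0 j) (hne i j hij)

theorem exists_pt (hG : Good Γ) (hL : Line Γ l N g) :
    ∃ s, Pt Γ l s ∧ g.1 * s.2 - g.2 * s.1 ≠ 0 := by
  by_contra hno
  push Not at hno
  let S : J × (ℤ × ℤ) → Prop := fun w => ∃ a : ℤ × ℤ, g.1 * a.2 - g.2 * a.1 = 0 ∧
    (w ∈ Ln l a ∨ ∃ D : Set (J × (ℤ × ℤ)), IsConn Γ D ∧ Disjoint D (Sat (Ln l 0)) ∧ w ∈ D ∧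
      Touch Γ D (Ln l a))
  have step : ∀ x y, Γ.Adj x y → S x → S y := by
    rintro x y hxy ⟨a, ha, hx | ⟨D, d1, d2, d3, d4⟩⟩
    · by_cases hy : y ∈ Sat (Ln l 0)
      · obtain ⟨b, hb⟩ := mem_sat.1 hy
        exact ⟨a, ha, Or.inl (Ln_of_adj hG hL hx hb hxy ▸ hb)⟩
      · exact ⟨a, ha, Or.inr ⟨{y}, isConn_single y, disjoint_singleton_left.2 hy, rfl,
          y, rfl, x, hx, hxy.symm⟩⟩
    · by_cases hy : y ∈ Sat (Ln l 0)
      · obtain ⟨b, hb⟩ := mem_sat.1 hy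
        by_cases e : Ln l a = Ln l b
        · exact ⟨a, ha, Or.inl (e ▸ hb)⟩
        · have h1 := hno _ (pt_of hG d1 d2 d4 ⟨x, d3, y, hb, hxy⟩ e)
          simp only [Prod.fst_add, Prod.snd_add, Prod.fst_neg, Prod.snd_neg] at h1
          exact ⟨b, by linarith, Or.inl hb⟩
      · exact ⟨a, ha, Or.inr ⟨insert y D, isConn_insert d1 d3 hxy,
          disjoint_insert_left.2 ⟨hy, d2⟩, mem_insert _ _, touch_mono (subset_insert _ _) d4⟩⟩
  have all : ∀ y, S y := by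
    intro y
    have hc := hG.pl.conn (tr 0 (l 0)) (mem_univ _) y (mem_univ _)
    induction hc with
    | refl => exact ⟨0, by simp, Or.inl ⟨0, rfl⟩⟩
    | tail _ h ih => exact step _ _ h.2.2 ih
  obtain ⟨a, ha, h | ⟨D, -, d2, d3, -⟩⟩ := all (tr (-g.2, g.1) (l 0))
  · have h1 := det_eq hL (Ln_of_mem hL h ⟨0, rfl⟩)
    rw [ha] at h1
    simp only at h1
    apply hL.ne
    ext
    · simp only [Prod.fst_zero]; nlinarith [mul_self_nonneg g.1, mul_self_nonneg g.2]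
    · simp only [Prod.snd_zero]; nlinarith [mul_self_nonneg g.1, mul_self_nonneg g.2]
  · exact disjoint_left.1 d2 d3 (Ln_sub _ ⟨0, rfl⟩)

theorem step : S_Step := by
  intro J Γ l N g hG hL
  obtain ⟨s, hs, hdet⟩ := exists_pt hG hL
  have hs' : Pt Γ l (-s) := by
    obtain ⟨h0, D, d1, d2, d3, d4⟩ := hs
    have := pt_of hG d1 d2 d4 d3 h0.symm
    rwa [zero_add] at this
  have hne : Ln l s ≠ Ln l (-s) := fun e => by
    have h1 := det_eq hL e
    simp only [Prod.fst_neg, Prod.snd_neg] at h1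
    exact hdet (by linarith)
  have hall : ∀ a, Pt Γ l a → Ln l a = Ln l s ∨ Ln l a = Ln l (-s) := by
    intro a ha
    by_contra hc
    push Not at hc
    obtain ⟨c1, c2⟩ := hc
    refine pt_three hG hL ![a, s, -s] (fun i => ?_) fun i j h => ?_
    · fin_cases i <;> assumption
    · fin_cases i <;> fin_cases j <;>
        first
          | exact absurd rfl h
          | assumption
          | (symm; assumption)
  refine ⟨s, hdet, hs.2, fun D d1 d2 => ?_⟩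
  have tch : ∀ x ∈ Nb Γ D ∩ Sat (Ln l 0), ∃ c, x ∈ Ln l c ∧ Touch Γ D (Ln l c) := by
    rintro x ⟨⟨y, hy, hxy⟩, hx⟩
    obtain ⟨c, hc⟩ := mem_sat.1 hx
    exact ⟨c, hc, y, hy, x, hc, hxy.symm⟩
  by_cases h1 : ∃ a b, Touch Γ D (Ln l a) ∧ Touch Γ D (Ln l b) ∧ Ln l a ≠ Ln l b
  · obtain ⟨a, b, ha, hb, hab⟩ := h1
    have hsub : Nb Γ D ∩ Sat (Ln l 0) ⊆ Ln l a ∪ Ln l b := by
      intro x hx
      obtain ⟨c, hc, ht⟩ := tch x hx
      by_contra hn
      exact three' hG hL d1 d2 ha hb ht hab (fun e => hn (Or.inl (e ▸ hc)))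
        fun e => hn (Or.inr (e ▸ hc))
    rcases hall _ (pt_of hG d1 d2 ha hb hab) with e | e
    · have e2 := Ln_shift e a
      rw [neg_add_cancel_right] at e2
      exact ⟨a, e2 ▸ hsub⟩
    · have e3 := Ln_shift e (s + a)
      rw [show b + -a + (s + a) = s + b by abel, show -s + (s + a) = a by abel] at e3
      exact ⟨b, by rw [e3, union_comm]; exact hsub⟩
  · push Not at h1
    by_cases h2 : ∃ a, Touch Γ D (Ln l a)
    · obtain ⟨a, ha⟩ := h2
      refine ⟨a, fun x hx => ?_⟩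
      obtain ⟨c, hc, ht⟩ := tch x hx
      exact Or.inl (h1 a c ha ht ▸ hc)
    · refine ⟨0, fun x hx => ?_⟩
      obtain ⟨c, -, ht⟩ := tch x hx
      exact absurd ⟨c, ht⟩ h2

end PkSS

theorem pkg_SS : S_SS := ⟨PkSS.side, PkSS.step⟩

end Pool.Agent.P.MP_08fd93_co
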