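import Pool.Agent.P.MP_08fd93_co.StA

/-! Package Sides: the two ends of the edge of a long rung look to opposite sides. -/

set_option autoImplicit false

namespace Pool.Agent.P.MP_08fd93_co

namespace SidesP

section General

variable {W : Type} {H : SimpleGraph W}

theorem mono {A B : Set W} {x y : W} (h : Conn H A x y) (hAB : A ⊆ B) : Conn H B x y := by
  induction h with
  | refl => exact Relation.ReflTransGen.refl
  | tail _ h2 ih => exact ih.tail ⟨hAB h2.1, hAB h2.2.1, h2.2.2⟩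

theorem symm {A : Set W} {x y : W} (h : Conn H A x y) : Conn H A y x := by
  induction h with
  | refl => exact Relation.ReflTransGen.refl
  | tail _ h2 ih => exact Relation.ReflTransGen.head ⟨h2.2.1, h2.1, h2.2.2.symm⟩ ih

theorem Touch.flip {A B : Set W} (h : Touch H A B) : Touch H B A := by
  obtain ⟨a, ha, b, hb, h⟩ := h
  exact ⟨b, hb, a, ha, h.symm⟩

theorem Touch.up {A B A' B' : Set W} (h : Touch H A B) (h1 : A ⊆ A') (h2 : B ⊆ B') :
    Touch H A' B' := by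
  obtain ⟨a, ha, b, hb, h⟩ := h
  exact ⟨a, h1 ha, b, h2 hb, h⟩

theorem conn_single (x : W) : IsConn H {x} := by
  rintro a rfl b rfl
  exact Relation.ReflTransGen.refl

theorem conn_union {A B : Set W} (hA : IsConn H A) (hB : IsConn H B) (h : Touch H A B) :
    IsConn H (A ∪ B) := by
  obtain ⟨a, ha, b, hb, hab⟩ := h
  have key : ∀ x ∈ A ∪ B, Conn H (A ∪ B) x a := by
    rintro x (hx | hx)
    · exact mono (hA x hx a ha) Set.subset_union_left
    · exact (mono (hB x hx b hb) Set.subset_union_right).tail ⟨Or.inr hb, Or.inl ha, hab.symm⟩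
  intro x hx y hy
  exact (key x hx).trans (symm (key y hy))

theorem k33 (h : NoK33 H Set.univ) {x0 x1 x2 y0 y1 y2 : Set W}
    (c0 : IsConn H x0) (c1 : IsConn H x1) (c2 : IsConn H x2)
    (e0 : IsConn H y0) (e1 : IsConn H y1) (e2 : IsConn H y2)
    (d01 : Disjoint x0 x1) (d02 : Disjoint x0 x2) (d12 : Disjoint x1 x2)
    (f01 : Disjoint y0 y1) (f02 : Disjoint y0 y2) (f12 : Disjoint y1 y2)
    (g0 : Disjoint x0 y0 ∧ Disjoint x0 y1 ∧ Disjoint x0 y2)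
    (g1 : Disjoint x1 y0 ∧ Disjoint x1 y1 ∧ Disjoint x1 y2)
    (g2 : Disjoint x2 y0 ∧ Disjoint x2 y1 ∧ Disjoint x2 y2)
    (t0 : Touch H x0 y0 ∧ Touch H x0 y1 ∧ Touch H x0 y2)
    (t1 : Touch H x1 y0 ∧ Touch H x1 y1 ∧ Touch H x1 y2)
    (t2 : Touch H x2 y0 ∧ Touch H x2 y1 ∧ Touch H x2 y2) : False := by
  refine h ⟨![x0, x1, x2], ![y0, y1, y2], fun i => ?_, fun i j hij => ?_, fun i j => ?_⟩
  · fin_cases i
    · exact ⟨Set.subset_univ _, c0, Set.subset_univ _, e0⟩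
    · exact ⟨Set.subset_univ _, c1, Set.subset_univ _, e1⟩
    · exact ⟨Set.subset_univ _, c2, Set.subset_univ _, e2⟩
  · fin_cases i <;> fin_cases j
    · exact absurd rfl hij
    · exact ⟨d01, f01⟩
    · exact ⟨d02, f02⟩
    · exact ⟨d01.symm, f01.symm⟩
    · exact absurd rfl hij
    · exact ⟨d12, f12⟩
    · exact ⟨d02.symm, f02.symm⟩
    · exact ⟨d12.symm, f12.symm⟩
    · exact absurd rfl hij
  · fin_cases i <;> fin_cases j
    · exact ⟨g0.1, t0.1⟩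
    · exact ⟨g0.2.1, t0.2.1⟩
    · exact ⟨g0.2.2, t0.2.2⟩
    · exact ⟨g1.1, t1.1⟩
    · exact ⟨g1.2.1, t1.2.1⟩
    · exact ⟨g1.2.2, t1.2.2⟩
    · exact ⟨g2.1, t2.1⟩
    · exact ⟨g2.2.1, t2.2.1⟩
    · exact ⟨g2.2.2, t2.2.2⟩

theorem k5 (h : NoK5 H Set.univ) {x0 x1 x2 x3 x4 : Set W}
    (c0 : IsConn H x0) (c1 : IsConn H x1) (c2 : IsConn H x2) (c3 : IsConn H x3)
    (c4 : IsConn H x4)
    (d01 : Disjoint x0 x1 ∧ Touch H x0 x1) (d02 : Disjoint x0 x2 ∧ Touch H x0 x2)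
    (d03 : Disjoint x0 x3 ∧ Touch H x0 x3) (d04 : Disjoint x0 x4 ∧ Touch H x0 x4)
    (d12 : Disjoint x1 x2 ∧ Touch H x1 x2) (d13 : Disjoint x1 x3 ∧ Touch H x1 x3)
    (d14 : Disjoint x1 x4 ∧ Touch H x1 x4) (d23 : Disjoint x2 x3 ∧ Touch H x2 x3)
    (d24 : Disjoint x2 x4 ∧ Touch H x2 x4) (d34 : Disjoint x3 x4 ∧ Touch H x3 x4) : False := by
  have fl : ∀ {A B : Set W}, Disjoint A B ∧ Touch H A B → Disjoint B A ∧ Touch H B A :=
    fun h => ⟨h.1.symm, Touch.flip h.2⟩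
  refine h ⟨![x0, x1, x2, x3, x4], fun i => ?_, fun i j hij => ?_⟩
  · fin_cases i
    · exact ⟨Set.subset_univ _, c0⟩
    · exact ⟨Set.subset_univ _, c1⟩
    · exact ⟨Set.subset_univ _, c2⟩
    · exact ⟨Set.subset_univ _, c3⟩
    · exact ⟨Set.subset_univ _, c4⟩
  · fin_cases i <;> fin_cases j
    exacts [absurd rfl hij, d01, d02, d03, d04, fl d01, absurd rfl hij, d12, d13, d14,
      fl d02, fl d12, absurd rfl hij, d23, d24, fl d03, fl d13, fl d23, absurd rfl hij, d34,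
      fl d04, fl d14, fl d24, fl d34, absurd rfl hij]

end General

variable {J : Type} {Γ : SimpleGraph (J × (ℤ × ℤ))} {l : ℤ → J × (ℤ × ℤ)} {N : ℕ}
  {g s : ℤ × ℤ}

theorem tr_tr (a b : ℤ × ℤ) (w : J × (ℤ × ℤ)) : tr a (tr b w) = tr (b + a) w := by
  simp [tr, add_assoc]

theorem tr_zero (w : J × (ℤ × ℤ)) : tr 0 w = w := by simp [tr]

theorem conn_tr (hG : Good Γ) {A : Set (J × (ℤ × ℤ))} (hA : IsConn Γ A) (t : ℤ × ℤ) :
    IsConn Γ (tr t '' A) := by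
  rintro _ ⟨x, hx, rfl⟩ _ ⟨y, hy, rfl⟩
  have h := hA x hx y hy
  clear hy
  induction h with
  | refl => exact Relation.ReflTransGen.refl
  | tail _ h2 ih => exact ih.tail ⟨⟨_, h2.1, rfl⟩, ⟨_, h2.2.1, rfl⟩, hG.inv t _ _ h2.2.2⟩

theorem per_nat (hL : Line Γ l N g) (k : ℕ) (i : ℤ) :
    l (i + (k : ℤ) * N) = tr ((k : ℤ) • g) (l i) := by
  induction k with
  | zero => simp [tr_zero]
  | succ k ih =>
    have e : i + ((k + 1 : ℕ) : ℤ) * N = i + (k : ℤ) * N + N := by push_cast; ring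
    rw [e, hL.per, ih, tr_tr]
    congr 1
    push_cast
    rw [add_smul, one_smul]

theorem per_int (hL : Line Γ l N g) (k i : ℤ) : l (i + k * N) = tr (k • g) (l i) := by
  obtain ⟨n, rfl | rfl⟩ := k.eq_nat_or_neg
  · exact per_nat hL n i
  · have h := per_nat hL n (i + -(n : ℤ) * N)
    have e : i + -(n : ℤ) * N + (n : ℤ) * N = i := by ring
    rw [e] at h
    rw [h, tr_tr, ← add_smul, add_neg_cancel, zero_smul, tr_zero]

theorem ln_shift (hL : Line Γ l N g) (k : ℤ) (t : ℤ × ℤ) : Ln l (k • g + t) = Ln l t := by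
  ext w
  constructor
  · rintro ⟨i, rfl⟩
    exact ⟨i + k * N, by rw [per_int hL, tr_tr]⟩
  · rintro ⟨i, rfl⟩
    refine ⟨i + -k * N, ?_⟩
    rw [per_int hL, tr_tr, ← add_assoc, ← add_smul, neg_add_cancel, zero_smul, zero_add]

theorem l_inj (hL : Line Γ l N g) {i j : ℤ} (h : l i = l j) : i = j := by
  obtain ⟨k, hk⟩ := hL.inj i j (by rw [h])
  have e : i = j + k * N := by linarith
  rw [e, per_int hL] at h
  have h2 : k • g = 0 := by simpa [tr] using congrArg Prod.snd h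
  rcases smul_eq_zero.1 h2 with h3 | h3
  · rw [e, h3]; ring
  · exact absurd h3 hL.ne

theorem ln_disj (hL : Line Γ l N g) {t u : ℤ × ℤ}
    (h : g.1 * (t - u).2 - g.2 * (t - u).1 ≠ 0) : Disjoint (Ln l t) (Ln l u) := by
  rw [Set.disjoint_left]
  rintro _ ⟨i, rfl⟩ ⟨j, hj⟩
  obtain ⟨k, hk⟩ := hL.inj j i (by simpa [tr] using (congrArg Prod.fst hj).symm)
  have e : j = i + k * N := by linarith
  rw [e, per_int hL, tr_tr] at hj
  have h2 : t = k • g + u := by simpa [tr] using congrArg Prod.snd hj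
  apply h
  rw [h2]
  simp only [add_sub_cancel_right, Prod.smul_fst, Prod.smul_snd, smul_eq_mul]
  ring

/-- A stretch of the line. -/
def seg (l : ℤ → J × (ℤ × ℤ)) (p : ℤ → Prop) : Set (J × (ℤ × ℤ)) := {w | ∃ i, p i ∧ w = l i}

theorem seg_conn (hL : Line Γ l N g) {p : ℤ → Prop}
    (hp : ∀ i j k, p i → p k → i ≤ j → j ≤ k → p j) : IsConn Γ (seg l p) := by
  have key : ∀ i j, p i → p j → i ≤ j → Conn Γ (seg l p) (l i) (l j) := by
    intro i j hi hj hij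
    induction j, hij using Int.leInduction with
    | base => exact Relation.ReflTransGen.refl
    | succ j hij ih =>
      have h1 : p j := hp i j (j + 1) hi hj hij (by omega)
      exact (ih h1).tail ⟨⟨j, h1, rfl⟩, ⟨j + 1, hj, rfl⟩, hL.adj j⟩
  rintro _ ⟨i, hi, rfl⟩ _ ⟨j, hj, rfl⟩
  rcases le_total i j with h | h
  · exact key i j hi hj h
  · exact symm (key j i hj hi h)

theorem seg_sub (p : ℤ → Prop) : seg l p ⊆ Ln l 0 := by
  rintro _ ⟨i, -, rfl⟩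
  exact ⟨i, (tr_zero _).symm⟩

theorem seg_disj (hL : Line Γ l N g) {p r : ℤ → Prop} (h : ∀ i, p i → ¬ r i) :
    Disjoint (seg l p) (seg l r) := by
  rw [Set.disjoint_left]
  rintro _ ⟨i, hi, rfl⟩ ⟨j, hj, e⟩
  exact h i hi (l_inj hL e ▸ hj)

theorem ln_conn (hG : Good Γ) (hL : Line Γ l N g) (t : ℤ × ℤ) : IsConn Γ (Ln l t) := by
  have e : Ln l t = tr t '' seg l fun _ => True := by
    ext w
    constructor
    · rintro ⟨i, rfl⟩
      exact ⟨_, ⟨i, trivial, rfl⟩, rfl⟩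
    · rintro ⟨_, ⟨i, -, rfl⟩, rfl⟩
      exact ⟨i, rfl⟩
  rw [e]
  exact conn_tr hG (seg_conn hL fun _ _ _ _ _ _ _ => trivial) t

theorem touch_tr (hG : Good Γ) {R : Set (J × (ℤ × ℤ))} {u : ℤ × ℤ} (h : Touch Γ R (Ln l u))
    (t : ℤ × ℤ) : Touch Γ (tr t '' R) (Ln l (u + t)) := by
  obtain ⟨x, hx, _, ⟨i, rfl⟩, h⟩ := h
  exact ⟨_, ⟨x, hx, rfl⟩, _, ⟨i, tr_tr _ _ _⟩, hG.inv t _ _ h⟩

/-- The data used, symmetric in `a` and `b`. -/
structure Dat (Γ : SimpleGraph (J × (ℤ × ℤ))) (l : ℤ → J × (ℤ × ℤ)) (N : ℕ) (g s : ℤ × ℤ)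
    (R P : Set (J × (ℤ × ℤ))) (q a b : J × (ℤ × ℤ)) : Prop where
  good : Good Γ
  line : Line Γ l N g
  det : g.1 * s.2 - g.2 * s.1 ≠ 0
  rung : Rung Γ l s R
  mq : q ∈ R
  ma : a ∈ R
  mb : b ∈ R
  mP : P ⊆ R
  hq : q ∈ Nb Γ (Ln l 0)
  ha : a ∈ Nb Γ (Ln l s)
  hb : b ∈ Nb Γ (Ln l s)
  ab : Γ.Adj a b
  conn : IsConn Γ P
  pq : q ∈ Nb Γ P
  pa : a ∈ Nb Γ P
  pb : b ∈ Nb Γ P
  nq : q ∉ P
  na : a ∉ P
  nb : b ∉ P
  qa : q ≠ a
  qb : q ≠ b

variable {R P E E' : Set (J × (ℤ × ℤ))} {q a b : J × (ℤ × ℤ)}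

theorem Dat.swap (h : Dat Γ l N g s R P q a b) : Dat Γ l N g s R P q b a :=
  ⟨h.good, h.line, h.det, h.rung, h.mq, h.mb, h.ma, h.mP, h.hq, h.hb, h.ha, h.ab.symm, h.conn,
    h.pq, h.pb, h.pa, h.nq, h.nb, h.na, h.qb, h.qa⟩

theorem tr_self (A : Set (J × (ℤ × ℤ))) : tr 0 '' A = A := by
  ext w
  simp [tr_zero]

theorem Dat.rl (h : Dat Γ l N g s R P q a b) (t u : ℤ × ℤ) : Disjoint (tr t '' R) (Ln l u) := by
  rw [Set.disjoint_left]
  rintro _ ⟨x, hx, rfl⟩ ⟨i, hi⟩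
  exact Set.disjoint_left.1 h.rung.disj hx
    ⟨l i, ⟨i, (tr_zero _).symm⟩, by simpa [tr] using congrArg Prod.fst hi⟩

theorem Dat.rr (h : Dat Γ l N g s R P q a b) {t u : ℤ × ℤ} (htu : t ≠ u) :
    Disjoint (tr t '' R) (tr u '' R) := by
  rw [Set.disjoint_left]
  rintro _ ⟨x, hx, rfl⟩ ⟨y, hy, e⟩
  have h1 : y = x := h.rung.inj y hy x hx (by simpa [tr] using congrArg Prod.fst e)
  rw [h1] at e
  exact htu (by simpa [tr] using (congrArg Prod.snd e).symm)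

theorem Dat.rl0 (h : Dat Γ l N g s R P q a b) (u : ℤ × ℤ) : Disjoint R (Ln l u) := by
  simpa only [tr_self] using h.rl 0 u

theorem Dat.rr0 (h : Dat Γ l N g s R P q a b) {u : ℤ × ℤ} (hu : 0 ≠ u) :
    Disjoint R (tr u '' R) := by
  simpa only [tr_self] using h.rr hu

theorem er (hE : Disjoint E (Sat (Ln l 0 ∪ R))) (t : ℤ × ℤ) : Disjoint (tr t '' R) E := by
  rw [Set.disjoint_left]
  rintro _ ⟨x, hx, rfl⟩ hw
  exact Set.disjoint_left.1 hE hw ⟨x, Or.inr hx, rfl⟩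

theorem er0 (hE : Disjoint E (Sat (Ln l 0 ∪ R))) : Disjoint R E := by
  simpa only [tr_self] using er hE 0

theorem el (hE : Disjoint E (Sat (Ln l 0 ∪ R))) (t : ℤ × ℤ) : Disjoint (Ln l t) E := by
  rw [Set.disjoint_left]
  rintro _ ⟨i, rfl⟩ hw
  exact Set.disjoint_left.1 hE hw ⟨l i, Or.inl ⟨i, (tr_zero _).symm⟩, rfl⟩

theorem Dat.t0 (h : Dat Γ l N g s R P q a b) (k : ℤ) : Touch Γ (tr (k • g) '' R) (Ln l 0) := by
  have := touch_tr h.good h.rung.t0 (k • g)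
  rwa [add_comm, ln_shift h.line] at this

theorem Dat.t1 (h : Dat Γ l N g s R P q a b) (k : ℤ) : Touch Γ (tr (k • g) '' R) (Ln l s) := by
  have := touch_tr h.good h.rung.t1 (k • g)
  rwa [add_comm, ln_shift h.line] at this

theorem Dat.ne (h : Dat Γ l N g s R P q a b) {j k : ℤ} (hjk : j ≠ k) : j • g ≠ k • g :=
  fun e => hjk (smul_left_injective ℤ h.line.ne e)

theorem Dat.ne0 (h : Dat Γ l N g s R P q a b) {k : ℤ} (hk : k ≠ 0) : 0 ≠ k • g := by
  simpa only [zero_smul] using h.ne hk.symm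

theorem Dat.l0s (h : Dat Γ l N g s R P q a b) : Disjoint (Ln l 0) (Ln l s) :=
  (ln_disj h.line (by simpa using h.det)).symm

theorem one {W : Type} {H : SimpleGraph W} {x : W} {B : Set W} (h : x ∈ Nb H B) :
    Touch H {x} B := by
  obtain ⟨y, hy, h⟩ := h
  exact ⟨x, rfl, y, hy, h⟩

theorem sd {W : Type} {x : W} {A B : Set W} (hx : x ∈ A) (h : Disjoint A B) :
    Disjoint {x} B :=
  h.mono_left (Set.singleton_subset_iff.2 hx)

open Set in
/-- No connected set off the frame sees all three roots of one rung. -/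
theorem Dat.three (h : Dat Γ l N g s R P q a b) (hc : IsConn Γ E)
    (hE : Disjoint E (Sat (Ln l 0 ∪ R))) (h1 : q ∈ Nb Γ E) (h2 : a ∈ Nb Γ E) (h3 : b ∈ Nb Γ E) :
    False := by
  have dz : Disjoint R (Ln l 0 ∪ tr ((1 : ℤ) • g) '' R ∪ Ln l s) :=
    disjoint_union_right.2 ⟨disjoint_union_right.2 ⟨h.rl0 _, h.rr0 (h.ne0 one_ne_zero)⟩, h.rl0 _⟩
  refine k33 h.good.pl.k33 (x0 := {q}) (x1 := {a}) (x2 := {b}) (y0 := E) (y1 := P)
    (y2 := Ln l 0 ∪ tr ((1 : ℤ) • g) '' R ∪ Ln l s) (conn_single _) (conn_single _)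
    (conn_single _) hc h.conn ?_ (disjoint_singleton.2 h.qa) (disjoint_singleton.2 h.qb)
    (disjoint_singleton.2 h.ab.ne) ((er0 hE).mono_left h.mP).symm ?_ (dz.mono_left h.mP)
    ⟨sd h.mq (er0 hE), disjoint_singleton_left.2 h.nq, sd h.mq dz⟩
    ⟨sd h.ma (er0 hE), disjoint_singleton_left.2 h.na, sd h.ma dz⟩
    ⟨sd h.mb (er0 hE), disjoint_singleton_left.2 h.nb, sd h.mb dz⟩
    ⟨one h1, one h.pq, Touch.up (one h.hq) le_rfl (subset_union_left.trans subset_union_left)⟩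
    ⟨one h2, one h.pa, Touch.up (one h.ha) le_rfl subset_union_right⟩
    ⟨one h3, one h.pb, Touch.up (one h.hb) le_rfl subset_union_right⟩
  · exact conn_union (conn_union (ln_conn h.good h.line _) (conn_tr h.good h.rung.conn _)
      (Touch.flip (h.t0 1))) (ln_conn h.good h.line _)
      (Touch.up (h.t1 1) subset_union_right le_rfl)
  · exact (disjoint_union_left.2 ⟨disjoint_union_left.2 ⟨el hE _, er hE _⟩, el hE _⟩).symm

/-- Some connected set off the frame sees `x` and the rung number `j`. -/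
def Look (Γ : SimpleGraph (J × (ℤ × ℤ))) (l : ℤ → J × (ℤ × ℤ)) (g : ℤ × ℤ)
    (R : Set (J × (ℤ × ℤ))) (x : J × (ℤ × ℤ)) (j : ℤ) : Prop :=
  ∃ E, IsConn Γ E ∧ Disjoint E (Sat (Ln l 0 ∪ R)) ∧ x ∈ Nb Γ E ∧ Touch Γ (tr (j • g) '' R) E

open Set in
theorem Dat.same (h : Dat Γ l N g s R P q a b) {j : ℤ} (hj : j ≠ 0) (h1 : Look Γ l g R a j)
    (h2 : Look Γ l g R b j) : False := by
  obtain ⟨E, c1, d1, n1, t1⟩ := h1
  obtain ⟨E', c2, d2, n2, t2⟩ := h2
  have hjj : j + j ≠ 0 := by omega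
  have dy : Disjoint R (tr (j • g) '' R ∪ E ∪ E') :=
    disjoint_union_right.2 ⟨disjoint_union_right.2 ⟨h.rr0 (h.ne0 hj), er0 d1⟩, er0 d2⟩
  have dx : Disjoint R (Ln l 0 ∪ tr ((j + j) • g) '' R) :=
    disjoint_union_right.2 ⟨h.rl0 _, h.rr0 (h.ne0 hjj)⟩
  have dl : ∀ u, Disjoint (Ln l u) (tr (j • g) '' R ∪ E ∪ E') := fun u =>
    disjoint_union_right.2 ⟨disjoint_union_right.2 ⟨(h.rl _ _).symm, el d1 _⟩, el d2 _⟩
  refine k33 h.good.pl.k33 (x0 := {a}) (x1 := {b})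
    (x2 := {q} ∪ (Ln l 0 ∪ tr ((j + j) • g) '' R)) (y0 := tr (j • g) '' R ∪ E ∪ E') (y1 := P)
    (y2 := Ln l s) (conn_single _) (conn_single _) ?_ ?_ h.conn (ln_conn h.good h.line _)
    (disjoint_singleton.2 h.ab.ne)
    (disjoint_union_right.2 ⟨disjoint_singleton.2 h.qa.symm, sd h.ma dx⟩)
    (disjoint_union_right.2 ⟨disjoint_singleton.2 h.qb.symm, sd h.mb dx⟩)
    (dy.mono_left h.mP).symm (dl s).symm ((h.rl0 s).mono_left h.mP)
    ⟨sd h.ma dy, disjoint_singleton_left.2 h.na, sd h.ma (h.rl0 s)⟩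
    ⟨sd h.mb dy, disjoint_singleton_left.2 h.nb, sd h.mb (h.rl0 s)⟩
    ⟨?_, ?_, ?_⟩
    ⟨Touch.up (one n1) le_rfl (subset_union_right.trans subset_union_left), one h.pa, one h.ha⟩
    ⟨Touch.up (one n2) le_rfl subset_union_right, one h.pb, one h.hb⟩
    ⟨Touch.up (Touch.flip (h.t0 j)) (subset_union_left.trans subset_union_right)
        (subset_union_left.trans subset_union_left),
      Touch.up (one h.pq) subset_union_left le_rfl,
      Touch.up (h.t1 (j + j)) (subset_union_right.trans subset_union_right) le_rfl⟩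
  · exact conn_union (conn_single _) (conn_union (ln_conn h.good h.line _)
      (conn_tr h.good h.rung.conn _) (Touch.flip (h.t0 _)))
      (Touch.up (one h.hq) le_rfl subset_union_left)
  · exact conn_union (conn_union (conn_tr h.good h.rung.conn _) c1 t1) c2
      (Touch.up t2 subset_union_left le_rfl)
  · refine disjoint_union_left.2 ⟨sd h.mq dy, disjoint_union_left.2 ⟨dl 0, ?_⟩⟩
    exact disjoint_union_right.2 ⟨disjoint_union_right.2 ⟨h.rr (h.ne (by omega)), er d1 _⟩, er d2 _⟩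
  · exact disjoint_union_left.2 ⟨disjoint_singleton_left.2 h.nq, (dx.mono_left h.mP).symm⟩
  · exact disjoint_union_left.2 ⟨sd h.mq (h.rl0 s), disjoint_union_left.2 ⟨h.l0s, h.rl _ _⟩⟩

theorem Dat.nes (h : Dat Γ l N g s R P q a b) (j k : ℤ) : k • g + -s ≠ j • g := by
  intro e
  apply h.det
  have e2 : s = (k - j) • g := by
    rw [sub_smul, ← e]
    abel
  rw [e2]
  simp only [Prod.smul_fst, Prod.smul_snd, smul_eq_mul]
  ring

open Set in
theorem Dat.opp (h : Dat Γ l N g s R P q a b) (h1 : Look Γ l g R a 1)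
    (h2 : Look Γ l g R a (-1)) : False := by
  obtain ⟨E, c1, d1, n1, t1⟩ := h1
  obtain ⟨E', c2, d2, n2, t2⟩ := h2
  obtain ⟨_, ⟨i0, rfl⟩, hq⟩ := h.hq
  rw [tr_zero] at hq
  obtain ⟨x, hx, _, ⟨i1, rfl⟩, hxi⟩ := h.rung.t1
  have hN : (1 : ℤ) ≤ N := by exact_mod_cast h.line.pos
  have cR := fun t => conn_tr h.good h.rung.conn t
  have cL := ln_conn h.good h.line
  have cm : IsConn Γ (seg l fun i => i < i0) := seg_conn h.line fun _ _ _ _ _ _ _ => by omega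
  have cp : IsConn Γ (seg l fun i => i0 < i) := seg_conn h.line fun _ _ _ _ _ _ _ => by omega
  have c0 : IsConn Γ (seg l fun i => i = i0) := seg_conn h.line fun _ _ _ _ _ _ _ => by omega
  have tq : ∀ (k : ℤ) (p : ℤ → Prop), p (i0 + k * N) → Touch Γ (seg l p) (tr (k • g) '' R) :=
    fun k p hp => ⟨_, ⟨_, hp, rfl⟩, _, ⟨q, h.mq, rfl⟩, by
      rw [per_int h.line]; exact (h.good.inv _ _ _ hq).symm⟩
  have tx : ∀ (k : ℤ) (p : ℤ → Prop), p (i1 + k * N) →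
      Touch Γ (seg l p) (tr (k • g + -s) '' R) := fun k p hp =>
    ⟨_, ⟨_, hp, rfl⟩, _, ⟨x, hx, rfl⟩, by
      have := (h.good.inv (k • g + -s) _ _ hxi).symm
      rw [tr_tr, show s + (k • g + -s) = k • g by abel] at this
      rwa [per_int h.line]⟩
  have ts : ∀ k : ℤ, Touch Γ (Ln l (-s)) (tr (k • g + -s) '' R) := fun k => by
    have := touch_tr h.good h.rung.t0 (k • g + -s)
    rw [zero_add, ln_shift h.line] at this
    exact Touch.flip this
  have hk : 0 ≤ |i1 - i0| := abs_nonneg _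
  have hk1 : i1 + -(|i1 - i0| + 1) * N < i0 := by nlinarith [le_abs_self (i1 - i0)]
  have hk2 : i0 < i1 + (|i1 - i0| + 1) * N := by nlinarith [neg_abs_le (i1 - i0)]
  generalize |i1 - i0| + 1 = k at hk1 hk2
  have sS : {q} ∪ P ∪ {b} ⊆ R :=
    union_subset (union_subset (singleton_subset_iff.2 h.mq) h.mP) (singleton_subset_iff.2 h.mb)
  have sa : {a} ⊆ R := singleton_subset_iff.2 h.ma
  have cS : IsConn Γ ({q} ∪ P ∪ {b}) :=
    conn_union (conn_union (conn_single _) h.conn (one h.pq)) (conn_single _)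
      (Touch.up (Touch.flip (one h.pb)) subset_union_right le_rfl)
  have aS : Disjoint {a} ({q} ∪ P ∪ {b}) := disjoint_union_right.2 ⟨disjoint_union_right.2
    ⟨disjoint_singleton.2 h.qa.symm, disjoint_singleton_left.2 h.na⟩, disjoint_singleton.2 h.ab.ne⟩
  have qS : q ∈ {q} ∪ P ∪ {b} := Or.inl (Or.inl rfl)
  have bS : b ∈ {q} ∪ P ∪ {b} := Or.inr rfl
  generalize {q} ∪ P ∪ {b} = S at sS cS aS qS bS
  have lm : Disjoint (Ln l 0) (Ln l (-s)) := ln_disj h.line (by simpa using h.det)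
  have lp : Disjoint (Ln l (-s)) (Ln l s) := by
    refine ln_disj h.line fun e => h.det ?_
    simp only [Prod.fst_sub, Prod.snd_sub, Prod.fst_neg, Prod.snd_neg] at e
    linarith
  have s1 : ∀ p t, Disjoint (seg l p) (tr t '' R) :=
    fun p t => (h.rl t 0).symm.mono_left (seg_sub p)
  have s2 : ∀ p, Disjoint (seg l p) E := fun p => (el d1 0).mono_left (seg_sub p)
  have s3 : ∀ p, Disjoint (seg l p) E' := fun p => (el d2 0).mono_left (seg_sub p)
  have s4 : ∀ p, Disjoint (seg l p) (Ln l s) := fun p => h.l0s.mono_left (seg_sub p)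
  have s5 : ∀ p, Disjoint (seg l p) (Ln l (-s)) := fun p => lm.mono_left (seg_sub p)
  have s6 : ∀ p A, A ⊆ R → Disjoint (seg l p) A :=
    fun p A hA => ((h.rl0 0).symm.mono_left (seg_sub p)).mono_right hA
  have r1 : ∀ (j : ℤ) A, j ≠ 0 → A ⊆ R → Disjoint (tr (j • g) '' R) A :=
    fun j A hj hA => (h.rr0 (h.ne0 hj)).symm.mono_right hA
  have r2 : ∀ (j : ℤ) A, A ⊆ R → Disjoint (tr (j • g + -s) '' R) A := fun j A hA =>
    (h.rr0 (by simpa only [zero_smul] using (h.nes 0 j).symm)).symm.mono_right hA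
  have r3 : ∀ u A, A ⊆ R → Disjoint (Ln l u) A := fun u A hA => (h.rl0 u).symm.mono_right hA
  have r4 : ∀ j k : ℤ, Disjoint (tr (k • g + -s) '' R) (tr (j • g) '' R) :=
    fun j k => h.rr (h.nes j k)
  have r5 : ∀ j k : ℤ, j ≠ k → Disjoint (tr (j • g) '' R) (tr (k • g) '' R) :=
    fun j k e => h.rr (h.ne e)
  have u1 : ∀ {A B : Set (J × (ℤ × ℤ))}, A ⊆ A ∪ B := fun {_ _} => subset_union_left
  have u2 : ∀ {A B : Set (J × (ℤ × ℤ))}, B ⊆ A ∪ B := fun {_ _} => subset_union_right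
  refine k5 h.good.pl.k5
    (x0 := seg l (fun i => i < i0) ∪ tr ((-2 : ℤ) • g) '' R ∪
      (Ln l (-s) ∪ tr ((-k) • g + -s) '' R ∪ tr (k • g + -s) '' R))
    (x1 := seg l (fun i => i0 < i) ∪ tr ((2 : ℤ) • g) '' R)
    (x2 := tr ((-1 : ℤ) • g) '' R ∪ E' ∪ {a} ∪ E ∪ tr ((1 : ℤ) • g) '' R)
    (x3 := seg l (fun i => i = i0) ∪ S) (x4 := Ln l s) ?_ ?_ ?_ ?_ (cL s)
    ⟨?_, Touch.up (Touch.flip (tx k _ hk2)) (u2.trans u2) u1⟩
    ⟨?_, Touch.up (tq (-1) _ (by omega)) (u1.trans u1) (u1.trans (u1.trans (u1.trans u1)))⟩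
    ⟨?_, ⟨l (i0 - 1), Or.inl (Or.inl ⟨_, by omega, rfl⟩), l i0, Or.inl ⟨_, rfl, rfl⟩, by
      simpa using h.line.adj (i0 - 1)⟩⟩
    ⟨?_, Touch.up (h.t1 (-2)) (u2.trans u1) le_rfl⟩
    ⟨?_, Touch.up (tq 1 _ (by omega)) u1 u2⟩
    ⟨?_, ⟨l (i0 + 1), Or.inl ⟨_, by omega, rfl⟩, l i0, Or.inl ⟨_, rfl, rfl⟩,
      (h.line.adj i0).symm⟩⟩
    ⟨?_, Touch.up (h.t1 2) u2 le_rfl⟩
    ⟨?_, ⟨a, Or.inl (Or.inl (Or.inr rfl)), b, Or.inr bS, h.ab⟩⟩
    ⟨?_, Touch.up (one h.ha) (u2.trans (u1.trans u1)) le_rfl⟩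
    ⟨?_, Touch.up (one h.hb) ((singleton_subset_iff.2 bS).trans u2) le_rfl⟩
  · exact conn_union (conn_union cm (cR _) (tq (-2) _ (by omega)))
      (conn_union (conn_union (cL _) (cR _) (ts _)) (cR _) (Touch.up (ts _) u1 le_rfl))
      (Touch.up (tx (-k) _ hk1) u1 (u2.trans u1))
  · exact conn_union cp (cR _) (tq 2 _ (by omega))
  · exact conn_union (conn_union (conn_union (conn_union (cR _) c2 t2) (conn_single _)
      (Touch.up (Touch.flip (one n2)) u2 le_rfl)) c1 (Touch.up (one n1) u2 le_rfl)) (cR _)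
      (Touch.up (Touch.flip t1) u2 le_rfl)
  · exact conn_union c0 cS ⟨_, ⟨_, rfl, rfl⟩, q, qS, hq.symm⟩
  all_goals
    simp only [disjoint_union_left, disjoint_union_right]
    repeat' apply And.intro
    all_goals with_reducible first
      | exact seg_disj h.line fun _ _ => by omega
      | exact s1 _ _ | exact (s1 _ _).symm | exact s2 _ | exact (s2 _).symm | exact s3 _
      | exact (s3 _).symm | exact s4 _ | exact (s5 _).symm | exact s6 _ _ sa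
      | exact (s6 _ _ sa).symm | exact s6 _ _ sS | exact r4 _ _ | exact r5 _ _ (by omega)
      | exact r1 _ _ (by omega) sa | exact r1 _ _ (by omega) sS | exact r2 _ _ sa
      | exact r2 _ _ sS | exact r3 _ _ sa | exact r3 _ _ sS | exact (r3 _ _ sa).symm
      | exact (r3 _ _ sS).symm | exact h.rl _ _ | exact (h.rl _ _).symm | exact er d1 _
      | exact er d2 _ | exact el d1 _ | exact el d2 _ | exact (el d1 _).symm
      | exact (el d2 _).symm | exact lp | exact aS | exact ((er0 d1).mono_left sS).symm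
      | exact ((er0 d2).mono_left sS).symm

theorem sat_tr {A : Set (J × (ℤ × ℤ))} (hE : Disjoint E (Sat A)) (t : ℤ × ℤ) :
    Disjoint (tr t '' E) (Sat A) := by
  rw [Set.disjoint_left]
  rintro _ ⟨x, hx, rfl⟩ hw
  exact Set.disjoint_left.1 hE hx hw

theorem nb_tr (hG : Good Γ) {x : J × (ℤ × ℤ)} {t : ℤ × ℤ} (h : tr t x ∈ Nb Γ E) :
    x ∈ Nb Γ (tr (-t) '' E) := by
  obtain ⟨y, hy, h⟩ := h
  have := hG.inv (-t) _ _ h
  rw [tr_tr, add_neg_cancel, tr_zero] at this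
  exact ⟨_, ⟨y, hy, rfl⟩, this⟩

theorem look_of (hG : Good Γ) (hc : IsConn Γ E) (hE : Disjoint E (Sat (Ln l 0 ∪ R)))
    {x y : J × (ℤ × ℤ)} {t : ℤ × ℤ} {j : ℤ} (hy : y ∈ R) (h1 : tr t x ∈ Nb Γ E)
    (h2 : tr (j • g + t) y ∈ Nb Γ E) : Look Γ l g R x j := by
  refine ⟨tr (-t) '' E, conn_tr hG hc _, sat_tr hE _, nb_tr hG h1, ?_⟩
  rw [← tr_tr] at h2
  obtain ⟨z, hz, h3⟩ := nb_tr hG h2
  exact ⟨_, ⟨y, hy, rfl⟩, z, hz, h3⟩

theorem Dat.main (h : Dat Γ l N g s R P q a b) (hR : Ln l 0 ∪ ({q, a, b} ∪ P) = Ln l 0 ∪ R)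
    (lad : ∀ E : Set (J × (ℤ × ℤ)), IsConn Γ E → Disjoint E (Sat (Ln l 0 ∪ R)) →
      ∃ t, Nb Γ E ∩ Sat (Ln l 0 ∪ R) ⊆ Ln l t ∪ Ln l (s + t) ∪ tr t '' R ∪ tr (g + t) '' R)
    (h1 : ¬ Look Γ l g R a 1) (h2 : ¬ Look Γ l g R b (-1)) : Sides Γ l g s q a b P := by
  intro E hc hE
  rw [hR] at hE
  obtain ⟨t, ht⟩ := lad E hc hE
  have p1 : ∀ j : ℤ, Nb Γ E ∩ Sat (Ln l 0 ∪ P) ⊆ Ln l (j • g + t) ∪ Ln l (s + (j • g + t)) ∪
      {w | ∃ k : ℤ, ∃ x ∈ P, w = tr (k • g + (j • g + t)) x} := by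
    rintro j w ⟨hw, y, hy, e⟩
    rw [ln_shift h.line, add_left_comm, ln_shift h.line]
    have hP : ∀ u, ∀ x ∈ R, tr u x = w → x ∈ P := by
      rintro u x hx rfl
      rcases hy with hy | hy
      · exact absurd ⟨y, hy, e⟩ (Set.disjoint_left.1 h.rung.disj hx)
      · rwa [h.rung.inj x hx y (h.mP hy) e]
    rcases ht ⟨hw, y, hy.imp id fun hy => h.mP hy, e⟩ with (hl | ⟨x, hx, e2⟩) | ⟨x, hx, e2⟩
    · exact Or.inl hl
    · refine Or.inr ⟨-j, x, hP _ x hx e2, ?_⟩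
      rw [← e2, ← add_assoc, ← add_smul, neg_add_cancel, zero_smul, zero_add]
    · refine Or.inr ⟨1 - j, x, hP _ x hx e2, ?_⟩
      rw [← e2, ← add_assoc, ← add_smul, sub_add_cancel, one_smul]
  have p2 : ∀ w ∈ Nb Γ E ∩ Sat {q, a, b}, ∃ x, (x = q ∨ x = a ∨ x = b) ∧ x ∈ R ∧
      (w = tr t x ∨ w = tr (g + t) x) := by
    rintro w ⟨hw, y, hy, e⟩
    have hyR : y ∈ R := by
      rcases hy with rfl | rfl | rfl
      exacts [h.mq, h.ma, h.mb]
    have hl : ∀ u, w ∉ Ln l u := by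
      rintro u ⟨i, rfl⟩
      exact Set.disjoint_left.1 h.rung.disj hyR ⟨l i, ⟨i, (tr_zero _).symm⟩, e.symm⟩
    refine ⟨y, hy, hyR, ?_⟩
    rcases ht ⟨hw, y, Or.inr hyR, e⟩ with ((hl' | hl') | ⟨x, hx, rfl⟩) | ⟨x, hx, rfl⟩
    · exact absurd hl' (hl _)
    · exact absurd hl' (hl _)
    · exact Or.inl (by rw [h.rung.inj x hx y hyR e])
    · exact Or.inr (by rw [h.rung.inj x hx y hyR e])
  have p0 := p1 0
  rw [zero_smul, zero_add] at p0
  have three : ∀ u, tr u q ∈ Nb Γ E → tr u a ∈ Nb Γ E → tr u b ∈ Nb Γ E → False :=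
    fun u e1 e2 e3 => h.three (conn_tr h.good hc (-u)) (sat_tr hE _) (nb_tr h.good e1)
      (nb_tr h.good e2) (nb_tr h.good e3)
  by_cases ha : tr t a ∈ Nb Γ E
  · have only : ∀ w ∈ Nb Γ E ∩ Sat {q, a, b}, w = tr t q ∨ w = tr t a ∨ w = tr t b := by
      intro w hw
      obtain ⟨x, hx, hxR, rfl | rfl⟩ := p2 w hw
      · rcases hx with rfl | rfl | rfl <;> simp
      · exact absurd (look_of h.good hc hE hxR ha (j := 1) (by simpa using hw.1)) h1
    by_cases hq : tr t q ∈ Nb Γ E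
    · refine ⟨(-1 : ℤ) • g + t, p1 _, Or.inl fun w hw => ?_⟩
      have e : g + ((-1 : ℤ) • g + t) = t := by simp
      rw [e]
      rcases only w hw with rfl | rfl | rfl
      · simp
      · simp
      · exact (three t hq ha hw.1).elim
    · refine ⟨t, p0, Or.inr fun w hw => ?_⟩
      rcases only w hw with rfl | rfl | rfl
      · exact absurd hw.1 hq
      · simp
      · simp
  by_cases hb : tr (g + t) b ∈ Nb Γ E
  · have e : (1 : ℤ) • g + t = g + t := by rw [one_smul]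
    have p3 := p1 1
    rw [e] at p3
    have only : ∀ w ∈ Nb Γ E ∩ Sat {q, a, b},
        w = tr (g + t) q ∨ w = tr (g + t) a ∨ w = tr (g + t) b := by
      intro w hw
      obtain ⟨x, hx, hxR, rfl | rfl⟩ := p2 w hw
      · exact absurd (look_of h.good hc hE hxR hb (j := -1) (by simpa using hw.1)) h2
      · rcases hx with rfl | rfl | rfl <;> simp
    by_cases hq : tr (g + t) q ∈ Nb Γ E
    · refine ⟨g + t, p3, Or.inl fun w hw => ?_⟩
      rcases only w hw with rfl | rfl | rfl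
      · simp
      · exact (three _ hq hw.1 hb).elim
      · simp
    · refine ⟨g + t, p3, Or.inr fun w hw => ?_⟩
      rcases only w hw with rfl | rfl | rfl
      · exact absurd hw.1 hq
      · simp
      · simp
  refine ⟨t, p0, Or.inl fun w hw => ?_⟩
  obtain ⟨x, rfl | rfl | rfl, -, rfl | rfl⟩ := p2 w hw
  · simp
  · simp
  · exact absurd hw.1 ha
  · simp
  · simp
  · exact absurd hw.1 hb

theorem dat_of (hG : Good Γ) (hL : Line Γ l N g) (hS : Step Γ l g s)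
    (h : Long Γ l s q a b P) : Dat Γ l N g s ({q, a, b} ∪ P) P q a b := by
  have far : ∀ x u, x ∈ Nb Γ (Ln l u) → x ∉ P := by
    rintro x u ⟨_, ⟨i, rfl⟩, hx⟩ hP
    exact Set.disjoint_left.1 h.far hP ⟨tr u (l i), ⟨l i, ⟨i, (tr_zero _).symm⟩, rfl⟩, hx⟩
  refine ⟨hG, hL, hS.det, h.rung, by simp, by simp, by simp, Set.subset_union_right, h.hq, h.ha,
    h.hb, h.ab, h.conn, h.pq, h.pa, h.pb, far _ _ h.hq, far _ _ h.ha, far _ _ h.hb, ?_, ?_⟩
  · rintro rfl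
    exact h.qab (Or.inl ⟨q, by simp, rfl⟩)
  · rintro rfl
    exact h.qab (Or.inl ⟨q, by simp, rfl⟩)

end SidesP

open SidesP in
theorem pkg_Sides : S_Sides := by
  intro lad J _ Γ l N g s q a b P hG hL hS h
  have D := dat_of hG hL hS h
  have lad' := fun E hc hE => (lad J Γ l N g s _ hG hL hS h.rung E hc hE).2
  have e : Ln l 0 ∪ ({q, b, a} ∪ P) = Ln l 0 ∪ ({q, a, b} ∪ P) := by rw [Set.pair_comm b a]
  by_cases h1 : Look Γ l g ({q, a, b} ∪ P) a 1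
  · exact Or.inr (D.swap.main e lad' (D.same one_ne_zero h1) (D.opp h1))
  by_cases h2 : Look Γ l g ({q, a, b} ∪ P) b (-1)
  · exact Or.inr (D.swap.main e lad' (fun h3 => D.swap.opp h3 h2)
      fun h3 => D.same (by norm_num) h3 h2)
  · exact Or.inl (D.main rfl lad' h1 h2)

end Pool.Agent.P.MP_08fd93_co
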