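import Pool.Agent.P.MP_08fd93_co.StB

/-! Package TO: the triangular grid is connected and has one end. -/

set_option autoImplicit false

namespace Pool.Agent.P.MP_08fd93_co

namespace PkTO

theorem adj_h (a b : ℤ) : TG.Adj (a, b) (a + 1, b) := by
  rw [TG, SimpleGraph.fromRel_adj]
  refine ⟨by simp, Or.inl (Or.inl ?_)⟩
  simp

theorem adj_v (a b : ℤ) : TG.Adj (a, b) (a, b + 1) := by
  rw [TG, SimpleGraph.fromRel_adj]
  refine ⟨by simp, Or.inl (Or.inr (Or.inl ?_))⟩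
  simp

/-- Walks inside a set. -/
def R (A : Set (ℤ × ℤ)) (x y : ℤ × ℤ) : Prop := Conn TG A x y

theorem R.symm {A : Set (ℤ × ℤ)} {x y : ℤ × ℤ} (h : R A x y) : R A y x := by
  induction h with
  | refl => exact Relation.ReflTransGen.refl
  | tail _ h ih => exact Relation.ReflTransGen.head ⟨h.2.1, h.1, h.2.2.symm⟩ ih

theorem R.trans {A : Set (ℤ × ℤ)} {x y z : ℤ × ℤ} (h : R A x y) (h' : R A y z) : R A x z :=
  Relation.ReflTransGen.trans h h'

theorem line_le {A : Set (ℤ × ℤ)} (f : ℤ → ℤ × ℤ) (hf : ∀ i, TG.Adj (f i) (f (i + 1))) (i : ℤ)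
    (n : ℕ) (h : ∀ k, i ≤ k → k ≤ i + n → f k ∈ A) : R A (f i) (f (i + n)) := by
  induction n with
  | zero => rw [Nat.cast_zero, add_zero]; exact Relation.ReflTransGen.refl
  | succ n ih =>
    have h1 := ih fun k h1 h2 => h k h1 (by push_cast; omega)
    refine Relation.ReflTransGen.tail h1 ?_
    have e : i + ((n + 1 : ℕ) : ℤ) = i + n + 1 := by push_cast; ring
    rw [e]
    exact ⟨h _ (by omega) (by push_cast; omega), h _ (by omega) (by push_cast; omega), hf _⟩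

theorem line {A : Set (ℤ × ℤ)} (f : ℤ → ℤ × ℤ) (hf : ∀ i, TG.Adj (f i) (f (i + 1))) (i j : ℤ)
    (h : ∀ k, min i j ≤ k → k ≤ max i j → f k ∈ A) : R A (f i) (f j) := by
  rcases le_total i j with hij | hij
  · have := line_le f hf i (j - i).toNat fun k h1 h2 => h k (by omega) (by omega)
    rwa [show i + ((j - i).toNat : ℤ) = j by omega] at this
  · have := line_le f hf j (i - j).toNat fun k h1 h2 => h k (by omega) (by omega)
    rw [show j + ((i - j).toNat : ℤ) = i by omega] at this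
    exact this.symm

theorem hor {A : Set (ℤ × ℤ)} (b i j : ℤ) (h : ∀ k, (k, b) ∈ A) : R A (i, b) (j, b) :=
  line (fun k => (k, b)) (fun k => adj_h k b) i j fun k _ _ => h k

theorem ver {A : Set (ℤ × ℤ)} (a i j : ℤ) (h : ∀ k, (a, k) ∈ A) : R A (a, i) (a, j) :=
  line (fun k => (a, k)) (fun k => adj_v a k) i j fun k _ _ => h k

theorem out (N : ℕ) (x : ℤ × ℤ) (hx : x ∈ {p : ℤ × ℤ | (N : ℤ) < |p.1| ∨ (N : ℤ) < |p.2|}) :
    R {p : ℤ × ℤ | (N : ℤ) < |p.1| ∨ (N : ℤ) < |p.2|} x ((N : ℤ) + 1, (N : ℤ) + 1) := by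
  obtain ⟨a, b⟩ := x
  have hN : (N : ℤ) < |(N : ℤ) + 1| := lt_of_lt_of_le (lt_add_one _) (le_abs_self _)
  rcases hx with h | h
  · exact (ver a b (N + 1) fun k => Or.inl h).trans (hor (N + 1) a (N + 1) fun k => Or.inr hN)
  · exact (hor b a (N + 1) fun k => Or.inr h).trans (ver (N + 1) b (N + 1) fun k => Or.inl hN)

end PkTO

open PkTO in
theorem pkg_TO : S_TO := by
  refine ⟨fun x _ y _ => ?_, fun F hF => ?_⟩
  · obtain ⟨a, b⟩ := x
    obtain ⟨c, d⟩ := y
    exact (hor b a c fun _ => Set.mem_univ _).trans (ver c b d fun _ => Set.mem_univ _)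
  · obtain ⟨N, hN⟩ := (hF.image fun p : ℤ × ℤ => p.1.natAbs + p.2.natAbs).bddAbove
    refine ⟨{p : ℤ × ℤ | (N : ℤ) < |p.1| ∨ (N : ℤ) < |p.2|},
      fun x hx y hy => (out N x hx).trans (out N y hy).symm, ?_, ?_⟩
    · refine ((Set.finite_Icc (-(N : ℤ)) N).prod (Set.finite_Icc (-(N : ℤ)) N)).subset ?_
      rintro ⟨a, b⟩ h
      simp only [Set.mem_compl_iff, Set.mem_setOf_eq, not_or, not_lt] at h
      exact ⟨abs_le.1 h.1, abs_le.1 h.2⟩
    · rw [Set.disjoint_left]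
      rintro ⟨a, b⟩ h hF'
      have h1 : a.natAbs + b.natAbs ≤ N := hN ⟨(a, b), hF', rfl⟩
      have h2 : (N : ℤ) < |a| ∨ (N : ℤ) < |b| := h
      rw [← Int.natCast_natAbs, ← Int.natCast_natAbs] at h2
      omega

end Pool.Agent.P.MP_08fd93_co
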