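import Pool.Agent.P.MP_08fd93_co.StB

/-! Package TS: boundary connectivity of the triangular grid. -/

set_option autoImplicit false

namespace Pool.Agent.P.MP_08fd93_co

namespace PkTS

/-- Edges of the grid: a direction and a base point. -/
abbrev Ed : Type := Fin 3 × (ℤ × ℤ)

/-- The far end of an edge. -/
def tgt (e : Ed) : ℤ × ℤ := e.2 + (![(1, 0), (0, 1), (1, 1)] : Fin 3 → ℤ × ℤ) e.1

/-- The lower triangle on an edge. -/
def lo (e : Ed) : ℤ × ℤ := e.2 - (![(0, 0), (1, 0), (0, 0)] : Fin 3 → ℤ × ℤ) e.1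

/-- The upper triangle on an edge. -/
def up (e : Ed) : ℤ × ℤ := e.2 - (![(0, 1), (0, 0), (0, 0)] : Fin 3 → ℤ × ℤ) e.1

/-- Cochains that are exact away from `A`. -/
def Ex (A : Set (ℤ × ℤ)) : Submodule (ZMod 2) (Ed → ZMod 2) where
  carrier := {f | ∃ ψ : ℤ × ℤ → ZMod 2, ∀ e : Ed, e.2 ∉ A → tgt e ∉ A → f e = ψ e.2 + ψ (tgt e)}
  add_mem' := by
    rintro f g ⟨ψ, hψ⟩ ⟨φ, hφ⟩
    refine ⟨ψ + φ, fun e h1 h2 => ?_⟩
    simp only [Pi.add_apply, hψ e h1 h2, hφ e h1 h2]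
    ring
  zero_mem' := ⟨0, fun e _ _ => by simp⟩
  smul_mem' := by
    rintro c f ⟨ψ, hψ⟩
    refine ⟨c • ψ, fun e h1 h2 => ?_⟩
    simp only [Pi.smul_apply, hψ e h1 h2, smul_eq_mul]
    ring

/-- The ray from a lower triangle. -/
def rL (p : ℤ × ℤ) : Ed → ZMod 2 := fun e =>
  if e.1 ≠ 0 ∧ e.2.2 = p.2 ∧ p.1 + 1 ≤ e.2.1 then 1 else 0

/-- The ray from an upper triangle. -/
def rU (p : ℤ × ℤ) : Ed → ZMod 2 := fun e =>
  if e.2.2 = p.2 ∧ ((e.1 = 1 ∧ p.1 + 1 ≤ e.2.1) ∨ (e.1 = 2 ∧ p.1 ≤ e.2.1)) then 1 else 0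

theorem single_mem (A : Set (ℤ × ℤ)) (e : Ed) :
    (Pi.single e 1 : Ed → ZMod 2) - (rL (lo e) - rU (up e)) ∈ Ex A := by
  obtain ⟨i, a, b⟩ := e
  fin_cases i
  · refine ⟨fun q => if q.2 = b ∧ a + 1 ≤ q.1 then 1 else 0, ?_⟩
    rintro ⟨j, c, d⟩ - -
    fin_cases j <;>
      simp only [Pi.sub_apply, Pi.single_apply, rL, rU, lo, up, tgt, Prod.mk.injEq] <;>
      simp <;> split_ifs <;> first | rfl | omega
  · refine ⟨0, ?_⟩
    rintro ⟨j, c, d⟩ - -
    fin_cases j <;>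
      simp only [Pi.sub_apply, Pi.single_apply, rL, rU, lo, up, tgt, Prod.mk.injEq] <;>
      simp <;> split_ifs <;> first | rfl | omega
  · refine ⟨0, ?_⟩
    rintro ⟨j, c, d⟩ - -
    fin_cases j <;>
      simp only [Pi.sub_apply, Pi.single_apply, rL, rU, lo, up, tgt, Prod.mk.injEq] <;>
      simp <;> split_ifs <;> first | rfl | omega

/-- Class of the lower ray. -/
def cL (A : Set (ℤ × ℤ)) (p : ℤ × ℤ) : (Ed → ZMod 2) ⧸ Ex A := (Ex A).mkQ (rL p)

/-- Class of the upper ray. -/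
def cU (A : Set (ℤ × ℤ)) (p : ℤ × ℤ) : (Ed → ZMod 2) ⧸ Ex A := (Ex A).mkQ (rU p)

theorem mk_single (A : Set (ℤ × ℤ)) (e : Ed) :
    (Ex A).mkQ (Pi.single e 1) = cL A (lo e) - cU A (up e) := by
  unfold cL cU
  rw [← map_sub, Submodule.mkQ_apply, Submodule.mkQ_apply, Submodule.Quotient.eq]
  exact single_mem A e

theorem edge_eq (A : Set (ℤ × ℤ)) (e : Ed) (h : e.2 ∈ A ∨ tgt e ∈ A) :
    cL A (lo e) = cU A (up e) := by
  rw [← sub_eq_zero, ← mk_single, Submodule.mkQ_apply, Submodule.Quotient.mk_eq_zero]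
  refine ⟨0, fun e' h1 h2 => ?_⟩
  have : e' ≠ e := by
    rintro rfl
    tauto
  simp [Pi.single_apply, this]

theorem around (A : Set (ℤ × ℤ)) (a : ℤ × ℤ) (h : a ∈ A) :
    cU A a = cL A a ∧ cL A (a - (1, 0)) = cL A a ∧ cU A (a - (1, 1)) = cL A a ∧
      cL A (a - (1, 1)) = cL A a ∧ cU A (a - (0, 1)) = cL A a := by
  have h1 := edge_eq A (2, a) (Or.inl h)
  have h2 := edge_eq A (1, a) (Or.inl h)
  have h3 := edge_eq A (0, a - (1, 0)) (Or.inr (by simpa [tgt] using h))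
  have h4 := edge_eq A (2, a - (1, 1)) (Or.inr (by simpa [tgt] using h))
  have h5 := edge_eq A (0, a) (Or.inl h)
  have e3 : a - (1, 0) - (0, 1) = a - (1, 1) := by
    ext <;> simp
  have z : ((0, 0) : ℤ × ℤ) = 0 := rfl
  simp only [lo, up, Matrix.cons_val_zero, Matrix.cons_val_one, Matrix.cons_val, z,
    sub_zero, e3] at h1 h2 h3 h4 h5
  refine ⟨h1.symm, h2.trans h1.symm, ?_, ?_, h5.symm⟩
  · rw [← h3, h2, h1]
  · rw [h4, ← h3, h2, h1]

theorem adj_cases {p q : ℤ × ℤ} (h : TG.Adj p q) :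
    (∃ i, q = tgt (i, p)) ∨ ∃ i, p = tgt (i, q) := by
  simp only [TG, SimpleGraph.fromRel_adj] at h
  obtain ⟨-, (h | h | h) | (h | h | h)⟩ := h
  · exact Or.inl ⟨0, h⟩
  · exact Or.inl ⟨1, h⟩
  · exact Or.inl ⟨2, h⟩
  · exact Or.inr ⟨0, h⟩
  · exact Or.inr ⟨1, h⟩
  · exact Or.inr ⟨2, h⟩

theorem adj_tgt (e : Ed) : TG.Adj e.2 (tgt e) := by
  obtain ⟨i, a, b⟩ := e
  fin_cases i <;> simp [TG, SimpleGraph.fromRel_adj, tgt]

theorem step_eq (A : Set (ℤ × ℤ)) (e : Ed) (h1 : e.2 ∈ A) (h2 : tgt e ∈ A) :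
    cL A e.2 = cL A (tgt e) := by
  obtain ⟨i, a⟩ := e
  have g1 := around A _ h1
  have g2 := around A _ h2
  fin_cases i
  · have := g2.2.1
    simpa [tgt] using this
  · have := g2.2.2.2.2
    have h3 := g1.1
    simp [tgt] at this h3 ⊢
    rw [← this, h3]
  · have := g2.2.2.2.1
    simpa [tgt] using this

theorem conn_eq (A : Set (ℤ × ℤ)) (a b : ℤ × ℤ) (h : Conn TG A a b) : cL A a = cL A b := by
  induction h with
  | refl => rfl
  | tail _ h ih =>
    rw [ih]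
    obtain ⟨h1, h2, h3⟩ := h
    rcases adj_cases h3 with ⟨i, rfl⟩ | ⟨i, hi⟩
    · exact step_eq A (i, _) h1 h2
    · subst hi
      exact (step_eq A (i, _) h2 h1).symm

theorem exists_const (A : Set (ℤ × ℤ)) (hA : IsConn TG A) :
    ∃ r : (Ed → ZMod 2) ⧸ Ex A, ∀ a ∈ A, cL A a = r := by
  rcases A.eq_empty_or_nonempty with rfl | ⟨a, ha⟩
  · exact ⟨0, fun a h => h.elim⟩
  · exact ⟨cL A a, fun b hb => conn_eq A b a (hA b hb a ha)⟩

theorem sum_fiber {Q : Type} [AddCommGroup Q] [Module (ZMod 2) Q] (f : Ed → ZMod 2)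
    (s : Finset Ed) (hs : ∀ e, e ∉ s → f e = 0) (m : Ed → ℤ × ℤ) (G : ℤ × ℤ → Q)
    (t : ℤ × ℤ → Finset Ed) (ht : ∀ p e, e ∈ t p ↔ m e = p)
    (h : ∀ p, (∑ e ∈ t p, f e) • G p = 0) : ∑ e ∈ s, f e • G (m e) = 0 := by
  classical
  rw [← Finset.sum_fiberwise_of_maps_to (t := s.image m) (g := m)
    (fun e he => Finset.mem_image_of_mem m he)]
  refine Finset.sum_eq_zero fun p _ => ?_
  rw [← h p, Finset.sum_smul]
  have : ∀ e ∈ s.filter (fun e => m e = p), f e • G (m e) = f e • G p := by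
    intro e he
    rw [(Finset.mem_filter.1 he).2]
  rw [Finset.sum_congr rfl this]
  refine Finset.sum_subset (fun e he => (ht p e).2 (Finset.mem_filter.1 he).2) ?_
  intro e he hn
  have : e ∉ s := fun hs' => hn (Finset.mem_filter.2 ⟨hs', (ht p e).1 he⟩)
  rw [hs e this, zero_smul]

/-- A finitely supported cochain whose coboundary lives on triangles meeting the connected set
`A` is exact away from `A`. -/
theorem exact_off (A : Set (ℤ × ℤ)) (hA : IsConn TG A) (f : Ed → ZMod 2)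
    (hf : (Function.support f).Finite)
    (hL : ∀ p, p ∉ A → p + (1, 0) ∉ A → p + (1, 1) ∉ A →
      f (0, p) + f (1, p + (1, 0)) + f (2, p) = 0)
    (hU : ∀ p, p ∉ A → p + (0, 1) ∉ A → p + (1, 1) ∉ A →
      f (0, p + (0, 1)) + f (1, p) + f (2, p) = 0) : f ∈ Ex A := by
  classical
  obtain ⟨r, hr⟩ := exists_const A hA
  have hs : ∀ e, e ∉ hf.toFinset → f e = 0 := by
    intro e he
    simpa using he
  have e1 : f = ∑ e ∈ hf.toFinset, f e • (Pi.single e 1 : Ed → ZMod 2) := by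
    funext x
    simp only [Finset.sum_apply, Pi.smul_apply, Pi.single_apply, smul_eq_mul, mul_ite, mul_one,
      mul_zero, Finset.sum_ite_eq]
    split_ifs with h
    · rfl
    · exact hs x h
  rw [← Submodule.Quotient.mk_eq_zero, ← Submodule.mkQ_apply, e1, map_sum]
  have e2 : ∀ e ∈ hf.toFinset, (Ex A).mkQ (f e • (Pi.single e 1 : Ed → ZMod 2)) =
      f e • (cL A (lo e) - r) - f e • (cU A (up e) - r) := by
    intro e _
    rw [map_smul, mk_single, ← smul_sub]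
    congr 1
    abel
  rw [Finset.sum_congr rfl e2, Finset.sum_sub_distrib]
  have s1 := sum_fiber f hf.toFinset hs lo (fun p => cL A p - r)
    (fun p => {(0, p), (1, p + (1, 0)), (2, p)}) (by
      rintro ⟨a, b⟩ ⟨i, c, d⟩
      fin_cases i <;> simp [lo] <;> omega) (by
      intro p
      rw [Finset.sum_insert (by simp), Finset.sum_insert (by simp), Finset.sum_singleton]
      by_cases h1 : p ∈ A
      · rw [hr p h1, sub_self, smul_zero]
      by_cases h2 : p + (1, 0) ∈ A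
      · have := (around A _ h2).2.1
        rw [add_sub_cancel_right, hr _ h2] at this
        rw [this, sub_self, smul_zero]
      by_cases h3 : p + (1, 1) ∈ A
      · have := (around A _ h3).2.2.2.1
        rw [add_sub_cancel_right, hr _ h3] at this
        rw [this, sub_self, smul_zero]
      rw [← add_assoc, hL p h1 h2 h3, zero_smul])
  have s2 := sum_fiber f hf.toFinset hs up (fun p => cU A p - r)
    (fun p => {(0, p + (0, 1)), (1, p), (2, p)}) (by
      rintro ⟨a, b⟩ ⟨i, c, d⟩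
      fin_cases i <;> simp [up] <;> omega) (by
      intro p
      rw [Finset.sum_insert (by simp), Finset.sum_insert (by simp), Finset.sum_singleton]
      by_cases h1 : p ∈ A
      · rw [(around A _ h1).1, hr p h1, sub_self, smul_zero]
      by_cases h2 : p + (0, 1) ∈ A
      · have := (around A _ h2).2.2.2.2
        rw [add_sub_cancel_right, hr _ h2] at this
        rw [this, sub_self, smul_zero]
      by_cases h3 : p + (1, 1) ∈ A
      · have := (around A _ h3).2.2.1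
        rw [add_sub_cancel_right, hr _ h3] at this
        rw [this, sub_self, smul_zero]
      rw [← add_assoc, hU p h1 h2 h3, zero_smul])
  rw [s1, s2, sub_self]

theorem pot_conn (X : Set (ℤ × ℤ)) (ψ : ℤ × ℤ → ZMod 2)
    (h : ∀ p ∈ X, ∀ q ∈ X, TG.Adj p q → ψ p = ψ q) (a b : ℤ × ℤ) (hc : Conn TG X a b) :
    ψ a = ψ b := by
  induction hc with
  | refl => rfl
  | tail _ h' ih => rw [ih]; exact h _ h'.1 _ h'.2.1 h'.2.2

end PkTS

open PkTS in
theorem pkg_TS : S_TS := by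
  classical
  intro A B _ _ hAB hA hB hfin x y hx hy hxU hxy
  by_contra hn
  set S : Set (ℤ × ℤ) := {z | Conn TG ((Set.univ ∩ Nb TG B) \ (A ∪ B)) x z} with hS
  have hSm : ∀ z ∈ S, z ∈ (Set.univ ∩ Nb TG B) \ (A ∪ B) := by
    intro z hz
    have hz' : Conn TG ((Set.univ ∩ Nb TG B) \ (A ∪ B)) x z := hz
    cases hz' with
    | refl => exact ⟨⟨trivial, hx⟩, hxU.2⟩
    | tail _ h => exact h.2.1
  have hSB : ∀ z ∈ S, z ∉ B := fun z hz hb => (hSm z hz).2 (Or.inr hb)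
  have hSc : ∀ z ∈ S, ∀ u, TG.Adj z u → u ∈ Nb TG B → u ∉ A → u ∉ B → u ∈ S := by
    intro z hz u h1 h2 h3 h4
    exact Relation.ReflTransGen.tail hz ⟨hSm z hz, ⟨⟨trivial, h2⟩, fun h => h.elim h3 h4⟩, h1⟩
  let w : ℤ × ℤ → ℤ × ℤ → ZMod 2 := fun p q =>
    if (p ∈ S ∧ q ∈ B) ∨ (p ∈ B ∧ q ∈ S) then 1 else 0
  have wsym : ∀ p q, w p q = w q p := by
    intro p q
    simp only [w]
    congr 1
    apply propext
    tauto
  have tri : ∀ p q r, TG.Adj p q → TG.Adj q r → TG.Adj p r → p ∉ A → q ∉ A → r ∉ A →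
      w p q + w q r + w p r = 0 := by
    intro p q r h1 h2 h3 a1 a2 a3
    have k1 : p ∈ S → q ∈ B → r ∉ B → r ∈ S := fun u v z =>
      hSc p u r h3 ⟨q, v, h2.symm⟩ a3 z
    have k2 : q ∈ S → p ∈ B → r ∉ B → r ∈ S := fun u v z =>
      hSc q u r h2 ⟨p, v, h3.symm⟩ a3 z
    have k3 : p ∈ S → r ∈ B → q ∉ B → q ∈ S := fun u v z =>
      hSc p u q h1 ⟨r, v, h2⟩ a2 z
    have k4 : r ∈ S → p ∈ B → q ∉ B → q ∈ S := fun u v z =>
      hSc r u q h2.symm ⟨p, v, h1.symm⟩ a2 z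
    have k5 : q ∈ S → r ∈ B → p ∉ B → p ∈ S := fun u v z =>
      hSc q u p h1.symm ⟨r, v, h3⟩ a1 z
    have k6 : r ∈ S → q ∈ B → p ∉ B → p ∈ S := fun u v z =>
      hSc r u p h3.symm ⟨q, v, h1⟩ a1 z
    have d1 := hSB p
    have d2 := hSB q
    have d3 := hSB r
    simp only [w]
    by_cases b1 : p ∈ B <;> by_cases b2 : q ∈ B <;> by_cases b3 : r ∈ B <;>
      by_cases c1 : p ∈ S <;> by_cases c2 : q ∈ S <;> by_cases c3 : r ∈ S <;>
      first
        | exact absurd b1 (d1 c1)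
        | exact absurd b2 (d2 c2)
        | exact absurd b3 (d3 c3)
        | exact absurd (k1 c1 b2 b3) c3
        | exact absurd (k2 c2 b1 b3) c3
        | exact absurd (k3 c1 b3 b2) c2
        | exact absurd (k4 c3 b1 b2) c2
        | exact absurd (k5 c2 b3 b1) c1
        | exact absurd (k6 c3 b2 b1) c1
        | (simp only [b1, b2, b3, c1, c2, c3]; decide)
  obtain ⟨F, hF, hFw⟩ : ∃ F : Set (ℤ × ℤ), F.Finite ∧ ∀ p q, w p q ≠ 0 → p ∈ F ∨ q ∈ F := by
    rcases hfin with h | h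
    · refine ⟨B, h, fun p q hw => ?_⟩
      by_contra hc
      apply hw
      simp only [w]
      rw [if_neg]
      tauto
    · refine ⟨_, h, fun p q hw => ?_⟩
      by_contra hc
      apply hw
      simp only [w]
      rw [if_neg]
      have d1 := hSB p
      have d2 := hSB q
      simp only [Set.mem_diff, Set.mem_univ, true_and] at hc
      tauto
  have hsupp : (Function.support fun e : Ed => w e.2 (tgt e)).Finite := by
    have f1 : (Set.univ ×ˢ F : Set Ed).Finite := Set.finite_univ.prod hF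
    have f2 : ((fun e : Ed => ((e.1, tgt e) : Ed)) ⁻¹' (Set.univ ×ˢ F)).Finite := by
      refine f1.preimage ?_
      rintro ⟨i, a⟩ - ⟨j, b⟩ - h
      simp only [Prod.mk.injEq, tgt] at h
      obtain ⟨rfl, h⟩ := h
      rw [add_right_cancel h]
    refine (f1.union f2).subset fun e he => ?_
    rcases hFw _ _ he with h | h
    · exact Or.inl ⟨trivial, h⟩
    · exact Or.inr ⟨trivial, h⟩
  obtain ⟨ψ, hψ⟩ := exact_off A hA _ hsupp (by
      intro p h1 h2 h3
      have e : tgt (1, p + (1, 0)) = p + (1, 1) := by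
        ext <;> simp [tgt]
      have := tri p (p + (1, 0)) (p + (1, 1)) (adj_tgt (0, p)) (e ▸ adj_tgt (1, p + (1, 0)))
        (adj_tgt (2, p)) h1 h2 h3
      simp only [e]
      exact this) (by
      intro p h1 h2 h3
      have e : tgt (0, p + (0, 1)) = p + (1, 1) := by
        ext <;> simp [tgt]
      have := tri p (p + (0, 1)) (p + (1, 1)) (adj_tgt (1, p)) (e ▸ adj_tgt (0, p + (0, 1)))
        (adj_tgt (2, p)) h1 h2 h3
      simp only [e]
      rw [add_comm (w (p + (0, 1)) _)]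
      exact this)
  have hw : ∀ p q, TG.Adj p q → p ∉ A → q ∉ A → w p q = ψ p + ψ q := by
    intro p q h h1 h2
    rcases adj_cases h with ⟨i, rfl⟩ | ⟨i, rfl⟩
    · exact hψ (i, p) h1 h2
    · rw [wsym, add_comm]
      exact hψ (i, q) h2 h1
  have z2 : ∀ a b : ZMod 2, 0 = a + b → a = b := by decide
  have z3 : ∀ a : ZMod 2, 1 ≠ a + a := by decide
  have hBA : ∀ b ∈ B, b ∉ A := fun b hb ha => Set.disjoint_left.1 hAB ha hb
  have hyU : y ∈ Set.univ \ (A ∪ B) := by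
    cases hxy with
    | refl => exact hxU
    | tail _ h => exact h.2.1
  have p1 : ψ x = ψ y := by
    refine pot_conn _ ψ (fun p hp q hq h => z2 _ _ ?_) x y hxy
    rw [← hw p q h (fun a => hp.2 (Or.inl a)) (fun a => hq.2 (Or.inl a))]
    simp only [w]
    rw [if_neg]
    rintro (⟨-, h⟩ | ⟨h, -⟩)
    · exact hq.2 (Or.inr h)
    · exact hp.2 (Or.inr h)
  obtain ⟨b, hb, hxb⟩ := hx
  obtain ⟨b', hb', hyb⟩ := hy
  have p2 : ψ b = ψ b' := by
    refine pot_conn _ ψ (fun p hp q hq h => z2 _ _ ?_) b b' (hB b hb b' hb')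
    rw [← hw p q h (hBA p hp) (hBA q hq)]
    simp only [w]
    rw [if_neg]
    rintro (⟨h, -⟩ | ⟨-, h⟩)
    · exact hSB p h hp
    · exact hSB q h hq
  have p3 : ψ y = ψ b' := by
    apply z2
    rw [← hw y b' hyb (fun a => hyU.2 (Or.inl a)) (hBA b' hb')]
    simp only [w]
    rw [if_neg]
    rintro (⟨h, -⟩ | ⟨h, -⟩)
    · exact hn h
    · exact hyU.2 (Or.inr h)
  have p4 := hw x b hxb (fun a => hxU.2 (Or.inl a)) (hBA b hb)
  have xS : x ∈ S := Relation.ReflTransGen.refl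
  simp only [w] at p4
  rw [if_pos (Or.inl ⟨xS, hb⟩), p1, p2, p3] at p4
  exact z3 _ p4

end Pool.Agent.P.MP_08fd93_co
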