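import Pool.Agent.P.MP_08fd93_co.PkAsmL
import Pool.Agent.P.MP_08fd93_co.PkAsmS
import Pool.Agent.P.MP_08fd93_co.PkBr
import Pool.Agent.P.MP_08fd93_co.PkCC
import Pool.Agent.P.MP_08fd93_co.PkDLC
import Pool.Agent.P.MP_08fd93_co.PkDLa
import Pool.Agent.P.MP_08fd93_co.PkDLb
import Pool.Agent.P.MP_08fd93_co.PkDLd
import Pool.Agent.P.MP_08fd93_co.PkDLm
import Pool.Agent.P.MP_08fd93_co.PkDLo
import Pool.Agent.P.MP_08fd93_co.PkDLp
import Pool.Agent.P.MP_08fd93_co.PkFin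
import Pool.Agent.P.MP_08fd93_co.PkLad
import Pool.Agent.P.MP_08fd93_co.PkLemI
import Pool.Agent.P.MP_08fd93_co.PkLemJ
import Pool.Agent.P.MP_08fd93_co.PkLift
import Pool.Agent.P.MP_08fd93_co.PkLine
import Pool.Agent.P.MP_08fd93_co.PkMk
import Pool.Agent.P.MP_08fd93_co.PkQuot
import Pool.Agent.P.MP_08fd93_co.PkRep
import Pool.Agent.P.MP_08fd93_co.PkRung
import Pool.Agent.P.MP_08fd93_co.PkSS
import Pool.Agent.P.MP_08fd93_co.PkSides
import Pool.Agent.P.MP_08fd93_co.PkTM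
import Pool.Agent.P.MP_08fd93_co.PkTO
import Pool.Agent.P.MP_08fd93_co.PkTS

/-! Assembly of the packages for the (0,1,1,2) colouring. -/

set_option autoImplicit false

namespace Pool.Agent.P.MP_08fd93_co

theorem all_Base : S_Base := pkg_Mk pkg_Lift pkg_Br pkg_TM pkg_TS pkg_TO pkg_Quot

theorem all_Contr : S_Contr := (pkg_CC pkg_Quot).1

theorem all_Cut : S_Cut := (pkg_CC pkg_Quot).2

theorem all_DL : S_DL :=
  pkg_DLm (pkg_DLa all_Cut) (pkg_DLb all_Cut) pkg_DLo pkg_DLp (pkg_DLd all_Contr)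

theorem all_DLC : DLC := pkg_DLC all_Contr all_DL

theorem all_Lad : S_Lad := pkg_Lad pkg_SS.1

theorem all_A : S_A :=
  pkg_Fin all_Base pkg_Line pkg_SS.2 pkg_Rung (pkg_Sides all_Lad)
    (pkg_AsmS all_Lad pkg_Rep all_DLC) (pkg_AsmL all_Lad pkg_Rep all_DLC) pkg_LemI pkg_LemJ

end Pool.Agent.P.MP_08fd93_co
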