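import Pool.Agent.P.MP_08fd93_co.StC

/-! Package P1: the chip-firing dichotomy. -/

set_option autoImplicit false

namespace Pool.Agent.P.MP_08fd93_co

open Finset

namespace P1

variable {V : Type} (G : SimpleGraph V) (U : Finset V) (φ : ℤ → ℝ) (k : ℝ)

/-- Legal configurations. -/
def Q (p : V → ℕ) : Prop :=
  ∀ v ∈ U, 0 < p v → k ≤ ∑ u ∈ nb G U v, φ ((p u : ℤ) - p v + 1)

variable {G U φ k}

theorem Q_le (hφ : Monotone φ) {p r : V → ℕ} (hp : Q G U φ k p) (h : ∀ u, p u ≤ r u) {v : V}
    (hv : v ∈ U) (e : r v = p v) (h0 : 0 < r v) :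
    k ≤ ∑ u ∈ nb G U v, φ ((r u : ℤ) - r v + 1) := by
  refine (hp v hv (e ▸ h0)).trans (sum_le_sum fun u _ => hφ ?_)
  have := h u
  omega

theorem Q_max (hφ : Monotone φ) {p q : V → ℕ} (hp : Q G U φ k p) (hq : Q G U φ k q) :
    Q G U φ k fun v => max (p v) (q v) := by
  intro v hv h0
  rcases le_total (p v) (q v) with h | h
  · exact Q_le hφ hq (r := fun v => max (p v) (q v)) (fun u => le_max_right _ _) hv
      (max_eq_right h) h0
  · exact Q_le hφ hp (r := fun v => max (p v) (q v)) (fun u => le_max_left _ _) hv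
      (max_eq_left h) h0

theorem exists_ge (hφ : Monotone φ) (t : V → ℕ) (S : Finset V)
    (h : ∀ v ∈ S, ∃ p, Q G U φ k p ∧ t v ≤ p v) : ∃ p, Q G U φ k p ∧ ∀ v ∈ S, t v ≤ p v := by
  classical
  induction S using Finset.induction_on with
  | empty => exact ⟨fun _ => 0, fun v _ h0 => absurd h0 (lt_irrefl 0), by simp⟩
  | insert a S _ ih =>
    obtain ⟨p, hp, h1⟩ := ih fun v hv => h v (mem_insert_of_mem hv)
    obtain ⟨q, hq, h2⟩ := h a (mem_insert_self _ _)
    refine ⟨_, Q_max hφ hp hq, fun v hv => ?_⟩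
    rcases mem_insert.1 hv with rfl | hv
    · exact h2.trans (le_max_right _ _)
    · exact (h1 v hv).trans (le_max_left _ _)

theorem exists_top {v : V} (h : ∃ b, ∀ p, Q G U φ k p → p v ≤ b) :
    ∃ m, (∃ p, Q G U φ k p ∧ m ≤ p v) ∧ ∀ p, Q G U φ k p → p v ≤ m := by
  classical
  refine ⟨Nat.find h, ?_, Nat.find_spec h⟩
  rcases Nat.eq_zero_or_pos (Nat.find h) with e | e
  · exact ⟨fun _ => 0, fun v _ h0 => absurd h0 (lt_irrefl 0), e.le⟩
  · have := Nat.find_min h (Nat.sub_lt e Nat.one_pos)
    push Not at this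
    obtain ⟨p, hp, h1⟩ := this
    exact ⟨p, hp, by omega⟩

theorem stuck (hφ : Monotone φ) {p : V → ℕ} (hp : Q G U φ k p) {v : V}
    (h : ∀ q, Q G U φ k q → q v ≤ p v) : ∑ u ∈ nb G U v, φ ((p u : ℤ) - p v) < k := by
  classical
  by_contra hn
  have : Q G U φ k (Function.update p v (p v + 1)) := by
    intro w hw h0
    by_cases e : w = v
    · subst e
      refine (not_lt.1 hn).trans (sum_le_sum fun u hu => le_of_eq ?_)
      have hne : u ≠ w := (mem_filter.1 hu).2.ne'
      rw [Function.update_self, Function.update_of_ne hne]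
      congr 1
      push_cast
      ring
    · refine Q_le hφ hp (fun u => ?_) hw (Function.update_of_ne e _ _) h0
      by_cases e' : u = v
      · subst e'
        simp
      · rw [Function.update_of_ne e']
  have := h _ this
  simp at this

end P1

open P1 in
theorem pkg_P1 : S_P1 := by
  classical
  intro V G U φ M k hφ hM
  set I := U.filter fun v => ∃ b, ∀ p, Q G U φ k p → p v ≤ b with hI
  have hout : ∀ v ∈ U, v ∉ I → ∀ n, ∃ p, Q G U φ k p ∧ n ≤ p v := by
    intro v hv hn n
    by_contra hc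
    push Not at hc
    exact hn (mem_filter.2 ⟨hv, n, fun p hp => (hc p hp).le⟩)
  rcases I.eq_empty_or_nonempty with e | hne
  · obtain ⟨p, hp, h⟩ := exists_ge hφ (fun _ => 1) U fun v hv => hout v hv (by simp [e]) 1
    exact Or.inr ⟨fun v => p v, fun v hv => hp v hv (h v hv)⟩
  · have hm : ∀ v, ∃ m, v ∈ I →
        (∃ p, Q G U φ k p ∧ m ≤ p v) ∧ ∀ p, Q G U φ k p → p v ≤ m := by
      intro v
      by_cases hv : v ∈ I
      · obtain ⟨m, h⟩ := exists_top (mem_filter.1 hv).2
        exact ⟨m, fun _ => h⟩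
      · exact ⟨0, fun h => absurd h hv⟩
    choose m hm using hm
    obtain ⟨p, hp, h⟩ := exists_ge hφ (fun v => if v ∈ I then m v else I.sup m + M.toNat) U
      fun v hv => by
        by_cases hv' : v ∈ I
        · simpa only [if_pos hv'] using (hm v hv').1
        · simpa only [if_neg hv'] using hout v hv hv' _
    have hsub : I ⊆ U := filter_subset _ _
    refine Or.inl ⟨I, hsub, hne, fun v => p v, fun v hv => ?_⟩
    have h1 : m v ≤ p v := by simpa only [if_pos hv] using h v (hsub hv)
    have h2 := (hm v hv).2 p hp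
    have a := stuck hφ hp (v := v) fun q hq => ((hm v hv).2 q hq).trans h1
    have e : nb G U v = nb G I v ∪ nb G (U \ I) v := by
      rw [nb, nb, nb, ← filter_union, union_sdiff_of_subset hsub]
    have d : Disjoint (nb G I v) (nb G (U \ I) v) :=
      disjoint_filter_filter disjoint_sdiff
    rw [e, sum_union d] at a
    have b : ∑ u ∈ nb G (U \ I) v, φ ((p u : ℤ) - p v) = (nb G (U \ I) v).card := by
      rw [card_eq_sum_ones, Nat.cast_sum]
      refine sum_congr rfl fun u hu => ?_
      have hu' := mem_sdiff.1 (mem_filter.1 hu).1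
      have h3 : I.sup m + M.toNat ≤ p u := by simpa only [if_neg hu'.2] using h u hu'.1
      have h4 : m v ≤ I.sup m := le_sup hv
      rw [hM _ (by omega), Nat.cast_one]
    rw [b] at a
    convert a

end Pool.Agent.P.MP_08fd93_co
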