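import Pool.Agent.P.MP_08fd93_co.StC

set_option autoImplicit false

namespace Pool.Agent.P.MP_08fd93_co

open Finset

namespace P2

theorem fw_ge {x : ℝ} (hx : 1 ≤ x) : fw x = min 1 (max (x / 3) (2 / 3)) := by
  unfold fw
  rw [min_eq_right hx, max_eq_left hx]
  norm_num

theorem fw_le {x : ℝ} (hx : x ≤ 1) : fw x = min x (max (1 / 3) (2 * x / 3)) := by
  unfold fw
  rw [min_eq_left hx, max_eq_right hx]

/-- The two weights of an edge, ordered version. -/
theorem pair_ord {x y : ℝ} (hy : 0 < y) (hxy : y ≤ x) (h1 : 1 < x * y) (h2 : x * y ≤ 4 / 3) :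
    fw x + fw y < 4 / 3 ∨ (1 ≤ y ∧ fw x = 2 / 3 ∧ fw y = 2 / 3) ∨
      (3 ≤ x ∧ 1 / 3 ≤ y ∧ fw x = 1 ∧ fw y = 1 / 3) := by
  have hx1 : 1 ≤ x := by nlinarith
  rcases le_or_gt 1 y with hy1 | hy1
  · right; left
    have hx2 : x ≤ 4 / 3 := by nlinarith
    refine ⟨hy1, ?_, ?_⟩
    · rw [fw_ge hx1, max_eq_right (by linarith), min_eq_right (by norm_num)]
    · rw [fw_ge hy1, max_eq_right (by linarith), min_eq_right (by norm_num)]
  have hfx : fw x ≤ 1 := by rw [fw_ge hx1]; exact min_le_left _ _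
  rcases lt_or_ge y (1 / 3) with hy2 | hy2
  · left
    have : fw y ≤ y := by rw [fw_le hy1.le]; exact min_le_left _ _
    linarith
  rcases le_or_gt y (1 / 2) with hy3 | hy3
  · have e : fw y = 1 / 3 := by
      rw [fw_le hy1.le, max_eq_left (by linarith), min_eq_right hy2]
    rcases le_or_gt 3 x with hx3 | hx3
    · right; right
      refine ⟨hx3, hy2, ?_, e⟩
      rw [fw_ge hx1, max_eq_left (by linarith), min_eq_left (by linarith)]
    · left
      have : fw x < 1 := by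
        rw [fw_ge hx1]
        exact (min_le_right _ _).trans_lt (max_lt (by linarith) (by norm_num))
      linarith
  · left
    have e : fw y = 2 * y / 3 := by
      rw [fw_le hy1.le, max_eq_right (by linarith), min_eq_right (by linarith)]
    rw [e]
    rcases le_or_gt x 2 with hx2 | hx2
    · rw [fw_ge hx1, max_eq_right (by linarith), min_eq_right (by norm_num)]
      linarith
    · have : fw x ≤ x / 3 := by
        rw [fw_ge hx1, max_eq_left (by linarith)]; exact min_le_right _ _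
      have hx3 : x < 8 / 3 := by nlinarith
      have hy4 : y < 2 / 3 := by nlinarith
      linarith

/-- The two weights of an edge with ratio `r`. -/
theorem pair {b r : ℝ} (hb : 1 < b) (hb2 : b ^ 2 ≤ 4 / 3) (hr : 0 < r) :
    fw (b * r) + fw (b / r) < 4 / 3 ∨ (fw (b * r) + fw (b / r) = 4 / 3 ∧
      ∃ d : ℤ, |d| ≤ 1 ∧ (3 : ℝ) ^ d ≤ b * r ∧ r ≤ (3 : ℝ) ^ d * b ∧
        3 * fw (b * r) = 2 + d) := by
  have hb0 : 0 < b := by linarith
  have hx : 0 < b * r := mul_pos hb0 hr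
  have hy : 0 < b / r := div_pos hb0 hr
  have hp : b * r * (b / r) = b ^ 2 := by field_simp
  have hp1 : 1 < b ^ 2 := by nlinarith
  rcases le_total (b / r) (b * r) with h | h
  · rcases pair_ord hy h (by rw [hp]; exact hp1) (by rw [hp]; exact hb2) with
      h' | ⟨a1, a2, a3⟩ | ⟨a1, a2, a3, a4⟩
    · exact Or.inl h'
    · refine Or.inr ⟨by rw [a2, a3]; norm_num, 0, by norm_num, ?_, ?_, by rw [a2]; norm_num⟩
      · rw [zpow_zero]; linarith
      · rw [zpow_zero, one_mul]; exact (one_le_div hr).1 a1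
    · refine Or.inr ⟨by rw [a3, a4]; norm_num, 1, by norm_num, ?_, ?_, by rw [a3]; norm_num⟩
      · rw [zpow_one]; exact a1
      · rw [zpow_one]
        have := (le_div_iff₀ hr).1 a2
        linarith
  · rcases pair_ord hx h (by rw [mul_comm, hp]; exact hp1) (by rw [mul_comm, hp]; exact hb2) with
      h' | ⟨a1, a2, a3⟩ | ⟨a1, a2, a3, a4⟩
    · exact Or.inl (by linarith)
    · refine Or.inr ⟨by rw [a2, a3]; norm_num, 0, by norm_num, ?_, ?_, by rw [a3]; norm_num⟩
      · rw [zpow_zero]; exact a1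
      · rw [zpow_zero, one_mul]; exact (one_le_div hr).1 (a1.trans h)
    · refine Or.inr ⟨by rw [a3, a4]; norm_num, -1, by norm_num, ?_, ?_, by rw [a4]; norm_num⟩
      · rw [zpow_neg_one]; linarith
      · rw [zpow_neg_one]
        have := (le_div_iff₀ hr).1 a1
        linarith

/-- The same for integer exponents, in logarithmic form. -/
theorem pairZ {b : ℝ} (hb : 1 < b) (hb2 : b ^ 2 ≤ 4 / 3) (e : ℤ) :
    fw (b ^ (e + 1)) + fw (b ^ (-e + 1)) < 4 / 3 ∨
      (fw (b ^ (e + 1)) + fw (b ^ (-e + 1)) = 4 / 3 ∧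
      ∃ d : ℤ, |d| ≤ 1 ∧ |e * Real.log b - d * Real.log 3| ≤ Real.log b ∧
        3 * fw (b ^ (e + 1)) = 2 + d) := by
  have hb0 : 0 < b := by linarith
  have hr : 0 < b ^ e := zpow_pos hb0 e
  have e1 : b ^ (e + 1) = b * b ^ e := by rw [zpow_add_one₀ hb0.ne', mul_comm]
  have e2 : b ^ (-e + 1) = b / b ^ e := by
    rw [zpow_add_one₀ hb0.ne', zpow_neg, mul_comm, div_eq_mul_inv]
  rw [e1, e2]
  rcases pair hb hb2 hr with h | ⟨h, d, d1, d2, d3, d4⟩
  · exact Or.inl h
  refine Or.inr ⟨h, d, d1, ?_, d4⟩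
  have h3 : (0 : ℝ) < (3 : ℝ) ^ d := zpow_pos (by norm_num) d
  have l2 := Real.log_le_log h3 d2
  have l3 := Real.log_le_log hr d3
  rw [Real.log_mul hb0.ne' hr.ne', Real.log_zpow, Real.log_zpow] at l2
  rw [Real.log_mul h3.ne' hb0.ne', Real.log_zpow, Real.log_zpow] at l3
  rw [abs_le]
  constructor <;> linarith

theorem mem_nb {V : Type} {G : SimpleGraph V} {U : Finset V} {v u : V} :
    u ∈ nb G U v ↔ u ∈ U ∧ G.Adj v u := by
  classical
  simp [nb]

theorem sum_swap {V : Type} (G : SimpleGraph V) (U : Finset V) (f : V → V → ℝ) :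
    ∑ v ∈ U, ∑ u ∈ nb G U v, f v u = ∑ v ∈ U, ∑ u ∈ nb G U v, f u v := by
  refine Finset.sum_comm' fun v u => ?_
  simp only [mem_nb]
  constructor
  · rintro ⟨h1, h2, h3⟩
    exact ⟨⟨h1, h3.symm⟩, h2⟩
  · rintro ⟨⟨h1, h3⟩, h2⟩
    exact ⟨h1, h2, h3.symm⟩

/-- An edge leaves every proper part of a connected set. -/
theorem exit {V : Type} {G : SimpleGraph V} {A S : Set V} {r v : V} (h : Conn G A r v)
    (hr : r ∈ S) (hv : v ∉ S) : ∃ x y, x ∈ S ∧ y ∉ S ∧ x ∈ A ∧ y ∈ A ∧ G.Adj x y := by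
  induction h with
  | refl => exact absurd hr hv
  | @tail b c _ hbc ih =>
    by_cases hb : b ∈ S
    · exact ⟨b, c, hb, hv, hbc⟩
    · exact ih hb

/-- Growing the set of vertices with a good level. -/
theorem grow {V : Type} {G : SimpleGraph V} {U : Finset V} (hc : IsConn G (U : Set V)) {r : V}
    (hr : r ∈ U) (a : V → ℝ) {L T : ℝ} (hL : 0 ≤ L)
    (he : ∀ v ∈ U, ∀ u ∈ U, G.Adj v u → ∃ d : ℤ, |a u - a v - d * T| ≤ L) :
    ∀ v ∈ U, ∃ l : ℤ, |a v - a r - l * T| ≤ U.card * L := by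
  classical
  let S : ℕ → Finset V := fun j => U.filter fun v => ∃ l : ℤ, |a v - a r - l * T| ≤ j * L
  have mono : ∀ j, S j ⊆ S (j + 1) := by
    intro j v hv
    obtain ⟨h1, l, h2⟩ := Finset.mem_filter.1 hv
    refine Finset.mem_filter.2 ⟨h1, l, h2.trans ?_⟩
    push_cast
    linarith
  have hr0 : ∀ j, r ∈ S j := fun j => Finset.mem_filter.2 ⟨hr, 0, by
    simp only [sub_self, Int.cast_zero, zero_mul, abs_zero]; positivity⟩
  have key : ∀ j, U ⊆ S j ∨ j + 1 ≤ (S j).card := by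
    intro j
    induction j with
    | zero => exact Or.inr (Finset.card_pos.2 ⟨r, hr0 0⟩)
    | succ j ih =>
      by_cases hU : U ⊆ S j
      · exact Or.inl (hU.trans (mono j))
      have ih := ih.resolve_left hU
      obtain ⟨v, hv, hvS⟩ := Finset.not_subset.1 hU
      obtain ⟨x, y, hx, hy, hxU, hyU, hxy⟩ :=
        exit (S := (S j : Set V)) (hc r hr v hv) (hr0 j) hvS
      obtain ⟨-, l, hl⟩ := Finset.mem_filter.1 (show x ∈ S j from hx)
      obtain ⟨d, hd⟩ := he x hxU y hyU hxy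
      have hy' : y ∈ S (j + 1) := by
        refine Finset.mem_filter.2 ⟨hyU, l + d, ?_⟩
        rw [abs_le] at hl hd ⊢
        push_cast
        constructor <;> linarith [hl.1, hl.2, hd.1, hd.2]
      have : (S j).card < (S (j + 1)).card :=
        Finset.card_lt_card ⟨mono j, fun hh => hy (hh hy')⟩
      right
      omega
  intro v hv
  rcases key U.card with h | h
  · exact (Finset.mem_filter.1 (h hv)).2
  · have : (S U.card).card ≤ U.card := Finset.card_filter_le _ _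
    omega

end P2

open P2

theorem pkg_P2 : S_P2 := by
  classical
  intro V G U k β p hb hb2 hb3 hc hd hk
  let f : V → V → ℝ := fun v u => fw (β ^ (p u - p v + 1))
  have hf : ∀ v u, f u v = fw (β ^ (-(p u - p v) + 1)) := fun v u => by
    simp only [f, neg_sub]
  have hle : ∀ v u, f v u + f u v ≤ 4 / 3 := fun v u => by
    rw [hf v u]
    rcases pairZ hb hb2 (p u - p v) with h | h
    · exact h.le
    · exact h.1.le
  have hds : (dsum G U : ℝ) * (4 / 3) = ∑ v ∈ U, ∑ _u ∈ nb G U v, (4 / 3 : ℝ) := by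
    simp only [dsum, Finset.sum_const, nsmul_eq_mul]
    push_cast
    rw [Finset.sum_mul]
  have h2 : ∑ v ∈ U, ∑ u ∈ nb G U v, (f v u + f u v) = 2 * ∑ v ∈ U, ∑ u ∈ nb G U v, f v u := by
    simp only [Finset.sum_add_distrib]
    rw [← sum_swap G U f]
    ring
  have hin : ∀ v ∈ U, ∑ u ∈ nb G U v, (f v u + f u v) ≤ ∑ _u ∈ nb G U v, (4 / 3 : ℝ) :=
    fun v _ => Finset.sum_le_sum fun u _ => hle v u
  have h3 := Finset.sum_le_sum hin
  have h4 : ∑ _v ∈ U, (k : ℝ) ≤ ∑ v ∈ U, ∑ u ∈ nb G U v, f v u := Finset.sum_le_sum hk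
  have h5 : ∑ _v ∈ U, (k : ℝ) = U.card * k := by simp
  have hd' : 2 * (dsum G U : ℝ) ≤ 3 * k * U.card := by exact_mod_cast hd
  have hE1 : ∑ _v ∈ U, (k : ℝ) = ∑ v ∈ U, ∑ u ∈ nb G U v, f v u := by
    apply le_antisymm h4
    nlinarith
  have hE2 : ∑ v ∈ U, ∑ u ∈ nb G U v, (f v u + f u v) =
      ∑ v ∈ U, ∑ _u ∈ nb G U v, (4 / 3 : ℝ) := by
    apply le_antisymm h3
    nlinarith
  have hV := (Finset.sum_eq_sum_iff_of_le hk).1 hE1
  have hD : ∀ v ∈ U, ∀ u ∈ nb G U v, f v u + f u v = 4 / 3 := fun v hv =>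
    (Finset.sum_eq_sum_iff_of_le fun u _ => hle v u).1
      ((Finset.sum_eq_sum_iff_of_le hin).1 hE2 v hv)
  refine ⟨?_, ?_⟩
  · have : 2 * (dsum G U : ℝ) = 3 * k * U.card := by nlinarith
    exact_mod_cast this
  rcases U.eq_empty_or_nonempty with rfl | ⟨r, hr⟩
  · exact ⟨0, by simp, by simp⟩
  have hL : 0 < Real.log β := Real.log_pos hb
  have hT : (2 * U.card + 1) * Real.log β < Real.log 3 := by
    have := Real.log_lt_log (pow_pos (by linarith) _) hb3
    rw [Real.log_pow] at this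
    exact_mod_cast this
  let a : V → ℝ := fun v => p v * Real.log β
  have hed : ∀ v ∈ U, ∀ u ∈ U, G.Adj v u → ∃ d : ℤ, |d| ≤ 1 ∧
      |a u - a v - d * Real.log 3| ≤ Real.log β ∧ 3 * f v u = 2 + d := by
    intro v hv u hu huv
    have e := hD v hv u (mem_nb.2 ⟨hu, huv⟩)
    rw [hf v u] at e
    rcases pairZ hb hb2 (p u - p v) with h | ⟨-, d, d1, d2, d3⟩
    · exact absurd e h.ne
    refine ⟨d, d1, ?_, d3⟩
    convert d2 using 2
    simp only [a]
    push_cast
    ring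
  have hl := grow hc hr a hL.le (T := Real.log 3) fun v hv u hu huv =>
    (hed v hv u hu huv).imp fun d h => h.2.1
  choose! lam hlam using hl
  have hed' : ∀ v ∈ U, ∀ u ∈ U, G.Adj v u → |lam u - lam v| ≤ 1 ∧
      3 * f v u = 2 + ((lam u - lam v : ℤ) : ℝ) := by
    intro v hv u hu huv
    obtain ⟨d, d1, d2, d3⟩ := hed v hv u hu huv
    have l1 := hlam v hv
    have l2 := hlam u hu
    have hT0 : 0 < Real.log 3 := Real.log_pos (by norm_num)
    have e : lam u - lam v = d := by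
      rw [abs_le] at d2 l1 l2
      have c1 : ((lam u - lam v - d : ℤ) : ℝ) < 1 := by
        refine lt_of_mul_lt_mul_right ?_ hT0.le
        push_cast
        linarith [d2.1, d2.2, l1.1, l1.2, l2.1, l2.2]
      have c2 : (-1 : ℝ) < ((lam u - lam v - d : ℤ) : ℝ) := by
        refine lt_of_mul_lt_mul_right ?_ hT0.le
        push_cast
        linarith [d2.1, d2.2, l1.1, l1.2, l2.1, l2.2]
      have c1' : lam u - lam v - d < 1 := by exact_mod_cast c1
      have c2' : -1 < lam u - lam v - d := by exact_mod_cast c2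
      omega
    rw [e]
    exact ⟨d1, d3⟩
  refine ⟨lam, fun u hu v hv huv => (hed' v hv u hu huv.symm).1, fun v hv => ?_⟩
  have : ((∑ u ∈ nb G U v, (2 + (lam u - lam v)) : ℤ) : ℝ) = ((3 * (k : ℤ) : ℤ) : ℝ) := by
    push_cast
    rw [hV v hv, Finset.mul_sum]
    refine Finset.sum_congr rfl fun u hu => ?_
    have := (hed' v hv u (mem_nb.1 hu).1 (mem_nb.1 hu).2).2
    push_cast at this
    exact this.symm
  exact_mod_cast this

end Pool.Agent.P.MP_08fd93_co
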