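import Pool.Agent.P.MP_08fd93_co.StC

/-! Package P3: choice of the root and of the index function in the extremal case. -/

set_option autoImplicit false

namespace Pool.Agent.P.MP_08fd93_co

open Finset

namespace P3

variable {V : Type} {G : SimpleGraph V}

theorem mem_nb {U : Finset V} {v u : V} : u ∈ nb G U v ↔ u ∈ U ∧ G.Adj v u := by
  classical
  unfold nb
  rw [Finset.mem_filter]

theorem conn_symm {A : Set V} {a b : V} (h : Conn G A a b) : Conn G A b a := by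
  induction h with
  | refl => exact Relation.ReflTransGen.refl
  | tail _ h ih => exact Relation.ReflTransGen.head ⟨h.2.1, h.1, h.2.2.symm⟩ ih

theorem cross {A : Set V} {a b : V} (h : Conn G A a b) (S : Set V) (ha : a ∈ S) (hb : b ∉ S) :
    ∃ u ∈ S, ∃ v, v ∉ S ∧ u ∈ A ∧ v ∈ A ∧ G.Adj u v := by
  induction h with
  | refl => exact absurd ha hb
  | @tail y z _ h ih =>
    by_cases hy : y ∈ S
    · exact ⟨y, hy, z, hb, h⟩
    · exact ih hy

theorem grow (A : Finset V) (hA : IsConn G (A : Set V)) {r : V} (hr : r ∈ A) (n : ℕ)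
    (hn : n < A.card) : ∃ S : Finset V, S ⊆ A ∧ r ∈ S ∧ S.card = n + 1 ∧ ∃ x : V → ℕ,
      (∀ v ∈ S, x v ≤ n) ∧ ∀ v ∈ S, v ≠ r → ∃ u ∈ S, G.Adj v u ∧ x u < x v := by
  classical
  induction n with
  | zero =>
    refine ⟨{r}, by simpa using hr, mem_singleton_self r, card_singleton r, fun _ => 0,
      fun _ _ => le_rfl, fun v hv h => absurd (mem_singleton.1 hv) h⟩
  | succ n ih =>
    obtain ⟨S, hSA, hrS, hc, x, hx, hx'⟩ := ih (by omega)
    obtain ⟨w, hwA, hwS⟩ : ∃ w ∈ A, w ∉ S := by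
      by_contra hne
      have h1 : A ⊆ S := fun w hw => by
        by_contra h
        exact hne ⟨w, hw, h⟩
      have := card_le_card h1
      omega
    obtain ⟨u, hu, v, hv, -, hvA, huv⟩ := cross (hA r hr w hwA) (S : Set V) hrS hwS
    have hu' : u ∈ S := hu
    have hv' : v ∉ S := hv
    have hup : ∀ y ∈ S, Function.update x v (n + 1) y = x y := fun y hy =>
      Function.update_of_ne (fun e : y = v => hv' (e ▸ hy)) _ _
    refine ⟨insert v S, insert_subset hvA hSA, mem_insert_of_mem hrS, by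
      rw [card_insert_of_notMem hv', hc], Function.update x v (n + 1), fun y hy => ?_,
      fun y hy hyr => ?_⟩
    · rcases mem_insert.1 hy with rfl | hy
      · rw [Function.update_self]
      · rw [hup y hy]
        exact (hx y hy).trans (Nat.le_succ n)
    · rcases mem_insert.1 hy with rfl | hy
      · refine ⟨u, mem_insert_of_mem hu', huv.symm, ?_⟩
        rw [Function.update_self, hup u hu']
        exact Nat.lt_succ_of_le (hx u hu')
      · obtain ⟨z, hz, hyz, hlt⟩ := hx' y hy hyr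
        refine ⟨z, mem_insert_of_mem hz, hyz, ?_⟩
        rw [hup y hy, hup z hz]
        exact hlt

theorem index (A : Finset V) (hA : IsConn G (A : Set V)) {r : V} (hr : r ∈ A) :
    ∃ x : V → ℕ, (∀ v ∈ A, x v < A.card) ∧ ∀ v ∈ A, v ≠ r → ∃ u ∈ A, G.Adj v u ∧ x u < x v := by
  have hp : 0 < A.card := card_pos.2 ⟨r, hr⟩
  obtain ⟨S, hSA, -, hc, x, hx, hx'⟩ := grow A hA hr (A.card - 1) (by omega)
  have e : S = A := eq_of_subset_of_card_le hSA (by omega)
  subst e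
  exact ⟨x, fun v hv => by have := hx v hv; omega, hx'⟩

/-- `a` has a neighbour one level down -/
def Top (G : SimpleGraph V) (U : Finset V) (lam : V → ℤ) (a : V) : Prop :=
  a ∈ U ∧ ∃ r ∈ U, G.Adj r a ∧ lam a = lam r + 1

/-- `C` is a nonempty part of `U` whose only outer neighbour is `a` -/
def Cl (G : SimpleGraph V) (U : Finset V) (a : V) (C : Finset V) : Prop :=
  C ⊆ U ∧ a ∉ C ∧ C.Nonempty ∧ ∀ v ∈ C, ∀ u ∈ U, G.Adj v u → u ∈ C ∨ u = a

theorem sel_of_conn [DecidableEq V] {U : Finset V} {lam : V → ℤ} {a : V} (ha : Top G U lam a)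
    (hc : IsConn G (U.erase a : Set V)) : ∃ r x, Sel G U lam r x := by
  obtain ⟨haU, r, hrU, hra, hl⟩ := ha
  have hr : r ∈ U.erase a := mem_erase.2 ⟨hra.ne, hrU⟩
  obtain ⟨x, hx, hx'⟩ := index (U.erase a) hc hr
  have hcard : (U.erase a).card + 1 = U.card := card_erase_add_one haU
  have hup : ∀ y, y ≠ a → Function.update x a (U.erase a).card y = x y := fun y hy =>
    Function.update_of_ne hy _ _
  have hlt : ∀ u ∈ U, u ≠ a → Function.update x a (U.erase a).card u <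
      Function.update x a (U.erase a).card a := fun u hu hne => by
    rw [hup u hne, Function.update_self]
    exact hx u (mem_erase.2 ⟨hne, hu⟩)
  refine ⟨r, Function.update x a (U.erase a).card, hrU, fun v hv => ?_, fun v hv hvr => ?_,
    Or.inr ⟨a, mem_nb.2 ⟨haU, hra⟩, hl, fun u hu => ?_⟩⟩
  · by_cases e : v = a
    · rw [e, Function.update_self]
      omega
    · rw [hup v e]
      have := hx v (mem_erase.2 ⟨e, hv⟩)
      omega
  · by_cases e : v = a
    · rw [e]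
      exact ⟨r, mem_nb.2 ⟨hrU, hra.symm⟩, hlt r hrU hra.ne⟩
    · obtain ⟨u, hu, hvu, h⟩ := hx' v (mem_erase.2 ⟨e, hv⟩) hvr
      refine ⟨u, mem_nb.2 ⟨(mem_erase.1 hu).2, hvu⟩, ?_⟩
      rw [hup v e, hup u (mem_erase.1 hu).1]
      exact h
  · exact hlt u (mem_nb.1 hu).1 (mem_nb.1 hu).2.ne'

theorem shrink [DecidableEq V] {U C : Finset V} {a v : V} (hU : IsConn G (U : Set V))
    (hC : Cl G U a C) (hv : v ∈ C) (hn : ¬ IsConn G (U.erase v : Set V)) :
    ∃ C' : Finset V, Cl G U v C' ∧ C'.card < C.card := by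
  classical
  obtain ⟨hCU, haC, -, hcl⟩ := hC
  have hav : a ≠ v := fun e => haC (e ▸ hv)
  obtain ⟨p, hp, hpa⟩ : ∃ p ∈ U.erase v, ¬ Conn G (U.erase v : Set V) p a := by
    by_contra h
    refine hn fun p hp q hq => ?_
    have h1 : ∀ y ∈ U.erase v, Conn G (U.erase v : Set V) y a := fun y hy => by
      by_contra h'
      exact h ⟨y, hy, h'⟩
    exact (h1 p hp).trans (conn_symm (h1 q hq))
  let D : Set V := {y | y ∈ U.erase v ∧ Conn G (U.erase v : Set V) p y}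
  have hD : ∀ y ∈ D, ∀ u ∈ U, G.Adj y u → u ∈ D ∨ u = v := fun y hy u hu hyu => by
    by_cases e : u = v
    · exact Or.inr e
    · have hu' : u ∈ U.erase v := mem_erase.2 ⟨e, hu⟩
      exact Or.inl ⟨hu', hy.2.tail ⟨hy.1, hu', hyu⟩⟩
  have hDa : ∀ y ∈ D, y ≠ a := fun y hy e => hpa (e ▸ hy.2)
  have hvD : v ∉ D := fun h => (mem_erase.1 h.1).1 rfl
  obtain ⟨w, hw, w', hw', hwU, hwU', hww⟩ :=
    cross (hU p (mem_of_mem_erase hp) v (hCU hv)) D ⟨hp, Relation.ReflTransGen.refl⟩ hvD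
  have e : w' = v := (hD w hw w' hwU' hww).resolve_left hw'
  subst e
  have hwC : w ∈ C := (hcl w' hv w hwU hww.symm).resolve_right (hDa w hw)
  refine ⟨C.filter (· ∈ D), ⟨(filter_subset _ _).trans hCU, fun h => hvD (mem_filter.1 h).2,
    ⟨w, mem_filter.2 ⟨hwC, hw⟩⟩, fun y hy u hu hyu => ?_⟩, ?_⟩
  · obtain ⟨hyC, hyD⟩ := mem_filter.1 hy
    rcases hD y hyD u hu hyu with h | h
    · exact Or.inl (mem_filter.2 ⟨(hcl y hyC u hu hyu).resolve_right (hDa u h), h⟩)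
    · exact Or.inr h
  · exact card_lt_card (filter_ssubset.2 ⟨w', hv, hvD⟩)

end P3

open P3 in
theorem pkg_P3 : S_P3 := by
  classical
  intro V G U k lam hne hU hk hL
  by_cases h1 : ∃ r ∈ U, ∀ u ∈ nb G U r, lam u = lam r
  · obtain ⟨r, hr, h⟩ := h1
    obtain ⟨x, hx, hx'⟩ := index U hU hr
    refine ⟨r, x, hr, hx, fun v hv hvr => ?_, Or.inl h⟩
    obtain ⟨u, hu, hvu, hlt⟩ := hx' v hv hvr
    exact ⟨u, mem_nb.2 ⟨hu, hvu⟩, hlt⟩
  have h2 : ∀ v ∈ U, ∃ u ∈ U, G.Adj v u ∧ lam u ≠ lam v := fun v hv => by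
    by_contra h
    refine h1 ⟨v, hv, fun u hu => ?_⟩
    by_contra h'
    exact h ⟨u, (mem_nb.1 hu).1, (mem_nb.1 hu).2, h'⟩
  by_cases h3 : ∃ a, Top G U lam a ∧ IsConn G (U.erase a : Set V)
  · obtain ⟨a, ha, hc⟩ := h3
    exact sel_of_conn ha hc
  exfalso
  have hstep : ∀ v ∈ U, ∀ u ∈ U, G.Adj v u →
      lam u = lam v ∨ lam u = lam v + 1 ∨ lam v = lam u + 1 := fun v hv u hu h => by
    have := abs_le.1 (hL.1 v hv u hu h)
    omega
  have hcl : ∀ a ∈ U, ∀ r ∈ U, G.Adj r a → Cl G U a (U.erase a) := fun a _ r hr h =>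
    ⟨erase_subset _ _, notMem_erase _ _, ⟨r, mem_erase.2 ⟨h.ne, hr⟩⟩, fun _ _ u hu _ => by
      by_cases e : u = a
      · exact Or.inr e
      · exact Or.inl (mem_erase.2 ⟨e, hu⟩)⟩
  have hex : ∃ n, ∃ a C, Top G U lam a ∧ Cl G U a C ∧ C.card = n := by
    obtain ⟨v, hv⟩ := hne
    obtain ⟨u, hu, hvu, hne⟩ := h2 v hv
    rcases hstep v hv u hu hvu with h | h | h
    · exact absurd h hne
    · exact ⟨_, u, _, ⟨hu, v, hv, hvu, h⟩, hcl u hu v hv hvu, rfl⟩
    · exact ⟨_, v, _, ⟨hv, u, hu, hvu.symm, h⟩, hcl v hv u hu hvu.symm, rfl⟩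
  obtain ⟨a, C, ha, hC, hc⟩ := Nat.find_spec hex
  have hnt : ∀ v ∈ C, ¬ Top G U lam v := fun v hv ht => by
    obtain ⟨C', hC', hlt⟩ := shrink hU hC hv fun h => h3 ⟨v, ht, h⟩
    exact Nat.find_min hex (hc ▸ hlt) ⟨v, C', ht, hC', rfl⟩
  obtain ⟨v, hv⟩ := hC.2.2.1
  have hvU : v ∈ U := hC.1 hv
  have hnb : ∀ u ∈ U, G.Adj v u → lam u = lam v ∨ (u = a ∧ lam u = lam v + 1) :=
    fun u hu hvu => by
      rcases hstep v hvU u hu hvu with h | h | h
      · exact Or.inl h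
      · exact Or.inr ⟨(hC.2.2.2 v hv u hu hvu).resolve_left fun huC =>
          hnt u huC ⟨hu, v, hvU, hvu, h⟩, h⟩
      · exact absurd ⟨hvU, u, hu, hvu.symm, h⟩ (hnt v hv)
  obtain ⟨u, hu, hvu, hne⟩ := h2 v hvU
  obtain ⟨e, hl⟩ := (hnb u hu hvu).resolve_left hne
  have hs := hL.2 v hvU
  rw [← add_sum_erase _ _ (mem_nb.2 ⟨hu, hvu⟩), sum_congr rfl (g := fun _ => (2 : ℤ))
    fun y hy => ?_, sum_const, nsmul_eq_mul] at hs
  · obtain ⟨m, hm⟩ := hk
    omega
  · obtain ⟨hy1, hy2⟩ := mem_erase.1 hy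
    rcases hnb y (mem_nb.1 hy2).1 (mem_nb.1 hy2).2 with h | h
    · rw [h, sub_self, add_zero]
    · exact absurd (h.1.trans e.symm) hy1

end Pool.Agent.P.MP_08fd93_co
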