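import Pool.Agent.P.MP_08fd93_co.StC

/-! Package P4a: extension of a colouring to an island. -/

set_option autoImplicit false

namespace Pool.Agent.P.MP_08fd93_co

open Finset

namespace P4a

open Classical

/-- the symmetric form of the weight -/
noncomputable def w (s t : ℝ) : ℝ := min (min s t) (max (max s t / 3) (2 * min s t / 3))

theorem w_comm (s t : ℝ) : w s t = w t s := by
  rw [w, w, min_comm s t, max_comm s t]

theorem w_eq (s : ℝ) {t : ℝ} (ht : 0 < t) : t * fw (s / t) = w s t := by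
  have e : t * (s / t) = s := mul_div_cancel₀ s ht.ne'
  have a : t * min (s / t) 1 = min s t := by rw [mul_min_of_nonneg _ _ ht.le, e, mul_one]
  have b : t * max (s / t) 1 = max s t := by rw [mul_max_of_nonneg _ _ ht.le, e, mul_one]
  rw [fw, w, mul_min_of_nonneg _ _ ht.le, mul_max_of_nonneg _ _ ht.le, a, ← a, ← b]
  congr 2 <;> ring

theorem w_nonneg {s t : ℝ} (hs : 0 < s) (ht : 0 < t) : 0 ≤ w s t :=
  le_min (le_min hs.le ht.le) (le_max_of_le_left (by positivity))

theorem w_ge {s t : ℝ} (h1 : w s t < s) (h2 : w s t < t) :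
    t / 3 ≤ w s t ∧ (t ≤ s → 2 * t / 3 ≤ w s t) := by
  have h : w s t = max (max s t / 3) (2 * min s t / 3) := by
    rcases min_choice (min s t) (max (max s t / 3) (2 * min s t / 3)) with e | e
    · have a := lt_min h1 h2
      rw [w, e] at a
      exact (lt_irrefl _ a).elim
    · exact e
  rw [h]
  refine ⟨le_max_of_le_left ?_, fun a => le_max_of_le_right ?_⟩
  · have := le_max_right s t
    linarith
  · rw [min_eq_right a]

variable {V : Type}

/-- total weight of the monochromatic ordered pairs -/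
noncomputable def pot (U : Finset V) (W : V → V → ℝ) (c : V → ℕ) : ℝ :=
  ∑ a ∈ U, ∑ b ∈ U, if c a = c b then W a b else 0

/-- weight at `v` of the colour `j` -/
noncomputable def mon (U : Finset V) (W : V → V → ℝ) (c : V → ℕ) (v : V) (j : ℕ) : ℝ :=
  ∑ u ∈ U.erase v, if c u = j then W u v else 0

theorem pot_eq {U : Finset V} {W : V → V → ℝ} (hW : ∀ a b, W a b = W b a) (c : V → ℕ) {v : V}
    (hv : v ∈ U) : pot U W c = pot (U.erase v) W c + 2 * mon U W c v (c v) + W v v := by
  have e : ∑ b ∈ U.erase v, (if c v = c b then W v b else 0) = mon U W c v (c v) :=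
    sum_congr rfl fun b _ => by rw [hW v b]; simp only [eq_comm]
  rw [pot, ← add_sum_erase _ _ hv, ← add_sum_erase _ _ hv, if_pos rfl, e,
    sum_congr rfl fun a _ => (add_sum_erase _ _ hv).symm, sum_add_distrib, pot, mon]
  ring

theorem mon_le {U : Finset V} {W : V → V → ℝ} (hW : ∀ a b, W a b = W b a) {c : V → ℕ} {v : V}
    (hv : v ∈ U) {j : ℕ} (h : pot U W c ≤ pot U W (Function.update c v j)) :
    mon U W c v (c v) ≤ mon U W c v j := by
  have e1 : pot (U.erase v) W (Function.update c v j) = pot (U.erase v) W c :=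
    sum_congr rfl fun a ha => sum_congr rfl fun b hb => by
      rw [Function.update_of_ne (ne_of_mem_erase ha), Function.update_of_ne (ne_of_mem_erase hb)]
  have e2 : mon U W (Function.update c v j) v j = mon U W c v j :=
    sum_congr rfl fun a ha => by rw [Function.update_of_ne (ne_of_mem_erase ha)]
  rw [pot_eq hW c hv, pot_eq hW _ hv, e1, Function.update_self, e2] at h
  linarith

theorem sum_mon_le {U : Finset V} {W : V → V → ℝ} (h0 : ∀ a b, 0 ≤ W a b) (c : V → ℕ) (v : V)
    (L : Finset ℕ) : ∑ j ∈ L, mon U W c v j ≤ ∑ u ∈ U, W u v := by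
  refine le_trans ?_ (sum_le_sum_of_subset_of_nonneg (erase_subset v U) fun a _ _ => h0 a v)
  simp only [mon]
  rw [sum_comm]
  refine sum_le_sum fun u _ => ?_
  rw [sum_ite_eq]
  split_ifs
  exacts [le_rfl, h0 u v]

theorem le_mon {U : Finset V} {W : V → V → ℝ} (h0 : ∀ a b, 0 ≤ W a b) {c : V → ℕ} {v : V}
    {j : ℕ} {T : Finset V} (hT : ∀ u ∈ T, u ∈ U ∧ u ≠ v ∧ c u = j) :
    ∑ u ∈ T, W u v ≤ mon U W c v j := by
  rw [← sum_congr rfl fun u hu => if_pos (e := (0 : ℝ)) (hT u hu).2.2]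
  refine sum_le_sum_of_subset_of_nonneg (fun u hu => mem_erase.2 ⟨(hT u hu).2.1, (hT u hu).1⟩)
    fun a _ _ => ?_
  split_ifs
  exacts [h0 a v, le_rfl]

/-- a colouring with locally minimal weight -/
theorem exists_min (U I : Finset V) (W : V → V → ℝ) (L : V → Finset ℕ) (c : V → ℕ)
    (hL : ∀ v ∈ I, (L v).Nonempty) : ∃ c' : V → ℕ, (∀ v ∈ I, c' v ∈ L v) ∧
      (∀ v, v ∉ I → c' v = c v) ∧
      ∀ v ∈ I, ∀ j ∈ L v, pot U W c' ≤ pot U W (Function.update c' v j) := by
  let S : Set (V → ℕ) := {d | (∀ v ∈ I, d v ∈ L v) ∧ ∀ v, v ∉ I → d v = c v}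
  have hf : S.Finite := by
    refine (((Set.Finite.pi' fun v : I => (L v).finite_toSet)).image
      fun g v => if h : v ∈ I then g ⟨v, h⟩ else c v).subset fun d hd => ?_
    refine ⟨fun v => d v, fun v => hd.1 v v.2, funext fun v => ?_⟩
    dsimp only
    split_ifs with h
    exacts [rfl, (hd.2 v h).symm]
  have hn : S.Nonempty := ⟨fun v => if h : v ∈ I then (hL v h).choose else c v,
    fun v h => by
      dsimp only
      rw [dif_pos h]
      exact (hL v h).choose_spec,
    fun v h => dif_neg h⟩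
  obtain ⟨d, hd, hm⟩ := Set.exists_min_image S (pot U W) hf hn
  refine ⟨d, hd.1, hd.2, fun v hv j hj => hm _ ⟨fun u hu => ?_, fun u hu => ?_⟩⟩
  · by_cases e : u = v
    · rwa [e, Function.update_self]
    · rw [Function.update_of_ne e]
      exact hd.1 u hu
  · rw [Function.update_of_ne (fun e : u = v => hu (e ▸ hv))]
    exact hd.2 u hu

/-- the weight of an edge -/
noncomputable def WW (G : SimpleGraph V) (I : Finset V) (θ : V → ℝ) (u v : V) : ℝ :=
  if G.Adj u v then
    (if u ∈ I then (if v ∈ I then w (θ u) (θ v) else θ u) else (if v ∈ I then θ v else 0))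
  else 0

theorem WW_comm (G : SimpleGraph V) (I : Finset V) (θ : V → ℝ) (u v : V) :
    WW G I θ u v = WW G I θ v u := by
  rw [WW, WW, w_comm]
  simp only [G.adj_comm u v]
  split_ifs <;> rfl

theorem WW_nonneg (G : SimpleGraph V) (I : Finset V) {θ : V → ℝ} (h : ∀ v, 0 < θ v) (u v : V) :
    0 ≤ WW G I θ u v := by
  rw [WW]
  split_ifs
  exacts [w_nonneg (h u) (h v), (h u).le, (h v).le, le_rfl, le_rfl]

theorem sum_WW (G : SimpleGraph V) {U I : Finset V} (hI : I ⊆ U) {θ : V → ℝ} (h : ∀ v, 0 < θ v)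
    {v : V} (hv : v ∈ I) : ∑ u ∈ U, WW G I θ u v =
      θ v * (∑ u ∈ nb G I v, fw (θ u / θ v) + ((nb G (U \ I) v).card : ℝ)) := by
  rw [← sum_sdiff hI, mul_add, add_comm, mul_sum, card_eq_sum_ones, Nat.cast_sum, mul_sum, nb, nb,
    sum_filter, sum_filter]
  congr 1
  · refine sum_congr rfl fun u hu => ?_
    rw [WW, if_pos hu, if_pos hv, w_eq _ (h v)]
    simp only [G.adj_comm u v]
  · refine sum_congr rfl fun u hu => ?_
    rw [WW, if_neg (mem_sdiff.1 hu).2, if_pos hv, Nat.cast_one, mul_one]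
    simp only [G.adj_comm u v]

end P4a

open P4a Classical in
theorem pkg_P4a : S_P4a := by
  intro V G U I k θ L c hI hθ hL hk hc
  have h0 := WW_nonneg G I hθ
  have hk0 : ∀ v ∈ I, (0 : ℝ) < k := fun v hv => by
    have a : 0 ≤ ∑ u ∈ U, WW G I θ u v := sum_nonneg fun u _ => h0 u v
    rw [sum_WW G hI hθ hv] at a
    exact (nonneg_of_mul_nonneg_right a (hθ v)).trans_lt (hk v hv)
  obtain ⟨d, h1, h2, h3⟩ := exists_min U I (WW G I θ) L c fun v hv =>
    card_pos.1 ((Nat.cast_pos.1 (hk0 v hv)).trans_le (hL v hv))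
  have key : ∀ v ∈ I, ∀ T : Finset V, (∀ u ∈ T, u ∈ U ∧ G.Adj v u ∧ d u = d v) →
      ∑ u ∈ T, WW G I θ u v < θ v := fun v hv T hT => by
    refine (le_mon (U := U) h0 fun u hu =>
      ⟨(hT u hu).1, (hT u hu).2.1.ne', (hT u hu).2.2⟩).trans_lt ?_
    have a := (card_nsmul_le_sum (L v) _ _ fun j hj =>
      mon_le (WW_comm G I θ) (hI hv) (h3 v hv j hj)).trans (sum_mon_le h0 d v (L v))
    rw [sum_WW G hI hθ hv, nsmul_eq_mul] at a
    have b : 0 ≤ mon U (WW G I θ) d v (d v) :=
      le_trans (le_of_eq sum_empty.symm) (le_mon (T := ∅) h0 fun u hu => (notMem_empty u hu).elim)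
    have e : (k : ℝ) ≤ (L v).card := Nat.cast_le.2 (hL v hv)
    have f := mul_lt_mul_of_pos_left (hk v hv) (hθ v)
    refine lt_of_mul_lt_mul_left (a := (k : ℝ)) ?_ (hk0 v hv).le
    nlinarith
  have inI : ∀ v ∈ I, ∀ u ∈ U, G.Adj v u → d u = d v → u ∈ I := fun v hv u hu a e => by
    by_contra n
    have b := key v hv {u} fun x hx => by
      rw [mem_singleton.1 hx]
      exact ⟨hu, a, e⟩
    rw [sum_singleton, WW, if_pos a.symm, if_neg n, if_pos hv] at b
    exact lt_irrefl _ b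
  have out : ∀ v ∈ U, v ∉ I → ∀ u ∈ U, G.Adj v u → d u = d v → u ∉ I :=
    fun v hv n u _ a e hu => n (inI u hu v hv a.symm e.symm)
  have low : ∀ v ∈ I, ∀ u ∈ U, G.Adj v u → d u = d v → θ v / 3 ≤ WW G I θ u v ∧
      (θ v ≤ θ u → 2 * θ v / 3 ≤ WW G I θ u v) := fun v hv u hu a e => by
    have hu' := inI v hv u hu a e
    have b := key v hv {u} fun x hx => by
      rw [mem_singleton.1 hx]
      exact ⟨hu, a, e⟩
    have b' := key u hu' {v} fun x hx => by
      rw [mem_singleton.1 hx]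
      exact ⟨hI hv, a.symm, e.symm⟩
    rw [sum_singleton, WW_comm] at b'
    rw [sum_singleton] at b
    rw [WW, if_pos a.symm, if_pos hu', if_pos hv] at b b' ⊢
    exact w_ge b' b
  have two : ∀ v ∈ I, ∀ u ∈ U, ∀ a ∈ U, G.Adj v u → G.Adj v a → d u = d v → d a = d v →
      θ v ≤ θ u → a = u := fun v hv u hu a ha e1 e2 e3 e4 le => by
    by_contra n
    have b := key v hv {a, u} fun x hx => by
      rcases mem_insert.1 hx with rfl | hx
      · exact ⟨ha, e2, e4⟩
      · rw [mem_singleton.1 hx]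
        exact ⟨hu, e1, e3⟩
    rw [sum_pair n] at b
    have := (low v hv a ha e2 e4).1
    have := (low v hv u hu e1 e3).2 le
    linarith
  refine ⟨d, h1, h2, fun v hv a ha b hb x hx e1 e2 e3 f1 f2 f3 => ?_,
    fun u hu v hv a ha b hb e1 e2 e3 f1 f2 f3 => ?_⟩
  · by_cases hvI : v ∈ I
    · by_contra n
      push Not at n
      have s := key v hvI {a, b, x} fun y hy => by
        rcases mem_insert.1 hy with rfl | hy
        · exact ⟨ha, e1, f1⟩
        rcases mem_insert.1 hy with rfl | hy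
        · exact ⟨hb, e2, f2⟩
        · rw [mem_singleton.1 hy]
          exact ⟨hx, e3, f3⟩
      rw [sum_insert (by simp [n.1, n.2.1]), sum_pair n.2.2] at s
      have := (low v hvI a ha e1 f1).1
      have := (low v hvI b hb e2 f2).1
      have := (low v hvI x hx e3 f3).1
      linarith
    · have a' := out v hv hvI a ha e1 f1
      have b' := out v hv hvI b hb e2 f2
      have x' := out v hv hvI x hx e3 f3
      rw [h2 v hvI] at f1 f2 f3
      rw [h2 a a'] at f1
      rw [h2 b b'] at f2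
      rw [h2 x x'] at f3
      exact hc.1 v (mem_sdiff.2 ⟨hv, hvI⟩) a (mem_sdiff.2 ⟨ha, a'⟩) b (mem_sdiff.2 ⟨hb, b'⟩) x
        (mem_sdiff.2 ⟨hx, x'⟩) e1 e2 e3 f1 f2 f3
  · by_cases huI : u ∈ I
    · rcases le_total (θ u) (θ v) with le | le
      · exact Or.inl (two u huI v hv a ha e1 e2 f1 f2 le)
      · exact Or.inr (two v (inI u huI v hv e1 f1) u hu b hb e1.symm e3 f1.symm
          (f3.trans f1.symm) le)
    · have v' := out u hu huI v hv e1 f1
      have a' := out u hu huI a ha e2 f2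
      have b' := out v hv v' b hb e3 (f3.trans f1.symm)
      rw [h2 u huI] at f1 f2 f3
      rw [h2 v v'] at f1
      rw [h2 a a'] at f2
      rw [h2 b b'] at f3
      exact hc.2 u (mem_sdiff.2 ⟨hu, huI⟩) v (mem_sdiff.2 ⟨hv, v'⟩) a (mem_sdiff.2 ⟨ha, a'⟩) b
        (mem_sdiff.2 ⟨hb, b'⟩) e1 e2 e3 f1 f2 f3

end Pool.Agent.P.MP_08fd93_co
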