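import Pool.Agent.P.MP_08fd93_co.StC

/-! Package P4b: the extremal case. -/

set_option autoImplicit false

namespace Pool.Agent.P.MP_08fd93_co

open Finset

namespace P4b

variable {V : Type} {G : SimpleGraph V} {U : Finset V}

theorem mem_nb {u v : V} : u ∈ nb G U v ↔ u ∈ U ∧ G.Adj v u := by
  classical
  simp [nb]

/-- weight at `v` of the neighbours with colour `j` -/
noncomputable def wt (G : SimpleGraph V) (U : Finset V) (w : V → V → ℝ) (c : V → ℕ) (v : V)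
    (j : ℕ) : ℝ := ∑ u ∈ (nb G U v).filter (fun u => c u = j), w u v

/-- twice the weight of the monochromatic edges -/
noncomputable def Phi (G : SimpleGraph V) (U : Finset V) (w : V → V → ℝ) (c : V → ℕ) : ℝ :=
  ∑ v ∈ U, wt G U w c v (c v)

variable {w : V → V → ℝ}

theorem wt_congr {c c' : V → ℕ} {v : V} (h : ∀ u ∈ U, u ≠ v → c u = c' u) (j : ℕ) :
    wt G U w c v j = wt G U w c' v j := by
  refine sum_congr (filter_congr fun u hu => ?_) fun _ _ => rfl
  rw [h u (mem_nb.1 hu).1 (mem_nb.1 hu).2.ne']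

theorem phi_congr {c c' : V → ℕ} (h : ∀ u ∈ U, c u = c' u) : Phi G U w c = Phi G U w c' :=
  sum_congr rfl fun v hv => by rw [h v hv, wt_congr fun u hu _ => h u hu]

open Classical in
theorem phi_split (hs : ∀ u ∈ U, ∀ v ∈ U, G.Adj v u → w u v = w v u) (c : V → ℕ) {v : V}
    (hv : v ∈ U) : Phi G U w c = (∑ a ∈ U.erase v, ∑ u ∈ U.erase v,
      if G.Adj a u ∧ c u = c a then w u a else 0) + 2 * wt G U w c v (c v) := by
  have e1 : ∀ a, wt G U w c a (c a) = ∑ u ∈ U, if G.Adj a u ∧ c u = c a then w u a else 0 := by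
    intro a
    rw [wt, nb, filter_filter, sum_filter]
  have e2 : ∑ a ∈ U.erase v, (if G.Adj a v ∧ c v = c a then w v a else 0) =
      wt G U w c v (c v) := by
    rw [e1, ← add_sum_erase _ _ hv, if_neg (fun h => h.1.ne rfl), zero_add]
    refine sum_congr rfl fun a ha => ?_
    by_cases h : G.Adj a v ∧ c v = c a
    · rw [if_pos h, if_pos ⟨h.1.symm, h.2.symm⟩, hs v hv a (mem_of_mem_erase ha) h.1]
    · rw [if_neg h, if_neg fun h' => h ⟨h'.1.symm, h'.2.symm⟩]
  rw [Phi, ← add_sum_erase _ _ hv]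
  have e3 : ∑ a ∈ U.erase v, wt G U w c a (c a) = ∑ a ∈ U.erase v,
      ((if G.Adj a v ∧ c v = c a then w v a else 0) + ∑ u ∈ U.erase v,
        if G.Adj a u ∧ c u = c a then w u a else 0) :=
    sum_congr rfl fun a _ => by rw [e1, ← add_sum_erase _ _ hv]
  rw [e3, sum_add_distrib, e2]
  ring

open Classical in
theorem phi_update (hs : ∀ u ∈ U, ∀ v ∈ U, G.Adj v u → w u v = w v u) (c : V → ℕ) {v : V}
    (hv : v ∈ U) (j : ℕ) : Phi G U w (Function.update c v j) + 2 * wt G U w c v (c v) =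
      Phi G U w c + 2 * wt G U w c v j := by
  rw [phi_split hs c hv, phi_split hs _ hv, Function.update_self,
    wt_congr (c := Function.update c v j) (c' := c) fun u _ hu => Function.update_of_ne hu _ _]
  have : (∑ a ∈ U.erase v, ∑ u ∈ U.erase v, if G.Adj a u ∧ Function.update c v j u =
      Function.update c v j a then w u a else 0) = ∑ a ∈ U.erase v, ∑ u ∈ U.erase v,
      if G.Adj a u ∧ c u = c a then w u a else 0 :=
    sum_congr rfl fun a ha => sum_congr rfl fun u hu => by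
      rw [Function.update_of_ne (ne_of_mem_erase ha), Function.update_of_ne (ne_of_mem_erase hu)]
  rw [this]
  ring

theorem exists_min (G : SimpleGraph V) (w : V → V → ℝ) {L : V → Finset ℕ}
    (hL : ∀ v ∈ U, (L v).Nonempty) : ∃ c : V → ℕ, (∀ v ∈ U, c v ∈ L v) ∧
      ∀ c' : V → ℕ, (∀ v ∈ U, c' v ∈ L v) → Phi G U w c ≤ Phi G U w c' := by
  classical
  let ex : (U → ℕ) → V → ℕ := fun c v => if h : v ∈ U then c ⟨v, h⟩ else 0
  obtain ⟨c, hc, hmin⟩ := exists_min_image (Fintype.piFinset fun v : U => L v)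
    (fun c => Phi G U w (ex c)) (Fintype.piFinset_nonempty.2 fun v => hL v v.2)
  refine ⟨ex c, fun v hv => ?_, fun c' hc' => ?_⟩
  · simp only [ex, dif_pos hv]
    exact Fintype.mem_piFinset.1 hc ⟨v, hv⟩
  · refine (hmin (fun v => c' v) (Fintype.mem_piFinset.2 fun v => hc' v v.2)).trans ?_
    exact (phi_congr fun u hu => by simp only [ex, dif_pos hu]).le

theorem sub_le (hp : ∀ u ∈ U, ∀ v ∈ U, G.Adj v u → 0 < w u v) {c : V → ℕ} {v : V} (hv : v ∈ U)
    {j : ℕ} {S : Finset V} (hS : ∀ u ∈ S, u ∈ U ∧ G.Adj v u ∧ c u = j) :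
    ∑ u ∈ S, w u v ≤ wt G U w c v j := by
  refine sum_le_sum_of_subset_of_nonneg (fun u hu => ?_) fun u hu _ => ?_
  · exact mem_filter.2 ⟨mem_nb.2 ⟨(hS u hu).1, (hS u hu).2.1⟩, (hS u hu).2.2⟩
  · have := mem_nb.1 (mem_filter.1 hu).1
    exact (hp u this.1 v hv this.2).le

theorem one_le (hp : ∀ u ∈ U, ∀ v ∈ U, G.Adj v u → 0 < w u v) {c : V → ℕ} {v a : V} (hv : v ∈ U)
    {j : ℕ} (ha : a ∈ U ∧ G.Adj v a ∧ c a = j) : w a v ≤ wt G U w c v j := by
  have := sub_le hp hv (S := {a}) (c := c) (j := j) (by simpa using ha)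
  simpa using this

theorem two_le (hp : ∀ u ∈ U, ∀ v ∈ U, G.Adj v u → 0 < w u v) {c : V → ℕ} {v a b : V}
    (hv : v ∈ U) {j : ℕ} (ha : a ∈ U ∧ G.Adj v a ∧ c a = j) (hb : b ∈ U ∧ G.Adj v b ∧ c b = j)
    (hab : a ≠ b) : w a v + w b v ≤ wt G U w c v j := by
  classical
  have := sub_le hp hv (S := {a, b}) (c := c) (j := j) (by
    intro u hu
    rcases mem_insert.1 hu with rfl | hu
    · exact ha
    · rw [mem_singleton.1 hu]
      exact hb)
  rwa [sum_pair hab] at this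

theorem three_le (hp : ∀ u ∈ U, ∀ v ∈ U, G.Adj v u → 0 < w u v) {c : V → ℕ} {v a b d : V}
    (hv : v ∈ U) {j : ℕ} (ha : a ∈ U ∧ G.Adj v a ∧ c a = j) (hb : b ∈ U ∧ G.Adj v b ∧ c b = j)
    (hd : d ∈ U ∧ G.Adj v d ∧ c d = j) (hab : a ≠ b) (had : a ≠ d) (hbd : b ≠ d) :
    w a v + w b v + w d v ≤ wt G U w c v j := by
  classical
  have := sub_le hp hv (S := {a, b, d}) (c := c) (j := j) (by
    intro u hu
    rcases mem_insert.1 hu with rfl | hu
    · exact ha
    rcases mem_insert.1 hu with rfl | hu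
    · exact hb
    · rw [mem_singleton.1 hu]
      exact hd)
  rwa [sum_insert (by simp [hab, had]), sum_pair hbd, ← add_assoc] at this

/-- the nominal weight -/
noncomputable def nom (lam : V → ℤ) (u v : V) : ℝ :=
  ((2 + (lam u - lam v) : ℤ) : ℝ) / 3 * 3 ^ lam v

/-- the edge weight -/
noncomputable def ww (lam : V → ℤ) (y : V → ℝ) (u v : V) : ℝ := nom lam u v * min (y u) (y v)

/-- the vertex weight -/
noncomputable def th (lam : V → ℤ) (y : V → ℝ) (v : V) : ℝ := 3 ^ lam v * y v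

variable {lam : V → ℤ} {y : V → ℝ}

theorem nom_cases {u v : V} (h : |lam u - lam v| ≤ 1) :
    (lam v = lam u + 1 ∧ (3 : ℝ) ^ lam v = 3 * 3 ^ lam u ∧ nom lam u v = 3 ^ lam u ∧
      nom lam v u = 3 ^ lam u) ∨
    (lam u = lam v ∧ (3 : ℝ) ^ lam u = 3 ^ lam v ∧ nom lam u v = 2 / 3 * 3 ^ lam v ∧
      nom lam v u = 2 / 3 * 3 ^ lam v) ∨
    (lam u = lam v + 1 ∧ (3 : ℝ) ^ lam u = 3 * 3 ^ lam v ∧ nom lam u v = 3 ^ lam v ∧
      nom lam v u = 3 ^ lam v) := by
  have key : ∀ a b : V, lam b = lam a + 1 → (3 : ℝ) ^ lam b = 3 * 3 ^ lam a ∧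
      nom lam a b = 3 ^ lam a ∧ nom lam b a = 3 ^ lam a := by
    intro a b e
    have e1 : (3 : ℝ) ^ lam b = 3 * 3 ^ lam a := by
      rw [e, zpow_add_one₀ (by norm_num), mul_comm]
    have e2 : (2 + (lam a - lam b) : ℤ) = 1 := by omega
    have e3 : (2 + (lam b - lam a) : ℤ) = 3 := by omega
    refine ⟨e1, ?_, ?_⟩
    · rw [nom, e2, e1]
      push_cast
      ring
    · rw [nom, e3]
      push_cast
      ring
  obtain ⟨h1, h2⟩ := abs_le.1 h
  rcases lt_trichotomy (lam u) (lam v) with h3 | h3 | h3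
  · exact Or.inl ⟨by omega, key u v (by omega)⟩
  · refine Or.inr (Or.inl ⟨h3, by rw [h3], ?_, ?_⟩) <;> simp [nom, h3]
  · obtain ⟨a1, a2, a3⟩ := key v u (by omega)
    exact Or.inr (Or.inr ⟨by omega, a1, a3, a2⟩)

theorem p3 (n : ℤ) : (0 : ℝ) < 3 ^ n := by positivity

theorem nom_pos {u v : V} (h : |lam u - lam v| ≤ 1) : 0 < nom lam u v := by
  have := p3 (lam u)
  have := p3 (lam v)
  rcases nom_cases h with ⟨-, -, e, -⟩ | ⟨-, -, e, -⟩ | ⟨-, -, e, -⟩ <;> rw [e] <;> positivity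

theorem ww_symm {u v : V} (h : |lam u - lam v| ≤ 1) : ww lam y u v = ww lam y v u := by
  rw [ww, ww, min_comm]
  rcases nom_cases h with ⟨-, -, e, e'⟩ | ⟨-, -, e, e'⟩ | ⟨-, -, e, e'⟩ <;> rw [e, e']

section
variable {u v : V} (h : |lam u - lam v| ≤ 1) (hu : 1 ≤ y u ∧ y u ≤ 4 / 3)
  (hv : 1 ≤ y v ∧ y v ≤ 4 / 3)
include h hu hv

theorem third (hlt : ww lam y u v < th lam y u) : th lam y v / 3 ≤ ww lam y u v := by
  have := p3 (lam u)
  have := p3 (lam v)
  obtain ⟨_, _⟩ := hu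
  obtain ⟨_, _⟩ := hv
  rw [ww, th] at *
  rcases nom_cases h with ⟨-, e1, e, -⟩ | ⟨-, e1, e, -⟩ | ⟨-, e1, e, -⟩ <;>
    rcases le_total (y u) (y v) with h1 | h1 <;>
    simp only [e, e1, min_eq_left h1, min_eq_right h1] at * <;> nlinarith

theorem twothirds : 2 / 3 * th lam y v ≤ ww lam y u v ∨ 2 / 3 * th lam y u ≤ ww lam y u v := by
  have := p3 (lam u)
  have := p3 (lam v)
  obtain ⟨_, _⟩ := hu
  obtain ⟨_, _⟩ := hv
  rw [ww, th, th]
  rcases nom_cases h with ⟨-, e1, e, -⟩ | ⟨-, e1, e, -⟩ | ⟨-, e1, e, -⟩ <;>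
    rcases le_total (y u) (y v) with h1 | h1 <;>
    simp only [e, e1, min_eq_left h1, min_eq_right h1] <;>
    first
    | (left; nlinarith)
    | (right; nlinarith)

theorem half (hy : y u < y v) (hlt : ww lam y u v < th lam y u) :
    th lam y v / 2 ≤ ww lam y u v ∧
      (2 / 3 * th lam y v ≤ ww lam y u v → 3 / 4 * th lam y v ≤ ww lam y u v) := by
  have := p3 (lam u)
  have := p3 (lam v)
  obtain ⟨_, _⟩ := hu
  obtain ⟨_, _⟩ := hv
  rw [ww, th] at *
  rcases nom_cases h with ⟨-, e1, e, -⟩ | ⟨-, e1, e, -⟩ | ⟨-, e1, e, -⟩ <;>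
    simp only [e, e1, min_eq_left hy.le] at * <;>
    refine ⟨by nlinarith, fun _ => by nlinarith⟩

theorem top (hy : y u < y v) (hl : lam v = lam u + 1) :
    ww lam y u v = th lam y u ∧ th lam y v / 4 ≤ ww lam y u v := by
  have := p3 (lam u)
  obtain ⟨_, _⟩ := hu
  obtain ⟨_, _⟩ := hv
  rw [ww, th, th]
  rcases nom_cases h with ⟨-, e1, e, -⟩ | ⟨e0, -⟩ | ⟨e0, -⟩
  · rw [e, e1, min_eq_left hy.le]
    exact ⟨rfl, by nlinarith⟩
  · omega
  · omega

end

/-- The final check. -/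
theorem good (hl : ∀ u ∈ U, ∀ v ∈ U, G.Adj u v → |lam u - lam v| ≤ 1)
    (hy : ∀ v ∈ U, 1 ≤ y v ∧ y v ≤ 4 / 3) {c : V → ℕ} {Ex : V → Prop} {a : V}
    (h1 : ∀ v ∈ U, ¬ Ex v → wt G U (ww lam y) c v (c v) < th lam y v)
    (h2 : ∀ r r', Ex r → Ex r' → r = r')
    (h3 : ∀ r ∈ U, Ex r → (∀ u ∈ U, G.Adj r u → c u = c r → u = a) ∧ lam a = lam r + 1 ∧
      ∀ u ∈ U, G.Adj a u → y u < y a) : Good3 G U c := by
  have hp : ∀ u ∈ U, ∀ v ∈ U, G.Adj v u → 0 < ww lam y u v := fun u hu v hv h =>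
    mul_pos (nom_pos (hl u hu v hv h.symm))
      (lt_min (by linarith [(hy u hu).1]) (by linarith [(hy v hv).1]))
  have lt : ∀ u ∈ U, ∀ v ∈ U, G.Adj v u → c u = c v → ¬ Ex u → ww lam y u v < th lam y u := by
    intro u hu v hv h hc hE
    rw [ww_symm (hl u hu v hv h.symm)]
    exact (one_le hp hu ⟨hv, h.symm, hc.symm⟩).trans_lt (h1 u hu hE)
  have t3 : ∀ u ∈ U, ∀ v ∈ U, G.Adj v u → c u = c v → ¬ Ex u → th lam y v / 3 ≤ ww lam y u v :=
    fun u hu v hv h hc hE => third (hl u hu v hv h.symm) (hy u hu) (hy v hv) (lt u hu v hv h hc hE)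
  have t2 : ∀ v ∈ U, ∀ r ∈ U, Ex r → G.Adj v r → c r = c v → ∀ u ∈ U, G.Adj v u → c u = c v →
      u ≠ r → th lam y v / 2 ≤ ww lam y u v ∧
        (2 / 3 * th lam y v ≤ ww lam y u v → 3 / 4 * th lam y v ≤ ww lam y u v) := by
    intro v hv r hr hE h hc u hu h' hc' hne
    obtain ⟨a1, -, a3⟩ := h3 r hr hE
    have e := a1 v hv h.symm hc.symm
    subst e
    exact half (hl u hu v hv h'.symm) (hy u hu) (hy v hv) (a3 u hu h')
      (lt u hu v hv h' hc' fun hE' => hne (h2 u r hE' hE))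
  have key : ∀ u ∈ U, ∀ v ∈ U, ∀ b ∈ U, G.Adj v u → G.Adj v b → c u = c v → c b = c v → ¬ Ex v →
      b ≠ u → 2 / 3 * th lam y v ≤ ww lam y u v → False := by
    intro u hu v hv b hb h h' hc hc' hE hne h23
    have s := (two_le hp hv ⟨hu, h, hc⟩ ⟨hb, h', hc'⟩ hne.symm).trans_lt (h1 v hv hE)
    by_cases hb' : Ex b
    · have q := (t2 v hv b hb hb' h' hc' u hu h hc hne.symm).2 h23
      obtain ⟨a1, a2, a3⟩ := h3 b hb hb'
      have e := a1 v hv h'.symm hc'.symm
      subst e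
      have := (top (hl b hb v hv h'.symm) (hy b hb) (hy v hv) (a3 b hb h') a2).2
      linarith
    · have := t3 b hb v hv h' hc' hb'
      linarith
  constructor
  · intro v hv p hp' q hq d hd e1 e2 e3 c1 c2 c3
    by_contra hcon
    simp only [not_or] at hcon
    obtain ⟨n1, n2, n3⟩ := hcon
    by_cases hE : Ex v
    · exact n1 (((h3 v hv hE).1 p hp' e1 c1).trans ((h3 v hv hE).1 q hq e2 c2).symm)
    have hlt := h1 v hv hE
    have two : ∀ r ∈ U, Ex r → G.Adj v r → c r = c v → ∀ u ∈ U, G.Adj v u → c u = c v →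
        ∀ u' ∈ U, G.Adj v u' → c u' = c v → u ≠ r → u' ≠ r → u ≠ u' → False := by
      intro r hr hE' f1 g1 u hu f2 g2 u' hu' f3 g3 m1 m2 m3
      have s := two_le hp hv ⟨hu, f2, g2⟩ ⟨hu', f3, g3⟩ m3
      have s1 := (t2 v hv r hr hE' f1 g1 u hu f2 g2 m1).1
      have s2 := (t2 v hv r hr hE' f1 g1 u' hu' f3 g3 m2).1
      linarith
    by_cases hEp : Ex p
    · exact two p hp' hEp e1 c1 q hq e2 c2 d hd e3 c3 (Ne.symm n1) (Ne.symm n2) n3
    by_cases hEq : Ex q
    · exact two q hq hEq e2 c2 p hp' e1 c1 d hd e3 c3 n1 (Ne.symm n3) n2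
    by_cases hEd : Ex d
    · exact two d hd hEd e3 c3 p hp' e1 c1 q hq e2 c2 n2 n3 n1
    have s := three_le hp hv ⟨hp', e1, c1⟩ ⟨hq, e2, c2⟩ ⟨hd, e3, c3⟩ n1 n2 n3
    have s1 := t3 p hp' v hv e1 c1 hEp
    have s2 := t3 q hq v hv e2 c2 hEq
    have s3 := t3 d hd v hv e3 c3 hEd
    linarith
  · intro u hu v hv p hp' q hq e1 e2 e3 c1 c2 c3
    by_contra hcon
    simp only [not_or] at hcon
    obtain ⟨n1, n2⟩ := hcon
    by_cases hEu : Ex u
    · exact n1 (((h3 u hu hEu).1 p hp' e2 c2).trans ((h3 u hu hEu).1 v hv e1 c1).symm)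
    by_cases hEv : Ex v
    · exact n2 (((h3 v hv hEv).1 q hq e3 (c3.trans c1.symm)).trans
        ((h3 v hv hEv).1 u hu e1.symm c1.symm).symm)
    rcases twothirds (hl u hu v hv e1) (hy u hu) (hy v hv) with h | h
    · exact key u hu v hv q hq e1.symm e3 c1.symm (c3.trans c1.symm) hEv n2 h
    · rw [ww_symm (hl u hu v hv e1)] at h
      exact key v hv u hu p hp' e1 e2 c1 c2 hEu n1 h

end P4b

open P4b in
theorem pkg_P4b : S_P4b := by
  intro V G U k lam r x L0 hk hlev hsel hL0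
  classical
  obtain ⟨hl, hsum⟩ := hlev
  obtain ⟨hr, hx, hlow, hcase⟩ := hsel
  have hL1 : ∀ v, ∃ T : Finset ℕ, v ∈ U → T ⊆ L0 v ∧ T.card = k := by
    intro v
    by_cases hv : v ∈ U
    · obtain ⟨T, h1, h2⟩ := exists_subset_card_eq (hL0 v hv)
      exact ⟨T, fun _ => ⟨h1, h2⟩⟩
    · exact ⟨∅, fun h => absurd h hv⟩
  choose L hL using hL1
  suffices H : ∃ c : V → ℕ, (∀ v ∈ U, c v ∈ L v) ∧ Good3 G U c by
    obtain ⟨c, h1, h2⟩ := H
    exact ⟨c, fun v hv => (hL v hv).1 (h1 v hv), h2⟩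
  have hn : (0 : ℝ) < 3 * ((U.card : ℝ) + 1) := by positivity
  let y : V → ℝ := fun v => 1 + (x v : ℝ) / (3 * ((U.card : ℝ) + 1))
  have hy : ∀ v ∈ U, 1 ≤ y v ∧ y v ≤ 4 / 3 := by
    intro v hv
    have h1 : (x v : ℝ) ≤ U.card := by exact_mod_cast (hx v hv).le
    have h2 : (x v : ℝ) / (3 * ((U.card : ℝ) + 1)) ≤ 1 / 3 := by
      rw [div_le_iff₀ hn]
      linarith
    have h3 : 0 ≤ (x v : ℝ) / (3 * ((U.card : ℝ) + 1)) := by positivity
    constructor <;> simp only [y] <;> linarith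
  have hlt : ∀ u v, x u < x v → y u < y v := by
    intro u v h
    have h1 : (x u : ℝ) < x v := by exact_mod_cast h
    have := div_lt_div_of_pos_right h1 hn
    simp only [y]
    linarith
  have hkR : (0 : ℝ) < k := by exact_mod_cast hk
  have hp : ∀ u ∈ U, ∀ v ∈ U, G.Adj v u → 0 < ww lam y u v := fun u hu v hv h =>
    mul_pos (nom_pos (hl u hu v hv h.symm))
      (lt_min (by linarith [(hy u hu).1]) (by linarith [(hy v hv).1]))
  have hs : ∀ u ∈ U, ∀ v ∈ U, G.Adj v u → ww lam y u v = ww lam y v u := fun u hu v hv h =>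
    ww_symm (hl u hu v hv h.symm)
  have hnom : ∀ v ∈ U, ∑ u ∈ nb G U v, nom lam u v * y v = k * th lam y v := by
    intro v hv
    have h1 : ∑ u ∈ nb G U v, ((2 + (lam u - lam v) : ℤ) : ℝ) = 3 * k := by
      exact_mod_cast hsum v hv
    simp only [nom]
    rw [← sum_mul, ← sum_mul, ← sum_div, h1, th]
    ring
  have hle : ∀ v ∈ U, ∀ u ∈ nb G U v, ww lam y u v ≤ nom lam u v * y v := fun v hv u hu =>
    mul_le_mul_of_nonneg_left (min_le_right _ _)
      (nom_pos (hl u (mem_nb.1 hu).1 v hv (mem_nb.1 hu).2.symm)).le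
  have hD : ∀ v ∈ U, v ≠ r → ∑ u ∈ nb G U v, ww lam y u v < k * th lam y v := by
    intro v hv hne
    obtain ⟨u, hu, hxu⟩ := hlow v hv hne
    rw [← hnom v hv]
    refine sum_lt_sum (hle v hv) ⟨u, hu, ?_⟩
    exact mul_lt_mul_of_pos_left (min_lt_iff.2 (Or.inl (hlt u v hxu)))
      (nom_pos (hl u (mem_nb.1 hu).1 v hv (mem_nb.1 hu).2.symm))
  have hfib : ∀ (c : V → ℕ) (v : V), ∑ j ∈ L v, wt G U (ww lam y) c v j =
      ∑ u ∈ (nb G U v).filter (fun u => c u ∈ L v), ww lam y u v := fun c v =>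
    sum_fiberwise_eq_sum_filter _ _ _ _
  have hfil : ∀ (c : V → ℕ), ∀ v ∈ U, ∑ u ∈ (nb G U v).filter (fun u => c u ∈ L v),
      ww lam y u v ≤ ∑ u ∈ nb G U v, ww lam y u v := fun c v hv =>
    sum_le_sum_of_subset_of_nonneg (filter_subset _ _) fun u hu _ =>
      (hp u (mem_nb.1 hu).1 v hv (mem_nb.1 hu).2).le
  have hupd : ∀ c : V → ℕ, (∀ v ∈ U, c v ∈ L v) → ∀ v, ∀ j ∈ L v, ∀ u ∈ U,
      Function.update c v j u ∈ L u := by
    intro c hc v j hj u hu
    by_cases h : u = v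
    · subst h
      rwa [Function.update_self]
    · rw [Function.update_of_ne h]
      exact hc u hu
  have hloc : ∀ c : V → ℕ, (∀ v ∈ U, c v ∈ L v) → (∀ c' : V → ℕ, (∀ v ∈ U, c' v ∈ L v) →
      Phi G U (ww lam y) c ≤ Phi G U (ww lam y) c') → ∀ v ∈ U, ∀ j ∈ L v,
      wt G U (ww lam y) c v (c v) ≤ wt G U (ww lam y) c v j := by
    intro c hc hmin v hv j hj
    have h1 := hmin _ (hupd c hc v j hj)
    have h2 := phi_update hs c hv j
    linarith
  have hmono : ∀ c : V → ℕ, (∀ v ∈ U, c v ∈ L v) → (∀ c' : V → ℕ, (∀ v ∈ U, c' v ∈ L v) →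
      Phi G U (ww lam y) c ≤ Phi G U (ww lam y) c') → ∀ v ∈ U, v ≠ r →
      wt G U (ww lam y) c v (c v) < th lam y v := by
    intro c hc hmin v hv hne
    have h1 := card_nsmul_le_sum (L v) _ _ (hloc c hc hmin v hv)
    rw [(hL v hv).2, nsmul_eq_mul, hfib] at h1
    exact lt_of_mul_lt_mul_left ((h1.trans (hfil c v hv)).trans_lt (hD v hv hne)) hkR.le
  obtain ⟨c, hc, hmin⟩ := exists_min (U := U) G (ww lam y) (L := L) fun v hv =>
    card_pos.1 (by rw [(hL v hv).2]; exact hk)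
  rcases lt_or_ge (wt G U (ww lam y) c r (c r)) (th lam y r) with h0 | h0
  · refine ⟨c, hc, good (Ex := fun _ => False) (a := r) hl hy (fun v hv _ => ?_)
      (fun _ _ h => h.elim) fun _ _ h => h.elim⟩
    by_cases h : v = r
    · rwa [h]
    · exact hmono c hc hmin v hv h
  have g1 : ∀ j ∈ L r, th lam y r ≤ wt G U (ww lam y) c r j := fun j hj =>
    h0.trans (hloc c hc hmin r hr j hj)
  have g2 : ∑ _j ∈ L r, th lam y r = k * th lam y r := by
    rw [sum_const, (hL r hr).2, nsmul_eq_mul]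
  have g3 := sum_le_sum g1
  have g4 := hfil c r hr
  have g5 := sum_le_sum (hle r hr)
  have g6 := hnom r hr
  have g7 := hfib c r
  have k1 : ∀ j ∈ L r, th lam y r = wt G U (ww lam y) c r j :=
    (sum_eq_sum_iff_of_le g1).1 (by linarith)
  have k2 : ∀ u ∈ nb G U r, ww lam y u r = nom lam u r * y r :=
    (sum_eq_sum_iff_of_le (hle r hr)).1 (by linarith)
  have hth : 0 < th lam y r := mul_pos (p3 _) (by linarith [(hy r hr).1])
  rcases hcase with hA | ⟨a, ha, hla, hxa⟩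
  · exfalso
    have e1 : wt G U (ww lam y) c r (c r) =
        ((nb G U r).filter (fun u => c u = c r)).card * (2 / 3 * th lam y r) := by
      rw [wt, ← nsmul_eq_mul, ← sum_const]
      refine sum_congr rfl fun u hu => ?_
      have hu' := (mem_filter.1 hu).1
      rw [k2 u hu', nom, hA u hu', th]
      push_cast
      ring
    have e2 := k1 _ (hc r hr)
    rw [e1] at e2
    have e3 : (2 * ((nb G U r).filter (fun u => c u = c r)).card : ℝ) = 3 := by
      have : (2 * ((nb G U r).filter (fun u => c u = c r)).card - 3 : ℝ) * th lam y r = 0 := by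
        linarith
      rcases mul_eq_zero.1 this with h | h
      · linarith
      · exact absurd h hth.ne'
    have e4 : 2 * ((nb G U r).filter (fun u => c u = c r)).card = 3 := by exact_mod_cast e3
    omega
  · obtain ⟨haU, hadj⟩ := mem_nb.1 ha
    have hca : c a ∈ L r := by
      by_contra hcon
      have := sum_lt_sum_of_subset (filter_subset (fun u => c u ∈ L r) (nb G U r)) ha
        (fun h => hcon (mem_filter.1 h).2) (hp a haU r hr hadj)
        (fun u hu _ => (hp u (mem_nb.1 hu).1 r hr (mem_nb.1 hu).2).le)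
      linarith
    have hwa : ww lam y a r = th lam y r := by
      rw [hs a haU r hr hadj]
      exact (top (hl r hr a haU hadj) (hy r hr) (hy a haU)
        (hlt r a (hxa r (mem_nb.2 ⟨hr, hadj.symm⟩))) hla).1
    have hc' := hupd c hc r _ hca
    have hmin' : ∀ c' : V → ℕ, (∀ v ∈ U, c' v ∈ L v) →
        Phi G U (ww lam y) (Function.update c r (c a)) ≤ Phi G U (ww lam y) c' := by
      intro c' h
      have h1 := hmin c' h
      have h2 := phi_update hs c hr (c a)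
      have h3 := k1 _ hca
      linarith
    refine ⟨_, hc', good (Ex := fun v => v = r) (a := a) hl hy (hmono _ hc' hmin')
      (fun _ _ h h' => h.trans h'.symm) fun r' _ h => ?_⟩
    subst h
    refine ⟨fun u hu hadj' hcu => ?_, hla, fun u hu h => hlt u a (hxa u (mem_nb.2 ⟨hu, h⟩))⟩
    by_contra hne
    rw [Function.update_self, Function.update_of_ne hadj'.ne'] at hcu
    have h1 := two_le hp hr (c := c) ⟨hu, hadj', hcu⟩ ⟨haU, hadj, rfl⟩ hne
    have h2 := k1 _ hca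
    have h3 := hp u hu _ hr hadj'
    linarith

end Pool.Agent.P.MP_08fd93_co
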