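import Pool.Agent.P.MP_08fd93_co.StC

/-! Package P5 for MP_08fd93_co: assembly of part C. -/

set_option autoImplicit false

namespace Pool.Agent.P.MP_08fd93_co

open Finset

namespace P5

theorem fw_mono : Monotone fw := by
  intro x y h
  unfold fw
  have h1 : min x 1 ≤ min y 1 := min_le_min_right 1 h
  have h2 : max x 1 ≤ max y 1 := max_le_max_right 1 h
  exact min_le_min h1 (max_le_max (by linarith) (by linarith))

theorem fw_big {x : ℝ} (h : 3 ≤ x) : fw x = 1 := by
  unfold fw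
  have h1 : min x 1 = 1 := min_eq_right (by linarith)
  have h2 : max x 1 = x := max_eq_left (by linarith)
  rw [h1, h2]
  exact min_eq_left (le_max_of_le_left (by linarith))

theorem exists_base (n : ℕ) : ∃ β : ℝ, 1 < β ∧ β ^ 2 ≤ 4 / 3 ∧ β ^ n < 3 := by
  have h1 : ∀ᶠ β : ℝ in nhds 1, β ^ 2 < 4 / 3 :=
    (continuous_pow 2).continuousAt.eventually_lt continuousAt_const (by norm_num)
  have h2 : ∀ᶠ β : ℝ in nhds 1, β ^ n < 3 :=
    (continuous_pow n).continuousAt.eventually_lt continuousAt_const (by norm_num)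
  have h3 : ∀ᶠ β : ℝ in nhdsWithin 1 (Set.Ioi 1), 1 < β ∧ β ^ 2 < 4 / 3 ∧ β ^ n < 3 :=
    (eventually_mem_nhdsWithin (a := (1 : ℝ)) (s := Set.Ioi 1)).and
      ((h1.and h2).filter_mono nhdsWithin_le_nhds)
  obtain ⟨β, e1, e2, e3⟩ := h3.exists
  exact ⟨β, e1, e2.le, e3⟩

open Classical in
/-- Colourings of two parts without edges between them combine. -/
theorem good3_split {V : Type} {G : SimpleGraph V} {U C : Finset V} {c1 c2 : V → ℕ}
    (hcl : ∀ u ∈ U, ∀ v ∈ U, G.Adj u v → u ∈ C → v ∈ C) (h1 : Good3 G C c1)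
    (h2 : Good3 G (U \ C) c2) : Good3 G U (fun v => if v ∈ C then c1 v else c2 v) := by
  have hn : ∀ u ∈ U, ∀ v ∈ U, G.Adj u v → u ∉ C → v ∉ C :=
    fun u hu v hv h hc hc' => hc (hcl v hv u hu h.symm hc')
  constructor
  · intro v hv a ha b hb d hd ea eb ed
    by_cases hC : v ∈ C
    · have ka := hcl v hv a ha ea hC
      have kb := hcl v hv b hb eb hC
      have kd := hcl v hv d hd ed hC
      simp only [if_pos hC, if_pos ka, if_pos kb, if_pos kd]
      exact h1.1 v hC a ka b kb d kd ea eb ed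
    · have ka := hn v hv a ha ea hC
      have kb := hn v hv b hb eb hC
      have kd := hn v hv d hd ed hC
      simp only [if_neg hC, if_neg ka, if_neg kb, if_neg kd]
      exact h2.1 v (mem_sdiff.2 ⟨hv, hC⟩) a (mem_sdiff.2 ⟨ha, ka⟩) b (mem_sdiff.2 ⟨hb, kb⟩) d
        (mem_sdiff.2 ⟨hd, kd⟩) ea eb ed
  · intro u hu v hv a ha b hb ev ea eb
    by_cases hC : u ∈ C
    · have kv := hcl u hu v hv ev hC
      have ka := hcl u hu a ha ea hC
      have kb := hcl v hv b hb eb kv
      simp only [if_pos hC, if_pos ka, if_pos kb, if_pos kv]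
      exact h1.2 u hC v kv a ka b kb ev ea eb
    · have kv := hn u hu v hv ev hC
      have ka := hn u hu a ha ea hC
      have kb := hn v hv b hb eb kv
      simp only [if_neg hC, if_neg ka, if_neg kb, if_neg kv]
      exact h2.2 u (mem_sdiff.2 ⟨hu, hC⟩) v (mem_sdiff.2 ⟨hv, kv⟩) a (mem_sdiff.2 ⟨ha, ka⟩) b
        (mem_sdiff.2 ⟨hb, kb⟩) ev ea eb

end P5

open P5 Classical in
theorem pkg_P5 : S_P5 := by
  intro h1 h2 h3 h4a h4b V G U k hk
  induction U using Finset.strongInduction with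
  | H U ih =>
  intro hs L hL
  have ih' : ∀ W : Finset V, W ⊂ U → ∃ c : V → ℕ, (∀ v ∈ W, c v ∈ L v) ∧ Good3 G W c :=
    fun W hW => ih W hW (fun Y hY => hs Y (hY.trans hW.subset)) L fun v hv => hL v (hW.subset hv)
  rcases U.eq_empty_or_nonempty with hU | hU
  · subst hU
    exact ⟨fun _ => 0, by simp, by simp [Good3]⟩
  by_cases hc : IsConn G (U : Set V)
  · obtain ⟨β, hb1, hb2, hb3⟩ := exists_base (2 * U.card + 1)
    have hb0 : 0 < β := by linarith
    obtain ⟨M, hM⟩ := pow_unbounded_of_one_lt (3 : ℝ) hb1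
    have hmono : Monotone fun d : ℤ => fw (β ^ d) :=
      fun d e h => fw_mono (zpow_le_zpow_right₀ hb1.le h)
    have hone : ∀ d : ℤ, (M : ℤ) ≤ d → fw (β ^ d) = 1 := by
      intro d hd
      apply fw_big
      have := zpow_le_zpow_right₀ hb1.le hd
      rw [zpow_natCast] at this
      linarith
    rcases h1 V G U (fun d => fw (β ^ d)) M k hmono hone with ⟨I, hI, hne, p, hp⟩ | ⟨p, hp⟩
    · obtain ⟨c, hc1, hc2⟩ := ih' (U \ I) (sdiff_ssubset hI hne)
      obtain ⟨c', e1, e2, e3⟩ := h4a V G U I k (fun v => β ^ p v) L c hI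
        (fun v => zpow_pos hb0 _) (fun v hv => hL v (hI hv))
        (fun v hv => by
          have := hp v hv
          simp only [zpow_sub₀ hb0.ne'] at this
          exact this) hc2
      refine ⟨c', fun v hv => ?_, e3⟩
      by_cases hv' : v ∈ I
      · exact e1 v hv'
      · rw [e2 v hv']
        exact hc1 v (mem_sdiff.2 ⟨hv, hv'⟩)
    · have hsU := hs U Subset.rfl hU
      obtain ⟨e, lam, hl⟩ := h2 V G U k β p hb1 hb2 hb3 hc (by omega) hp
      have hev : Even k := Nat.even_iff.2 (by omega)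
      obtain ⟨r, x, hsel⟩ := h3 V G U k lam hU hc hev hl
      exact h4b V G U k lam r x L hk hl hsel hL
  · unfold IsConn at hc
    push Not at hc
    obtain ⟨a, ha, b, hb, hab⟩ := hc
    have ha : a ∈ U := ha
    have hb : b ∈ U := hb
    let C : Finset V := U.filter fun y => Conn G (U : Set V) a y
    have hCU : C ⊆ U := filter_subset _ _
    have haC : a ∈ C := mem_filter.2 ⟨ha, Relation.ReflTransGen.refl⟩
    have hbC : b ∉ C := fun h => hab (mem_filter.1 h).2
    obtain ⟨c1, e1, g1⟩ := ih' C (ssubset_iff_of_subset hCU |>.2 ⟨b, hb, hbC⟩)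
    obtain ⟨c2, e2, g2⟩ := ih' (U \ C) (sdiff_ssubset hCU ⟨a, haC⟩)
    refine ⟨_, fun v hv => ?_, good3_split (C := C) (fun u hu v hv h hC => ?_) g1 g2⟩
    · by_cases hC : v ∈ C
      · simp only [if_pos hC]
        exact e1 v hC
      · simp only [if_neg hC]
        exact e2 v (mem_sdiff.2 ⟨hv, hC⟩)
    · exact mem_filter.2 ⟨hv, (mem_filter.1 hC).2.tail ⟨hu, hv, h⟩⟩

end Pool.Agent.P.MP_08fd93_co
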