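import Pool.Agent.P.MP_08fd93_co.PkEuler
import Pool.Agent.P.MP_08fd93_co.PkLift
import Pool.Agent.P.MP_08fd93_co.PkP1
import Pool.Agent.P.MP_08fd93_co.PkP2
import Pool.Agent.P.MP_08fd93_co.PkP3
import Pool.Agent.P.MP_08fd93_co.PkP4a
import Pool.Agent.P.MP_08fd93_co.PkP4b
import Pool.Agent.P.MP_08fd93_co.PkP5

/-! Assembly of the packages for the clustered list colouring. -/

set_option autoImplicit false

namespace Pool.Agent.P.MP_08fd93_co

open Finset

theorem all_C : S_C := pkg_P5 pkg_P1 pkg_P2 pkg_P3 pkg_P4a pkg_P4b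

theorem dsum_eq {V : Type} (G : SimpleGraph V) (Y : Finset V) :
    dsum G Y = ∑ v ∈ Y, {u | u ∈ Y ∧ G.Adj v u}.ncard := by
  classical
  unfold dsum
  refine sum_congr rfl fun v _ => ?_
  rw [← Set.ncard_coe_finset]
  congr 1
  ext u
  simp [nb]

theorem tor_dsum {V : Type} [Fintype V] (G : SimpleGraph V) (h : Tor G) (Y : Finset V) :
    dsum G Y ≤ 6 * Y.card := by
  obtain ⟨m, s, t, f, c, k, h1, h2⟩ := pkg_Lift V G h
  exact pkg_Euler V G m s t f c k h1 h2 Y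

theorem all_C' (V : Type) [Fintype V] (G : SimpleGraph V) (k : ℕ)
    (h : (k = 4 ∧ Tor G) ∨ (0 < k ∧ ∀ Y : Finset V, Y.Nonempty →
      2 * (∑ v ∈ Y, {u | u ∈ Y ∧ G.Adj v u}.ncard) + k % 2 ≤ 3 * k * Y.card))
    (L : V → Finset ℕ) (hL : ∀ v, k ≤ (L v).card) :
    ∃ c : V → ℕ, (∀ v, c v ∈ L v) ∧
      (∀ v a b d, G.Adj v a → G.Adj v b → G.Adj v d → c a = c v → c b = c v → c d = c v →
        a = b ∨ a = d ∨ b = d) ∧
      (∀ u v a b, G.Adj u v → G.Adj u a → G.Adj v b → c v = c u → c a = c u → c b = c u →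
        a = v ∨ b = u) := by
  have key : 0 < k ∧ ∀ Y : Finset V, Y ⊆ univ → Y.Nonempty →
      2 * dsum G Y + k % 2 ≤ 3 * k * Y.card := by
    rcases h with ⟨rfl, h⟩ | ⟨h0, h⟩
    · refine ⟨by norm_num, fun Y _ _ => ?_⟩
      have := tor_dsum G h Y
      omega
    · exact ⟨h0, fun Y _ hY => by rw [dsum_eq]; exact h Y hY⟩
  obtain ⟨c, h1, h2, h3⟩ := all_C V G univ k key.1 key.2 L fun v _ => hL v
  exact ⟨c, fun v => h1 v (mem_univ _),
    fun v a b d => h2 v (mem_univ _) a (mem_univ _) b (mem_univ _) d (mem_univ _),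
    fun u v a b => h3 u (mem_univ _) v (mem_univ _) a (mem_univ _) b (mem_univ _)⟩

end Pool.Agent.P.MP_08fd93_co
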