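import Pool.Agent.P.MP_08fd93_co.StA

/-! Package AsmL: assembly of the decomposition for a long rung. -/

set_option autoImplicit false

namespace Pool.Agent.P.MP_08fd93_co

namespace AsmL

section Basic

variable {W : Type} {H : SimpleGraph W}

theorem conn_symm {A : Set W} {x y : W} (h : Conn H A x y) : Conn H A y x := by
  induction h with
  | refl => exact Relation.ReflTransGen.refl
  | tail _ h2 ih => exact Relation.ReflTransGen.head ⟨h2.2.1, h2.1, h2.2.2.symm⟩ ih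

theorem conn_trans {A : Set W} {x y z : W} (h : Conn H A x y) (h' : Conn H A y z) :
    Conn H A x z := Relation.ReflTransGen.trans h h'

theorem conn_mem {A : Set W} {x y : W} (h : Conn H A x y) (hx : x ∈ A) : y ∈ A := by
  induction h with
  | refl => exact hx
  | tail _ h2 _ => exact h2.2.1

theorem conn_adj {A : Set W} {x y : W} (hx : x ∈ A) (hy : y ∈ A) (h : H.Adj x y) :
    Conn H A x y := Relation.ReflTransGen.single ⟨hx, hy, h⟩

theorem isConn_root {A : Set W} (r : W) (h : ∀ y ∈ A, Conn H A r y) : IsConn H A :=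
  fun x hx y hy => conn_trans (conn_symm (h x hx)) (h y hy)

theorem isConn_comp (A : Set W) (x : W) : IsConn H {y | y ∈ A ∧ Conn H A x y} := by
  refine isConn_root x fun y hy => ?_
  have key : ∀ y, Conn H A x y → Conn H {y | y ∈ A ∧ Conn H A x y} x y := by
    intro y h
    induction h with
    | refl => exact Relation.ReflTransGen.refl
    | tail h1 h2 ih =>
      exact Relation.ReflTransGen.tail ih
        ⟨⟨h2.1, h1⟩, ⟨h2.2.1, Relation.ReflTransGen.tail h1 h2⟩, h2.2.2⟩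
  exact key y hy.2

theorem le2_cover {v : W} {A : Set W} (h : Le2 H v A) :
    ∃ u1 u2 : W, ∀ u ∈ A, H.Adj v u → u = u1 ∨ u = u2 := by
  by_cases h1 : ∃ u1 ∈ A, H.Adj v u1
  · obtain ⟨u1, hu1, a1⟩ := h1
    by_cases h2 : ∃ u2 ∈ A, H.Adj v u2 ∧ u2 ≠ u1
    · obtain ⟨u2, hu2, a2, hne⟩ := h2
      refine ⟨u1, u2, fun u hu a => ?_⟩
      rcases h u hu u1 hu1 u2 hu2 a a1 a2 with e | e | e
      · exact Or.inl e
      · exact Or.inr e
      · exact absurd e.symm hne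
    · refine ⟨u1, u1, fun u hu a => Or.inl ?_⟩
      by_contra hne
      exact h2 ⟨u, hu, a, hne⟩
  · exact ⟨v, v, fun u hu a => absurd ⟨u, hu, a⟩ h1⟩

theorem le2_pair (v u1 u2 : W) : Le2 H v {u1, u2} := by
  rintro a (rfl | rfl) b (rfl | rfl) c (rfl | rfl) _ _ _ <;> simp

end Basic

variable {J : Type} {Γ : SimpleGraph (J × (ℤ × ℤ))}

theorem tr_tr (a b : ℤ × ℤ) (w : J × (ℤ × ℤ)) : tr a (tr b w) = tr (b + a) w := by
  simp [tr, add_assoc]

theorem tr_zero (w : J × (ℤ × ℤ)) : tr 0 w = w := by simp [tr]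

theorem tr_inj {a : ℤ × ℤ} {x y : J × (ℤ × ℤ)} (h : tr a x = tr a y) : x = y := by
  have := congrArg (tr (-a)) h
  rwa [tr_tr, tr_tr, add_neg_cancel, tr_zero, tr_zero] at this

theorem tr_cancel {a b : ℤ × ℤ} {w : J × (ℤ × ℤ)} (h : tr a w = tr b w) : a = b :=
  add_left_cancel (congrArg Prod.snd h)

theorem fst_eq {x y : J × (ℤ × ℤ)} (h : x = y) : x.1 = y.1 := congrArg Prod.fst h

theorem eq_tr {x y : J × (ℤ × ℤ)} (h : x.1 = y.1) : x = tr (x.2 - y.2) y := by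
  refine Prod.ext h ?_
  simp [tr]

theorem conn_tr (hg : Good Γ) {A B : Set (J × (ℤ × ℤ))} (t : ℤ × ℤ) (hAB : ∀ w ∈ A, tr t w ∈ B)
    {x y : J × (ℤ × ℤ)} (h : Conn Γ A x y) : Conn Γ B (tr t x) (tr t y) := by
  induction h with
  | refl => exact Relation.ReflTransGen.refl
  | tail _ h2 ih =>
    exact Relation.ReflTransGen.tail ih ⟨hAB _ h2.1, hAB _ h2.2.1, hg.inv t _ _ h2.2.2⟩

/-- an edge can be moved to any lift of one end -/
theorem adj_move (hg : Good Γ) {x y x' : J × (ℤ × ℤ)} (h : Γ.Adj x y) (e : x'.1 = x.1) :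
    ∃ y', y'.1 = y.1 ∧ Γ.Adj x' y' := by
  refine ⟨tr (x'.2 - x.2) y, rfl, ?_⟩
  have := hg.inv (x'.2 - x.2) _ _ h
  rwa [← eq_tr e] at this

theorem quo_lift (hg : Good Γ) {v : J} {x : J × (ℤ × ℤ)} (h : (Quo Γ).Adj x.1 v) :
    ∃ y, y.1 = v ∧ Γ.Adj x y := by
  rw [Quo, SimpleGraph.fromRel_adj] at h
  obtain ⟨-, ⟨c, d, h⟩ | ⟨c, d, h⟩⟩ := h
  · exact adj_move hg h rfl
  · exact adj_move hg h.symm rfl

theorem le2_lift (hg : Good Γ) {G : SimpleGraph J} (hle : G ≤ Quo Γ) {x : J × (ℤ × ℤ)}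
    {T : Set J} {A : Set (J × (ℤ × ℤ))} (h : Le2 Γ x A)
    (hA : ∀ y, Γ.Adj x y → y.1 ∈ T → G.Adj x.1 y.1 → y ∈ A) : Le2 G x.1 T := by
  intro u hu v hv w hw au av aw
  obtain ⟨u', rfl, a1⟩ := quo_lift hg (hle au)
  obtain ⟨v', rfl, a2⟩ := quo_lift hg (hle av)
  obtain ⟨w', rfl, a3⟩ := quo_lift hg (hle aw)
  rcases h u' (hA _ a1 hu au) v' (hA _ a2 hv av) w' (hA _ a3 hw aw) a1 a2 a3 with e | e | e
  · exact Or.inl (congrArg _ e)
  · exact Or.inr (Or.inl (congrArg _ e))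
  · exact Or.inr (Or.inr (congrArg _ e))

variable {l : ℤ → J × (ℤ × ℤ)} {N : ℕ} {g s : ℤ × ℤ} {q a b : J × (ℤ × ℤ)}
  {P : Set (J × (ℤ × ℤ))}

theorem per_int (hl : Line Γ l N g) (k i : ℤ) : l (i + k * N) = tr (k • g) (l i) := by
  induction k using Int.induction_on with
  | zero => simp [tr_zero]
  | succ k ih =>
    have e : i + ((k : ℤ) + 1) * N = (i + k * N) + N := by ring
    rw [e, hl.per, ih, tr_tr, add_smul, one_smul]
  | pred k ih =>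
    have e : i + (-(k : ℤ)) * N = (i + (-(k : ℤ) - 1) * N) + N := by ring
    rw [e, hl.per] at ih
    apply tr_inj (a := g)
    rw [ih, tr_tr, sub_smul, one_smul, sub_add_cancel]

theorem ln_tr (hl : Line Γ l N g) (k : ℤ) {t : ℤ × ℤ} {w : J × (ℤ × ℤ)} (h : w ∈ Ln l t) :
    tr (k • g) w ∈ Ln l t := by
  obtain ⟨i, rfl⟩ := h
  exact ⟨i + k * N, by rw [per_int hl, tr_tr, tr_tr, add_comm]⟩

theorem ln_conn (hg : Good Γ) (hl : Line Γ l N g) {t : ℤ × ℤ} {Z : Set (J × (ℤ × ℤ))}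
    (hZ : Ln l t ⊆ Z) {w : J × (ℤ × ℤ)} (h : w ∈ Ln l t) : Conn Γ Z (tr t (l 0)) w := by
  obtain ⟨i, rfl⟩ := h
  induction i using Int.induction_on with
  | zero => exact Relation.ReflTransGen.refl
  | succ k ih => exact conn_trans ih (conn_adj (hZ ⟨_, rfl⟩) (hZ ⟨_, rfl⟩) (hg.inv t _ _ (hl.adj k)))
  | pred k ih =>
    refine conn_trans ih (conn_adj (hZ ⟨_, rfl⟩) (hZ ⟨_, rfl⟩) (hg.inv t _ _ ?_))
    have := (hl.adj (-(k : ℤ) - 1)).symm
    rwa [sub_add_cancel] at this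

theorem smul_inj (hl : Line Γ l N g) {k j : ℤ} (h : k • g = j • g) : k = j :=
  smul_left_injective ℤ hl.ne h

theorem ln_inf (hl : Line Γ l N g) : (Ln l 0).Infinite :=
  Set.infinite_of_injective_forall_mem (f := fun k : ℤ => tr (k • g) (tr 0 (l 0)))
    (fun _ _ h => smul_inj hl (tr_cancel h)) fun k => ln_tr hl k ⟨0, rfl⟩

theorem ln_sat {t : ℤ × ℤ} {w : J × (ℤ × ℤ)} (h : w ∈ Ln l t) : w ∈ Sat (Ln l 0) := by
  obtain ⟨i, rfl⟩ := h
  exact ⟨_, ⟨i, rfl⟩, rfl⟩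

/-- the two lines and the translates of the path between them -/
def LL (l : ℤ → J × (ℤ × ℤ)) (g s : ℤ × ℤ) (P : Set (J × (ℤ × ℤ))) : Set (J × (ℤ × ℤ)) :=
  Ln l 0 ∪ Ln l s ∪ {w | ∃ k : ℤ, ∃ x ∈ P, w = tr (k • g) x}

theorem LL_sat {w : J × (ℤ × ℤ)} (h : w ∈ LL l g s P) : w ∈ Sat (Ln l 0 ∪ P) := by
  rcases h with (h | h) | ⟨k, x, hx, rfl⟩
  · exact ⟨w, Or.inl h, rfl⟩
  · obtain ⟨y, hy, e⟩ := ln_sat h
    exact ⟨y, Or.inl hy, e⟩
  · exact ⟨x, Or.inr hx, rfl⟩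

theorem root_nb (hL : Long Γ l s q a b P) {x : J × (ℤ × ℤ)}
    (hx : x ∈ ({q, a, b} : Set (J × (ℤ × ℤ)))) : x ∈ Nb Γ (Sat (Ln l 0)) := by
  rcases hx with rfl | rfl | rfl
  · obtain ⟨y, hy, h⟩ := hL.hq
    exact ⟨y, ln_sat hy, h⟩
  · obtain ⟨y, hy, h⟩ := hL.ha
    exact ⟨y, ln_sat hy, h⟩
  · obtain ⟨y, hy, h⟩ := hL.hb
    exact ⟨y, ln_sat hy, h⟩

theorem sat_disj (hL : Long Γ l s q a b P) {w : J × (ℤ × ℤ)}
    (h1 : w ∈ Sat ({q, a, b} : Set (J × (ℤ × ℤ)))) (h2 : w ∈ Sat (Ln l 0 ∪ P)) : False := by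
  obtain ⟨x, hx, e1⟩ := h1
  obtain ⟨y, hy | hy, e2⟩ := h2
  · exact Set.disjoint_left.1 hL.rung.disj (Or.inl hx) ⟨y, hy, e1.symm.trans e2⟩
  · have := hL.rung.inj x (Or.inl hx) y (Or.inr hy) (e1.symm.trans e2)
    exact Set.disjoint_left.1 hL.far hy (this ▸ root_nb hL hx)

theorem sat_split {w : J × (ℤ × ℤ)} (h : w ∈ Sat (Ln l 0 ∪ ({q, a, b} ∪ P))) :
    w ∈ Sat (Ln l 0 ∪ P) ∨ w ∈ Sat ({q, a, b} : Set (J × (ℤ × ℤ))) := by
  obtain ⟨x, hx | hx | hx, e⟩ := h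
  · exact Or.inl ⟨x, Or.inl hx, e⟩
  · exact Or.inr ⟨x, hx, e⟩
  · exact Or.inl ⟨x, Or.inr hx, e⟩

theorem sat_left {w : J × (ℤ × ℤ)} (h : w ∈ Sat (Ln l 0 ∪ P)) :
    w ∈ Sat (Ln l 0 ∪ ({q, a, b} ∪ P)) := by
  obtain ⟨x, hx | hx, e⟩ := h
  · exact ⟨x, Or.inl hx, e⟩
  · exact ⟨x, Or.inr (Or.inr hx), e⟩

theorem sat_right {w : J × (ℤ × ℤ)} (h : w ∈ Sat ({q, a, b} : Set (J × (ℤ × ℤ)))) :
    w ∈ Sat (Ln l 0 ∪ ({q, a, b} ∪ P)) := by
  obtain ⟨x, hx, e⟩ := h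
  exact ⟨x, Or.inr (Or.inl hx), e⟩

/-- the ladder without a few of the special vertices -/
def ZZ (l : ℤ → J × (ℤ × ℤ)) (g s : ℤ × ℤ) (q a b : J × (ℤ × ℤ)) (P Ex : Set (J × (ℤ × ℤ))) :
    Set (J × (ℤ × ℤ)) :=
  (LL l g s P ∪ {w | ∃ k : ℤ, ∃ x ∈ ({q, a, b} : Set (J × (ℤ × ℤ))), w = tr (k • g) x}) \ Ex

theorem LL_ZZ (hL : Long Γ l s q a b P) {Ex : Set (J × (ℤ × ℤ))}
    (hE : Ex ⊆ Sat ({q, a, b} : Set (J × (ℤ × ℤ)))) : LL l g s P ⊆ ZZ l g s q a b P Ex :=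
  fun _ hw => ⟨Or.inl hw, fun h => sat_disj hL (hE h) (LL_sat hw)⟩

theorem ZZ_sat {Ex : Set (J × (ℤ × ℤ))} {w : J × (ℤ × ℤ)} (h : w ∈ ZZ l g s q a b P Ex) :
    w ∈ Sat (Ln l 0 ∪ ({q, a, b} ∪ P)) := by
  rcases h.1 with h | ⟨k, x, hx, rfl⟩
  · exact sat_left (LL_sat h)
  · exact sat_right ⟨x, hx, rfl⟩

theorem root_LL (hg : Good Γ) (hl : Line Γ l N g) (hL : Long Γ l s q a b P) (k : ℤ)
    {x : J × (ℤ × ℤ)} (hx : x ∈ ({q, a, b} : Set (J × (ℤ × ℤ)))) :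
    tr (k • g) x ∈ Nb Γ (LL l g s P) := by
  rcases hx with rfl | rfl | rfl
  · obtain ⟨y, hy, h⟩ := hL.hq
    exact ⟨_, Or.inl (Or.inl (ln_tr hl k hy)), hg.inv _ _ _ h⟩
  · obtain ⟨y, hy, h⟩ := hL.ha
    exact ⟨_, Or.inl (Or.inr (ln_tr hl k hy)), hg.inv _ _ _ h⟩
  · obtain ⟨y, hy, h⟩ := hL.hb
    exact ⟨_, Or.inl (Or.inr (ln_tr hl k hy)), hg.inv _ _ _ h⟩

theorem ZZ_conn (hg : Good Γ) (hl : Line Γ l N g) (hL : Long Γ l s q a b P)
    {Ex : Set (J × (ℤ × ℤ))} (hE : Ex ⊆ Sat ({q, a, b} : Set (J × (ℤ × ℤ))))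
    (h2q : tr ((2 : ℤ) • g) q ∉ Ex) (h2a : tr ((2 : ℤ) • g) a ∉ Ex)
    (hk : ∀ k : ℤ, ∃ x ∈ ({q, a, b} : Set (J × (ℤ × ℤ))), tr (k • g) x ∉ Ex) :
    IsConn Γ (ZZ l g s q a b P Ex) := by
  have hLL := LL_ZZ (g := g) hL hE
  have h0 : Ln l 0 ⊆ ZZ l g s q a b P Ex := fun w hw => hLL (Or.inl (Or.inl hw))
  have h1 : Ln l s ⊆ ZZ l g s q a b P Ex := fun w hw => hLL (Or.inl (Or.inr hw))
  have hP : ∀ k : ℤ, ∀ w ∈ P, tr (k • g) w ∈ ZZ l g s q a b P Ex :=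
    fun k w hw => hLL (Or.inr ⟨k, w, hw, rfl⟩)
  have hR : ∀ k : ℤ, ∀ x ∈ ({q, a, b} : Set (J × (ℤ × ℤ))), tr (k • g) x ∉ Ex →
      tr (k • g) x ∈ ZZ l g s q a b P Ex := fun k x hx h => ⟨Or.inr ⟨k, x, hx, rfl⟩, h⟩
  -- a special vertex is joined to every vertex of its path
  have hRP : ∀ k : ℤ, ∀ x ∈ ({q, a, b} : Set (J × (ℤ × ℤ))), tr (k • g) x ∉ Ex → ∀ w ∈ P,
      Conn Γ (ZZ l g s q a b P Ex) (tr (k • g) x) (tr (k • g) w) := by
    intro k x hx h w hw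
    have : x ∈ Nb Γ P := by
      rcases hx with rfl | rfl | rfl
      exacts [hL.pq, hL.pa, hL.pb]
    obtain ⟨y, hy, e⟩ := this
    exact conn_trans (conn_adj (hR k x hx h) (hP k y hy) (hg.inv _ _ _ e))
      (conn_tr hg _ (hP k) (hL.conn y hy w hw))
  have hq : ∀ k : ℤ, tr (k • g) q ∉ Ex →
      Conn Γ (ZZ l g s q a b P Ex) (tr 0 (l 0)) (tr (k • g) q) := by
    intro k h
    obtain ⟨y, hy, e⟩ := hL.hq
    exact conn_trans (ln_conn hg hl h0 (ln_tr hl k hy))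
      (conn_adj (h0 (ln_tr hl k hy)) (hR k q (by simp) h) (hg.inv _ _ _ e.symm))
  have hs : ∀ k : ℤ, ∀ x ∈ ({q, a, b} : Set (J × (ℤ × ℤ))), x ∈ Nb Γ (Ln l s) →
      tr (k • g) x ∉ Ex → Conn Γ (ZZ l g s q a b P Ex) (tr s (l 0)) (tr (k • g) x) := by
    intro k x hx hn h
    obtain ⟨y, hy, e⟩ := hn
    exact conn_trans (ln_conn hg hl h1 (ln_tr hl k hy))
      (conn_adj (h1 (ln_tr hl k hy)) (hR k x hx h) (hg.inv _ _ _ e.symm))
  have h01 : Conn Γ (ZZ l g s q a b P Ex) (tr 0 (l 0)) (tr s (l 0)) := by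
    obtain ⟨y, hy, -⟩ := hL.pq
    exact conn_trans (conn_trans (hq 2 h2q) (hRP 2 q (by simp) h2q y hy))
      (conn_symm (conn_trans (hs 2 a (by simp) hL.ha h2a) (hRP 2 a (by simp) h2a y hy)))
  have hroot : ∀ k : ℤ, ∀ x ∈ ({q, a, b} : Set (J × (ℤ × ℤ))), tr (k • g) x ∉ Ex →
      Conn Γ (ZZ l g s q a b P Ex) (tr 0 (l 0)) (tr (k • g) x) := by
    intro k x hx h
    have hx' := hx
    rcases hx' with rfl | rfl | rfl
    · exact hq k h
    · exact conn_trans h01 (hs k _ hx hL.ha h)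
    · exact conn_trans h01 (hs k _ hx hL.hb h)
  refine isConn_root (tr 0 (l 0)) ?_
  rintro w ⟨((hw | hw) | ⟨k, x, hx, rfl⟩) | ⟨k, x, hx, rfl⟩, hn⟩
  · exact ln_conn hg hl h0 hw
  · exact conn_trans h01 (ln_conn hg hl h1 hw)
  · obtain ⟨y, hy, h⟩ := hk k
    exact conn_trans (hroot k y hy h) (hRP k y hy h x hx)
  · exact hroot k x hx hn

/-- a fundamental domain split into main components and pockets -/
structure Dom (Γ : SimpleGraph (J × (ℤ × ℤ))) (l : ℤ → J × (ℤ × ℤ)) (g s : ℤ × ℤ)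
    (q a b : J × (ℤ × ℤ)) (P Rm Rp : Set (J × (ℤ × ℤ))) : Prop where
  fin : (Rm ∪ Rp).Finite
  off : ∀ x ∈ Rm ∪ Rp, x ∉ Sat (Ln l 0 ∪ ({q, a, b} ∪ P))
  inj : ∀ x ∈ Rm ∪ Rp, ∀ y ∈ Rm ∪ Rp, x.1 = y.1 → x = y
  dis : Disjoint Rm Rp
  cov : ∀ w, w ∉ Sat (Ln l 0 ∪ ({q, a, b} ∪ P)) → ∃ x ∈ Rm ∪ Rp, x.1 = w.1
  nm : ∀ x ∈ Rm, ∀ y, Γ.Adj x y → y ∈ Rm ∨ y ∈ LL l g s P ∨
    y ∈ ({q, tr g q, b, tr g a} : Set (J × (ℤ × ℤ)))
  np : ∀ x ∈ Rp, ∀ y, Γ.Adj x y → y ∈ Rp ∨ y ∈ LL l g s P ∨ y ∈ ({a, b} : Set (J × (ℤ × ℤ)))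

/-- every neighbour in `A` of the component of `x` lies in `B` -/
def Sees (Γ : SimpleGraph (J × (ℤ × ℤ))) (D A B : Set (J × (ℤ × ℤ))) (x : J × (ℤ × ℤ)) : Prop :=
  ∀ y z, Conn Γ D x y → Γ.Adj z y → z ∈ A → z ∈ B

theorem Sees.step {D A B : Set (J × (ℤ × ℤ))} {x y : J × (ℤ × ℤ)} (h : Sees Γ D A B x)
    (hx : x ∈ D) (hy : y ∈ D) (e : Γ.Adj x y) : Sees Γ D A B y :=
  fun w z hw => h w z (conn_trans (conn_adj hx hy e) hw)

theorem sees_tr (hg : Good Γ) {F A B B' : Set (J × (ℤ × ℤ))} {x : J × (ℤ × ℤ)} {t : ℤ × ℤ}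
    (hx : x ∈ (Sat F)ᶜ) (h : Nb Γ {y | y ∈ (Sat F)ᶜ ∧ Conn Γ (Sat F)ᶜ x y} ∩ Sat A ⊆ B')
    (hB : ∀ z, tr t z ∈ B' → z ∈ B) : Sees Γ (Sat F)ᶜ (Sat A) B (tr (-t) x) := by
  intro y z hy e hz
  have h1 := conn_tr hg (B := (Sat F)ᶜ) t (fun w hw => hw) hy
  rw [tr_tr, neg_add_cancel, tr_zero] at h1
  exact hB z (h ⟨⟨tr t y, ⟨conn_mem h1 hx, h1⟩, hg.inv t _ _ e⟩, hz⟩)

theorem exists_dom [Fintype J] (hLad : S_Lad) (hRep : S_Rep) (hg : Good Γ) (hl : Line Γ l N g)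
    (hs : Step Γ l g s) (hL : Long Γ l s q a b P) (hS : Sides Γ l g s q a b P) :
    ∃ Rm Rp, Dom Γ l g s q a b P Rm Rp := by
  set F : Set (J × (ℤ × ℤ)) := Ln l 0 ∪ ({q, a, b} ∪ P) with hF
  obtain ⟨σ, h1, h2⟩ := hRep J Γ {u | ∃ x ∈ F, u = x.1}
    (fun x => Sees Γ (Sat F)ᶜ (Sat (Ln l 0 ∪ P)) (LL l g s P) x ∧
      (Sees Γ (Sat F)ᶜ (Sat {q, a, b}) {q, tr g q, b, tr g a} x ∨
        Sees Γ (Sat F)ᶜ (Sat {q, a, b}) {a, b} x)) hg
    (fun E hE h => (hLad J Γ l N g s _ hg hl hs hL.rung E hE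
      (Set.disjoint_left.2 fun w hw => h w hw)).1)
    (fun x y hx hy e h => ⟨h.1.step hx hy e, h.2.imp (fun h => h.step hx hy e)
      fun h => h.step hx hy e⟩)
    (fun x hx => by
      obtain ⟨t, ht1, ht2⟩ := hS _ (isConn_comp (H := Γ) (Sat F)ᶜ x)
        (Set.disjoint_left.2 fun w hw => hw.1)
      refine ⟨-t, sees_tr hg hx ht1 ?_, ht2.imp (fun h => sees_tr hg hx h ?_)
        fun h => sees_tr hg hx h ?_⟩
      · rintro z ((⟨i, e⟩ | ⟨i, e⟩) | ⟨k, y, hy, e⟩)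
        · exact Or.inl (Or.inl ⟨i, by rw [tr_zero]; exact tr_inj e⟩)
        · exact Or.inl (Or.inr ⟨i, tr_inj (a := t) (by rw [tr_tr]; exact e)⟩)
        · exact Or.inr ⟨k, y, hy, tr_inj (a := t) (by rw [tr_tr]; exact e)⟩
      · rintro z (e | e | e | e)
        · exact Or.inl (tr_inj e)
        · exact Or.inr (Or.inl (tr_inj (a := t) (by rw [tr_tr]; exact e)))
        · exact Or.inr (Or.inr (Or.inl (tr_inj e)))
        · exact Or.inr (Or.inr (Or.inr (tr_inj (a := t) (by rw [tr_tr]; exact e))))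
      · rintro z (e | e)
        · exact Or.inl (tr_inj e)
        · exact Or.inr (tr_inj e))
  have hmem : ∀ x : J × (ℤ × ℤ), x ∈ {x : J × (ℤ × ℤ) | (x ∉ Sat F ∧ x.2 = σ x.1) ∧
        ¬ Sees Γ (Sat F)ᶜ (Sat {q, a, b}) {a, b} x} ∪
      {x : J × (ℤ × ℤ) | (x ∉ Sat F ∧ x.2 = σ x.1) ∧ Sees Γ (Sat F)ᶜ (Sat {q, a, b}) {a, b} x} ↔
      x ∉ Sat F ∧ x.2 = σ x.1 := by
    intro x
    constructor
    · rintro (h | h)
      exacts [h.1, h.1]
    · intro h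
      by_cases h' : Sees Γ (Sat F)ᶜ (Sat {q, a, b}) {a, b} x
      exacts [Or.inr ⟨h, h'⟩, Or.inl ⟨h, h'⟩]
  have hlift : ∀ x : J × (ℤ × ℤ), x.2 = σ x.1 → (x.1, σ x.1) = x := fun x h => Prod.ext rfl h.symm
  refine ⟨{x | (x ∉ Sat F ∧ x.2 = σ x.1) ∧ ¬ Sees Γ (Sat F)ᶜ (Sat {q, a, b}) {a, b} x},
    {x | (x ∉ Sat F ∧ x.2 = σ x.1) ∧ Sees Γ (Sat F)ᶜ (Sat {q, a, b}) {a, b} x},
    ?_, fun x hx => ((hmem x).1 hx).1, fun x hx y hy e => ?_,
    Set.disjoint_left.2 fun x hx hx' => hx.2 hx'.2, fun w hw => ?_, ?_, ?_⟩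
  · refine (Set.finite_range fun u : J => (u, σ u)).subset fun x hx => ?_
    exact ⟨x.1, hlift x ((hmem x).1 hx).2⟩
  · rw [← hlift x ((hmem x).1 hx).2, ← hlift y ((hmem y).1 hy).2, e]
  · exact ⟨(w.1, σ w.1), (hmem _).2 ⟨hw, rfl⟩, rfl⟩
  · rintro x ⟨⟨hx, hσ⟩, hn⟩ y e
    have hΦ := h1 x.1 hx
    rw [hlift x hσ] at hΦ
    by_cases hy : y ∈ Sat F
    · rcases sat_split hy with h | h
      · exact Or.inr (Or.inl (hΦ.1 x y Relation.ReflTransGen.refl e.symm h))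
      · exact Or.inr (Or.inr ((hΦ.2.resolve_right hn) x y Relation.ReflTransGen.refl e.symm h))
    · exact Or.inl ⟨⟨hy, h2 x.1 y hx hy (by rw [hlift x hσ]; exact e)⟩,
        fun h => hn (h.step hy hx e.symm)⟩
  · rintro x ⟨⟨hx, hσ⟩, hn⟩ y e
    have hΦ := h1 x.1 hx
    rw [hlift x hσ] at hΦ
    by_cases hy : y ∈ Sat F
    · rcases sat_split hy with h | h
      · exact Or.inr (Or.inl (hΦ.1 x y Relation.ReflTransGen.refl e.symm h))
      · exact Or.inr (Or.inr (hn x y Relation.ReflTransGen.refl e.symm h))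
    · exact Or.inl ⟨⟨hy, h2 x.1 y hx hy (by rw [hlift x hσ]; exact e)⟩, hn.step hx hy e⟩

/-- the disc lemma applied to a part `R` of the domain with the special vertices `Ex` -/
theorem use_dlc (hD : DLC) (hg : Good Γ) (hl : Line Γ l N g) (hL : Long Γ l s q a b P)
    {R Ex S : Set (J × (ℤ × ℤ))} (hR : R.Finite) (hEx : Ex.Finite)
    (hoff : ∀ x ∈ R, x ∉ Sat (Ln l 0 ∪ ({q, a, b} ∪ P)))
    (hE : ∀ w ∈ Ex, ∃ k : ℤ, ∃ x ∈ ({q, a, b} : Set (J × (ℤ × ℤ))), w = tr (k • g) x)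
    (h2q : tr ((2 : ℤ) • g) q ∉ Ex) (h2a : tr ((2 : ℤ) • g) a ∉ Ex)
    (hk : ∀ k : ℤ, ∃ x ∈ ({q, a, b} : Set (J × (ℤ × ℤ))), tr (k • g) x ∉ Ex)
    (hS : S ⊆ Ex) (hc : S.ncard ≤ 2) (hq : Γ.IsClique S) :
    ∃ (X : Set (J × (ℤ × ℤ))) (r : J × (ℤ × ℤ) → ℕ), X ⊆ R ∧
      (∀ x ∈ X, ∀ y, Γ.Adj x y → y ∉ LL l g s P) ∧ (∀ x ∈ X, Le2 Γ x X) ∧
      ∀ v ∈ (R ∪ Ex) \ (S ∪ X), Le2 Γ v (S ∪ {u | u ∈ (R ∪ Ex) \ X ∧ r u ≤ r v}) := by
  have hE' : Ex ⊆ Sat ({q, a, b} : Set (J × (ℤ × ℤ))) := by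
    intro w hw
    obtain ⟨k, x, hx, rfl⟩ := hE w hw
    exact ⟨x, hx, rfl⟩
  have hLL := LL_ZZ (g := g) hL hE'
  have hnb : Ex ⊆ Nb Γ (ZZ l g s q a b P Ex) := by
    intro w hw
    obtain ⟨k, x, hx, rfl⟩ := hE w hw
    obtain ⟨y, hy, e⟩ := root_LL hg hl hL k hx
    exact ⟨y, hLL hy, e⟩
  obtain ⟨X, r, h1, h2, h3⟩ := hD _ Γ (R ∪ Ex) S (ZZ l g s q a b P Ex) hg.pl hg.oe (hR.union hEx)
    (hS.trans Set.subset_union_right) hc hq (ZZ_conn hg hl hL hE' h2q h2a hk)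
    ((ln_inf hl).mono fun w hw => hLL (Or.inl (Or.inl hw)))
    (Set.disjoint_left.2 fun w hw hw' => hw'.elim (fun h => hoff w h (ZZ_sat hw)) hw.2)
    (hS.trans hnb)
  refine ⟨X, r, fun x hx => ?_, fun x hx y e hy => (h1 hx).2 ⟨y, hLL hy, e⟩, h2, h3⟩
  exact (h1 hx).1.resolve_right fun h => (h1 hx).2 (hnb h)

theorem main (hD : DLC) (hg : Good Γ) (hl : Line Γ l N g) (hL : Long Γ l s q a b P)
    {Rm Rp : Set (J × (ℤ × ℤ))} (D : Dom Γ l g s q a b P Rm Rp) : Dec (Quo Γ) := by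
  classical
  have hqa : q.1 ≠ a.1 := fun h => hL.qab (Or.inl ⟨a, by simp, h⟩)
  have hqb : q.1 ≠ b.1 := fun h => hL.qab (Or.inl ⟨b, by simp, h⟩)
  have hab : a.1 ≠ b.1 := hg.nl _ _ hL.ab
  have t0 : ∀ (k : ℤ) (x : J × (ℤ × ℤ)), tr (k • g) x = x → k = 0 := fun k x h =>
    smul_inj hl (tr_cancel (w := x) (by rw [h, zero_smul, tr_zero]))
  have t1 : ∀ (k : ℤ) (x : J × (ℤ × ℤ)), tr (k • g) x = tr g x → k = 1 := fun k x h =>
    smul_inj hl (tr_cancel (w := x) (by rw [h, one_smul]))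
  have e0 : ∀ x : J × (ℤ × ℤ), x = tr ((0 : ℤ) • g) x := fun x => by rw [zero_smul, tr_zero]
  have e1 : ∀ x : J × (ℤ × ℤ), tr g x = tr ((1 : ℤ) • g) x := fun x => by rw [one_smul]
  have nq : ∀ k : ℤ, k ≠ 0 → k ≠ 1 →
      tr (k • g) q ∉ ({q, tr g q, b, tr g a} : Set (J × (ℤ × ℤ))) := by
    rintro k h0 h1 (h | h | h | h)
    · exact h0 (t0 _ _ h)
    · exact h1 (t1 _ _ h)
    · exact hqb (fst_eq h :)
    · exact hqa (fst_eq h :)
  have na : ∀ k : ℤ, k ≠ 1 → tr (k • g) a ∉ ({q, tr g q, b, tr g a} : Set (J × (ℤ × ℤ))) := by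
    rintro k h1 (h | h | h | h)
    · exact hqa (fst_eq h).symm
    · exact hqa (fst_eq h).symm
    · exact hab (fst_eq h :)
    · exact h1 (t1 _ _ h)
  have nb' : ∀ k : ℤ, k ≠ 0 → tr (k • g) b ∉ ({q, tr g q, b, tr g a} : Set (J × (ℤ × ℤ))) := by
    rintro k h0 (h | h | h | h)
    · exact hqb (fst_eq h).symm
    · exact hqb (fst_eq h).symm
    · exact h0 (t0 _ _ h)
    · exact hab (fst_eq h).symm
  have nq2 : ∀ k : ℤ, tr (k • g) q ∉ ({a, b} : Set (J × (ℤ × ℤ))) := by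
    rintro k (h | h)
    · exact hqa (fst_eq h :)
    · exact hqb (fst_eq h :)
  obtain ⟨X1, r1, s1, f1, l1, d1⟩ := use_dlc (R := Rm) (Ex := {q, tr g q, b, tr g a}) (S := {q})
    hD hg hl hL (D.fin.subset Set.subset_union_left) (Set.toFinite _)
    (fun x hx => D.off x (Or.inl hx))
    (by
      rintro w (rfl | rfl | rfl | rfl)
      · exact ⟨0, _, by simp, e0 _⟩
      · exact ⟨1, q, by simp, e1 _⟩
      · exact ⟨0, _, by simp, e0 _⟩
      · exact ⟨1, a, by simp, e1 _⟩)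
    (nq 2 (by norm_num) (by norm_num)) (na 2 (by norm_num))
    (fun k => by
      by_cases h : k = 1
      · exact ⟨b, by simp, nb' k (by omega)⟩
      · exact ⟨a, by simp, na k h⟩)
    (by simp) (by simp) (by simp)
  obtain ⟨X2, r2, s2, f2, l2, d2⟩ := use_dlc (R := Rp) (Ex := {a, b}) (S := {a, b})
    hD hg hl hL (D.fin.subset Set.subset_union_right) (Set.toFinite _)
    (fun x hx => D.off x (Or.inr hx))
    (by
      rintro w (rfl | rfl)
      · exact ⟨0, _, by simp, e0 _⟩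
      · exact ⟨0, _, by simp, e0 _⟩)
    (nq2 2)
    (by
      rintro (h | h)
      · exact absurd (t0 _ _ h) (by norm_num)
      · exact hab (fst_eq h :))
    (fun k => ⟨q, by simp, nq2 k⟩) subset_rfl
    ((Set.ncard_insert_le _ _).trans (by simp))
    (by
      rw [SimpleGraph.isClique_pair]
      exact fun _ => hL.ab)
  have hXR : X1 ∪ X2 ⊆ Rm ∪ Rp := Set.union_subset_union s1 s2
  -- special vertices lie in the frame
  have hE1 : ∀ y ∈ ({q, tr g q, b, tr g a} : Set (J × (ℤ × ℤ))),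
      y ∈ Sat ({q, a, b} : Set (J × (ℤ × ℤ))) := by
    rintro y (rfl | rfl | rfl | rfl)
    · exact ⟨_, by simp, rfl⟩
    · exact ⟨q, by simp, rfl⟩
    · exact ⟨_, by simp, rfl⟩
    · exact ⟨a, by simp, rfl⟩
  have hE2 : ∀ y ∈ ({a, b} : Set (J × (ℤ × ℤ))), y ∈ Sat ({q, a, b} : Set (J × (ℤ × ℤ))) :=
    fun y hy => ⟨y, Or.inr hy, rfl⟩
  -- no edge between the two kinds of vertices of the big colour class
  have hno : ∀ x ∈ X1 ∪ X2, ∀ y, Γ.Adj x y → y ∉ Sat (Ln l 0 ∪ P) := by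
    rintro x (hx | hx) y e hy
    · rcases D.nm x (s1 hx) y e with h | h | h
      · exact D.off y (Or.inl h) (sat_left hy)
      · exact f1 x hx y e h
      · exact sat_disj hL (hE1 y h) hy
    · rcases D.np x (s2 hx) y e with h | h | h
      · exact D.off y (Or.inr h) (sat_left hy)
      · exact f2 x hx y e h
      · exact sat_disj hL (hE2 y h) hy
  have hno' : ∀ x ∈ Sat (Ln l 0 ∪ P), ∀ y, Γ.Adj x y → ∀ z ∈ X1 ∪ X2, y.1 ≠ z.1 := by
    intro x hx y e z hz h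
    obtain ⟨x', h1, h2⟩ := adj_move hg e.symm h.symm
    obtain ⟨w, hw, h3⟩ := hx
    exact hno z hz x' h2 ⟨w, hw, h1.trans h3⟩
  have hq1 : tr g q ∈ (Rm ∪ {q, tr g q, b, tr g a}) \ ({q} ∪ X1) := by
    refine ⟨Or.inr (by simp), ?_⟩
    rintro (h | h)
    · exact absurd (t0 1 q (by rw [one_smul]; exact h)) (by norm_num)
    · exact D.off _ (Or.inl (s1 h)) (sat_right ⟨q, by simp, rfl⟩)
  obtain ⟨u1, u2, hu⟩ := le2_cover (d1 _ hq1)
  refine ⟨{u | ∃ x ∈ (Ln l 0 ∪ P) ∪ (X1 ∪ X2), u = x.1}, {s(a.1, b.1), s(q.1, u1.1), s(q.1, u2.1)},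
    Finset.card_le_three, ?_, ?_⟩
  · rintro _ ⟨x, (⟨i, hx⟩ | hx) | hx | hx, rfl⟩
    · rw [tr_zero] at hx
      subst hx
      have hxs : l i ∈ Sat (Ln l 0 ∪ P) := ⟨_, Or.inl ⟨i, rfl⟩, rfl⟩
      refine le2_lift hg le_rfl (le2_pair _ (l (i + 1)) (l (i - 1))) ?_
      rintro y e ⟨z, (⟨j, hz⟩ | hz) | hz, h⟩ -
      · rw [tr_zero] at hz
        subst hz
        rw [eq_tr h] at e ⊢
        exact hl.ind _ _ _ e
      · obtain ⟨x', h1, h2⟩ := adj_move hg e.symm h.symm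
        exact absurd ⟨x', ⟨_, ⟨i, rfl⟩, h1⟩, h2⟩ (Set.disjoint_left.1 hL.far hz)
      · exact absurd h (hno' _ hxs y e z hz)
    · refine le2_lift hg le_rfl (hL.le2 x hx) ?_
      rintro y e ⟨z, (hz | hz) | hz, h⟩ -
      · exact absurd ⟨y, ⟨z, hz, h⟩, e⟩ (Set.disjoint_left.1 hL.far hx)
      · exact ⟨z, hz, h⟩
      · exact absurd h (hno' _ ⟨x, Or.inr hx, rfl⟩ y e z hz)
    · refine le2_lift hg le_rfl (l1 x hx) ?_
      rintro y e ⟨z, hz | hz, h⟩ -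
      · exact absurd ⟨z, hz, h⟩ (hno x (Or.inl hx) y e)
      · rcases D.nm x (s1 hx) y e with h' | h' | h'
        · have := D.inj y (Or.inl h') z (hXR hz) h
          subst this
          exact hz.resolve_right fun h2 => Set.disjoint_left.1 D.dis h' (s2 h2)
        · exact absurd h' (f1 x hx y e)
        · obtain ⟨w, hw, h3⟩ := hE1 y h'
          exact absurd (sat_right ⟨w, hw, h.symm.trans h3⟩) (D.off z (hXR hz))
    · refine le2_lift hg le_rfl (l2 x hx) ?_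
      rintro y e ⟨z, hz | hz, h⟩ -
      · exact absurd ⟨z, hz, h⟩ (hno x (Or.inr hx) y e)
      · rcases D.np x (s2 hx) y e with h' | h' | h'
        · have := D.inj y (Or.inr h') z (hXR hz) h
          subst this
          exact hz.resolve_left fun h2 => Set.disjoint_left.1 D.dis (s1 h2) h'
        · exact absurd h' (f2 x hx y e)
        · obtain ⟨w, hw, h3⟩ := hE2 y h'
          exact absurd (sat_right ⟨w, hw, h.symm.trans h3⟩) (D.off z (hXR hz))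
  · intro T hT hne
    rw [Set.union_empty]
    have hT1 : ∀ y : J × (ℤ × ℤ), y.1 ∈ T → y ∉ Sat (Ln l 0 ∪ P) :=
      fun y hy ⟨z, hz, h⟩ => hT hy ⟨z, Or.inl hz, h⟩
    have hT2 : ∀ y : J × (ℤ × ℤ), y.1 ∈ T → y ∉ X1 :=
      fun y hy h => hT hy ⟨y, Or.inr (Or.inl h), rfl⟩
    have hT3 : ∀ y : J × (ℤ × ℤ), y.1 ∈ T → y ∉ X2 :=
      fun y hy h => hT hy ⟨y, Or.inr (Or.inr h), rfl⟩
    by_cases hp : {x | x ∈ Rp ∧ x.1 ∈ T}.Nonempty
    · obtain ⟨v, ⟨hv, hvT⟩, hmax⟩ := Set.exists_max_image _ r2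
        ((D.fin.subset Set.subset_union_right).subset fun x hx => hx.1) hp
      refine ⟨v.1, hvT, le2_lift hg (SimpleGraph.deleteEdges_le _) (d2 v ⟨Or.inl hv, ?_⟩) ?_⟩
      · rintro (h | h)
        · exact D.off v (Or.inr hv) (sat_right (hE2 v h))
        · exact hT3 v hvT h
      · intro y e hy _
        rcases D.np v hv y e with h | h | h
        · exact Or.inr ⟨⟨Or.inl h, hT3 y hy⟩, hmax y ⟨h, hy⟩⟩
        · exact absurd (LL_sat h) (hT1 y hy)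
        · exact Or.inl h
    · by_cases hm : {x | x ∈ Rm ∪ {b, tr g a} ∧ x.1 ∈ T}.Nonempty
      · obtain ⟨v, ⟨hv, hvT⟩, hmax⟩ := Set.exists_max_image _ r1
          (((D.fin.subset Set.subset_union_left).union (Set.toFinite _)).subset
            fun x hx => hx.1) hm
        have hsub : Rm ∪ {b, tr g a} ⊆ Rm ∪ {q, tr g q, b, tr g a} :=
          Set.union_subset_union_right _ fun x hx => Or.inr (Or.inr hx)
        have hvq : v.1 ≠ q.1 := by
          rcases hv with h | rfl | rfl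
          · exact fun e => D.off v (Or.inl h) (sat_right ⟨q, by simp, e⟩)
          · exact hqb.symm
          · exact hqa.symm
        have hok : ∀ y ∈ Rm ∪ {b, tr g a}, y.1 ∈ T →
            y ∈ {q} ∪ {u | u ∈ (Rm ∪ {q, tr g q, b, tr g a}) \ X1 ∧ r1 u ≤ r1 v} :=
          fun y h hy => Or.inr ⟨⟨hsub h, hT2 y hy⟩, hmax y ⟨h, hy⟩⟩
        refine ⟨v.1, hvT, le2_lift hg (SimpleGraph.deleteEdges_le _) (d1 v ⟨hsub hv, ?_⟩) ?_⟩
        · rintro (h | h)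
          · exact hvq (fst_eq h)
          · exact hT2 v hvT h
        · intro y e hy hdel
          have hF := (SimpleGraph.deleteEdges_adj.1 hdel).2
          simp only [Finset.coe_insert, Finset.coe_singleton, Set.mem_insert_iff,
            Set.mem_singleton_iff, not_or] at hF
          rcases hv with hv | hv
          · rcases D.nm v hv y e with h | h | h | h | h
            · exact hok y (Or.inl h) hy
            · exact absurd (LL_sat h) (hT1 y hy)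
            · exact Or.inl h
            · subst h
              rcases le_total (r1 (tr g q)) (r1 v) with h | h
              · exact Or.inr ⟨⟨hq1.1, hT2 _ hy⟩, h⟩
              · exfalso
                rcases hu v (Or.inr ⟨⟨Or.inl hv, hT2 v hvT⟩, h⟩) e.symm with rfl | rfl
                · exact hF.2.1 Sym2.eq_swap
                · exact hF.2.2 Sym2.eq_swap
            · exact hok y (Or.inr h) hy
          · have hvs : v ∈ Sat ({a, b} : Set (J × (ℤ × ℤ))) := by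
              rcases hv with rfl | rfl
              · exact ⟨_, by simp, rfl⟩
              · exact ⟨a, by simp, rfl⟩
            by_cases hyF : y ∈ Sat (Ln l 0 ∪ ({q, a, b} ∪ P))
            · exfalso
              obtain ⟨z, hz, h⟩ := (sat_split hyF).resolve_left (hT1 y hy)
              have hne' := hg.nl _ _ e
              rcases hz with rfl | hz
              · obtain ⟨x', h1, h2⟩ := adj_move hg e.symm h.symm
                obtain ⟨w, hw, h3⟩ := hvs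
                exact hL.qab (Or.inr ⟨x', ⟨w, hw, h1.trans h3⟩, h2⟩)
              · obtain ⟨w, hw, h3⟩ := hvs
                rw [h3, h] at hF hne'
                rcases hw with rfl | rfl <;> rcases hz with rfl | rfl
                · exact hne' rfl
                · exact hF.1 rfl
                · exact hF.1 Sym2.eq_swap
                · exact hne' rfl
            · obtain ⟨y0, hy0, h⟩ := D.cov y hyF
              have hy0m : y0 ∈ Rm := hy0.resolve_right fun h' => hp ⟨y0, h', h ▸ hy⟩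
              have e' := hg.inv (y0.2 - y.2) _ _ e.symm
              rw [← eq_tr h] at e'
              have hv' : tr (y0.2 - y.2) v = v := by
                obtain ⟨w, hw, h3⟩ := hvs
                have hs' : tr (y0.2 - y.2) v ∈ Sat ({q, a, b} : Set (J × (ℤ × ℤ))) :=
                  ⟨w, Or.inr hw, h3⟩
                rcases D.nm y0 hy0m _ e' with h' | h' | h' | h' | h'
                · exact absurd (sat_right hs') (D.off _ (Or.inl h'))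
                · exact (sat_disj hL hs' (LL_sat h')).elim
                · exact absurd (fst_eq h') hvq
                · exact absurd (fst_eq h') hvq
                · rcases hv with rfl | rfl <;> rcases h' with h' | h'
                  · exact h'
                  · exact absurd (fst_eq h').symm hab
                  · exact absurd (fst_eq h') hab
                  · exact h'
              rw [hv'] at e'
              have : y = y0 := hg.simp v y y0 e e'.symm h.symm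
              subst this
              exact hok y (Or.inl hy0m) hy
      · have hall : ∀ u ∈ T, u = q.1 := by
          intro u hu'
          by_cases hF : ((u, 0) : J × (ℤ × ℤ)) ∈ Sat (Ln l 0 ∪ ({q, a, b} ∪ P))
          · obtain ⟨z, hz, h⟩ := (sat_split hF).resolve_left (hT1 (u, 0) hu')
            have h' : u = z.1 := h
            rcases hz with rfl | rfl | rfl
            · exact h'
            · exact absurd ⟨tr g z, Or.inr (Or.inr rfl), h' ▸ hu'⟩ hm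
            · exact absurd ⟨z, Or.inr (Or.inl rfl), h' ▸ hu'⟩ hm
          · obtain ⟨x, hx | hx, h⟩ := D.cov _ hF
            · exact absurd ⟨x, Or.inl hx, (show x.1 = u from h) ▸ hu'⟩ hm
            · exact absurd ⟨x, hx, (show x.1 = u from h) ▸ hu'⟩ hp
        obtain ⟨v, hv⟩ := hne
        exact ⟨v, hv, fun x hx y hy _ _ _ _ _ => Or.inl ((hall x hx).trans (hall y hy).symm)⟩

end AsmL

theorem pkg_AsmL : S_AsmL := by
  intro hLad hRep hD J _ Γ l N g s q a b P hg hl hs hL hS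
  obtain ⟨Rm, Rp, D⟩ := AsmL.exists_dom hLad hRep hg hl hs hL hS
  exact AsmL.main hD hg hl hL D

end Pool.Agent.P.MP_08fd93_co
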