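import Pool.Agent.P.MP_08fd93_co.StC
import Pool.Agent.P.MP_8972a1_co.KFive

/-! Package Euler: a graph drawn on the torus has average degree at most six. -/

set_option autoImplicit false

namespace Pool.Agent.P.MP_08fd93_co

open Finset

namespace PkEuler

/-- The square box of radius `n`. -/
noncomputable def box (n : ℕ) : Finset (ℤ × ℤ) := Icc (-(n : ℤ)) n ×ˢ Icc (-(n : ℤ)) n

lemma card_box (n : ℕ) : (box n).card = (2 * n + 1) ^ 2 := by
  have : ((n : ℤ) + 1 - -(n : ℤ)).toNat = 2 * n + 1 := by omega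
  rw [box, card_product, Int.card_Icc, this, sq]

lemma mem_box {n : ℕ} {a : ℤ × ℤ} : a ∈ box n ↔ |a.1| ≤ n ∧ |a.2| ≤ n := by
  simp [box, abs_le]

lemma sh_add (a b : ℤ × ℤ) : sh (a + b) = sh a + sh b := by
  simp [sh]

lemma sh_sub {x y : ℝ × ℝ} {a b : ℤ × ℤ} (h : x + sh a = y + sh b) : x = y + sh (b - a) := by
  have : sh b = sh (b - a) + sh a := by rw [← sh_add, sub_add_cancel]
  rw [this, ← add_assoc] at h
  exact add_right_cancel h

lemma count {V E : Type} [Fintype V] [Fintype E] {s t : E → V} {f : V → ℝ × ℝ}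
    {c : E → C(unitInterval, ℝ × ℝ)} {k : E → ℤ × ℤ} (h : Lifted s t f c k) (Y : Finset V)
    (hY : Y.Nonempty) (EY : Finset E) (hE : ∀ e ∈ EY, s e ∈ Y ∧ t e ∈ Y) (R : ℕ)
    (hR : ∀ e, k e ∈ box R) (K : ℕ) :
    EY.card * (2 * K + 1) ^ 2 ≤ 3 * (Y.card * (2 * (K + R) + 1) ^ 2) := by
  classical
  have m1 : ∀ a ∈ box K, a ∈ box (K + R) := fun a ha => by
    rw [mem_box] at ha ⊢
    push_cast
    constructor <;> linarith [ha.1, ha.2, Int.natCast_nonneg R]
  have m2 : ∀ e, ∀ a ∈ box K, a + k e ∈ box (K + R) := fun e a ha => by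
    have hk := mem_box.1 (hR e)
    rw [mem_box] at ha ⊢
    push_cast
    exact ⟨(abs_add_le _ _).trans (add_le_add ha.1 hk.1),
      (abs_add_le _ _).trans (add_le_add ha.2 hk.2)⟩
  let s' : EY × box K → Y × box (K + R) := fun x =>
    (⟨s x.1, (hE _ x.1.2).1⟩, ⟨x.2, m1 _ x.2.2⟩)
  let t' : EY × box K → Y × box (K + R) := fun x =>
    (⟨t x.1, (hE _ x.1.2).2⟩, ⟨x.2 + k x.1, m2 _ _ x.2.2⟩)
  let f' : Y × box (K + R) → ℝ × ℝ := fun x => f x.1 + sh x.2
  let c' : EY × box K → C(unitInterval, ℝ × ℝ) := fun x => c x.1 + ContinuousMap.const _ (sh x.2)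
  have hc' : ∀ x τ, c' x τ = c x.1 τ + sh x.2 := fun _ _ => rfl
  have hloop : ∀ x, s' x ≠ t' x := fun x e =>
    h.loop x.1 (congrArg (fun y : Y × box (K + R) => (y.1 : V)) e)
  have hsimple : ∀ x x', s(s' x, t' x) = s(s' x', t' x') → x = x' := by
    rintro ⟨e, a⟩ ⟨e', a'⟩ hx
    have he : e = e' := Subtype.ext (h.simple _ _ (by
      have := congrArg (Sym2.map fun y : Y × box (K + R) => (y.1 : V)) hx
      simpa only [Sym2.map_mk] using this))
    subst he
    rcases Sym2.eq_iff.1 hx with ⟨h1, _⟩ | ⟨h1, _⟩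
    · exact Prod.ext rfl
        (Subtype.ext (congrArg (fun y : Y × box (K + R) => (y.2 : ℤ × ℤ)) h1))
    · exact absurd (congrArg (fun y : Y × box (K + R) => (y.1 : V)) h1) (h.loop e)
  have hf' : Function.Injective f' := by
    rintro ⟨u, a⟩ ⟨v, b⟩ e
    obtain ⟨h1, h2⟩ := h.hf _ _ _ (sh_sub e)
    exact Prod.ext (Subtype.ext h1) (Subtype.ext (sub_eq_zero.1 h2).symm)
  obtain ⟨F, l, r, hd⟩ := MP_8972a1_co.dual_of_drawing s' t' hloop hsimple f' hf' c'
    (fun x => by rw [hc', h.h0]) (fun x => by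
      rw [hc', h.h1]
      change _ = f (t x.1) + sh (x.2 + k x.1)
      rw [sh_add]
      abel)
    (fun x τ τ' e => (h.hinj _ _ _ _ (sh_sub e)).1) (by
      rintro ⟨e, a⟩ ⟨e', a'⟩ hne τ τ' hx
      by_cases he : e = e'
      · subst he
        have ha : a = a' := Subtype.ext (sub_eq_zero.1 (h.hinj _ _ _ _ (sh_sub hx)).2).symm
        exact absurd (by rw [ha]) hne
      · exact h.hcross _ _ (fun e0 => he (Subtype.ext e0)) _ _ _ (sh_sub hx))
  obtain ⟨y, hy⟩ := hY
  have : Nonempty (Y × box (K + R)) := ⟨(⟨y, hy⟩, ⟨0, mem_box.2 (by simp; positivity)⟩)⟩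
  have hc := MP_8972a1_co.count_of_dual s' t' l r hd 3
    (MP_8972a1_co.three_le_support s' t' hloop hsimple)
  simp only [Fintype.card_prod, Fintype.card_coe, card_box] at hc
  omega

lemma arith {e y R : ℕ}
    (h : ∀ K : ℕ, e * (2 * K + 1) ^ 2 ≤ 3 * (y * (2 * (K + R) + 1) ^ 2)) : e ≤ 3 * y := by
  by_contra hc
  have h1 : 3 * y + 1 ≤ e := by omega
  have h2 := h (12 * y * R * (1 + R))
  set K := 12 * y * R * (1 + R) with hK
  set n := 2 * K + 1 with hn
  have e1 : 2 * (K + R) + 1 = n + 2 * R := by omega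
  rw [e1] at h2
  have h3 : (3 * y + 1) * n ^ 2 ≤ e * n ^ 2 := Nat.mul_le_mul_right _ h1
  have h4 : n ^ 2 ≤ 12 * y * R * n + 12 * y * R * R := by nlinarith
  have h5 : 12 * y * R * R ≤ 12 * y * R * R * n := Nat.le_mul_of_pos_right _ (by omega)
  have h6 : n * n ≤ K * n := by nlinarith
  have h7 : n ≤ K := Nat.le_of_mul_le_mul_right h6 (by omega)
  omega

lemma dsum_le {V E : Type} [Fintype E] [DecidableEq V] {G : SimpleGraph V} {s t : E → V}
    (h : Lists G s t) (Y : Finset V) :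
    dsum G Y ≤ 2 * (univ.filter fun e => s e ∈ Y ∧ t e ∈ Y).card := by
  classical
  set EY := univ.filter fun e => s e ∈ Y ∧ t e ∈ Y with hEY
  have h1 : EY.card = ∑ v ∈ Y, (EY.filter fun e => s e = v).card :=
    card_eq_sum_card_fiberwise fun e he => (mem_filter.1 he).2.1
  have h2 : EY.card = ∑ v ∈ Y, (EY.filter fun e => t e = v).card :=
    card_eq_sum_card_fiberwise fun e he => (mem_filter.1 he).2.2
  rw [two_mul]
  nth_rewrite 1 [h1]
  rw [h2, ← sum_add_distrib, dsum]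
  refine sum_le_sum fun v hv => ?_
  refine (card_le_card (t := (EY.filter fun e => s e = v).image t ∪
    (EY.filter fun e => t e = v).image s) fun u hu => ?_).trans
    ((card_union_le _ _).trans (add_le_add card_image_le card_image_le))
  rw [nb, mem_filter] at hu
  obtain ⟨e, he⟩ := (h v u).1 hu.2
  rcases Sym2.eq_iff.1 he with ⟨a, b⟩ | ⟨a, b⟩
  · exact mem_union_left _ (mem_image.2 ⟨e, mem_filter.2
      ⟨mem_filter.2 ⟨mem_univ _, a ▸ hv, b ▸ hu.1⟩, a⟩, b⟩)
  · exact mem_union_right _ (mem_image.2 ⟨e, mem_filter.2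
      ⟨mem_filter.2 ⟨mem_univ _, a ▸ hu.1, b ▸ hv⟩, b⟩, a⟩)

end PkEuler

theorem pkg_Euler : S_Euler := by
  classical
  intro V _ G m s t f c k hL h Y
  rcases Y.eq_empty_or_nonempty with rfl | hY
  · simp [dsum]
  obtain ⟨R, hR⟩ : ∃ R : ℕ, ∀ e, k e ∈ PkEuler.box R := by
    refine ⟨∑ e, ((k e).1.natAbs + (k e).2.natAbs), fun e => PkEuler.mem_box.2 ?_⟩
    have := single_le_sum (f := fun e => (k e).1.natAbs + (k e).2.natAbs)
      (fun _ _ => Nat.zero_le _) (mem_univ e)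
    rw [Int.abs_eq_natAbs, Int.abs_eq_natAbs]
    constructor <;> exact Int.ofNat_le.2 (by omega)
  have h1 := PkEuler.arith (PkEuler.count h Y hY (univ.filter fun e => s e ∈ Y ∧ t e ∈ Y)
    (fun e he => (mem_filter.1 he).2) R hR)
  have h2 := PkEuler.dsum_le hL Y
  omega

end Pool.Agent.P.MP_08fd93_co
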