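import Pool.Agent.P.MP_08fd93_co.StA

/-! Package Fin for MP_08fd93_co: the final assembly of result A. -/

set_option autoImplicit false

namespace Pool.Agent.P.MP_08fd93_co

namespace PkFin

theorem long_swap {J : Type} {Γ : SimpleGraph (J × (ℤ × ℤ))} {l : ℤ → J × (ℤ × ℤ)} {s : ℤ × ℤ}
    {q a b : J × (ℤ × ℤ)} {P : Set (J × (ℤ × ℤ))} (h : Long Γ l s q a b P) :
    Long Γ l s q b a P where
  rung := by rw [Set.pair_comm b a]; exact h.rung
  hq := h.hq
  ha := h.hb
  hb := h.ha
  ab := h.ab.symm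
  conn := h.conn
  pq := h.pq
  pa := h.pb
  pb := h.pa
  far := h.far
  le2 := h.le2
  qab := by rw [Set.pair_comm b a]; exact h.qab

theorem colour {J : Type} [Fintype J] (H : SimpleGraph J) (hI : S_LemI) (hJ : S_LemJ)
    (hD : Dec H) : ∃ col : J → Fin 4,
      (∀ x y, H.Adj x y → col x = 0 → col y ≠ 0) ∧
      (∀ x a b, H.Adj x a → H.Adj x b → col a = col x → col b = col x →
        (col x = 1 ∨ col x = 2) → a = b) ∧
      (∀ x a b c, H.Adj x a → H.Adj x b → H.Adj x c → col a = col x → col b = col x →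
        col c = col x → col x = 3 → a = b ∨ a = c ∨ b = c) := by
  classical
  obtain ⟨X, I, hX, hind, hsum⟩ := hI J H hD
  obtain ⟨c, hc⟩ := hJ J H (Finset.univ.filter fun x => x ∉ X ∪ I) (by
    intro Y hY
    apply hsum
    rw [Set.disjoint_left]
    intro y hy
    exact (Finset.mem_filter.1 (hY hy)).2)
  let col : J → Fin 4 := fun x => if x ∈ X then 3 else if x ∈ I then 0 else if c x then 1 else 2
  have h3 : ∀ x, col x = 3 → x ∈ X := by
    intro x hx
    by_contra hn
    simp only [col, if_neg hn] at hx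
    split_ifs at hx <;> exact absurd hx (by decide)
  have h0 : ∀ x, col x = 0 → x ∈ I := by
    intro x hx
    by_contra hn
    simp only [col, if_neg hn] at hx
    split_ifs at hx <;> exact absurd hx (by decide)
  have h1 : ∀ x, col x = 1 → x ∉ X ∪ I ∧ c x = true := by
    intro x hx
    simp only [col] at hx
    split_ifs at hx with a b d
    · exact absurd hx (by decide)
    · exact absurd hx (by decide)
    · exact ⟨fun h => h.elim a b, d⟩
    · exact absurd hx (by decide)
  have h2 : ∀ x, col x = 2 → x ∉ X ∪ I ∧ c x = false := by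
    intro x hx
    simp only [col] at hx
    split_ifs at hx with a b d
    · exact absurd hx (by decide)
    · exact absurd hx (by decide)
    · exact absurd hx (by decide)
    · exact ⟨fun h => h.elim a b, by simpa using d⟩
  have hm : ∀ x, x ∉ X ∪ I → x ∈ Finset.univ.filter fun x => x ∉ X ∪ I := fun x hx =>
    Finset.mem_filter.2 ⟨Finset.mem_univ _, hx⟩
  refine ⟨col, ?_, ?_, ?_⟩
  · intro x y hxy hx hy
    exact hind x (h0 x hx) y (h0 y hy) hxy
  · intro x a b ha hb hca hcb hx
    rcases hx with hx | hx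
    · obtain ⟨p1, p2⟩ := h1 x hx
      obtain ⟨q1, q2⟩ := h1 a (hca.trans hx)
      obtain ⟨r1, r2⟩ := h1 b (hcb.trans hx)
      exact hc x (hm x p1) a (hm a q1) b (hm b r1) ha hb (q2.trans p2.symm) (r2.trans p2.symm)
    · obtain ⟨p1, p2⟩ := h2 x hx
      obtain ⟨q1, q2⟩ := h2 a (hca.trans hx)
      obtain ⟨r1, r2⟩ := h2 b (hcb.trans hx)
      exact hc x (hm x p1) a (hm a q1) b (hm b r1) ha hb (q2.trans p2.symm) (r2.trans p2.symm)
  · intro x a b d ha hb hd hca hcb hcd hx
    exact hX x (h3 x hx) a (h3 a (hca.trans hx)) b (h3 b (hcb.trans hx)) d (h3 d (hcd.trans hx))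
      ha hb hd

end PkFin

theorem pkg_Fin : S_Fin := by
  intro hBase hLine hStep hRung hSides hAS hAL hI hJ V _ G hT
  obtain ⟨J, _, Γ, hne, hgood, ι, hadj, hinj⟩ := hBase V G hT
  obtain ⟨l, N, g, hL⟩ := hLine J Γ hne hgood
  obtain ⟨s, hS⟩ := hStep J Γ l N g hgood hL
  have hD : Dec (Quo Γ) := by
    rcases hRung J Γ l N g s hgood hL hS with ⟨q, q', hR, hq, hq', hqq⟩ | ⟨q, a, b, P, hLong⟩
    · exact hAS J Γ l N g s q q' hgood hL hS hR hq hq' hqq
    · rcases hSides J Γ l N g s q a b P hgood hL hS hLong with h | h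
      · exact hAL J Γ l N g s q a b P hgood hL hS hLong h
      · exact hAL J Γ l N g s q b a P hgood hL hS (PkFin.long_swap hLong) h
  obtain ⟨col, c0, c12, c3⟩ := PkFin.colour (Quo Γ) hI hJ hD
  refine ⟨fun v => col (ι v), fun v => ?_⟩
  have hi : ∀ a b, G.Adj v a → G.Adj v b → ι a = ι b → a = b := fun a b ha hb h =>
    hinj a b v v ha.symm hb.symm h
  have one : col (ι v) = 1 ∨ col (ι v) = 2 →
      {u | G.Adj v u ∧ col (ι u) = col (ι v)}.ncard ≤ 1 := by
    intro hx
    rw [Set.ncard_le_one_iff (Set.toFinite _)]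
    intro a b ha hb
    exact hi a b ha.1 hb.1 (c12 (ι v) (ι a) (ι b) (hadj _ _ ha.1) (hadj _ _ hb.1) ha.2 hb.2 hx)
  have hcases : col (ι v) = 0 ∨ col (ι v) = 1 ∨ col (ι v) = 2 ∨ col (ι v) = 3 := by
    generalize col (ι v) = z
    revert z
    decide
  show {u | G.Adj v u ∧ col (ι u) = col (ι v)}.ncard ≤ (![0, 1, 1, 2] : Fin 4 → ℕ) (col (ι v))
  rcases hcases with h | h | h | h
  · have : {u | G.Adj v u ∧ col (ι u) = col (ι v)} = ∅ := by
      rw [Set.eq_empty_iff_forall_notMem]
      intro u hu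
      exact c0 (ι v) (ι u) (hadj _ _ hu.1) h (hu.2.trans h)
    rw [this]
    simp
  · have := one (Or.inl h)
    rw [h] at this ⊢
    simpa using this
  · have := one (Or.inr h)
    rw [h] at this ⊢
    simpa using this
  · have : {u | G.Adj v u ∧ col (ι u) = col (ι v)}.ncard ≤ 2 := by
      by_contra hn
      obtain ⟨a, ha, b, hb, d, hd, hab, had, hbd⟩ :=
        (Set.two_lt_ncard (Set.toFinite _)).1 (not_le.1 hn)
      rcases c3 (ι v) (ι a) (ι b) (ι d) (hadj _ _ ha.1) (hadj _ _ hb.1) (hadj _ _ hd.1)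
        ha.2 hb.2 hd.2 h with e | e | e
      · exact hab (hi _ _ ha.1 hb.1 e)
      · exact had (hi _ _ ha.1 hd.1 e)
      · exact hbd (hi _ _ hb.1 hd.1 e)
    rw [h] at this ⊢
    simpa using this


end Pool.Agent.P.MP_08fd93_co
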