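import Pool.Agent.P.MP_08fd93_co.StB
import Pool.Agent.P.MP_8972a1_co.KFive

/-! Package TM: the triangular grid has no `K₅` and no `K₃,₃` model. -/

set_option autoImplicit false

namespace Pool.Agent.P.MP_08fd93_co

open Pool.Agent.P.MP_8972a1_co (GE gtgt gadj IsCyc dual_of_minor count_of_dual'
  three_le_support four_le_support gadj_symm)

namespace PkTM

/-- Walks along `r` inside `A`. -/
def RT {α : Type} (r : α → α → Prop) (A : Set α) : α → α → Prop :=
  Relation.ReflTransGen fun a b => a ∈ A ∧ b ∈ A ∧ r a b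

lemma RT.mono {α : Type} {r : α → α → Prop} {A B : Set α} (hAB : A ⊆ B) {a b : α}
    (h : RT r A a b) : RT r B a b := by
  induction h with
  | refl => exact Relation.ReflTransGen.refl
  | tail _ k ih => exact Relation.ReflTransGen.tail ih ⟨hAB k.1, hAB k.2.1, k.2.2⟩

lemma shrink_one {α : Type} [DecidableEq α] (r : α → α → Prop) (A : Set α) (ρ : α)
    (hρ : ρ ∈ A) {q : α} (h : RT r A ρ q) :
    ∃ F : Finset α, (↑F : Set α) ⊆ A ∧ ρ ∈ F ∧ q ∈ F ∧ ∀ x ∈ F, RT r (↑F : Set α) ρ x := by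
  induction h with
  | refl =>
    refine ⟨{ρ}, by simpa using hρ, by simp, by simp, ?_⟩
    intro x hx
    rw [Finset.mem_singleton.1 hx]
    exact Relation.ReflTransGen.refl
  | @tail b c _ k ih =>
    obtain ⟨F, h1, h2, h3, h4⟩ := ih
    have hsub : (↑F : Set α) ⊆ ↑(insert c F) := by
      intro x hx
      exact Finset.mem_coe.2 (Finset.mem_insert_of_mem hx)
    refine ⟨insert c F, ?_, Finset.mem_insert_of_mem h2, Finset.mem_insert_self _ _, ?_⟩
    · intro x hx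
      rcases Finset.mem_insert.1 hx with rfl | hx
      · exact k.2.1
      · exact h1 hx
    · intro x hx
      rcases Finset.mem_insert.1 hx with rfl | hx
      · exact Relation.ReflTransGen.tail ((h4 b h3).mono hsub)
          ⟨hsub h3, Finset.mem_coe.2 (Finset.mem_insert_self _ _), k.2.2⟩
      · exact (h4 x hx).mono hsub

lemma shrink {α : Type} [DecidableEq α] (r : α → α → Prop) (A : Set α) (ρ : α)
    (hρ : ρ ∈ A) (T : Finset α) (h : ∀ q ∈ T, RT r A ρ q) :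
    ∃ F : Finset α, (↑F : Set α) ⊆ A ∧ T ⊆ F ∧ ∀ x ∈ F, RT r (↑F : Set α) ρ x := by
  induction T using Finset.induction_on with
  | empty => exact ⟨∅, by simp, by simp, by simp⟩
  | insert q T _ ih =>
    obtain ⟨F, h1, h2, h3⟩ := ih fun x hx => h x (Finset.mem_insert_of_mem hx)
    obtain ⟨F', k1, _, k3, k4⟩ := shrink_one r A ρ hρ (h q (Finset.mem_insert_self _ _))
    refine ⟨F ∪ F', ?_, ?_, ?_⟩
    · rw [Finset.coe_union]
      exact Set.union_subset h1 k1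
    · intro x hx
      rcases Finset.mem_insert.1 hx with rfl | hx
      · exact Finset.mem_union_right _ k3
      · exact Finset.mem_union_left _ (h2 hx)
    · intro x hx
      rw [Finset.coe_union]
      rcases Finset.mem_union.1 hx with hx | hx
      · exact (h3 x hx).mono Set.subset_union_left
      · exact (k4 x hx).mono Set.subset_union_right

/-- The domino map from the square grid to the triangular grid. -/
def dom (q : ℤ × ℤ) : ℤ × ℤ := ((q.1 + q.2) / 2, q.2)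

lemma gadj_h (x y : ℤ) : gadj (x, y) (x + 1, y) :=
  ⟨((x, y), false), Or.inl ⟨rfl, rfl⟩⟩

lemma gadj_v (x y : ℤ) : gadj (x, y) (x, y + 1) :=
  ⟨((x, y), true), Or.inl ⟨rfl, rfl⟩⟩

lemma fibre {q q' : ℤ × ℤ} (h : dom q = dom q') : q = q' ∨ gadj q q' := by
  obtain ⟨x, y⟩ := q
  obtain ⟨x', y'⟩ := q'
  simp only [dom, Prod.mk.injEq] at h
  obtain ⟨h1, rfl⟩ := h
  have : x' = x ∨ x' = x + 1 ∨ x = x' + 1 := by omega
  rcases this with rfl | rfl | rfl
  · exact Or.inl rfl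
  · exact Or.inr (gadj_h _ _)
  · exact Or.inr (gadj_symm (gadj_h _ _))

lemma lift_step {a b : ℤ × ℤ}
    (h : b = a + (1, 0) ∨ b = a + (0, 1) ∨ b = a + (1, 1)) :
    ∃ q q', dom q = a ∧ dom q' = b ∧ gadj q q' := by
  obtain ⟨i, j⟩ := a
  rcases h with rfl | rfl | rfl
  · refine ⟨(2 * i - j + 1, j), (2 * i - j + 1 + 1, j), ?_, ?_, gadj_h _ _⟩
    · simp only [dom, Prod.mk.injEq, and_true]; omega
    · simp only [dom, Prod.mk_add_mk, Prod.mk.injEq]; omega
  · refine ⟨(2 * i - j, j), (2 * i - j, j + 1), ?_, ?_, gadj_v _ _⟩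
    · simp only [dom, Prod.mk.injEq, and_true]; omega
    · simp only [dom, Prod.mk_add_mk, Prod.mk.injEq, and_true]; omega
  · refine ⟨(2 * i - j + 1, j), (2 * i - j + 1, j + 1), ?_, ?_, gadj_v _ _⟩
    · simp only [dom, Prod.mk.injEq, and_true]; omega
    · simp only [dom, Prod.mk_add_mk, Prod.mk.injEq, and_true]; omega

lemma lift_adj {a b : ℤ × ℤ} (h : TG.Adj a b) :
    ∃ q q', dom q = a ∧ dom q' = b ∧ gadj q q' := by
  rw [TG, SimpleGraph.fromRel_adj] at h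
  rcases h.2 with h | h
  · exact lift_step h
  · obtain ⟨q, q', h1, h2, h3⟩ := lift_step h
    exact ⟨q', q, h2, h1, gadj_symm h3⟩

lemma fibre_RT {X : Set (ℤ × ℤ)} {q q' : ℤ × ℤ} (hq : dom q ∈ X) (h : dom q = dom q') :
    RT gadj (dom ⁻¹' X) q q' := by
  rcases fibre h with rfl | k
  · exact Relation.ReflTransGen.refl
  · exact Relation.ReflTransGen.single ⟨hq, show dom q' ∈ X from h ▸ hq, k⟩

lemma lift_conn {X : Set (ℤ × ℤ)} {q : ℤ × ℤ} (hq : dom q ∈ X) {b : ℤ × ℤ}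
    (h : Conn TG X (dom q) b) : ∀ q', dom q' = b → RT gadj (dom ⁻¹' X) q q' := by
  induction h with
  | refl => exact fun q' h' => fibre_RT hq h'.symm
  | @tail b c _ k ih =>
    intro q' h'
    obtain ⟨x, y, hx, hy, e⟩ := lift_adj k.2.2
    have hyX : dom y ∈ X := hy ▸ k.2.1
    exact Relation.ReflTransGen.trans
      (Relation.ReflTransGen.tail (ih x hx) ⟨show dom x ∈ X from hx ▸ k.1, hyX, e⟩)
      (fibre_RT hyX (hy.trans h'.symm))

/-- A model in the triangular grid has a Whitney dual. -/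
theorem dual_of_model {V E : Type} [Fintype V] [Fintype E] [DecidableEq V] (s t : E → V)
    (hloop : ∀ e, s e ≠ t e) (hsimple : ∀ e e', s(s e, t e) = s(s e', t e') → e = e')
    (X : V → Set (ℤ × ℤ)) (hne : ∀ v, (X v).Nonempty) (hc : ∀ v, IsConn TG (X v))
    (hd : ∀ u v, u ≠ v → Disjoint (X u) (X v)) (ht : ∀ e, Touch TG (X (s e)) (X (t e))) :
    ∃ (F : Type) (l r : E → F), ∀ Z : E → ZMod 2,
      IsCyc s t Z ↔ ∃ S : F → ZMod 2, ∀ e, Z e = S (l e) + S (r e) := by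
  classical
  have h1 : ∀ e, ∃ q q', dom q ∈ X (s e) ∧ dom q' ∈ X (t e) ∧ gadj q q' := by
    intro e
    obtain ⟨a, ha, b, hb, k⟩ := ht e
    obtain ⟨q, q', h1, h2, h3⟩ := lift_adj k
    exact ⟨q, q', h1 ▸ ha, h2 ▸ hb, h3⟩
  choose α β hα hβ hαβ using h1
  have h2 : ∀ v, ∃ p, dom p ∈ X v := by
    intro v
    obtain ⟨⟨i, j⟩, h⟩ := hne v
    refine ⟨(2 * i - j, j), ?_⟩
    have : dom (2 * i - j, j) = (i, j) := by
      simp only [dom, Prod.mk.injEq, and_true]; omega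
    rwa [this]
  choose p hp using h2
  have h3 : ∀ v, ∃ F : Finset (ℤ × ℤ), (↑F : Set (ℤ × ℤ)) ⊆ dom ⁻¹' X v ∧
      ((Finset.univ.image α ∪ Finset.univ.image β).filter fun q => dom q ∈ X v) ⊆ F ∧
      ∀ x ∈ F, RT gadj (↑F : Set (ℤ × ℤ)) (p v) x := by
    intro v
    refine shrink gadj _ (p v) (hp v) _ ?_
    intro q hq
    have hq' := (Finset.mem_filter.1 hq).2
    exact lift_conn (hp v) (hc v _ (hp v) _ hq') q rfl
  choose B hB1 hB2 hB3 using h3
  have hαB : ∀ e, α e ∈ B (s e) := fun e =>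
    hB2 _ (Finset.mem_filter.2 ⟨Finset.mem_union_left _
      (Finset.mem_image_of_mem _ (Finset.mem_univ e)), hα e⟩)
  have hβB : ∀ e, β e ∈ B (t e) := fun e =>
    hB2 _ (Finset.mem_filter.2 ⟨Finset.mem_union_right _
      (Finset.mem_image_of_mem _ (Finset.mem_univ e)), hβ e⟩)
  have h4 : ∀ e, ∃ d : GE, (d.1 ∈ B (s e) ∧ gtgt d ∈ B (t e)) ∨
      (d.1 ∈ B (t e) ∧ gtgt d ∈ B (s e)) := by
    intro e
    obtain ⟨d, h | h⟩ := hαβ e
    · exact ⟨d, Or.inl ⟨h.1 ▸ hαB e, h.2 ▸ hβB e⟩⟩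
    · exact ⟨d, Or.inr ⟨h.1 ▸ hβB e, h.2 ▸ hαB e⟩⟩
  choose ε hε using h4
  refine dual_of_minor s t hloop hsimple B ?_ p (fun v q hq => hB3 v q hq) ε hε
  intro u v q hu hv
  by_contra h
  exact Set.disjoint_left.1 (hd u v h) (hB1 u hu) (hB1 v hv)

lemma touch_symm {W : Type} {H : SimpleGraph W} {A B : Set W} (h : Touch H A B) : Touch H B A := by
  obtain ⟨a, ha, b, hb, k⟩ := h
  exact ⟨b, hb, a, ha, k.symm⟩

theorem noK5 : NoK5 TG Set.univ := by
  classical
  rintro ⟨X, hXc, hX⟩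
  let E5 := {e : Fin 5 × Fin 5 // e.1 < e.2}
  have hl : ∀ e : E5, e.1.1 ≠ e.1.2 := fun e => e.2.ne
  have hs : ∀ e e' : E5, s(e.1.1, e.1.2) = s(e'.1.1, e'.1.2) → e = e' := by
    intro e e' h
    have a := e.2
    have b := e'.2
    rcases Sym2.eq_iff.1 h with ⟨h1, h2⟩ | ⟨h1, h2⟩
    · exact Subtype.ext (Prod.ext h1 h2)
    · rw [h1, h2] at a
      exact (lt_asymm a b).elim
  have hne : ∀ i, (X i).Nonempty := by
    intro i
    obtain ⟨j, hj⟩ := exists_ne i
    obtain ⟨_, _, v, hv, _⟩ := (hX j i hj).2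
    exact ⟨v, hv⟩
  obtain ⟨F, l, r, hdual⟩ := dual_of_model (fun e : E5 => e.1.1) (fun e => e.1.2) hl hs X hne
    (fun i => (hXc i).2) (fun i j h => (hX i j h).1) (fun e => (hX _ _ (hl e)).2)
  have hc : Fintype.card E5 = 10 := by decide
  have := count_of_dual' _ _ l r hdual 3 (by rw [hc]; simp) (three_le_support _ _ hl hs)
  rw [hc] at this
  simp at this

theorem noK33 : NoK33 TG Set.univ := by
  classical
  rintro ⟨X, Y, hc, hd, hXY⟩
  let s : Fin 3 × Fin 3 → Fin 3 ⊕ Fin 3 := fun e => Sum.inl e.1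
  let t : Fin 3 × Fin 3 → Fin 3 ⊕ Fin 3 := fun e => Sum.inr e.2
  have hl : ∀ e, s e ≠ t e := fun e => Sum.inl_ne_inr
  have hs : ∀ e e', s(s e, t e) = s(s e', t e') → e = e' := by
    intro e e' h
    rcases Sym2.eq_iff.1 h with ⟨h1, h2⟩ | ⟨h1, _⟩
    · exact Prod.ext (Sum.inl_injective h1) (Sum.inr_injective h2)
    · exact (Sum.inl_ne_inr h1).elim
  have htri : ∀ e1 e2 e3 u v x, s(s e1, t e1) = s(u, v) → s(s e2, t e2) = s(u, x) →
      s(s e3, t e3) = s(v, x) → False := by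
    intro e1 e2 e3 u v x h1 h2 h3
    rcases Sym2.eq_iff.1 h1 with ⟨rfl, rfl⟩ | ⟨rfl, rfl⟩ <;>
      rcases Sym2.eq_iff.1 h2 with ⟨a, rfl⟩ | ⟨rfl, a⟩ <;>
      rcases Sym2.eq_iff.1 h3 with ⟨b, c⟩ | ⟨b, c⟩ <;>
      simp [s, t] at *
  obtain ⟨F, l, r, hdual⟩ := dual_of_model s t hl hs (Sum.elim X Y)
    (by
      rintro (i | i)
      · obtain ⟨a, ha, _⟩ := (hXY i 0).2
        exact ⟨a, ha⟩
      · obtain ⟨_, _, b, hb, _⟩ := (hXY 0 i).2
        exact ⟨b, hb⟩)
    (by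
      rintro (i | i)
      · exact (hc i).2.1
      · exact (hc i).2.2.2)
    (by
      rintro (i | i) (j | j) h
      · exact (hd i j fun k => h (k ▸ rfl)).1
      · exact (hXY i j).1
      · exact (hXY j i).1.symm
      · exact (hd i j fun k => h (k ▸ rfl)).2)
    (fun e => (hXY e.1 e.2).2)
  have := count_of_dual' _ _ l r hdual 4 (by simp) (four_le_support _ _ hl hs htri)
  simp at this

end PkTM

theorem pkg_TM : S_TM := ⟨PkTM.noK5, PkTM.noK33⟩

end Pool.Agent.P.MP_08fd93_co
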