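import Pool.Agent.P.MP_08fd93_co.StB

/-! Statements of the work packages for MP_08fd93_co, part A: the (0,1,1,2) colouring. -/

set_option autoImplicit false

namespace Pool.Agent.P.MP_08fd93_co

/-- `v` has at most two neighbours in `A`. -/
def Le2 {W : Type} (H : SimpleGraph W) (v : W) (A : Set W) : Prop :=
  ∀ a ∈ A, ∀ b ∈ A, ∀ c ∈ A, H.Adj v a → H.Adj v b → H.Adj v c → a = b ∨ a = c ∨ b = c

/-- `R` is two-degenerate over the roots `S`. -/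
def Deg2 {W : Type} (H : SimpleGraph W) (S R : Set W) : Prop :=
  ∀ T : Set W, T ⊆ R → T.Nonempty → ∃ v ∈ T, Le2 H v (T ∪ S)

/-- Hypotheses of the disc lemma: apex `z`, roots `S`. -/
structure Setup {W : Type} (H : SimpleGraph W) (U : Set W) (z : W) (S : Set W) : Prop where
  fin : U.Finite
  pl : Pl H U
  hz : z ∈ U
  sub : S ⊆ U ∩ Nb H {z}
  card : S.ncard ≤ 2
  clq : H.IsClique S

/-- Conclusion of the disc lemma. -/
def DL {W : Type} (H : SimpleGraph W) (U : Set W) (z : W) (S : Set W) : Prop :=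
  ∃ X : Set W, X ⊆ U \ ({z} ∪ Nb H {z}) ∧ (∀ x ∈ X, Le2 H x X) ∧ Deg2 H S (U \ ({z} ∪ S ∪ X))

/-- Induction hypothesis of the disc lemma. -/
def IH (W : Type) (n : ℕ) : Prop :=
  ∀ (H : SimpleGraph W) (U : Set W) (z : W) (S : Set W), U.ncard < n → Setup H U z S → DL H U z S

/-- No small clique of outer vertices separates. -/
def NoCut {W : Type} (H : SimpleGraph W) (U : Set W) (z : W) : Prop :=
  ∀ K : Set W, K ⊆ U ∩ Nb H {z} → K.ncard ≤ 2 → H.IsClique K → IsConn H (U \ ({z} ∪ K))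

/-- The disc lemma. -/
def S_DL : Prop := ∀ (W : Type) (H : SimpleGraph W) (U : Set W) (z : W) (S : Set W),
  Setup H U z S → DL H U z S

/-- Step a: a separating clique. -/
def DLa : Prop := ∀ (W : Type) (H : SimpleGraph W) (U : Set W) (z : W) (S : Set W),
  Setup H U z S → IH W U.ncard → ¬ NoCut H U z → DL H U z S

/-- Step b: every outer vertex is a root. -/
def DLb : Prop := ∀ (W : Type) (H : SimpleGraph W) (U : Set W) (z : W) (S : Set W),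
  Setup H U z S → IH W U.ncard → NoCut H U z → U ∩ Nb H {z} = S → DL H U z S

/-- An outer vertex has exactly two outer neighbours. -/
def DLo : Prop := ∀ (W : Type) (H : SimpleGraph W) (U : Set W) (z b : W), U.Finite → Pl H U →
  z ∈ U → NoCut H U z → 3 ≤ (U ∩ Nb H {z}).ncard → b ∈ U ∩ Nb H {z} →
  ∃ a c : W, a ≠ c ∧ U ∩ Nb H {z} ∩ Nb H {b} = {a, c} ∧ IsConn H ((U ∩ Nb H {z}) \ {b})

/-- The data cut off at the outer vertex `b`: a path `P` and the two pocket sets. -/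
structure Peel {W : Type} (H : SimpleGraph W) (U : Set W) (z a b c : W) (P Qa Qc : Set W) :
    Prop where
  sub : P ∪ Qa ∪ Qc ⊆ U \ ({z} ∪ Nb H {z})
  d1 : Disjoint P Qa
  d2 : Disjoint P Qc
  d3 : Disjoint Qa Qc
  le2 : ∀ x ∈ P, Le2 H x P
  link : U ∩ Nb H {b} ⊆ {z, a, c} ∪ P ∪ Qa ∪ Qc
  na : U ∩ Nb H Qa ⊆ Qa ∪ P ∪ {a, b}
  nc : U ∩ Nb H Qc ⊆ Qc ∪ P ∪ {c, b}
  c0 : IsConn H ({z, b} ∪ P ∪ Qa ∪ Qc)
  ca : IsConn H (U \ (Qa ∪ {a, b}))
  cc : IsConn H (U \ (Qc ∪ {c, b}))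

/-- Existence of the peeling data. -/
def DLp : Prop := ∀ (W : Type) (H : SimpleGraph W) (U : Set W) (z a b c : W), U.Finite → Pl H U →
  z ∈ U → NoCut H U z → b ∈ U ∩ Nb H {z} → a ≠ c → U ∩ Nb H {z} ∩ Nb H {b} = {a, c} →
  IsConn H ((U ∩ Nb H {z}) \ {b}) → ∃ P Qa Qc, Peel H U z a b c P Qa Qc

/-- Step d: peeling an outer vertex that is not a root. -/
def DLd : Prop := ∀ (W : Type) (H : SimpleGraph W) (U : Set W) (z : W) (S : Set W) (a b c : W)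
  (P Qa Qc : Set W), Setup H U z S → IH W U.ncard → b ∈ (U ∩ Nb H {z}) \ S → a ≠ c →
  U ∩ Nb H {z} ∩ Nb H {b} = {a, c} → Peel H U z a b c P Qa Qc → DL H U z S

/-- Package DLa. -/
def S_DLa : Prop := S_Cut → DLa

/-- Package DLb. -/
def S_DLb : Prop := S_Cut → DLb

/-- Package DLd. -/
def S_DLd : Prop := S_Contr → DLd

/-- Package DLm: the induction. -/
def S_DLm : Prop := DLa → DLb → DLo → DLp → DLd → S_DL

/-- The disc lemma for a finite region `A` of a one-ended graph, in rank form. -/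
def DLC : Prop := ∀ (W : Type) (H : SimpleGraph W) (A S Z : Set W), Pl H Set.univ → OE H →
  A.Finite → S ⊆ A → S.ncard ≤ 2 → H.IsClique S → IsConn H Z → Z.Infinite → Disjoint Z A →
  S ⊆ Nb H Z →
  ∃ (X : Set W) (r : W → ℕ), X ⊆ A \ Nb H Z ∧ (∀ x ∈ X, Le2 H x X) ∧
    ∀ v ∈ A \ (S ∪ X), Le2 H v (S ∪ {u | u ∈ A \ X ∧ r u ≤ r v})

/-- Package DLC. -/
def S_DLC : Prop := S_Contr → S_DL → DLC

/-- A long rung: `q` next to the first line, an induced path `P`, and an edge `a b` next to the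
second line. -/
structure Long {J : Type} (Γ : SimpleGraph (J × (ℤ × ℤ))) (l : ℤ → J × (ℤ × ℤ)) (s : ℤ × ℤ)
    (q a b : J × (ℤ × ℤ)) (P : Set (J × (ℤ × ℤ))) : Prop where
  rung : Rung Γ l s ({q, a, b} ∪ P)
  hq : q ∈ Nb Γ (Ln l 0)
  ha : a ∈ Nb Γ (Ln l s)
  hb : b ∈ Nb Γ (Ln l s)
  ab : Γ.Adj a b
  conn : IsConn Γ P
  pq : q ∈ Nb Γ P
  pa : a ∈ Nb Γ P
  pb : b ∈ Nb Γ P
  far : Disjoint P (Nb Γ (Sat (Ln l 0)))
  le2 : ∀ x ∈ P, Le2 Γ x (Sat P)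
  qab : q ∉ Sat {a, b} ∪ Nb Γ (Sat {a, b})

/-- Package Rung: choice of the rung. -/
def S_Rung : Prop := ∀ (J : Type) (Γ : SimpleGraph (J × (ℤ × ℤ))) (l : ℤ → J × (ℤ × ℤ)) (N : ℕ)
  (g s : ℤ × ℤ), Good Γ → Line Γ l N g → Step Γ l g s →
  (∃ q q', Rung Γ l s {q, q'} ∧ q ∈ Nb Γ (Ln l 0) ∧ q' ∈ Nb Γ (Ln l s) ∧
    (q = q' ∨ Γ.Adj q q')) ∨ ∃ q a b P, Long Γ l s q a b P

/-- Every component next to a long rung sees only four main roots or only the edge `a b`. -/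
def Sides {J : Type} (Γ : SimpleGraph (J × (ℤ × ℤ))) (l : ℤ → J × (ℤ × ℤ)) (g s : ℤ × ℤ)
    (q a b : J × (ℤ × ℤ)) (P : Set (J × (ℤ × ℤ))) : Prop :=
  ∀ E : Set (J × (ℤ × ℤ)), IsConn Γ E → Disjoint E (Sat (Ln l 0 ∪ ({q, a, b} ∪ P))) →
    ∃ t, Nb Γ E ∩ Sat (Ln l 0 ∪ P) ⊆
        Ln l t ∪ Ln l (s + t) ∪ {w | ∃ k : ℤ, ∃ x ∈ P, w = tr (k • g + t) x} ∧
      (Nb Γ E ∩ Sat {q, a, b} ⊆ {tr t q, tr (g + t) q, tr t b, tr (g + t) a} ∨
        Nb Γ E ∩ Sat {q, a, b} ⊆ {tr t a, tr t b})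

/-- The two ends of the edge `a b` look to opposite sides. -/
def SidesEx : Prop := ∀ (J : Type) [Fintype J] (Γ : SimpleGraph (J × (ℤ × ℤ)))
  (l : ℤ → J × (ℤ × ℤ)) (N : ℕ) (g s : ℤ × ℤ) (q a b : J × (ℤ × ℤ)) (P : Set (J × (ℤ × ℤ))),
  Good Γ → Line Γ l N g → Step Γ l g s → Long Γ l s q a b P →
  Sides Γ l g s q a b P ∨ Sides Γ l g s q b a P

/-- Package Sides. -/
def S_Sides : Prop := S_Lad → SidesEx

/-- A decomposition: `X` has degrees at most two, and the rest is two-degenerate once at most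
three edges are removed. -/
def Dec {V : Type} (G : SimpleGraph V) : Prop :=
  ∃ (X : Set V) (F : Finset (Sym2 V)), F.card ≤ 3 ∧ (∀ x ∈ X, Le2 G x X) ∧
    Deg2 (G.deleteEdges (F : Set (Sym2 V))) ∅ Xᶜ

/-- Assembly for a short rung. -/
def AsmS : Prop := ∀ (J : Type) [Fintype J] (Γ : SimpleGraph (J × (ℤ × ℤ)))
  (l : ℤ → J × (ℤ × ℤ)) (N : ℕ) (g s : ℤ × ℤ) (q q' : J × (ℤ × ℤ)),
  Good Γ → Line Γ l N g → Step Γ l g s → Rung Γ l s {q, q'} → q ∈ Nb Γ (Ln l 0) →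
  q' ∈ Nb Γ (Ln l s) → (q = q' ∨ Γ.Adj q q') → Dec (Quo Γ)

/-- Assembly for a long rung. -/
def AsmL : Prop := ∀ (J : Type) [Fintype J] (Γ : SimpleGraph (J × (ℤ × ℤ)))
  (l : ℤ → J × (ℤ × ℤ)) (N : ℕ) (g s : ℤ × ℤ) (q a b : J × (ℤ × ℤ)) (P : Set (J × (ℤ × ℤ))),
  Good Γ → Line Γ l N g → Step Γ l g s → Long Γ l s q a b P → Sides Γ l g s q a b P →
  Dec (Quo Γ)

/-- Package AsmS. -/
def S_AsmS : Prop := S_Lad → S_Rep → DLC → AsmS

/-- Package AsmL. -/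
def S_AsmL : Prop := S_Lad → S_Rep → DLC → AsmL

/-- Package LemI: removal of a greedy independent set. -/
def S_LemI : Prop := ∀ (V : Type) [Fintype V] (G : SimpleGraph V), Dec G →
  ∃ X I : Set V, (∀ x ∈ X, Le2 G x X) ∧ (∀ x ∈ I, ∀ y ∈ I, ¬ G.Adj x y) ∧
    ∀ Y : Finset V, Disjoint (Y : Set V) (X ∪ I) → dsum G Y ≤ 2 * Y.card + 4

/-- Package LemJ: graphs with at most two more edges than vertices everywhere. -/
def S_LemJ : Prop := ∀ (V : Type) (G : SimpleGraph V) (U : Finset V),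
  (∀ Y : Finset V, Y ⊆ U → dsum G Y ≤ 2 * Y.card + 4) →
  ∃ c : V → Bool, ∀ v ∈ U, ∀ a ∈ U, ∀ b ∈ U, G.Adj v a → G.Adj v b → c a = c v → c b = c v → a = b

/-- Result A. -/
def S_A : Prop := ∀ (V : Type) [Fintype V] (G : SimpleGraph V), Tor G →
  ∃ c : V → Fin 4, ∀ v : V,
    {u | G.Adj v u ∧ c u = c v}.ncard ≤ (![0, 1, 1, 2] : Fin 4 → ℕ) (c v)

/-- Package Fin. -/
def S_Fin : Prop := S_Base → S_Line → S_Step → S_Rung → SidesEx → AsmS → AsmL → S_LemI →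
  S_LemJ → S_A

end Pool.Agent.P.MP_08fd93_co
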