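import Pool.Agent.P.MP_08fd93_co.StC

/-! Statements of the work packages for MP_08fd93_co, part B: the periodic plane graph. -/

set_option autoImplicit false

namespace Pool.Agent.P.MP_08fd93_co

/-- Some vertex of `A` is adjacent to some vertex of `B`. -/
def Touch {W : Type} (H : SimpleGraph W) (A B : Set W) : Prop := ∃ a ∈ A, ∃ b ∈ B, H.Adj a b

/-- The vertices with a neighbour in `B`. -/
def Nb {W : Type} (H : SimpleGraph W) (B : Set W) : Set W := {x | ∃ b ∈ B, H.Adj x b}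

/-- No model of the complete graph on five vertices inside `U`. -/
def NoK5 {W : Type} (H : SimpleGraph W) (U : Set W) : Prop :=
  ¬ ∃ X : Fin 5 → Set W, (∀ i, X i ⊆ U ∧ IsConn H (X i)) ∧
    ∀ i j, i ≠ j → Disjoint (X i) (X j) ∧ Touch H (X i) (X j)

/-- No model of the complete bipartite graph with sides of size three inside `U`. -/
def NoK33 {W : Type} (H : SimpleGraph W) (U : Set W) : Prop :=
  ¬ ∃ X Y : Fin 3 → Set W,
    (∀ i, X i ⊆ U ∧ IsConn H (X i) ∧ Y i ⊆ U ∧ IsConn H (Y i)) ∧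
    (∀ i j, i ≠ j → Disjoint (X i) (X j) ∧ Disjoint (Y i) (Y j)) ∧
    ∀ i j, Disjoint (X i) (Y j) ∧ Touch H (X i) (Y j)

/-- Boundary connectivity of plane triangulations. -/
def Tim {W : Type} (H : SimpleGraph W) (U : Set W) : Prop :=
  ∀ A B : Set W, A ⊆ U → B ⊆ U → Disjoint A B → IsConn H A → IsConn H B →
    (B.Finite ∨ (U \ B).Finite) → ∀ x y, x ∈ Nb H B → y ∈ Nb H B →
    x ∈ U \ (A ∪ B) → Conn H (U \ (A ∪ B)) x y → Conn H ((U ∩ Nb H B) \ (A ∪ B)) x y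

/-- The part of `H` on `U` behaves like a triangulation of the sphere or the plane. -/
structure Pl {W : Type} (H : SimpleGraph W) (U : Set W) : Prop where
  conn : IsConn H U
  k5 : NoK5 H U
  k33 : NoK33 H U
  tim : Tim H U

/-- One end: every finite set is avoided by a connected cofinite set. -/
def OE {W : Type} (H : SimpleGraph W) : Prop :=
  ∀ F : Set W, F.Finite → ∃ Z : Set W, IsConn H Z ∧ Zᶜ.Finite ∧ Disjoint Z F

/-- The triangular grid. -/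
def TG : SimpleGraph (ℤ × ℤ) :=
  SimpleGraph.fromRel fun p q => q = p + (1, 0) ∨ q = p + (0, 1) ∨ q = p + (1, 1)

/-- Package TM. -/
def S_TM : Prop := NoK5 TG Set.univ ∧ NoK33 TG Set.univ

/-- Package TS. -/
def S_TS : Prop := Tim TG Set.univ

/-- Package TO. -/
def S_TO : Prop := IsConn TG Set.univ ∧ OE TG

/-- Package Quot: quotients by connected fibres. -/
def S_Quot : Prop := ∀ (W W' : Type) (H : SimpleGraph W) (H' : SimpleGraph W') (U : Set W)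
  (U' : Set W') (π : W → W'), Pl H U → π '' U = U' →
  (∀ x ∈ U', IsConn H (U ∩ π ⁻¹' {x})) →
  (∀ x ∈ U', (U ∩ π ⁻¹' {x}).Finite ∨ (U \ π ⁻¹' {x}).Finite) →
  (∀ x ∈ U', ∀ y ∈ U',
    H'.Adj x y ↔ x ≠ y ∧ ∃ a ∈ U, ∃ b ∈ U, π a = x ∧ π b = y ∧ H.Adj a b) → Pl H' U'

/-- Package Br: periodic branch sets in the grid, with a margin. -/
def S_Br : Prop := ∀ (V : Type) [Fintype V] (m : ℕ) (s t : Fin m → V) (f : V → ℝ × ℝ)
  (c : Fin m → C(unitInterval, ℝ × ℝ)) (k : Fin m → ℤ × ℤ), Lifted s t f c k →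
  ∃ (N : ℕ) (B : V → Set (ℤ × ℤ)), 3 ≤ N ∧ (∀ v, (B v).Finite) ∧ (∀ v, IsConn TG (B v)) ∧
    (∀ e, ∃ p ∈ B (s e), ∃ q ∈ B (t e), TG.Adj p (q + (N : ℤ) • k e)) ∧
    ∀ u v (a : ℤ × ℤ), ∀ p ∈ B u, ∀ q ∈ B v,
      |p.1 - (q + (N : ℤ) • a).1| ≤ 2 → |p.2 - (q + (N : ℤ) • a).2| ≤ 2 →
      (u = v ∧ a = 0) ∨ (p ≠ q + (N : ℤ) • a ∧
        ∃ e, (s e = u ∧ t e = v ∧ k e = a) ∨ (t e = u ∧ s e = v ∧ k e = -a))

/-- Translation of a vertex of the periodic graph. -/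
def tr {J : Type} (a : ℤ × ℤ) (w : J × (ℤ × ℤ)) : J × (ℤ × ℤ) := (w.1, w.2 + a)

/-- A periodic plane triangulation whose quotient is a simple graph. -/
structure Good {J : Type} (Γ : SimpleGraph (J × (ℤ × ℤ))) : Prop where
  pl : Pl Γ Set.univ
  oe : OE Γ
  inv : ∀ a x y, Γ.Adj x y → Γ.Adj (tr a x) (tr a y)
  nl : ∀ x y, Γ.Adj x y → x.1 ≠ y.1
  simp : ∀ x y z, Γ.Adj x y → Γ.Adj x z → y.1 = z.1 → y = z

/-- The quotient graph on the torus. -/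
def Quo {J : Type} (Γ : SimpleGraph (J × (ℤ × ℤ))) : SimpleGraph J :=
  SimpleGraph.fromRel fun u v => ∃ a b, Γ.Adj (u, a) (v, b)

/-- Every toroidal graph sits (apart from isolated vertices) in such a quotient. -/
def S_Base : Prop := ∀ (V : Type) [Fintype V] (G : SimpleGraph V), Tor G →
  ∃ (J : Type) (_ : Fintype J) (Γ : SimpleGraph (J × (ℤ × ℤ))), Nonempty J ∧ Good Γ ∧
    ∃ ι : V → J, (∀ u v, G.Adj u v → (Quo Γ).Adj (ι u) (ι v)) ∧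
      ∀ u v u' v', G.Adj u u' → G.Adj v v' → ι u = ι v → u = v

/-- Package Mk. -/
def S_Mk : Prop := S_Lift → S_Br → S_TM → S_TS → S_TO → S_Quot → S_Base

/-- `H` with the set `Z` contracted to the vertex `z`. -/
def contr {W : Type} (H : SimpleGraph W) (Z : Set W) (z : W) : SimpleGraph W :=
  SimpleGraph.fromRel fun x y => (x ∉ Z ∧ y ∉ Z ∧ H.Adj x y) ∨ (x = z ∧ y ∉ Z ∧ y ∈ Nb H Z)

/-- Contraction of a connected set. -/
def S_Contr : Prop := ∀ (W : Type) (H : SimpleGraph W) (U Z : Set W) (z : W), Pl H U → Z ⊆ U →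
  z ∈ Z → IsConn H Z → (Z.Finite ∨ (U \ Z).Finite) → Pl (contr H Z z) ((U \ Z) ∪ {z})

/-- Removal of a part that is attached along a clique. -/
def S_Cut : Prop := ∀ (W : Type) (H : SimpleGraph W) (U K D : Set W), Pl H U → U.Finite →
  K ⊆ U → H.IsClique K → D ⊆ U → Disjoint D K → U ∩ Nb H D ⊆ D ∪ K → Pl H (U \ D)

/-- Package CC. -/
def S_CC : Prop := S_Quot → S_Contr ∧ S_Cut

/-- A shortest non-contractible closed walk, unrolled to a periodic line. -/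
structure Line {J : Type} (Γ : SimpleGraph (J × (ℤ × ℤ))) (l : ℤ → J × (ℤ × ℤ)) (N : ℕ)
    (g : ℤ × ℤ) : Prop where
  pos : 0 < N
  ne : g ≠ 0
  per : ∀ i, l (i + N) = tr g (l i)
  adj : ∀ i, Γ.Adj (l i) (l (i + 1))
  inj : ∀ i j, (l i).1 = (l j).1 → (N : ℤ) ∣ i - j
  ind : ∀ i j a, Γ.Adj (l i) (tr a (l j)) → tr a (l j) = l (i + 1) ∨ tr a (l j) = l (i - 1)
  min : ∀ (p : ℕ → J × (ℤ × ℤ)) (n : ℕ), (∀ i, i < n → Γ.Adj (p i) (p (i + 1))) →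
    (p n).1 = (p 0).1 → p n ≠ p 0 → N ≤ n

/-- Package Line. -/
def S_Line : Prop := ∀ (J : Type) (Γ : SimpleGraph (J × (ℤ × ℤ))), Nonempty J → Good Γ →
  ∃ l N g, Line Γ l N g

/-- The translate by `a` of the line. -/
def Ln {J : Type} (l : ℤ → J × (ℤ × ℤ)) (a : ℤ × ℤ) : Set (J × (ℤ × ℤ)) :=
  {w | ∃ i, w = tr a (l i)}

/-- All translates of a set. -/
def Sat {J : Type} (A : Set (J × (ℤ × ℤ))) : Set (J × (ℤ × ℤ)) := {w | ∃ x ∈ A, w.1 = x.1}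

/-- At most two disjoint periodic connected sets run along a line. -/
def S_Side : Prop := ∀ (J : Type) (Γ : SimpleGraph (J × (ℤ × ℤ))) (l : ℤ → J × (ℤ × ℤ)) (N : ℕ)
  (g : ℤ × ℤ), Good Γ → Line Γ l N g → ∀ (t : ℤ × ℤ) (j : ℤ), j ≠ 0 →
  ∀ A : Fin 3 → Set (J × (ℤ × ℤ)),
    (∀ i, IsConn Γ (A i) ∧ Disjoint (A i) (Ln l t) ∧ Touch Γ (A i) (Ln l t) ∧
      ∀ w ∈ A i, tr (j • g) w ∈ A i ∧ tr (-(j • g)) w ∈ A i) →
    ¬ ∀ i i', i ≠ i' → Disjoint (A i) (A i')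

/-- The step from a line to the next one. -/
structure Step {J : Type} (Γ : SimpleGraph (J × (ℤ × ℤ))) (l : ℤ → J × (ℤ × ℤ))
    (g s : ℤ × ℤ) : Prop where
  det : g.1 * s.2 - g.2 * s.1 ≠ 0
  ex : ∃ D : Set (J × (ℤ × ℤ)), IsConn Γ D ∧ Disjoint D (Sat (Ln l 0)) ∧
    Touch Γ D (Ln l 0) ∧ Touch Γ D (Ln l s)
  two : ∀ D : Set (J × (ℤ × ℤ)), IsConn Γ D → Disjoint D (Sat (Ln l 0)) →
    ∃ t, Nb Γ D ∩ Sat (Ln l 0) ⊆ Ln l t ∪ Ln l (s + t)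

/-- Existence of the step. -/
def S_Step : Prop := ∀ (J : Type) (Γ : SimpleGraph (J × (ℤ × ℤ))) (l : ℤ → J × (ℤ × ℤ)) (N : ℕ)
  (g : ℤ × ℤ), Good Γ → Line Γ l N g → ∃ s, Step Γ l g s

/-- Package Step (prove the side lemma first). -/
def S_SS : Prop := S_Side ∧ S_Step

/-- A rung joins the line to the next line and meets each orbit at most once. -/
structure Rung {J : Type} (Γ : SimpleGraph (J × (ℤ × ℤ))) (l : ℤ → J × (ℤ × ℤ)) (s : ℤ × ℤ)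
    (R : Set (J × (ℤ × ℤ))) : Prop where
  conn : IsConn Γ R
  disj : Disjoint R (Sat (Ln l 0))
  t0 : Touch Γ R (Ln l 0)
  t1 : Touch Γ R (Ln l s)
  inj : ∀ x ∈ R, ∀ y ∈ R, x.1 = y.1 → x = y

/-- The ladder lemma. -/
def S_Lad : Prop := ∀ (J : Type) [Fintype J] (Γ : SimpleGraph (J × (ℤ × ℤ)))
  (l : ℤ → J × (ℤ × ℤ)) (N : ℕ) (g s : ℤ × ℤ) (R : Set (J × (ℤ × ℤ))),
  Good Γ → Line Γ l N g → Step Γ l g s → Rung Γ l s R →
  ∀ E : Set (J × (ℤ × ℤ)), IsConn Γ E → Disjoint E (Sat (Ln l 0 ∪ R)) →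
    E.Finite ∧ ∃ t, Nb Γ E ∩ Sat (Ln l 0 ∪ R) ⊆
      Ln l t ∪ Ln l (s + t) ∪ tr t '' R ∪ tr (g + t) '' R

/-- Package Lad. -/
def S_Ladder : Prop := S_Side → S_Lad

/-- Package Rep: a fundamental domain made of whole components with a prescribed property. -/
def S_Rep : Prop := ∀ (J : Type) (Γ : SimpleGraph (J × (ℤ × ℤ))) (K : Set J)
  (Φ : J × (ℤ × ℤ) → Prop), Good Γ →
  (∀ E : Set (J × (ℤ × ℤ)), IsConn Γ E → (∀ w ∈ E, w.1 ∉ K) → E.Finite) →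
  (∀ x y, x.1 ∉ K → y.1 ∉ K → Γ.Adj x y → Φ x → Φ y) →
  (∀ x, x.1 ∉ K → ∃ a, Φ (tr a x)) →
  ∃ σ : J → ℤ × ℤ, (∀ u, u ∉ K → Φ (u, σ u)) ∧
    ∀ u y, u ∉ K → y.1 ∉ K → Γ.Adj (u, σ u) y → y.2 = σ y.1

end Pool.Agent.P.MP_08fd93_co
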