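import Mathlib

/-! Statements of the work packages for MP_08fd93_co, part C (weights) and the torus drawing. -/

set_option autoImplicit false

namespace Pool.Agent.P.MP_08fd93_co

open Finset

/-- `G` has a drawing on the torus: distinct points, edges are arcs that meet only at ends. -/
def Tor {V : Type} (G : SimpleGraph V) : Prop :=
  ∃ (p : V → AddCircle (1 : ℝ) × AddCircle (1 : ℝ))
    (γ : ∀ u v : V, G.Adj u v → Path (p u) (p v)),
    Function.Injective p ∧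
    (∀ (u v : V) (h : G.Adj u v), Function.Injective ⇑(γ u v h)) ∧
    (∀ (u v : V) (h : G.Adj u v) (w : V) (t : unitInterval),
      0 < (t : ℝ) → (t : ℝ) < 1 → γ u v h t ≠ p w) ∧
    (∀ (u v : V) (h : G.Adj u v) (u' v' : V) (h' : G.Adj u' v') (s t : unitInterval),
      s(u, v) ≠ s(u', v') → 0 < (s : ℝ) → (s : ℝ) < 1 → 0 < (t : ℝ) → (t : ℝ) < 1 →
      γ u v h s ≠ γ u' v' h' t)

/-- An integer vector as a point of the plane. -/
def sh (a : ℤ × ℤ) : ℝ × ℝ := ((a.1 : ℝ), (a.2 : ℝ))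

/-- A drawing on the torus lifted to the plane; edge `e` runs from `f (s e)` to the translate
by `k e` of `f (t e)`. -/
structure Lifted {V E : Type} (s t : E → V) (f : V → ℝ × ℝ)
    (c : E → C(unitInterval, ℝ × ℝ)) (k : E → ℤ × ℤ) : Prop where
  loop : ∀ e, s e ≠ t e
  simple : ∀ e e', s(s e, t e) = s(s e', t e') → e = e'
  h0 : ∀ e, c e 0 = f (s e)
  h1 : ∀ e, c e 1 = f (t e) + sh (k e)
  hf : ∀ u v a, f u = f v + sh a → u = v ∧ a = 0
  hinj : ∀ e τ τ' a, c e τ = c e τ' + sh a → τ = τ' ∧ a = 0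
  hcross : ∀ e e', e ≠ e' → ∀ τ τ' a, c e τ = c e' τ' + sh a →
    (τ = 0 ∨ τ = 1) ∧ (τ' = 0 ∨ τ' = 1)
  hvert : ∀ e τ v a, c e τ = f v + sh a → τ = 0 ∨ τ = 1

/-- `E` with the end maps `s`, `t` lists the edges of `G`. -/
def Lists {V E : Type} (G : SimpleGraph V) (s t : E → V) : Prop :=
  ∀ u v, G.Adj u v ↔ ∃ e, s(s e, t e) = s(u, v)

/-- Package Lift. -/
def S_Lift : Prop := ∀ (V : Type) [Fintype V] (G : SimpleGraph V), Tor G →
  ∃ (m : ℕ) (s t : Fin m → V) (f : V → ℝ × ℝ) (c : Fin m → C(unitInterval, ℝ × ℝ))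
    (k : Fin m → ℤ × ℤ), Lists G s t ∧ Lifted s t f c k

open Classical in
/-- The neighbours of `v` inside `Y`. -/
noncomputable def nb {V : Type} (G : SimpleGraph V) (Y : Finset V) (v : V) : Finset V :=
  Y.filter (G.Adj v)

/-- Twice the number of edges inside `Y`. -/
noncomputable def dsum {V : Type} (G : SimpleGraph V) (Y : Finset V) : ℕ :=
  ∑ v ∈ Y, (nb G Y v).card

/-- Package Euler. -/
def S_Euler : Prop := ∀ (V : Type) [Fintype V] (G : SimpleGraph V) (m : ℕ) (s t : Fin m → V)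
  (f : V → ℝ × ℝ) (c : Fin m → C(unitInterval, ℝ × ℝ)) (k : Fin m → ℤ × ℤ),
  Lists G s t → Lifted s t f c k → ∀ Y : Finset V, dsum G Y ≤ 6 * Y.card

/-- Walks of `H` that stay inside `A`. -/
def Conn {W : Type} (H : SimpleGraph W) (A : Set W) (a b : W) : Prop :=
  Relation.ReflTransGen (fun x y => x ∈ A ∧ y ∈ A ∧ H.Adj x y) a b

/-- `A` induces a connected (or empty) subgraph. -/
def IsConn {W : Type} (H : SimpleGraph W) (A : Set W) : Prop :=
  ∀ a ∈ A, ∀ b ∈ A, Conn H A a b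

/-- Inside `U` every monochromatic component is a path with at most three vertices. -/
def Good3 {V : Type} (G : SimpleGraph V) (U : Finset V) (c : V → ℕ) : Prop :=
  (∀ v ∈ U, ∀ a ∈ U, ∀ b ∈ U, ∀ d ∈ U, G.Adj v a → G.Adj v b → G.Adj v d →
    c a = c v → c b = c v → c d = c v → a = b ∨ a = d ∨ b = d) ∧
  (∀ u ∈ U, ∀ v ∈ U, ∀ a ∈ U, ∀ b ∈ U, G.Adj u v → G.Adj u a → G.Adj v b →
    c v = c u → c a = c u → c b = c u → a = v ∨ b = u)

/-- The weight of an edge from a vertex of weight `1` to a vertex of weight `x`. -/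
noncomputable def fw (x : ℝ) : ℝ := min (min x 1) (max (max x 1 / 3) (2 * min x 1 / 3))

open Classical in
/-- Package P1: chip-firing dichotomy. -/
def S_P1 : Prop := ∀ (V : Type) (G : SimpleGraph V) (U : Finset V) (φ : ℤ → ℝ) (M : ℤ) (k : ℝ),
  Monotone φ → (∀ d, M ≤ d → φ d = 1) →
  (∃ I : Finset V, I ⊆ U ∧ I.Nonempty ∧ ∃ p : V → ℤ, ∀ v ∈ I,
    ∑ u ∈ nb G I v, φ (p u - p v) + ((nb G (U \ I) v).card : ℝ) < k) ∨
  (∃ p : V → ℤ, ∀ v ∈ U, k ≤ ∑ u ∈ nb G U v, φ (p u - p v + 1))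

/-- Levels of the extremal case. -/
def Levels {V : Type} (G : SimpleGraph V) (U : Finset V) (k : ℕ) (lam : V → ℤ) : Prop :=
  (∀ u ∈ U, ∀ v ∈ U, G.Adj u v → |lam u - lam v| ≤ 1) ∧
  ∀ v ∈ U, ∑ u ∈ nb G U v, (2 + (lam u - lam v)) = 3 * (k : ℤ)

/-- Package P2: the second alternative forces the extremal structure. -/
def S_P2 : Prop := ∀ (V : Type) (G : SimpleGraph V) (U : Finset V) (k : ℕ) (β : ℝ) (p : V → ℤ),
  1 < β → β ^ 2 ≤ 4 / 3 → β ^ (2 * U.card + 1) < 3 → IsConn G (U : Set V) →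
  2 * dsum G U ≤ 3 * k * U.card →
  (∀ v ∈ U, (k : ℝ) ≤ ∑ u ∈ nb G U v, fw (β ^ (p u - p v + 1))) →
  2 * dsum G U = 3 * k * U.card ∧ ∃ lam : V → ℤ, Levels G U k lam

/-- A root and an index function for the extremal case. -/
def Sel {V : Type} (G : SimpleGraph V) (U : Finset V) (lam : V → ℤ) (r : V) (x : V → ℕ) : Prop :=
  r ∈ U ∧ (∀ v ∈ U, x v < U.card) ∧ (∀ v ∈ U, v ≠ r → ∃ u ∈ nb G U v, x u < x v) ∧
  ((∀ u ∈ nb G U r, lam u = lam r) ∨
    ∃ a ∈ nb G U r, lam a = lam r + 1 ∧ ∀ u ∈ nb G U a, x u < x a)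

/-- Package P3. -/
def S_P3 : Prop := ∀ (V : Type) (G : SimpleGraph V) (U : Finset V) (k : ℕ) (lam : V → ℤ),
  U.Nonempty → IsConn G (U : Set V) → Even k → Levels G U k lam → ∃ r x, Sel G U lam r x

open Classical in
/-- Package P4a: extension of a colouring to an island. -/
def S_P4a : Prop := ∀ (V : Type) (G : SimpleGraph V) (U I : Finset V) (k : ℕ) (θ : V → ℝ)
  (L : V → Finset ℕ) (c : V → ℕ), I ⊆ U → (∀ v, 0 < θ v) → (∀ v ∈ I, k ≤ (L v).card) →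
  (∀ v ∈ I, ∑ u ∈ nb G I v, fw (θ u / θ v) + ((nb G (U \ I) v).card : ℝ) < k) →
  Good3 G (U \ I) c →
  ∃ c' : V → ℕ, (∀ v ∈ I, c' v ∈ L v) ∧ (∀ v, v ∉ I → c' v = c v) ∧ Good3 G U c'

/-- Package P4b: the extremal case. -/
def S_P4b : Prop := ∀ (V : Type) (G : SimpleGraph V) (U : Finset V) (k : ℕ) (lam : V → ℤ)
  (r : V) (x : V → ℕ) (L : V → Finset ℕ), 0 < k → Levels G U k lam → Sel G U lam r x →
  (∀ v ∈ U, k ≤ (L v).card) → ∃ c : V → ℕ, (∀ v ∈ U, c v ∈ L v) ∧ Good3 G U c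

/-- Result C for sparse graphs. -/
def S_C : Prop := ∀ (V : Type) (G : SimpleGraph V) (U : Finset V) (k : ℕ), 0 < k →
  (∀ Y : Finset V, Y ⊆ U → Y.Nonempty → 2 * dsum G Y + k % 2 ≤ 3 * k * Y.card) →
  ∀ L : V → Finset ℕ, (∀ v ∈ U, k ≤ (L v).card) →
  ∃ c : V → ℕ, (∀ v ∈ U, c v ∈ L v) ∧ Good3 G U c

/-- Package P5: assembly. -/
def S_P5 : Prop := S_P1 → S_P2 → S_P3 → S_P4a → S_P4b → S_C

end Pool.Agent.P.MP_08fd93_co
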